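import Pool.Agent.ZZ51.Alpha

/-!
# ZZ51/Avg: the average of `{α₀(n)}`, `n ≤ N`

PROOF of `avg_fract`. `∑_{n ≤ N} fract (al0 n) = ∑ al0 n - ∑ ⌊al0 n⌋` (for `n ≥ n₀`, where `al0` is `≥ 0` and
monotone; the terms `n < n₀` contribute at most `n₀`).
(1) `∑_{n₀ ≤ n ≤ N} al0 n ≤ N Λ - (2/log 2 - ε/3) N` (Λ = al0 N): `Λ - al0 n ≥ (2 - 2/log n) log₂(N/n)`
(`al0_diff_ge`), the part `n ≥ N/K` of `∑ 2 log₂(N/n)` is already `≥ (2/log 2 - ε/6) N` for a large constant `K`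
(or: `∑_{n ≤ N} log (N/n) = N log N - log N! ≥ N - O(log N)`, all terms, and `2/log n ≤ small` except for
`n ≤ √N`, which contribute `O(√N log N)`).
(2) `∑_{n₀ ≤ n ≤ N} ⌊al0 n⌋ ≥ ∑_{j=1}^{⌊Λ⌋} #{n₀ ≤ n ≤ N : al0 n ≥ j}`, and with `m_j` the least such `n`
`al0 (m_j - 1) < j` gives `Λ - j < 2 log₂(N/(m_j - 1))`, `m_j ≤ N 2^{-(Λ-j)/2} + 1` (for `j > al0 n₀`), so the sum is at least
`⌊Λ⌋ N - N ∑_{i ≥ 0} 2^{-(θ+i)/2} - O(Λ) = ⌊Λ⌋ N - (2+√2) 2^{-θ/2} N - O(Λ)`, θ = fract Λ,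
as `1/(1 - 2^{-1/2}) = 2 + √2`.
-/

set_option autoImplicit false

open Filter Topology

namespace ZZ51

theorem avg_log_factorial (N : ℕ) (hN : 1 ≤ N) :
    ∑ n ∈ Finset.Icc 1 N, Real.log n ≤ N * Real.log N - N + 1 + Real.log N := by
  induction N, hN using Nat.le_induction with
  | base => simp
  | succ N hN ih =>
    rw [Finset.sum_Icc_succ_top (by omega)]
    have hN0 : (0 : ℝ) < N := by exact_mod_cast hN
    have h1 : (1 : ℝ) - (1 + 1 / (N : ℝ))⁻¹ ≤ Real.log (1 + 1 / (N : ℝ)) :=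
      Real.one_sub_inv_le_log_of_pos (by positivity)
    have h2 : Real.log (1 + 1 / (N : ℝ)) = Real.log ((N : ℝ) + 1) - Real.log N := by
      rw [← Real.log_div (by positivity) hN0.ne']
      congr 1
      field_simp
    have h3 : (1 : ℝ) - (1 + 1 / (N : ℝ))⁻¹ = 1 / ((N : ℝ) + 1) := by
      field_simp
      ring
    rw [h2, h3, div_le_iff₀ (by positivity)] at h1
    push_cast
    nlinarith

theorem avg_sum_log (N : ℕ) (hN : 1 ≤ N) :
    (N : ℝ) - 1 - Real.log N ≤ ∑ n ∈ Finset.Icc 1 N, Real.log ((N : ℝ) / n) := by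
  have h1 : ∑ n ∈ Finset.Icc 1 N, Real.log ((N : ℝ) / n)
      = ∑ n ∈ Finset.Icc 1 N, (Real.log N - Real.log n) := by
    refine Finset.sum_congr rfl fun n hn => ?_
    rw [Finset.mem_Icc] at hn
    rw [Real.log_div (by positivity) (by have := hn.1; positivity)]
  rw [h1, Finset.sum_sub_distrib, Finset.sum_const, Nat.card_Icc]
  have := avg_log_factorial N hN
  simp only [Nat.add_sub_cancel, nsmul_eq_mul]
  linarith

theorem avg_rpow (θ : ℝ) (i : ℕ) :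
    (2 : ℝ) ^ (-(θ + i) / 2) = (2 : ℝ) ^ (-θ / 2) * (Real.sqrt 2 / 2) ^ i := by
  have h1 : (Real.sqrt 2 / 2) = (2 : ℝ) ^ (-(1 : ℝ) / 2) := by
    rw [show (-(1 : ℝ) / 2) = 1 / 2 - 1 by norm_num, Real.rpow_sub (by norm_num), ← Real.sqrt_eq_rpow,
      Real.rpow_one]
  rw [h1, ← Real.rpow_natCast, ← Real.rpow_mul (by norm_num), ← Real.rpow_add (by norm_num)]
  congr 1
  ring

theorem avg_geom (I : ℕ) : ∑ i ∈ Finset.range I, (Real.sqrt 2 / 2) ^ i ≤ 2 + Real.sqrt 2 := by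
  have h0 : Real.sqrt 2 * Real.sqrt 2 = 2 := Real.mul_self_sqrt (by norm_num)
  have h1 : 0 ≤ Real.sqrt 2 := Real.sqrt_nonneg 2
  have h2 : Real.sqrt 2 < 2 := by nlinarith
  have h3 : (Real.sqrt 2 / 2) ≠ 1 := by linarith
  rw [geom_sum_eq h3, div_le_iff_of_neg (by linarith)]
  have h4 : 0 ≤ (Real.sqrt 2 / 2) ^ I := by positivity
  nlinarith

theorem avg_ceil_sum (c I : ℕ) (h : c ≤ I) :
    (c : ℝ) = ∑ i ∈ Finset.range I, if i < c then (1 : ℝ) else 0 := by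
  rw [Finset.sum_ite, Finset.sum_const_zero, add_zero, Finset.sum_const, nsmul_eq_mul, mul_one]
  congr 1
  have : (Finset.range I).filter (fun i => i < c) = Finset.range c := by
    ext i; simp only [Finset.mem_filter, Finset.mem_range]; omega
  rw [this, Finset.card_range]

theorem avg_count (N : ℕ) (θ : ℝ) (hθ : 0 ≤ θ) :
    ∑ n ∈ Finset.Icc 1 N, ((⌈2 * Real.logb 2 ((N : ℝ) / n) - θ⌉₊ : ℕ) : ℝ)
      ≤ N * ((2 + Real.sqrt 2) * (2 : ℝ) ^ (-θ / 2)) := by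
  set I := ⌈2 * Real.logb 2 (N : ℝ)⌉₊ with hI
  have h1 : ∀ n ∈ Finset.Icc 1 N, ((⌈2 * Real.logb 2 ((N : ℝ) / n) - θ⌉₊ : ℕ) : ℝ)
      = ∑ i ∈ Finset.range I, if i < ⌈2 * Real.logb 2 ((N : ℝ) / n) - θ⌉₊ then (1 : ℝ) else 0 := by
    intro n hn
    rw [Finset.mem_Icc] at hn
    have hn1 : (1 : ℝ) ≤ n := by exact_mod_cast hn.1
    have hN1 : (1 : ℝ) ≤ N := by exact_mod_cast hn.1.trans hn.2
    apply avg_ceil_sum
    apply Nat.ceil_mono
    have : Real.logb 2 ((N : ℝ) / n) ≤ Real.logb 2 (N : ℝ) := by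
      apply Real.logb_le_logb_of_le (by norm_num) (by positivity)
      exact div_le_self (by linarith) hn1
    linarith
  rw [Finset.sum_congr rfl h1, Finset.sum_comm]
  have h2 : ∀ i ∈ Finset.range I,
      (∑ n ∈ Finset.Icc 1 N, if i < ⌈2 * Real.logb 2 ((N : ℝ) / n) - θ⌉₊ then (1 : ℝ) else 0)
        ≤ (N * (2 : ℝ) ^ (-θ / 2)) * (Real.sqrt 2 / 2) ^ i := by
    intro i _
    rw [Finset.sum_ite, Finset.sum_const_zero, add_zero, Finset.sum_const, nsmul_eq_mul, mul_one]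
    have h3 : (Finset.Icc 1 N).filter (fun n : ℕ => i < ⌈2 * Real.logb 2 ((N : ℝ) / n) - θ⌉₊)
        ⊆ Finset.Icc 1 ⌊(N : ℝ) * (2 : ℝ) ^ (-(θ + i) / 2)⌋₊ := by
      intro n hn
      rw [Finset.mem_filter, Finset.mem_Icc, Nat.lt_ceil] at hn
      obtain ⟨⟨hn1, hn2⟩, hn3⟩ := hn
      rw [Finset.mem_Icc]
      refine ⟨hn1, Nat.le_floor ?_⟩
      have hn1' : (0 : ℝ) < n := by exact_mod_cast hn1
      have hN1 : (0 : ℝ) < N := by exact_mod_cast (lt_of_lt_of_le hn1 hn2)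
      have h4 : (θ + i) / 2 < Real.logb 2 ((N : ℝ) / n) := by linarith
      rw [Real.lt_logb_iff_rpow_lt (by norm_num) (by positivity), lt_div_iff₀ hn1'] at h4
      have h5 : (2 : ℝ) ^ (-(θ + i) / 2) = ((2 : ℝ) ^ ((θ + i) / 2))⁻¹ := by
        rw [← Real.rpow_neg (by norm_num)]
        congr 1
        ring
      rw [h5, ← div_eq_mul_inv, le_div_iff₀ (by positivity)]
      linarith
    have h6 : ((((Finset.Icc 1 N).filter
        (fun n : ℕ => i < ⌈2 * Real.logb 2 ((N : ℝ) / n) - θ⌉₊)).card : ℕ) : ℝ)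
          ≤ (⌊(N : ℝ) * (2 : ℝ) ^ (-(θ + i) / 2)⌋₊ : ℝ) := by
      have := Finset.card_le_card h3
      rw [Nat.card_Icc, Nat.add_sub_cancel] at this
      exact_mod_cast this
    refine h6.trans ((Nat.floor_le (by positivity)).trans (le_of_eq ?_))
    rw [avg_rpow, mul_assoc]
  refine (Finset.sum_le_sum h2).trans ?_
  rw [← Finset.mul_sum]
  have h7 := mul_le_mul_of_nonneg_left (avg_geom I)
    (show 0 ≤ (N : ℝ) * (2 : ℝ) ^ (-θ / 2) by positivity)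
  refine h7.trans (le_of_eq (by ring))

/-- `fract (Λ - d)` -/
theorem avg_fract_sub (Λ d D : ℝ) (hD : d ≤ D) :
    Int.fract (Λ - d) ≤ Int.fract Λ - d + (⌈D - Int.fract Λ⌉₊ : ℝ) := by
  have h1 := Int.fract_lt_one Λ
  have h2 := Int.fract_nonneg Λ
  have h3 : Λ - d - (⌊Λ⌋ : ℝ) + ⌈d - Int.fract Λ⌉₊ ≥ Int.fract (Λ - d) := by
    have h4 : (⌊Λ⌋ : ℤ) - (⌈d - Int.fract Λ⌉₊ : ℤ) ≤ ⌊Λ - d⌋ := by
      rw [Int.le_floor]
      push_cast
      have h5 := Nat.le_ceil (d - Int.fract Λ)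
      have h6 := Int.floor_add_fract Λ
      linarith
    have h7 : ((⌊Λ⌋ : ℤ) : ℝ) - ((⌈d - Int.fract Λ⌉₊ : ℕ) : ℝ) ≤ ((⌊Λ - d⌋ : ℤ) : ℝ) := by
      exact_mod_cast h4
    have h8 := Int.floor_add_fract (Λ - d)
    linarith
  have h9 : ((⌈d - Int.fract Λ⌉₊ : ℕ) : ℝ) ≤ ((⌈D - Int.fract Λ⌉₊ : ℕ) : ℝ) := by
    exact_mod_cast Nat.ceil_mono (by linarith)
  have h10 := Int.floor_add_fract Λ
  linarith

theorem avg_fract (ε : ℝ) (hε : 0 < ε) : ∀ᶠ N : ℕ in atTop,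
    ∑ n ∈ Finset.Icc 1 N, Int.fract (al0 n)
      ≤ N * (Int.fract (al0 N) - 2 / Real.log 2
          + (2 + Real.sqrt 2) * (2 : ℝ) ^ (-(Int.fract (al0 N)) / 2) + ε) := by
  have hl2 : 0 < Real.log 2 := Real.log_pos (by norm_num)
  -- choice of the threshold
  obtain ⟨δ, hδ, hδ2, hδ1⟩ : ∃ δ : ℝ, 0 < δ ∧ δ / Real.log 2 ≤ ε / 2 ∧ δ ≤ 2 := by
    refine ⟨min (ε / 2 * Real.log 2) 2, lt_min (by positivity) (by norm_num), ?_, min_le_right _ _⟩
    rw [div_le_iff₀ hl2]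
    exact min_le_left _ _
  obtain ⟨n₁, hn₁3, hn₁⟩ : ∃ n₁ : ℕ, 3 ≤ n₁ ∧ ∀ n : ℕ, n₁ ≤ n → 2 / Real.log n ≤ δ := by
    have h1 : Tendsto (fun n : ℕ => Real.log (n : ℝ)) atTop atTop :=
      Real.tendsto_log_atTop.comp tendsto_natCast_atTop_atTop
    obtain ⟨a, ha⟩ := eventually_atTop.1 (h1.eventually_ge_atTop (2 / δ))
    refine ⟨max a 3, le_max_right _ _, fun n hn => ?_⟩
    have h2 := ha n ((le_max_left _ _).trans hn)
    have h3 : 0 < Real.log n := lt_of_lt_of_le (by positivity) h2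
    rw [div_le_iff₀ h3]
    rw [div_le_iff₀ hδ] at h2
    linarith
  -- the small terms
  have hsmall : ∀ᶠ N : ℕ in atTop, (n₁ : ℝ) * (1 + 2 / Real.log 2 * Real.log N)
      + 2 / Real.log 2 * (1 + Real.log N) ≤ ε / 2 * N := by
    have h1 : Tendsto (fun N : ℕ => Real.log (N : ℝ) / N) atTop (𝓝 0) := by
      have := (Real.isLittleO_log_id_atTop.tendsto_div_nhds_zero).comp (tendsto_natCast_atTop_atTop (R := ℝ))
      exact this
    have h2 : Tendsto (fun N : ℕ => (1 : ℝ) / N) atTop (𝓝 0) := tendsto_one_div_atTop_nhds_zero_nat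
    have h3 : Tendsto (fun N : ℕ => (n₁ : ℝ) * (1 / (N : ℝ) + 2 / Real.log 2 * (Real.log N / N))
      + 2 / Real.log 2 * (1 / (N : ℝ) + Real.log N / N)) atTop (𝓝 0) := by
      have := ((h2.add (h1.const_mul (2 / Real.log 2))).const_mul (n₁ : ℝ)).add
        ((h2.add h1).const_mul (2 / Real.log 2))
      simpa using this
    filter_upwards [h3.eventually_le_const (show (0 : ℝ) < ε / 2 by positivity), eventually_gt_atTop 0]
      with N hN hN0
    have hN0' : (0 : ℝ) < N := by exact_mod_cast hN0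
    have h4 := mul_le_mul_of_nonneg_right hN hN0'.le
    refine le_trans (le_of_eq ?_) h4
    field_simp
  filter_upwards [hsmall, eventually_ge_atTop n₁] with N hN hNn
  have hN1 : 1 ≤ N := by omega
  have hN0 : (0 : ℝ) < N := by exact_mod_cast hN1
  set θ := Int.fract (al0 N) with hθ
  have hθ0 : 0 ≤ θ := Int.fract_nonneg _
  have hlogN : 0 ≤ Real.log N := Real.log_nonneg (by exact_mod_cast hN1)
  -- pointwise bound
  have hpt : ∀ n ∈ Finset.Icc 1 N, Int.fract (al0 n) ≤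
      (if n < n₁ then 1 + 2 / Real.log 2 * Real.log N else 0)
        + (θ - (2 - δ) / Real.log 2 * Real.log ((N : ℝ) / n)
          + ((⌈2 * Real.logb 2 ((N : ℝ) / n) - θ⌉₊ : ℕ) : ℝ)) := by
    intro n hn
    rw [Finset.mem_Icc] at hn
    have hn1 : (1 : ℝ) ≤ n := by exact_mod_cast hn.1
    have hnN : (n : ℝ) ≤ N := by exact_mod_cast hn.2
    have hlq : 0 ≤ Real.log ((N : ℝ) / n) := Real.log_nonneg (by rw [le_div_iff₀ (by linarith)]; linarith)
    by_cases hlt : n < n₁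
    · rw [if_pos hlt]
      have h1 := Int.fract_lt_one (al0 n)
      have h2 : Real.log ((N : ℝ) / n) ≤ Real.log N :=
        Real.log_le_log (by positivity) (div_le_self hN0.le hn1)
      have h3 : (2 - δ) / Real.log 2 * Real.log ((N : ℝ) / n) ≤ 2 / Real.log 2 * Real.log N := by
        apply mul_le_mul _ h2 hlq (by positivity)
        exact div_le_div_of_nonneg_right (by linarith) hl2.le
      have h4 : (0 : ℝ) ≤ ((⌈2 * Real.logb 2 ((N : ℝ) / n) - θ⌉₊ : ℕ) : ℝ) := Nat.cast_nonneg _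
      linarith
    · rw [if_neg hlt, zero_add]
      push Not at hlt
      have h1 := al0_diff_le n N (by omega) hn.2
      have h2 := al0_diff_ge n N (by omega) hn.2
      have h3 := avg_fract_sub (al0 N) (al0 N - al0 n) (2 * Real.logb 2 ((N : ℝ) / n)) h1
      rw [sub_sub_cancel] at h3
      have h4 : (2 - δ) / Real.log 2 * Real.log ((N : ℝ) / n) ≤ al0 N - al0 n := by
        refine le_trans (le_trans (le_of_eq ?_) (mul_le_mul_of_nonneg_right
          (show 2 - δ ≤ 2 - 2 / Real.log n by linarith [hn₁ n hlt])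
          (show 0 ≤ Real.logb 2 ((N : ℝ) / n) by unfold Real.logb; positivity))) h2
        unfold Real.logb
        ring
      linarith
  refine (Finset.sum_le_sum hpt).trans ?_
  rw [Finset.sum_add_distrib, Finset.sum_add_distrib, Finset.sum_sub_distrib, Finset.sum_const,
    Nat.card_Icc, Nat.add_sub_cancel, nsmul_eq_mul, ← Finset.mul_sum]
  have s1 : ∑ n ∈ Finset.Icc 1 N, (if n < n₁ then 1 + 2 / Real.log 2 * Real.log N else (0 : ℝ))
      ≤ (n₁ : ℝ) * (1 + 2 / Real.log 2 * Real.log N) := by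
    rw [Finset.sum_ite, Finset.sum_const_zero, add_zero, Finset.sum_const, nsmul_eq_mul]
    apply mul_le_mul_of_nonneg_right _ (by positivity)
    have : ((Finset.Icc 1 N).filter (fun n => n < n₁)) ⊆ Finset.range n₁ := by
      intro n hn
      rw [Finset.mem_filter] at hn
      exact Finset.mem_range.2 hn.2
    have := Finset.card_le_card this
    rw [Finset.card_range] at this
    exact_mod_cast this
  have s2 := avg_sum_log N hN1
  have s3 := avg_count N θ hθ0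
  have s4 : (2 - δ) / Real.log 2 * ((N : ℝ) - 1 - Real.log N)
      ≤ (2 - δ) / Real.log 2 * ∑ n ∈ Finset.Icc 1 N, Real.log ((N : ℝ) / n) :=
    mul_le_mul_of_nonneg_left s2 (div_nonneg (by linarith) hl2.le)
  have s5 : 2 / Real.log 2 * N - ε / 2 * N - 2 / Real.log 2 * (1 + Real.log N)
      ≤ (2 - δ) / Real.log 2 * ((N : ℝ) - 1 - Real.log N) := by
    have h1 : (2 - δ) / Real.log 2 * ((N : ℝ) - 1 - Real.log N)
        = 2 / Real.log 2 * N - δ / Real.log 2 * N - (2 - δ) / Real.log 2 * (1 + Real.log N) := by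
      ring
    rw [h1]
    have h2 : δ / Real.log 2 * N ≤ ε / 2 * N := mul_le_mul_of_nonneg_right hδ2 hN0.le
    have h3 : (2 - δ) / Real.log 2 * (1 + Real.log N) ≤ 2 / Real.log 2 * (1 + Real.log N) :=
      mul_le_mul_of_nonneg_right (div_le_div_of_nonneg_right (by linarith) hl2.le) (by linarith)
    linarith
  have s6 : (N : ℝ) * (θ - 2 / Real.log 2 + (2 + Real.sqrt 2) * (2 : ℝ) ^ (-θ / 2) + ε)
      = N * θ - 2 / Real.log 2 * N + N * ((2 + Real.sqrt 2) * (2 : ℝ) ^ (-θ / 2)) + ε / 2 * N + ε / 2 * N := by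
    ring
  rw [s6]
  linarith

/-- numerical form: `avg ≤ 0.529` (convexity of `2^{-θ/2}` on `[0,1]`: `≤ 2 + √2 - 2/log 2 = 0.52882...`) -/
theorem avg_fract_num : ∀ᶠ N : ℕ in atTop,
    ∑ n ∈ Finset.Icc 1 N, Int.fract (al0 n) ≤ (52884 / 100000 : ℝ) * N := by
  filter_upwards [avg_fract (1 / 100000) (by norm_num)] with N hN
  refine hN.trans ?_
  rw [mul_comm]
  apply mul_le_mul_of_nonneg_right _ (Nat.cast_nonneg _)
  set θ := Int.fract (al0 N) with hθ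
  have hθ0 : 0 ≤ θ := Int.fract_nonneg _
  have hθ1 : θ < 1 := Int.fract_lt_one _
  have h0 : Real.sqrt 2 * Real.sqrt 2 = 2 := Real.mul_self_sqrt (by norm_num)
  have hs : Real.sqrt 2 ≤ 1.41421357 := by
    rw [Real.sqrt_le_left (by norm_num)]; norm_num
  have hs0 : 0 ≤ Real.sqrt 2 := Real.sqrt_nonneg 2
  have h1 : (2 : ℝ) ^ (-θ / 2) = (1 + (Real.sqrt 2 / 2 - 1)) ^ θ := by
    have h2 : (1 + (Real.sqrt 2 / 2 - 1)) = (2 : ℝ) ^ (-(1 : ℝ) / 2) := by
      rw [show (-(1 : ℝ) / 2) = 1 / 2 - 1 by norm_num, Real.rpow_sub (by norm_num),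
        ← Real.sqrt_eq_rpow, Real.rpow_one]
      ring
    rw [h2, ← Real.rpow_mul (by norm_num)]
    congr 1
    ring
  have h3 : (2 : ℝ) ^ (-θ / 2) ≤ 1 + θ * (Real.sqrt 2 / 2 - 1) := by
    rw [h1]
    exact rpow_one_add_le_one_add_mul_self (by linarith) hθ0 hθ1.le
  have h4 : (2 + Real.sqrt 2) * (2 : ℝ) ^ (-θ / 2)
      ≤ (2 + Real.sqrt 2) * (1 + θ * (Real.sqrt 2 / 2 - 1)) :=
    mul_le_mul_of_nonneg_left h3 (by linarith)
  have h5 : (2 + Real.sqrt 2) * (1 + θ * (Real.sqrt 2 / 2 - 1)) = 2 + Real.sqrt 2 - θ := by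
    have : (2 + Real.sqrt 2) * (1 + θ * (Real.sqrt 2 / 2 - 1))
      = 2 + Real.sqrt 2 + θ * (Real.sqrt 2 * Real.sqrt 2 / 2 - 2) := by ring
    rw [this, h0]
    ring
  have h6 : 2.88539 ≤ 2 / Real.log 2 := by
    rw [le_div_iff₀ (Real.log_pos (by norm_num))]
    have := Real.log_two_lt_d9
    linarith
  linarith

/-- at `θ = 1/2`: `1/2 - 2/log 2 + (2+√2) 2^{-1/4} = 0.485611...` -/
theorem avg_fract_half : ∃ η : ℝ, 0 < η ∧ ∀ᶠ N : ℕ in atTop,
    |Int.fract (al0 N) - 1 / 2| ≤ η →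
    ∑ n ∈ Finset.Icc 1 N, Int.fract (al0 n) ≤ (4857 / 10000 : ℝ) * N := by
  refine ⟨1 / 100000, by norm_num, ?_⟩
  filter_upwards [avg_fract (1 / 100000) (by norm_num)] with N hN hη
  refine hN.trans ?_
  rw [mul_comm]
  apply mul_le_mul_of_nonneg_right _ (Nat.cast_nonneg _)
  set θ := Int.fract (al0 N) with hθ
  rw [abs_le] at hη
  have hs : Real.sqrt 2 ≤ 1.41421357 := by
    rw [Real.sqrt_le_left (by norm_num)]; norm_num
  have hs0 : 0 ≤ Real.sqrt 2 := Real.sqrt_nonneg 2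
  have h6 : 2.88539 ≤ 2 / Real.log 2 := by
    rw [le_div_iff₀ (Real.log_pos (by norm_num))]
    have := Real.log_two_lt_d9
    linarith
  have h1 : (2 : ℝ) ^ (-(1 : ℝ) / 4) ≤ 0.8409 := by
    have h2 : ((2 : ℝ) ^ (-(1 : ℝ) / 4)) ^ 4 = 1 / 2 := by
      rw [← Real.rpow_natCast, ← Real.rpow_mul (by norm_num)]
      norm_num
    by_contra hc
    push Not at hc
    have h3 : (0.8409 : ℝ) ^ 4 < ((2 : ℝ) ^ (-(1 : ℝ) / 4)) ^ 4 :=
      pow_lt_pow_left₀ hc (by norm_num) (by norm_num)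
    rw [h2] at h3
    norm_num at h3
  have h4 : (2 : ℝ) ^ ((1 : ℝ) / 200000) ≤ 1 + 1 / 200000 := by
    have := rpow_one_add_le_one_add_mul_self (s := 1) (p := 1 / 200000) (by norm_num) (by norm_num)
      (by norm_num)
    norm_num at this ⊢
    linarith
  have h5 : (2 : ℝ) ^ (-θ / 2) ≤ 0.8409 * (1 + 1 / 200000) := by
    calc (2 : ℝ) ^ (-θ / 2) ≤ (2 : ℝ) ^ (-(1 : ℝ) / 4 + 1 / 200000) :=
          Real.rpow_le_rpow_of_exponent_le (by norm_num) (by linarith [hη.1])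
      _ = (2 : ℝ) ^ (-(1 : ℝ) / 4) * (2 : ℝ) ^ ((1 : ℝ) / 200000) := Real.rpow_add (by norm_num) _ _
      _ ≤ 0.8409 * (1 + 1 / 200000) := mul_le_mul h1 h4 (by positivity) (by norm_num)
  have h7 : (2 + Real.sqrt 2) * (2 : ℝ) ^ (-θ / 2) ≤ (2 + 1.41421357) * (0.8409 * (1 + 1 / 200000)) :=
    mul_le_mul (by linarith) h5 (by positivity) (by norm_num)
  norm_num at h7
  linarith [hη.2]

end ZZ51
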