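import Pool.Agent.ZZ51.Alpha

/-!
# ZZ51/MuLow: lower bound for `μ_a(n)`, `a` between `α₀ - 4` and `α₀`

PROOF. `C(n,a) ≥ (n-a)^a/a! = n^a (1-a/n)^a / a! ≥ n^a (1 - a²/n)/a! ≥ n^a/(2 a!)` and
`a! ≤ e √a (a/e)^a` (or the cruder `a! ≤ e a (a/e)^a = a^{a+1} e^{1-a}`), so
`log₂ μ_a ≥ a [log₂ n - log₂ a + log₂ e - (a-1)/2] - log₂(2 e a)`.
With `a = α₀ - x`, `0 ≤ x ≤ 4`: `(a-1)/2 = log₂ n - log₂ log₂ n + log₂ e - 1 - x/2`, so the bracket is
`x/2 + log₂(2 log₂ n / a) ≥ x/2` (`a ≤ α₀ ≤ 2 log₂ n`).  So `log₂ μ_a ≥ a x/2 - log₂(2ea)`, and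
`a x/2 ≥ x log₂ n - x log₂ log₂ n - 8` by `al0_bounds`; all corrections are `o(log₂ n)`.
-/

set_option autoImplicit false

open Filter Topology

namespace ZZ51

/-- `log a! ≤ (a+1) log a + 1 - a` -/
theorem muLow_log_factorial (a : ℕ) (ha : 1 ≤ a) :
    Real.log (a.factorial : ℝ) ≤ ((a : ℝ) + 1) * Real.log a + 1 - a := by
  induction a, ha using Nat.le_induction with
  | base => simp
  | succ a ha ih =>
    have ha0 : (0 : ℝ) < a := by exact_mod_cast ha
    have ha1 : (0 : ℝ) < (a : ℝ) + 1 := by linarith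
    have h1 : Real.log (((a + 1).factorial : ℕ) : ℝ) =
        Real.log ((a : ℝ) + 1) + Real.log (a.factorial : ℝ) := by
      rw [Nat.factorial_succ]
      push_cast
      rw [Real.log_mul ha1.ne' (by exact_mod_cast (Nat.factorial_pos a).ne')]
    have h2 : 1 ≤ ((a : ℝ) + 1) * (Real.log ((a : ℝ) + 1) - Real.log a) := by
      have h3 : 1 - (((a : ℝ) + 1) / a)⁻¹ ≤ Real.log (((a : ℝ) + 1) / a) :=
        Real.one_sub_inv_le_log_of_pos (by positivity)
      rw [Real.log_div ha1.ne' ha0.ne'] at h3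
      have h4 : 1 - (((a : ℝ) + 1) / a)⁻¹ = 1 / ((a : ℝ) + 1) := by
        field_simp
        ring
      rw [h4] at h3
      calc (1 : ℝ) = ((a : ℝ) + 1) * (1 / ((a : ℝ) + 1)) := by field_simp
        _ ≤ _ := mul_le_mul_of_nonneg_left h3 ha1.le
    rw [h1]
    push_cast
    nlinarith [ih, h2]

/-- `log μ` from below -/
theorem muLow_log_mu (n a : ℕ) (ha : 1 ≤ a) (hn : 2 * (a : ℝ) ^ 2 ≤ n) :
    (a : ℝ) * (Real.log n - Real.log a + 1 - ((a : ℝ) - 1) / 2 * Real.log 2)
      - Real.log a - 2 ≤ Real.log (mu n a) ∧ 0 < mu n a := by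
  have ha0 : (1 : ℝ) ≤ a := by exact_mod_cast ha
  have hn0 : (0 : ℝ) < n := by nlinarith
  have hna : 2 * (a : ℝ) ≤ n := by nlinarith
  have hanN : a ≤ n := by
    have : (a : ℝ) ≤ n := by linarith
    exact_mod_cast this
  have hch : 0 < n.choose a := Nat.choose_pos hanN
  have hmu : 0 < mu n a := by
    unfold mu
    have : (0 : ℝ) < (n.choose a : ℝ) := by exact_mod_cast hch
    positivity
  refine ⟨?_, hmu⟩
  have hlogmu : Real.log (mu n a) =
      Real.log (n.choose a : ℝ) - ((a : ℝ) * ((a : ℝ) - 1) / 2) * Real.log 2 := by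
    unfold mu
    rw [Real.log_div (by exact_mod_cast hch.ne') (by positivity), Real.log_pow,
      Nat.cast_choose_two]
  have hfac : (0 : ℝ) < (a.factorial : ℝ) := by exact_mod_cast Nat.factorial_pos a
  have hpow : ((n : ℝ) - a) ^ a ≤ (a.factorial : ℝ) * (n.choose a : ℝ) := by
    have h1 : (n + 1 - a) ^ a ≤ n.descFactorial a := Nat.pow_sub_le_descFactorial n a
    have h2 : n.descFactorial a = a.factorial * n.choose a :=
      Nat.descFactorial_eq_factorial_mul_choose n a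
    rw [h2] at h1
    have h3 : (((n + 1 - a : ℕ) : ℝ)) ^ a ≤ (a.factorial : ℝ) * (n.choose a : ℝ) := by
      exact_mod_cast h1
    refine le_trans (pow_le_pow_left₀ (by linarith) ?_ a) h3
    rw [Nat.cast_sub (by omega)]
    push_cast
    linarith
  have hlogch : (a : ℝ) * Real.log ((n : ℝ) - a) ≤
      Real.log (a.factorial : ℝ) + Real.log (n.choose a : ℝ) := by
    rw [← Real.log_mul hfac.ne' (by exact_mod_cast hch.ne'), ← Real.log_pow]
    exact Real.log_le_log (pow_pos (by linarith) a) hpow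
  have hlogna : Real.log n - 2 * ((a : ℝ) / n) ≤ Real.log ((n : ℝ) - a) := by
    have hq : 0 < ((n : ℝ) - a) / n := div_pos (by linarith) hn0
    have h3 : 1 - (((n : ℝ) - a) / n)⁻¹ ≤ Real.log (((n : ℝ) - a) / n) :=
      Real.one_sub_inv_le_log_of_pos hq
    rw [Real.log_div (by linarith) hn0.ne'] at h3
    have h4 : -(2 * ((a : ℝ) / n)) ≤ 1 - (((n : ℝ) - a) / n)⁻¹ := by
      have hpos : 0 < (n : ℝ) - a := by linarith
      rw [inv_div]
      have h5 : 1 - (n : ℝ) / ((n : ℝ) - a) = -((a : ℝ) / ((n : ℝ) - a)) := by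
        field_simp
        ring
      rw [h5]
      apply neg_le_neg
      rw [div_le_iff₀ hpos]
      have h6 : (a : ℝ) = 2 * ((a : ℝ) / n) * ((n : ℝ) / 2) := by
        field_simp
      calc (a : ℝ) = 2 * ((a : ℝ) / n) * ((n : ℝ) / 2) := h6
        _ ≤ 2 * ((a : ℝ) / n) * ((n : ℝ) - a) := by
          apply mul_le_mul_of_nonneg_left _ (by positivity)
          linarith
    linarith
  have hsmall : (a : ℝ) * (2 * ((a : ℝ) / n)) ≤ 1 := by
    have : (a : ℝ) * (2 * ((a : ℝ) / n)) = (2 * (a : ℝ) ^ 2) / n := by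
      field_simp
    rw [this, div_le_one hn0]
    exact hn
  have hfa := muLow_log_factorial a ha
  have hmul : (a : ℝ) * (Real.log n - 2 * ((a : ℝ) / n)) ≤ (a : ℝ) * Real.log ((n : ℝ) - a) :=
    mul_le_mul_of_nonneg_left hlogna (by linarith)
  rw [hlogmu]
  nlinarith [hmul, hsmall, hfa, hlogch]

theorem muLow_logb_tendsto : Tendsto (fun n : ℕ => Real.logb 2 (n : ℝ)) atTop atTop :=
  (Real.tendsto_logb_atTop (by norm_num)).comp tendsto_natCast_atTop_atTop

theorem muLow_corr (κ : ℝ) (hκ : 0 < κ) : ∀ᶠ n : ℕ in atTop,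
    5 * Real.log (Real.logb 2 (n : ℝ)) + 11 ≤ κ * Real.log n := by
  have h1 : ∀ᶠ x : ℝ in atTop, 5 * Real.log x + 11 ≤ κ * Real.log 2 * x := by
    have hl2 : 0 < Real.log 2 := Real.log_pos (by norm_num)
    have hc : 0 < κ * Real.log 2 / 10 := by positivity
    have ha := Real.isLittleO_log_id_atTop.bound hc
    have hb : ∀ᶠ x : ℝ in atTop, 22 / (κ * Real.log 2) ≤ x := eventually_ge_atTop _
    filter_upwards [ha, hb, eventually_ge_atTop (1 : ℝ)] with x h1 h2 h3
    simp only [id, Real.norm_eq_abs] at h1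
    rw [abs_of_nonneg (Real.log_nonneg h3), abs_of_nonneg (by linarith)] at h1
    rw [div_le_iff₀ (by positivity)] at h2
    nlinarith
  filter_upwards [muLow_logb_tendsto.eventually h1] with n hn
  refine hn.trans (le_of_eq ?_)
  have hl2 : Real.log 2 ≠ 0 := (Real.log_pos (by norm_num)).ne'
  rw [Real.logb]
  field_simp

theorem muLow_size : ∀ᶠ n : ℕ in atTop, 8 * (Real.logb 2 (n : ℝ)) ^ 2 ≤ n := by
  have h0 : (fun x : ℝ => Real.log x ^ 2) =o[atTop] (id : ℝ → ℝ) :=
    Real.isLittleO_pow_log_id_atTop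
  have hl2 : 0 < Real.log 2 := Real.log_pos (by norm_num)
  have h1 := h0.bound (show (0 : ℝ) < Real.log 2 ^ 2 / 8 by positivity)
  have h2 : ∀ᶠ x : ℝ in atTop, 8 * (Real.logb 2 x) ^ 2 ≤ x := by
    filter_upwards [h1, eventually_ge_atTop (0 : ℝ)] with x hx hx0
    simp only [id, Real.norm_eq_abs, abs_of_nonneg hx0, abs_of_nonneg (sq_nonneg (Real.log x))]
      at hx
    rw [Real.logb, div_pow, ← mul_div_assoc, div_le_iff₀ (by positivity)]
    linarith
  exact tendsto_natCast_atTop_atTop.eventually h2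

theorem mu_lower (κ : ℝ) (hκ : 0 < κ) : ∀ᶠ n : ℕ in atTop, ∀ a : ℕ,
    al0 n - 4 ≤ a → (a : ℝ) ≤ al0 n → (n : ℝ) ^ (al0 n - a - κ) ≤ mu n a := by
  have hlog : Tendsto (fun n : ℕ => Real.log (n : ℝ)) atTop atTop :=
    Real.tendsto_log_atTop.comp tendsto_natCast_atTop_atTop
  filter_upwards [al0_bounds, muLow_corr κ hκ, muLow_size, hlog.eventually_ge_atTop 5,
    muLow_logb_tendsto.eventually_ge_atTop 1, eventually_ge_atTop 2] with n hb hcorr hsize h5 hl1 hn2
  obtain ⟨hb1, hb2, -, hb4⟩ := hb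
  intro a ha1 ha2
  have hl2 : 0 < Real.log 2 := Real.log_pos (by norm_num)
  have hl2' : Real.log 2 ≤ 1 := by
    have := Real.log_two_lt_d9
    linarith
  have hn0 : (0 : ℝ) < n := by
    have : (2 : ℝ) ≤ n := by exact_mod_cast hn2
    linarith
  have haR : (1 : ℝ) ≤ a := by linarith
  have haN : 1 ≤ a := by exact_mod_cast haR
  have h2a : 2 * (a : ℝ) ^ 2 ≤ n := by
    refine le_trans ?_ hsize
    have : (a : ℝ) ≤ 2 * Real.logb 2 (n : ℝ) := ha2.trans hb2
    nlinarith
  obtain ⟨hmu, hpos⟩ := muLow_log_mu n a haN h2a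
  rw [← Real.log_le_log_iff (Real.rpow_pos_of_pos hn0 _) hpos, Real.log_rpow hn0]
  refine le_trans ?_ hmu
  set l : ℝ := Real.logb 2 (n : ℝ) with hl
  have hln : Real.log n = l * Real.log 2 := by
    rw [hl, Real.logb]
    field_simp
  have hll : Real.logb 2 l * Real.log 2 = Real.log l := by
    rw [Real.logb]
    field_simp
  have hlogl : 0 ≤ Real.log l := Real.log_nonneg hl1
  have hal := al0_eq n
  rw [← hl] at hal
  set x : ℝ := al0 n - a with hx
  have hx0 : 0 ≤ x := by rw [hx]; linarith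
  have hx4 : x ≤ 4 := by rw [hx]; linarith
  have hbr : Real.log n - Real.log a + 1 - ((a : ℝ) - 1) / 2 * Real.log 2 =
      Real.log (2 * l) - Real.log a + x / 2 * Real.log 2 := by
    have : (a : ℝ) = 2 * l - 2 * Real.logb 2 l + 2 / Real.log 2 - 1 - x := by
      rw [hx, hal]; ring
    have h1 : ((a : ℝ) - 1) / 2 * Real.log 2 =
        l * Real.log 2 - Real.logb 2 l * Real.log 2 + 1 - Real.log 2 - x / 2 * Real.log 2 := by
      rw [this]
      field_simp
      ring
    rw [h1, hll, ← hln, Real.log_mul (by norm_num) (by linarith)]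
    ring
  rw [hbr]
  have hloga : Real.log a ≤ Real.log (2 * l) :=
    Real.log_le_log (by linarith) (ha2.trans hb2)
  have hlog2l : Real.log (2 * l) = Real.log 2 + Real.log l :=
    Real.log_mul (by norm_num) (by linarith)
  have hA : (a : ℝ) * (x / 2 * Real.log 2) ≤
      (a : ℝ) * (Real.log (2 * l) - Real.log a + x / 2 * Real.log 2) := by
    apply mul_le_mul_of_nonneg_left _ (by linarith)
    linarith
  have hB : (2 * l - 2 * Real.logb 2 l - x) * (x / 2 * Real.log 2) ≤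
      (a : ℝ) * (x / 2 * Real.log 2) := by
    apply mul_le_mul_of_nonneg_right _ (by positivity)
    rw [hx]
    linarith
  have hC : (2 * l - 2 * Real.logb 2 l - x) * (x / 2 * Real.log 2) =
      x * Real.log n - x * Real.log l - x ^ 2 / 2 * Real.log 2 := by
    rw [hln, ← hll]
    ring
  have hD : x * Real.log l ≤ 4 * Real.log l := mul_le_mul_of_nonneg_right hx4 hlogl
  have hE : x ^ 2 / 2 * Real.log 2 ≤ 8 := by
    have : x ^ 2 / 2 ≤ 8 := by nlinarith
    nlinarith
  have hF : (x - κ) * Real.log n = x * Real.log n - κ * Real.log n := by ring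
  rw [hF]
  linarith

end ZZ51
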