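import Pool.Agent.ZZ51.Card
import Pool.Agent.ZZ51.MuLow

/-!
# ZZ51/Bridge: from `¬ Bad` to the statement on intervals

`NonConc n L m`: every real interval `[b, b+L]` has probability at most `m` for `χ(G(n,1/2))`.
PROOF of `bridge1`. Suppose `P = P(b ≤ χ ≤ b+L) > 1/2 + δ`, `L = c √μ/log n`. Some graph has `b ≤ χ ≤ b + L`, so
`b + L ≥ 0`. Let `x = ⌈b⌉₊ - 1`, `y = ⌊b+L⌋₊`.  `T n x ≥ P`: if `⌈b⌉₊ ≥ 1` then `b ≤ χ(G)` implies
`χ(G) ≥ x + 1`, i.e. `¬ Colorable x`; if `⌈b⌉₊ = 0` then `x = 0`, `T n 0 = 1`.  `T n y ≤ 1 - P`: `χ(G) ≤ b + L`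
implies `χ(G) ≤ y`, `Colorable y`.  `y ≤ x + L + 1`.  So `Bad (1/2+δ) (1/2-δ) c n`.
PROOF of `bridge2`. Suppose `P > 1/3 + 2δ`; same `x, y` and `T n x - T n y ≥ P`.  If `T n y ≤ 1/3 - δ` then
`T n x < 1/3 + δ` (not bad), so `T n x - T n y < 1/3 + δ`. Else `T n x > 1/3 + 2δ + 1/3 - δ = 2/3 + δ`, so (not bad)
`T n y > 2/3 - δ` and `T n x - T n y < 1/3 + δ`.
(`T n x - T n y ≥ P` : `Pr_add_le`.) Note `Kempty`: `(G.chromaticNumber).toNat ≤ k ↔ G.Colorable k` for finite `G`.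
-/

set_option autoImplicit false

open Filter Topology

namespace ZZ51

/-- every real interval of length `L` contains `χ(G(n,1/2))` with probability at most `m` -/
def NonConc (n : ℕ) (L m : ℝ) : Prop := ∀ b : ℝ,
  (Nat.card {G : SimpleGraph (Fin n) // b ≤ (G.chromaticNumber.toNat : ℝ) ∧
      (G.chromaticNumber.toNat : ℝ) ≤ b + L} : ℝ) / (2 : ℝ) ^ (n.choose 2) ≤ m

/-- `ρ(n) = log μ_α / log n` -/
noncomputable def rho (n : ℕ) : ℝ := Real.log (mu n (al n)) / Real.log n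

/-- `λ(n) = max(ρ/2, (1-ρ)/2)` -/
noncomputable def lam (n : ℕ) : ℝ := max (rho n / 2) ((1 - rho n) / 2)

/-- the chromatic number of a finite graph -/
lemma br_col (n k : ℕ) (G : SimpleGraph (Fin n)) : G.Colorable k ↔ G.chromaticNumber.toNat ≤ k := by
  have hne : G.chromaticNumber ≠ ⊤ := by
    rw [SimpleGraph.chromaticNumber_ne_top_iff_exists]
    exact ⟨_, G.colorable_of_fintype⟩
  rw [← SimpleGraph.chromaticNumber_le_iff_colorable]
  constructor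
  · intro h
    exact ENat.toNat_le_of_le_natCast h
  · intro h
    rw [← ENat.natCast_toNat hne]
    exact_mod_cast h

lemma br_len (n : ℕ) (c : ℝ) (hc : 0 ≤ c) : 0 ≤ c * Real.sqrt (mu n (al n)) / Real.log n :=
  div_nonneg (mul_nonneg hc (Real.sqrt_nonneg _)) (Real.log_natCast_nonneg n)

/-- the event -/
def brE (n : ℕ) (b L : ℝ) (G : SimpleGraph (Fin n)) : Prop :=
  b ≤ (G.chromaticNumber.toNat : ℝ) ∧ (G.chromaticNumber.toNat : ℝ) ≤ b + L

lemma br_E_x (n : ℕ) (b L : ℝ) (G : SimpleGraph (Fin n)) (hb : 1 ≤ ⌈b⌉₊) (h : brE n b L G) :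
    ¬ G.Colorable (⌈b⌉₊ - 1) := by
  rw [br_col]
  have h1 : ⌈b⌉₊ ≤ G.chromaticNumber.toNat := Nat.ceil_le.2 h.1
  omega

lemma br_E_y (n : ℕ) (b L : ℝ) (G : SimpleGraph (Fin n)) (h : brE n b L G) :
    G.Colorable ⌊b + L⌋₊ := by
  rw [br_col]
  exact Nat.le_floor h.2

lemma br_Tx (n : ℕ) (hn : 1 ≤ n) (b L : ℝ) : Pr n (brE n b L) ≤ T n (⌈b⌉₊ - 1) := by
  rcases Nat.eq_zero_or_pos ⌈b⌉₊ with h | h
  · rw [h, Nat.zero_sub, T_zero n hn]
    have h1 := Pr_add_le n (brE n b L) (fun _ => False) (fun _ => True) (fun _ _ h => h)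
      (fun _ _ => trivial) (fun _ h => h.elim)
    have h2 := Pr_compl n (fun _ => False)
    have h3 := Pr_nonneg n (fun _ => False)
    simp only [not_false_eq_true] at h2
    rw [h2] at h1
    linarith
  · exact Pr_mono n _ _ fun G hG => br_E_x n b L G h hG

lemma br_Ty (n : ℕ) (b L : ℝ) : Pr n (brE n b L) + T n ⌊b + L⌋₊ ≤ 1 := by
  have h1 := Pr_add_le n (brE n b L) (fun G => ¬ G.Colorable ⌊b + L⌋₊) (fun _ => True)
    (fun G h h' => h' (br_E_y n b L G h)) (fun _ _ => trivial) (fun _ _ => trivial)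
  have h2 := Pr_compl n (fun _ => False)
  have h3 := Pr_nonneg n (fun _ => False)
  simp only [not_false_eq_true] at h2
  rw [h2] at h1
  unfold T
  linarith

lemma br_len_le (b L : ℝ) (hL : 0 ≤ L) : ((⌊b + L⌋₊ : ℕ) : ℝ) ≤ ((⌈b⌉₊ - 1 : ℕ) : ℝ) + L + 1 := by
  have h1 : (⌈b⌉₊ : ℝ) ≤ ((⌈b⌉₊ - 1 : ℕ) : ℝ) + 1 := by
    have : ⌈b⌉₊ ≤ (⌈b⌉₊ - 1) + 1 := by omega
    exact_mod_cast this
  rcases le_or_gt 0 (b + L) with h | h
  · have h2 := Nat.floor_le h
    have h3 := Nat.le_ceil b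
    linarith
  · rw [Nat.floor_of_nonpos h.le]
    have h4 : (0 : ℝ) ≤ ((⌈b⌉₊ - 1 : ℕ) : ℝ) := Nat.cast_nonneg _
    push_cast
    linarith

/-- `T n x - T n y ≥ P` if the event is not empty -/
lemma br_diff (n : ℕ) (hn : 1 ≤ n) (b L : ℝ) (hP : 0 < Pr n (brE n b L)) :
    Pr n (brE n b L) + T n ⌊b + L⌋₊ ≤ T n (⌈b⌉₊ - 1) := by
  rcases Nat.eq_zero_or_pos ⌈b⌉₊ with h | h
  · rw [h, Nat.zero_sub, T_zero n hn]
    exact br_Ty n b L
  · have hex : ∃ G, brE n b L G := by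
      by_contra hc
      push Not at hc
      have : Nat.card {G : SimpleGraph (Fin n) // brE n b L G} = 0 := by
        have : IsEmpty {G : SimpleGraph (Fin n) // brE n b L G} := ⟨fun G => hc G.1 G.2⟩
        exact Nat.card_of_isEmpty
      unfold Pr at hP
      rw [this] at hP
      simp at hP
    obtain ⟨G₀, hG₀⟩ := hex
    have hxy : ⌈b⌉₊ - 1 ≤ ⌊b + L⌋₊ := by
      have h1 : ⌈b⌉₊ ≤ G₀.chromaticNumber.toNat := Nat.ceil_le.2 hG₀.1
      have h2 : G₀.chromaticNumber.toNat ≤ ⌊b + L⌋₊ := Nat.le_floor hG₀.2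
      omega
    exact Pr_add_le n (brE n b L) (fun G => ¬ G.Colorable ⌊b + L⌋₊) _
      (fun G h h' => h' (br_E_y n b L G h)) (fun G hG => br_E_x n b L G h hG)
      (fun G hG hc => hG (hc.mono hxy))

theorem bridge1 (n : ℕ) (hn : 1 ≤ n) (δ c : ℝ) (hc : 0 ≤ c)
    (h : ¬ Bad (1 / 2 + δ) (1 / 2 - δ) c n) :
    NonConc n (c * Real.sqrt (mu n (al n)) / Real.log n) (1 / 2 + δ) := by
  intro b
  by_contra hlt
  push Not at hlt
  set L := c * Real.sqrt (mu n (al n)) / Real.log n with hL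
  have hlt' : 1 / 2 + δ < Pr n (brE n b L) := hlt
  have h1 := br_Tx n hn b L
  have h2 := br_Ty n b L
  have h3 := br_len_le b L (br_len n c hc)
  exact h ⟨_, _, by linarith, by linarith, h3⟩

theorem bridge2 (n : ℕ) (hn : 1 ≤ n) (δ c : ℝ) (hc : 0 ≤ c) (hδ : 0 < δ)
    (h1 : ¬ Bad (1 / 3 + δ) (1 / 3 - δ) c n) (h2 : ¬ Bad (2 / 3 + δ) (2 / 3 - δ) c n) :
    NonConc n (c * Real.sqrt (mu n (al n)) / Real.log n) (1 / 3 + 2 * δ) := by
  intro b
  by_contra hlt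
  push Not at hlt
  set L := c * Real.sqrt (mu n (al n)) / Real.log n with hL
  have hlt' : 1 / 3 + 2 * δ < Pr n (brE n b L) := hlt
  have h3 := br_diff n hn b L (by linarith)
  have h4 := br_Ty n b L
  have h5 := br_len_le b L (br_len n c hc)
  have h6 := br_Tx n hn b L
  rcases le_or_gt (T n ⌊b + L⌋₊) (1 / 3 - δ) with h7 | h7
  · exact h1 ⟨_, _, by linarith, h7, h5⟩
  · exact h2 ⟨_, _, by linarith, by linarith, h5⟩

/-- smaller constants: fewer bad `n` -/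
theorem Bad_mono (p q c c' : ℝ) (hc : c ≤ c') (n : ℕ) (h : Bad p q c n) : Bad p q c' n := by
  obtain ⟨x, y, h1, h2, h3⟩ := h
  refine ⟨x, y, h1, h2, h3.trans ?_⟩
  have h4 : c * Real.sqrt (mu n (al n)) / Real.log n ≤ c' * Real.sqrt (mu n (al n)) / Real.log n :=
    div_le_div_of_nonneg_right (mul_le_mul_of_nonneg_right hc (Real.sqrt_nonneg _))
      (Real.log_natCast_nonneg n)
  linarith

/-- `{α₀} > 0.5001` implies `ρ > 1/2` for large `n`, and then `√μ_α = n^λ` -/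
theorem rho_gt : ∀ᶠ n : ℕ in atTop, 5001 / 10000 < Int.fract (al0 n) →
    1 / 2 < rho n ∧ Real.sqrt (mu n (al n)) = (n : ℝ) ^ (lam n) := by
  filter_upwards [mu_lower (1 / 20000) (by norm_num), al0_tendsto.eventually_ge_atTop 0,
    Filter.eventually_ge_atTop 2] with n hmu h0 hn2 hfr
  have h1 := al_eq n h0
  have h2 := Int.fract_lt_one (al0 n)
  have h3 : (n : ℝ) ^ (al0 n - al n - 1 / 20000) ≤ mu n (al n) :=
    hmu (al n) (by rw [h1]; linarith) (by rw [h1]; linarith)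
  have hn1 : (1 : ℝ) < n := by exact_mod_cast (by omega : 1 < n)
  have hn0 : (0 : ℝ) < n := by linarith
  have hlog : 0 < Real.log n := Real.log_pos hn1
  have hpos : 0 < (n : ℝ) ^ (al0 n - al n - 1 / 20000) := Real.rpow_pos_of_pos hn0 _
  have hmupos : 0 < mu n (al n) := hpos.trans_le h3
  have h4 : (al0 n - al n - 1 / 20000) * Real.log n ≤ Real.log (mu n (al n)) := by
    rw [← Real.log_rpow hn0]
    exact Real.log_le_log hpos h3
  have h5 : al0 n - al n = Int.fract (al0 n) := by rw [h1]; ring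
  rw [h5] at h4
  have hrho : 1 / 2 < rho n := by
    unfold rho
    rw [lt_div_iff₀ hlog]
    nlinarith
  refine ⟨hrho, ?_⟩
  have hlam : lam n = rho n / 2 := by
    unfold lam
    rw [max_eq_left]
    linarith
  rw [hlam, Real.sqrt_eq_rpow]
  have h6 : mu n (al n) = (n : ℝ) ^ rho n := by
    rw [Real.rpow_def_of_pos hn0, rho, mul_div_cancel₀ _ hlog.ne', Real.exp_log hmupos]
  rw [div_eq_mul_one_div (rho n) 2, Real.rpow_mul hn0.le, ← h6]

end ZZ51
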