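import Pool.Agent.ZZ51.Alpha

/-!
# ZZ51/LowFract: for `N` with `α₀(N)` just below an integer, the proportion of `n ≤ N` with `{α₀(n)} ≤ t`

PROOF of `low_fract`. Let `Λ = al0 N`, `fract Λ ≥ 1 - η`. The set is (up to `n < n₀`) the union over `i ≥ 1` of
`A_i = {n ≤ N : j ≤ al0 n ≤ j + t}`, `j = ⌊Λ⌋ + 1 - i` (`j = ⌊Λ⌋` for `i = 1`).  Least element `m_j` of `{n : al0 n ≥ j}`:
`m_j ≤ N 2^{-(Λ-j)/2} + 1 ≤ N 2^{-(i-η)/2} + 1` (as in Avg), and all elements of `A_i` are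
`≤ m_j 2^{t/(2 - 2/log m_j)}` (`al0_diff_ge`), so for `j ≥ j₀`: `|A_i| ≤ m_j (2^{t/2} (1+κ) - 1) + 1`.  Sum over
`i ≥ 1`: `∑ 2^{-i/2} = √2 + 1`.  Choose `κ, η` small. (The `j < j₀` part is bounded by a constant.)
`freq`: `al0` tends to infinity with `al0 (n+1) - al0 n → 0` (`al0_step` or `al0_diff_le`), so for `u < v` in `[0,1]` there are
infinitely many `N` with `u ≤ fract (al0 N) ≤ v`: for a large integer `j` take the first `N` with `al0 N ≥ j + (u+v)/2`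
(if `u = 0`... any point strictly between `u` and `v`).
-/

set_option autoImplicit false

open Filter Topology

namespace ZZ51

theorem lf_rpow (θ : ℝ) (i : ℕ) :
    (2 : ℝ) ^ (-((i : ℝ) + 1) / 2 + θ) = (2 : ℝ) ^ θ * (Real.sqrt 2 / 2 * (Real.sqrt 2 / 2) ^ i) := by
  have h1 : (Real.sqrt 2 / 2) = (2 : ℝ) ^ (-(1 : ℝ) / 2) := by
    rw [show (-(1 : ℝ) / 2) = 1 / 2 - 1 by norm_num, Real.rpow_sub (by norm_num), ← Real.sqrt_eq_rpow,
      Real.rpow_one]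
  rw [h1, ← Real.rpow_natCast, ← Real.rpow_mul (by norm_num), ← Real.rpow_add (by norm_num),
    ← Real.rpow_add (by norm_num)]
  congr 1
  ring

theorem lf_geom (I : ℕ) :
    ∑ i ∈ Finset.range I, (Real.sqrt 2 / 2 * (Real.sqrt 2 / 2) ^ i) ≤ Real.sqrt 2 + 1 := by
  have h0 : Real.sqrt 2 * Real.sqrt 2 = 2 := Real.mul_self_sqrt (by norm_num)
  have h1 : 0 ≤ Real.sqrt 2 := Real.sqrt_nonneg 2
  have h2 : Real.sqrt 2 < 2 := by nlinarith
  have h3 : (Real.sqrt 2 / 2) ≠ 1 := by linarith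
  rw [← Finset.mul_sum, geom_sum_eq h3, ← mul_div_assoc, div_le_iff_of_neg (by linarith)]
  have h4 : 0 ≤ (Real.sqrt 2 / 2) ^ I := by positivity
  nlinarith

theorem lf_two_rpow (x : ℝ) (h0 : 0 ≤ x) (h1 : x ≤ 1) : (2 : ℝ) ^ x ≤ 1 + x := by
  have := rpow_one_add_le_one_add_mul_self (s := 1) (p := x) (by norm_num) h0 h1
  norm_num at this ⊢
  linarith

theorem lf_two_rpow_neg (x : ℝ) (h0 : 0 ≤ x) (h1 : x ≤ 1) : 1 - x ≤ (2 : ℝ) ^ (-x) := by
  rw [Real.rpow_neg (by norm_num), ← one_div, le_div_iff₀ (by positivity)]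
  have := lf_two_rpow x h0 h1
  have h2 : (1 : ℝ) ≤ 2 ^ x := Real.one_le_rpow (by norm_num) h0
  nlinarith

theorem lf_card (a b : ℝ) (ha : 0 ≤ a) (hab : a ≤ b) :
    ((Finset.Icc ⌈a⌉₊ ⌊b⌋₊).card : ℝ) ≤ b - a + 1 := by
  rw [Nat.card_Icc]
  rcases le_total ⌈a⌉₊ (⌊b⌋₊ + 1) with h | h
  · rw [Nat.cast_sub h]
    have h1 := Nat.floor_le (ha.trans hab)
    have h2 := Nat.le_ceil a
    push_cast
    linarith
  · rw [Nat.sub_eq_zero_of_le h]
    push_cast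
    linarith

open Classical in
theorem low_fract (t ε : ℝ) (ht : 0 < t) (ht1 : t < 1) (hε : 0 < ε) :
    ∃ η : ℝ, 0 < η ∧ ∀ᶠ N : ℕ in atTop, 1 - η ≤ Int.fract (al0 N) →
      (((Finset.Icc 1 N).filter (fun n : ℕ => Int.fract (al0 n) ≤ t)).card : ℝ)
        ≤ N * ((Real.sqrt 2 + 1) * ((2 : ℝ) ^ (t / 2) - 1) + ε) := by
  have hl2 : 0 < Real.log 2 := Real.log_pos (by norm_num)
  obtain ⟨δ, hδ, hδε, hδ1⟩ : ∃ δ : ℝ, 0 < δ ∧ δ ≤ ε / 10 ∧ δ ≤ 1 :=
    ⟨min (ε / 10) 1, lt_min (by positivity) (by norm_num), min_le_left _ _, min_le_right _ _⟩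
  set K : ℝ := 4 / ε + 1 with hK
  have hK1 : 1 < K := by rw [hK]; have : 0 < 4 / ε := by positivity
                         linarith
  have hKε : 1 / K ≤ ε / 4 := by
    rw [div_le_div_iff₀ (by linarith) (by norm_num), hK]
    have : ε * (4 / ε) = 4 := by field_simp
    nlinarith
  set I : ℕ := ⌈2 * Real.logb 2 K + 2⌉₊ with hI
  refine ⟨δ, hδ, ?_⟩
  have e1 : ∀ᶠ N : ℕ in atTop, 3 * K ≤ (N : ℝ) :=
    tendsto_natCast_atTop_atTop.eventually_ge_atTop _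
  have e2 : ∀ᶠ N : ℕ in atTop, 2 * Real.logb 2 K / δ ≤ Real.log ((N : ℝ) / K) := by
    have : Tendsto (fun N : ℕ => Real.log ((N : ℝ) / K)) atTop atTop :=
      Real.tendsto_log_atTop.comp
        ((tendsto_natCast_atTop_atTop (R := ℝ)).atTop_div_const (by linarith))
    exact this.eventually_ge_atTop _
  have e3 : ∀ᶠ N : ℕ in atTop, 4 * (I : ℝ) / ε ≤ (N : ℝ) :=
    tendsto_natCast_atTop_atTop.eventually_ge_atTop _
  filter_upwards [e1, e2, e3] with N h1 h2 h3 hθ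
  have hN0 : (0 : ℝ) < N := by linarith
  have hlK : 0 < Real.logb 2 K := Real.logb_pos (by norm_num) hK1
  set Λ := al0 N with hΛ
  set θ := Int.fract Λ with hθd
  have hθ1 : θ < 1 := Int.fract_lt_one _
  have hθ0 : 0 ≤ θ := Int.fract_nonneg _
  set a : ℕ → ℝ := fun i => N * (2 : ℝ) ^ (-((i : ℝ) + 1) / 2 + ((1 - θ) / 2 - δ / 2)) with ha
  set b : ℕ → ℝ := fun i => N * (2 : ℝ) ^ (-((i : ℝ) + 1) / 2 + ((1 - θ) / 2 + t / 2)) with hb
  -- the covering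
  have hcov : ((Finset.Icc 1 N).filter (fun n : ℕ => Int.fract (al0 n) ≤ t)) ⊆
      Finset.Icc 1 ⌊(N : ℝ) / K⌋₊ ∪ (Finset.range I).biUnion (fun i => Finset.Icc ⌈a i⌉₊ ⌊b i⌋₊) := by
    intro n hn
    rw [Finset.mem_filter, Finset.mem_Icc] at hn
    obtain ⟨⟨hn1, hnN⟩, hnt⟩ := hn
    rw [Finset.mem_union]
    by_cases hsm : n ≤ ⌊(N : ℝ) / K⌋₊
    · left; rw [Finset.mem_Icc]; exact ⟨hn1, hsm⟩
    right
    push Not at hsm
    have hn1' : (0 : ℝ) < n := by exact_mod_cast hn1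
    have hnN' : (n : ℝ) ≤ N := by exact_mod_cast hnN
    have hnK : (N : ℝ) / K < n := (Nat.floor_lt (by positivity)).1 hsm
    have hn3' : (3 : ℝ) < n := by
      refine lt_of_le_of_lt ?_ hnK
      rw [le_div_iff₀ (by linarith)]
      exact h1
    have hn3 : 3 < n := by exact_mod_cast hn3'
    have hq1 : (1 : ℝ) ≤ (N : ℝ) / n := by rw [le_div_iff₀ hn1']; linarith
    have hqK : (N : ℝ) / n ≤ K := by
      rw [div_le_iff₀ hn1']
      rw [div_lt_iff₀ (by linarith)] at hnK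
      linarith
    have hlq0 : 0 ≤ Real.logb 2 ((N : ℝ) / n) := Real.logb_nonneg (by norm_num) hq1
    have hlqK : Real.logb 2 ((N : ℝ) / n) ≤ Real.logb 2 K :=
      Real.logb_le_logb_of_le (by norm_num) (by positivity) hqK
    have d1 := al0_diff_le n N (by omega) hnN
    have d2 := al0_diff_ge n N (by omega) hnN
    have dm := al0_mono n N (by omega) hnN
    have d3 : 2 / Real.log n * Real.logb 2 ((N : ℝ) / n) ≤ δ := by
      have hln : Real.log ((N : ℝ) / K) ≤ Real.log n := Real.log_le_log (by positivity) hnK.le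
      have hln0 : 0 < Real.log n := by
        refine lt_of_lt_of_le ?_ hln
        exact lt_of_lt_of_le (by positivity) h2
      rw [div_mul_eq_mul_div, div_le_iff₀ hln0]
      rw [div_le_iff₀ hδ] at h2
      have := mul_le_mul_of_nonneg_right hln hδ.le
      linarith
    have d4 : 2 * Real.logb 2 ((N : ℝ) / n) - δ ≤ Λ - al0 n := by
      have : (2 - 2 / Real.log n) * Real.logb 2 ((N : ℝ) / n)
        = 2 * Real.logb 2 ((N : ℝ) / n) - 2 / Real.log n * Real.logb 2 ((N : ℝ) / n) := by ring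
      rw [this] at d2
      linarith
    -- the index
    have f1 := Int.floor_add_fract Λ
    have f2 := Int.floor_add_fract (al0 n)
    have f3 := Int.fract_nonneg (al0 n)
    have f4 : ⌊al0 n⌋ ≤ ⌊Λ⌋ := Int.floor_le_floor dm
    obtain ⟨i, hi⟩ := Int.eq_ofNat_of_zero_le (sub_nonneg.2 f4)
    have hi' : ((⌊Λ⌋ : ℤ) : ℝ) - ((⌊al0 n⌋ : ℤ) : ℝ) = i := by exact_mod_cast hi
    rw [Finset.mem_biUnion]
    refine ⟨i, ?_, ?_⟩
    · rw [Finset.mem_range, hI, Nat.lt_ceil]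
      linarith
    · have k1 : ((i : ℝ) + 1) / 2 - ((1 - θ) / 2 + t / 2) ≤ Real.logb 2 ((N : ℝ) / n) := by linarith
      have k2 : Real.logb 2 ((N : ℝ) / n) ≤ ((i : ℝ) + 1) / 2 - ((1 - θ) / 2 - δ / 2) := by linarith
      rw [Real.le_logb_iff_rpow_le (by norm_num) (by positivity), le_div_iff₀ hn1'] at k1
      rw [Real.logb_le_iff_le_rpow (by norm_num) (by positivity), div_le_iff₀ hn1'] at k2
      rw [Finset.mem_Icc]
      constructor
      · rw [Nat.ceil_le]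
        change (N : ℝ) * (2 : ℝ) ^ (-((i : ℝ) + 1) / 2 + ((1 - θ) / 2 - δ / 2)) ≤ n
        have : (2 : ℝ) ^ (-((i : ℝ) + 1) / 2 + ((1 - θ) / 2 - δ / 2))
            = ((2 : ℝ) ^ (((i : ℝ) + 1) / 2 - ((1 - θ) / 2 - δ / 2)))⁻¹ := by
          rw [← Real.rpow_neg (by norm_num)]
          congr 1
          ring
        rw [this, ← div_eq_mul_inv, div_le_iff₀ (by positivity)]
        linarith
      · apply Nat.le_floor
        change (n : ℝ) ≤ (N : ℝ) * (2 : ℝ) ^ (-((i : ℝ) + 1) / 2 + ((1 - θ) / 2 + t / 2))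
        have : (2 : ℝ) ^ (-((i : ℝ) + 1) / 2 + ((1 - θ) / 2 + t / 2))
            = ((2 : ℝ) ^ (((i : ℝ) + 1) / 2 - ((1 - θ) / 2 + t / 2)))⁻¹ := by
          rw [← Real.rpow_neg (by norm_num)]
          congr 1
          ring
        rw [this, ← div_eq_mul_inv, le_div_iff₀ (by positivity)]
        linarith
  -- counting
  have c1 : (((Finset.Icc 1 N).filter (fun n : ℕ => Int.fract (al0 n) ≤ t)).card : ℝ)
      ≤ (⌊(N : ℝ) / K⌋₊ : ℝ) + ∑ i ∈ Finset.range I, ((Finset.Icc ⌈a i⌉₊ ⌊b i⌋₊).card : ℝ) := by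
    have k1 := (Finset.card_le_card hcov).trans (Finset.card_union_le _ _)
    have k2 : ((Finset.range I).biUnion (fun i => Finset.Icc ⌈a i⌉₊ ⌊b i⌋₊)).card
        ≤ ∑ i ∈ Finset.range I, (Finset.Icc ⌈a i⌉₊ ⌊b i⌋₊).card := Finset.card_biUnion_le
    have k3 := k1.trans (Nat.add_le_add_left k2 _)
    rw [Nat.card_Icc 1, Nat.add_sub_cancel] at k3
    exact_mod_cast k3
  have c2 : (⌊(N : ℝ) / K⌋₊ : ℝ) ≤ ε / 4 * N := by
    refine (Nat.floor_le (by positivity)).trans ?_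
    have := mul_le_mul_of_nonneg_right hKε hN0.le
    rw [one_div_mul_eq_div] at this
    exact this
  have c3 : ∀ i ∈ Finset.range I, ((Finset.Icc ⌈a i⌉₊ ⌊b i⌋₊).card : ℝ)
      ≤ (N * ((2 : ℝ) ^ ((1 - θ) / 2) * ((2 : ℝ) ^ (t / 2) - (2 : ℝ) ^ (-(δ / 2)))))
          * (Real.sqrt 2 / 2 * (Real.sqrt 2 / 2) ^ i) + 1 := by
    intro i _
    have k1 : a i ≤ b i := by
      apply mul_le_mul_of_nonneg_left _ hN0.le
      apply Real.rpow_le_rpow_of_exponent_le (by norm_num)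
      linarith
    have k2 : 0 ≤ a i := by
      change 0 ≤ (N : ℝ) * (2 : ℝ) ^ (-((i : ℝ) + 1) / 2 + ((1 - θ) / 2 - δ / 2))
      positivity
    refine (lf_card _ _ k2 k1).trans (le_of_eq ?_)
    change (N : ℝ) * (2 : ℝ) ^ (-((i : ℝ) + 1) / 2 + ((1 - θ) / 2 + t / 2))
      - (N : ℝ) * (2 : ℝ) ^ (-((i : ℝ) + 1) / 2 + ((1 - θ) / 2 - δ / 2)) + 1 = _
    rw [lf_rpow, lf_rpow, Real.rpow_add (by norm_num), sub_eq_add_neg ((1 - θ) / 2),
      Real.rpow_add (by norm_num)]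
    ring
  have c4 := Finset.sum_le_sum c3
  rw [Finset.sum_add_distrib, ← Finset.mul_sum, Finset.sum_const, Finset.card_range, nsmul_eq_mul,
    mul_one] at c4
  have t1 : (1 : ℝ) ≤ (2 : ℝ) ^ (t / 2) := Real.one_le_rpow (by norm_num) (by linarith)
  have t2 : (2 : ℝ) ^ (t / 2) ≤ 1 + t / 2 := lf_two_rpow _ (by linarith) (by linarith)
  have t3 : (2 : ℝ) ^ (-(δ / 2)) ≤ 1 := Real.rpow_le_one_of_one_le_of_nonpos (by norm_num) (by linarith)
  have t4 : 1 - δ / 2 ≤ (2 : ℝ) ^ (-(δ / 2)) := lf_two_rpow_neg _ (by linarith) (by linarith)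
  have t5 : (2 : ℝ) ^ ((1 - θ) / 2) ≤ 1 + δ / 2 :=
    (lf_two_rpow _ (by linarith) (by linarith)).trans (by linarith)
  have t6 : (2 : ℝ) ^ ((1 - θ) / 2) * ((2 : ℝ) ^ (t / 2) - (2 : ℝ) ^ (-(δ / 2)))
      ≤ (1 + δ / 2) * ((2 : ℝ) ^ (t / 2) - 1 + δ / 2) :=
    mul_le_mul t5 (by linarith) (by linarith) (by linarith)
  have t7 : (1 + δ / 2) * ((2 : ℝ) ^ (t / 2) - 1 + δ / 2) ≤ (2 : ℝ) ^ (t / 2) - 1 + δ := by
    nlinarith
  have hs : Real.sqrt 2 ≤ 1.5 := by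
    rw [Real.sqrt_le_left (by norm_num)]; norm_num
  have hs0 : 0 ≤ Real.sqrt 2 := Real.sqrt_nonneg 2
  have t8 : N * ((2 : ℝ) ^ ((1 - θ) / 2) * ((2 : ℝ) ^ (t / 2) - (2 : ℝ) ^ (-(δ / 2))))
      * ∑ i ∈ Finset.range I, (Real.sqrt 2 / 2 * (Real.sqrt 2 / 2) ^ i)
      ≤ N * ((2 : ℝ) ^ (t / 2) - 1 + δ) * (Real.sqrt 2 + 1) := by
    apply mul_le_mul _ (lf_geom I) (Finset.sum_nonneg fun i _ => by positivity)
    · have : 0 ≤ (2 : ℝ) ^ (t / 2) - 1 + δ := by linarith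
      positivity
    · apply mul_le_mul_of_nonneg_left _ hN0.le
      exact t6.trans t7
  have t9 : (I : ℝ) ≤ ε / 4 * N := by
    rw [div_le_iff₀ hε] at h3
    linarith
  have t10 : δ * (Real.sqrt 2 + 1) ≤ ε / 4 := by nlinarith
  have t11 := mul_le_mul_of_nonneg_left t10 hN0.le
  have t12 : (N : ℝ) * ((Real.sqrt 2 + 1) * ((2 : ℝ) ^ (t / 2) - 1) + ε)
      = N * ((2 : ℝ) ^ (t / 2) - 1 + δ) * (Real.sqrt 2 + 1) - N * (δ * (Real.sqrt 2 + 1)) + N * ε := by ring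
  rw [t12]
  have t13 : 0 ≤ ε * N := by positivity
  linarith

/-- numerical form: `(√2+1)(2^{0.25005}-1) = 0.45692...` -/
theorem low_fract_num : ∃ η : ℝ, 0 < η ∧ ∀ᶠ N : ℕ in atTop, 1 - η ≤ Int.fract (al0 N) →
      (((Finset.Icc 1 N).filter (fun n : ℕ => Int.fract (al0 n) ≤ 5001 / 10000)).card : ℝ)
        ≤ (45700 / 100000 : ℝ) * N := by
  obtain ⟨η, hη, h⟩ := low_fract (5001 / 10000) (1 / 100000) (by norm_num) (by norm_num) (by norm_num)
  refine ⟨η, hη, ?_⟩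
  filter_upwards [h] with N hN hθ
  refine le_trans (le_of_eq ?_) ((hN hθ).trans ?_)
  · congr!
  rw [mul_comm]
  apply mul_le_mul_of_nonneg_right _ (Nat.cast_nonneg _)
  have hs : Real.sqrt 2 ≤ 1.41421357 := by
    rw [Real.sqrt_le_left (by norm_num)]; norm_num
  have hs0 : 0 ≤ Real.sqrt 2 := Real.sqrt_nonneg 2
  have h1 : (2 : ℝ) ^ ((1 : ℝ) / 4) ≤ 1.18921 := by
    have h2 : ((2 : ℝ) ^ ((1 : ℝ) / 4)) ^ 4 = 2 := by
      rw [← Real.rpow_natCast, ← Real.rpow_mul (by norm_num)]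
      norm_num
    by_contra hc
    push Not at hc
    have h3 : (1.18921 : ℝ) ^ 4 < ((2 : ℝ) ^ ((1 : ℝ) / 4)) ^ 4 :=
      pow_lt_pow_left₀ hc (by norm_num) (by norm_num)
    rw [h2] at h3
    norm_num at h3
  have h4 : (2 : ℝ) ^ ((1 : ℝ) / 20000) ≤ 1 + 1 / 20000 := lf_two_rpow _ (by norm_num) (by norm_num)
  have h5 : (2 : ℝ) ^ ((5001 / 10000 : ℝ) / 2) ≤ 1.18921 * (1 + 1 / 20000) := by
    calc (2 : ℝ) ^ ((5001 / 10000 : ℝ) / 2) = (2 : ℝ) ^ ((1 : ℝ) / 4 + 1 / 20000) := by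
          congr 1; norm_num
      _ = (2 : ℝ) ^ ((1 : ℝ) / 4) * (2 : ℝ) ^ ((1 : ℝ) / 20000) := Real.rpow_add (by norm_num) _ _
      _ ≤ 1.18921 * (1 + 1 / 20000) := mul_le_mul h1 h4 (by positivity) (by norm_num)
  have h6 : (1 : ℝ) ≤ (2 : ℝ) ^ ((5001 / 10000 : ℝ) / 2) := Real.one_le_rpow (by norm_num) (by norm_num)
  have h7 : (Real.sqrt 2 + 1) * ((2 : ℝ) ^ ((5001 / 10000 : ℝ) / 2) - 1)
      ≤ (1.41421357 + 1) * (1.18921 * (1 + 1 / 20000) - 1) :=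
    mul_le_mul (by linarith) (by linarith) (by linarith) (by norm_num)
  norm_num at h7 ⊢
  linarith

theorem freq (u v : ℝ) (hu : 0 ≤ u) (huv : u < v) (hv : v ≤ 1) :
    ∃ᶠ N : ℕ in atTop, u ≤ Int.fract (al0 N) ∧ Int.fract (al0 N) ≤ v := by
  set κ := (v - u) / 2 with hκ
  have hκ0 : 0 < κ := by rw [hκ]; linarith
  -- small steps
  have e1 : ∀ᶠ N : ℕ in atTop, 2 * Real.logb 2 (((N + 1 : ℕ) : ℝ) / N) ≤ κ := by
    have h1 : Tendsto (fun N : ℕ => 2 / Real.log 2 * (1 / (N : ℝ))) atTop (𝓝 0) := by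
      have := (tendsto_one_div_atTop_nhds_zero_nat (𝕜 := ℝ)).const_mul (2 / Real.log 2)
      simpa using this
    filter_upwards [h1.eventually_le_const hκ0, eventually_gt_atTop 0] with N hN hN0
    have hN0' : (0 : ℝ) < N := by exact_mod_cast hN0
    refine le_trans ?_ hN
    have h2 : Real.log (((N + 1 : ℕ) : ℝ) / N) ≤ 1 / N := by
      have h3 := Real.log_le_sub_one_of_pos (show 0 < ((N + 1 : ℕ) : ℝ) / N by positivity)
      refine h3.trans (le_of_eq ?_)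
      push_cast
      field_simp
      ring
    unfold Real.logb
    have hl2 : 0 < Real.log 2 := Real.log_pos (by norm_num)
    rw [← mul_div_assoc, div_mul_eq_mul_div]
    apply div_le_div_of_nonneg_right _ hl2.le
    linarith
  obtain ⟨n₀, hn₀⟩ := eventually_atTop.1 e1
  rw [frequently_atTop]
  intro M
  -- a large integer level
  set M' := max (max M n₀) 3 with hM'
  obtain ⟨j, hj⟩ : ∃ j : ℕ, ∀ n ≤ M', al0 n < j := by
    obtain ⟨j, hj⟩ := exists_nat_gt ((Finset.range (M' + 1)).sup' ⟨0, by simp⟩ al0)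
    refine ⟨j, fun n hn => lt_of_le_of_lt ?_ hj⟩
    exact Finset.le_sup' al0 (Finset.mem_range.2 (by omega))
  have hex : ∃ n : ℕ, (j : ℝ) + u ≤ al0 n := by
    obtain ⟨n, hn⟩ := (al0_tendsto.eventually_ge_atTop ((j : ℝ) + u)).exists
    exact ⟨n, hn⟩
  classical
  set m := Nat.find hex with hm
  have hm1 : (j : ℝ) + u ≤ al0 m := Nat.find_spec hex
  have hm2 : ∀ n < m, al0 n < (j : ℝ) + u := fun n hn => not_le.1 (Nat.find_min hex hn)
  have hmM : M' < m := by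
    by_contra hc
    push Not at hc
    have := hj m hc
    linarith
  obtain ⟨k, hk⟩ : ∃ k, m = k + 1 := ⟨m - 1, by omega⟩
  have hkM : M' ≤ k := by omega
  have hkM1 : M ≤ M' := (le_max_left _ _).trans (le_max_left _ _)
  have hkM2 : n₀ ≤ M' := (le_max_right _ _).trans (le_max_left _ _)
  have hkM3 : 3 ≤ M' := le_max_right _ _
  have s1 := hm2 k (by omega)
  have s2 := al0_diff_le k (k + 1) (by omega) (by omega)
  have s3 := hn₀ k (by omega)
  rw [hk] at hm1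
  have hfl : ⌊al0 (k + 1)⌋ = (j : ℤ) := by
    rw [Int.floor_eq_iff]
    push_cast
    constructor
    · linarith
    · linarith
  refine ⟨k + 1, by omega, ?_⟩
  have hfr : Int.fract (al0 (k + 1)) = al0 (k + 1) - j := by
    rw [Int.fract, hfl]
    push_cast
    ring
  rw [hfr]
  constructor
  · linarith
  · linarith

end ZZ51
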