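import Pool.Agent.ZZ51.Local
import Pool.Agent.ZZ51.Avg
import Pool.Agent.ZZ51.LowFract
import Pool.Agent.ZZ51.Bridge

/-!
# ZZ51/Main: assembly (helper51)
-/

set_option autoImplicit false

open Filter Topology

namespace ZZ51

theorem NonConc.mono {n : ℕ} {L m m' : ℝ} (h : NonConc n L m) (hm : m ≤ m') : NonConc n L m' :=
  fun b => (h b).trans hm

open Classical in
/-- general density statement -/
theorem density (δ ε : ℝ) (hδ : 0 < δ) (hε : 0 < ε) :
    ∃ c : ℝ, 0 < c ∧ ∀ᶠ N : ℕ in atTop,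
      ∑ n ∈ Finset.Icc 1 N, (1 - Int.fract (al0 n)) - ε * N
        ≤ (((Finset.Icc 1 N).filter (fun n : ℕ =>
            NonConc n (c * Real.sqrt (mu n (al n)) / Real.log n) (1 / 2 + δ))).card : ℝ) := by
  have hδ' : 0 < min δ (1 / 4) := lt_min hδ (by norm_num)
  have hδ4 : min δ (1 / 4) ≤ 1 / 4 := min_le_right _ _
  obtain ⟨c, hc, h⟩ := window (1 / 2 + min δ (1 / 4)) (1 / 2 - min δ (1 / 4)) ε (by linarith)
    (by linarith) (by linarith) hε
  refine ⟨c, hc, ?_⟩
  filter_upwards [h] with N hN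
  refine hN.trans ?_
  have hsub : (Finset.Icc 1 N).filter (fun n : ℕ =>
        ¬ Bad (1 / 2 + min δ (1 / 4)) (1 / 2 - min δ (1 / 4)) c n)
      ⊆ (Finset.Icc 1 N).filter (fun n : ℕ =>
            NonConc n (c * Real.sqrt (mu n (al n)) / Real.log n) (1 / 2 + δ)) := by
    intro n hn
    rw [Finset.mem_filter] at hn ⊢
    refine ⟨hn.1, (bridge1 n (Finset.mem_Icc.mp hn.1).1 _ c hc.le hn.2).mono ?_⟩
    have := min_le_left δ (1 / 4)
    linarith
  exact_mod_cast Finset.card_le_card hsub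

open Classical in
/-- local version, given the known sharp asymptotics -/
theorem density_local (hS : Sharp) (δ ε κ : ℝ) (hδ : 0 < δ) (hε : 0 < ε) (hκ : 0 < κ) :
    ∃ c : ℝ, 0 < c ∧ ∀ᶠ N : ℕ in atTop,
      ∑ n ∈ Finset.Ioc N ⌊(1 + κ) * (N : ℝ)⌋₊, (1 - Int.fract (al0 n)) - ε * N
        ≤ (((Finset.Ioc N ⌊(1 + κ) * (N : ℝ)⌋₊).filter (fun n : ℕ =>
            NonConc n (c * Real.sqrt (mu n (al n)) / Real.log n) (1 / 2 + δ))).card : ℝ) := by
  have hδ' : 0 < min δ (1 / 4) := lt_min hδ (by norm_num)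
  have hδ4 : min δ (1 / 4) ≤ 1 / 4 := min_le_right _ _
  obtain ⟨c, hc, h⟩ := local_window hS (1 / 2 + min δ (1 / 4)) (1 / 2 - min δ (1 / 4)) ε κ
    (by linarith) (by linarith) (by linarith) hε hκ
  refine ⟨c, hc, ?_⟩
  filter_upwards [h] with N hN
  refine hN.trans ?_
  have hsub : (Finset.Ioc N ⌊(1 + κ) * (N : ℝ)⌋₊).filter (fun n : ℕ =>
        ¬ Bad (1 / 2 + min δ (1 / 4)) (1 / 2 - min δ (1 / 4)) c n)
      ⊆ (Finset.Ioc N ⌊(1 + κ) * (N : ℝ)⌋₊).filter (fun n : ℕ =>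
            NonConc n (c * Real.sqrt (mu n (al n)) / Real.log n) (1 / 2 + δ)) := by
    intro n hn
    rw [Finset.mem_filter] at hn ⊢
    have h1 : 1 ≤ n := by
      have := (Finset.mem_Ioc.mp hn.1).1
      omega
    refine ⟨hn.1, (bridge1 n h1 _ c hc.le hn.2).mono ?_⟩
    have := min_le_left δ (1 / 4)
    linarith
  exact_mod_cast Finset.card_le_card hsub

open Classical in
/-- at least 47 % of all `n` -/
theorem density47 (δ : ℝ) (hδ : 0 < δ) :
    ∃ c : ℝ, 0 < c ∧ ∀ᶠ N : ℕ in atTop,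
      (47 / 100 : ℝ) * N
        ≤ (((Finset.Icc 1 N).filter (fun n : ℕ =>
            NonConc n (c * Real.sqrt (mu n (al n)) / Real.log n) (1 / 2 + δ))).card : ℝ) := by
  obtain ⟨c, hc, h⟩ := density δ (1 / 1000) hδ (by norm_num)
  refine ⟨c, hc, ?_⟩
  filter_upwards [h, avg_fract_num] with N hN hA
  refine le_trans ?_ hN
  rw [Finset.sum_sub_distrib]
  have h0 : (0 : ℝ) ≤ N := Nat.cast_nonneg N
  simp only [Finset.sum_const, Nat.card_Icc, Nat.add_sub_cancel, nsmul_eq_mul, mul_one]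
  nlinarith

open Classical in
/-- upper density at least 1.4 % with the exact conjectured exponent and `ρ > 1/2` -/
theorem density_exact (δ : ℝ) (hδ : 0 < δ) :
    ∃ c : ℝ, 0 < c ∧ ∃ᶠ N : ℕ in atTop,
      (14 / 1000 : ℝ) * N
        ≤ (((Finset.Icc 1 N).filter (fun n : ℕ => 1 / 2 < rho n ∧
            NonConc n (c * (n : ℝ) ^ (lam n) / Real.log n) (1 / 2 + δ))).card : ℝ) := by
  obtain ⟨c, hc, h⟩ := density δ (1 / 100000) hδ (by norm_num)
  obtain ⟨η, hη, hL⟩ := low_fract_num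
  refine ⟨c, hc, ?_⟩
  have hfreq : ∃ᶠ N : ℕ in atTop, 1 - min η (1 / 2) ≤ Int.fract (al0 N) ∧ Int.fract (al0 N) ≤ 1 :=
    freq (1 - min η (1 / 2)) 1 (by have := min_le_right η (1 / 2); linarith)
      (by have : 0 < min η (1 / 2) := lt_min hη (by norm_num)
          linarith) le_rfl
  obtain ⟨n₀, hn₀⟩ := eventually_atTop.mp rho_gt
  have hbig : ∀ᶠ N : ℕ in atTop, (n₀ : ℝ) ≤ 1 / 100000 * N := by
    have : Tendsto (fun N : ℕ => (1 / 100000 : ℝ) * N) atTop atTop :=
      Tendsto.const_mul_atTop (by norm_num) tendsto_natCast_atTop_atTop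
    exact this.eventually_ge_atTop _
  refine (hfreq.and_eventually ((h.and (avg_fract_num.and (hL.and hbig))))).mono ?_
  rintro N ⟨⟨hf, -⟩, hN, hA, hL', hb⟩
  have hlow := hL' (by have := min_le_left η (1 / 2); linarith)
  set G1 := (Finset.Icc 1 N).filter (fun n : ℕ =>
            NonConc n (c * Real.sqrt (mu n (al n)) / Real.log n) (1 / 2 + δ)) with hG1
  set L1 := (Finset.Icc 1 N).filter (fun n : ℕ => Int.fract (al0 n) ≤ 5001 / 10000) with hL1
  set G2 := (Finset.Icc 1 N).filter (fun n : ℕ => 1 / 2 < rho n ∧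
            NonConc n (c * (n : ℝ) ^ (lam n) / Real.log n) (1 / 2 + δ)) with hG2
  have hsub : G1 ⊆ G2 ∪ (L1 ∪ Finset.range n₀) := by
    intro n hn
    rw [hG1, Finset.mem_filter] at hn
    by_cases h1 : n < n₀
    · exact Finset.mem_union_right _ (Finset.mem_union_right _ (Finset.mem_range.mpr h1))
    by_cases h2 : Int.fract (al0 n) ≤ 5001 / 10000
    · refine Finset.mem_union_right _ (Finset.mem_union_left _ ?_)
      rw [hL1, Finset.mem_filter]
      exact ⟨hn.1, h2⟩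
    · refine Finset.mem_union_left _ ?_
      rw [hG2, Finset.mem_filter]
      obtain ⟨hr, hs⟩ := hn₀ n (not_lt.mp h1) (not_le.mp h2)
      refine ⟨hn.1, hr, ?_⟩
      rw [← hs]
      exact hn.2
  have hcard : (G1.card : ℝ) ≤ G2.card + (L1.card + n₀) := by
    have h1 := (Finset.card_le_card hsub).trans (Finset.card_union_le _ _)
    have h2 := Finset.card_union_le L1 (Finset.range n₀)
    rw [Finset.card_range] at h2
    have h3 : G1.card ≤ G2.card + (L1.card + n₀) := h1.trans (by omega)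
    exact_mod_cast h3
  rw [Finset.sum_sub_distrib] at hN
  have h0 : (0 : ℝ) ≤ N := Nat.cast_nonneg N
  simp only [Finset.sum_const, Nat.card_Icc, Nat.add_sub_cancel, nsmul_eq_mul, mul_one] at hN
  nlinarith

open Classical in
/-- upper density at least 2.8 % with probability at most `1/3 + δ` -/
theorem density_third (δ : ℝ) (hδ : 0 < δ) :
    ∃ c : ℝ, 0 < c ∧ ∃ᶠ N : ℕ in atTop,
      (28 / 1000 : ℝ) * N
        ≤ (((Finset.Icc 1 N).filter (fun n : ℕ =>
            NonConc n (c * Real.sqrt (mu n (al n)) / Real.log n) (1 / 3 + δ))).card : ℝ) := by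
  have hδ' : 0 < min (δ / 2) (1 / 4) := lt_min (by linarith) (by norm_num)
  have hδ4 : min (δ / 2) (1 / 4) ≤ 1 / 4 := min_le_right _ _
  have hδ2 : min (δ / 2) (1 / 4) ≤ δ / 2 := min_le_left _ _
  obtain ⟨d, hd⟩ : ∃ d : ℝ, d = min (δ / 2) (1 / 4) := ⟨_, rfl⟩
  rw [← hd] at hδ' hδ4 hδ2
  obtain ⟨c1, hc1, h1⟩ := window (1 / 3 + d) (1 / 3 - d) (1 / 10000) (by linarith)
    (by linarith) (by linarith) (by norm_num)
  obtain ⟨c2, hc2, h2⟩ := window (2 / 3 + d) (2 / 3 - d) (1 / 10000) (by linarith)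
    (by linarith) (by linarith) (by norm_num)
  obtain ⟨η, hη, hA⟩ := avg_fract_half
  have hc : 0 < min c1 c2 := lt_min hc1 hc2
  refine ⟨min c1 c2, hc, ?_⟩
  have hη' : 0 < min η (1 / 2) := lt_min hη (by norm_num)
  have hfreq : ∃ᶠ N : ℕ in atTop, 1 / 2 ≤ Int.fract (al0 N) ∧
      Int.fract (al0 N) ≤ 1 / 2 + min η (1 / 2) :=
    freq (1 / 2) (1 / 2 + min η (1 / 2)) (by norm_num) (by linarith)
      (by have := min_le_right η (1 / 2); linarith)
  refine (hfreq.and_eventually (h1.and (h2.and hA))).mono ?_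
  rintro N ⟨⟨hf1, hf2⟩, hN1, hN2, hA'⟩
  have hA2 := hA' (by
    rw [abs_le]
    have := min_le_left η (1 / 2)
    constructor <;> linarith)
  set A := (Finset.Icc 1 N).filter (fun n : ℕ => ¬ Bad (1 / 3 + d) (1 / 3 - d) c1 n) with hAdef
  set B := (Finset.Icc 1 N).filter (fun n : ℕ => ¬ Bad (2 / 3 + d) (2 / 3 - d) c2 n) with hBdef
  set G := (Finset.Icc 1 N).filter (fun n : ℕ =>
            NonConc n (min c1 c2 * Real.sqrt (mu n (al n)) / Real.log n) (1 / 3 + δ)) with hG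
  have hAB : A ∩ B ⊆ G := by
    intro n hn
    rw [Finset.mem_inter, hAdef, hBdef, Finset.mem_filter, Finset.mem_filter] at hn
    rw [hG, Finset.mem_filter]
    refine ⟨hn.1.1, ?_⟩
    refine (bridge2 n (Finset.mem_Icc.mp hn.1.1).1 d (min c1 c2) hc.le hδ'
      (fun h => hn.1.2 (Bad_mono _ _ _ _ (min_le_left _ _) n h))
      (fun h => hn.2.2 (Bad_mono _ _ _ _ (min_le_right _ _) n h))).mono (by linarith)
  have hcardU : (A ∪ B).card ≤ N := by
    have : A ∪ B ⊆ Finset.Icc 1 N :=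
      Finset.union_subset (Finset.filter_subset _ _) (Finset.filter_subset _ _)
    simpa using Finset.card_le_card this
  have hcard : (A.card : ℝ) + B.card ≤ N + G.card := by
    have h3 := Finset.card_union_add_card_inter A B
    have h4 := Finset.card_le_card hAB
    have h5 : A.card + B.card ≤ N + G.card := by omega
    exact_mod_cast h5
  rw [Finset.sum_sub_distrib] at hN1 hN2
  have h0 : (0 : ℝ) ≤ N := Nat.cast_nonneg N
  simp only [Finset.sum_const, Nat.card_Icc, Nat.add_sub_cancel, nsmul_eq_mul, mul_one] at hN1 hN2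
  nlinarith

end ZZ51
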