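import Pool.Agent.ZZ51.Card

/-!
# ZZ51/VarChi: the variance of χ is at most `n` (vertex exposure, Efron-Stein)

`spread_le`: if `x ≤ y` then `(y-x)² P(χ ≤ x) P(χ > y) ≤ n`.
PROOF. Let `Ω = SimpleGraph (Fin n)` and call `f : Ω → ℝ` vertex-Lipschitz if `|f G - f G'| ≤ 1`
whenever `G`, `G'` differ only in edges at one vertex `v`. Claim: `∑_{G,G'} (f G - f G')² ≤ 2 · n · M²`,
`M = |Ω| = 2^{C(n,2)}` (i.e. `2 Var f ≤ 2 n`; even `n/2` is true). Induction on `n`:
`Ω_{n+1} ≃ Ω_n × (Fin n → Bool)` (the last vertex's neighbourhood), `g H = average over r of f(H,r)`;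
`g` is vertex-Lipschitz and `Var f = E_H Var_r f(H,·) + Var g ≤ 1 + Var g` as `f(H,·)` has range of
length `≤ 1`.  (Any other proof of the Efron-Stein bound is fine, e.g. on `∀ i : Fin n, (Fin i → Bool)`.)
Apply it to `f G = χ(G)` (or to `f G = min (max χ(G) x) (y+1)`..., or to the number
`#{z < n : ¬ G.Colorable z}`, which equals `χ(G)` and is vertex-Lipschitz because deleting a vertex changes
`χ` by at most one): all pairs with `χ(G) ≤ x`, `χ(G') > y` contribute `≥ (y-x)²`, twice.
-/

set_option autoImplicit false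

namespace ZZ51

open Finset in
/-- the variance (times the square of the size of the space) as a sum over pairs -/
theorem pair_sum {B : Type} [Fintype B] (h : B → ℝ) :
    ∑ b, ∑ b', (h b - h b') ^ 2 =
      2 * ((Fintype.card B : ℝ) * ∑ b, h b ^ 2 - (∑ b, h b) ^ 2) := by
  have h1 : ∀ b b', (h b - h b') ^ 2 = h b ^ 2 + h b' ^ 2 - 2 * (h b * h b') := fun b b' => by ring
  simp_rw [h1, Finset.sum_sub_distrib, Finset.sum_add_distrib, Finset.sum_const,
    ← Finset.mul_sum, ← Finset.sum_mul, Finset.card_univ, nsmul_eq_mul]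
  rw [← Finset.mul_sum]
  ring

theorem var_le_of_range {B : Type} [Fintype B] (h : B → ℝ) (c : ℝ)
    (hc : ∀ b b', |h b - h b'| ≤ c) :
    (Fintype.card B : ℝ) * ∑ b, h b ^ 2 - (∑ b, h b) ^ 2 ≤
      c ^ 2 * (Fintype.card B : ℝ) ^ 2 / 2 := by
  have h1 : ∑ b, ∑ b', (h b - h b') ^ 2 ≤ ∑ _b : B, ∑ _b' : B, c ^ 2 := by
    refine Finset.sum_le_sum fun b _ => Finset.sum_le_sum fun b' _ => ?_
    rw [← sq_abs]
    exact pow_le_pow_left₀ (abs_nonneg _) (hc b b') 2
  rw [pair_sum] at h1
  simp only [Finset.sum_const, Finset.card_univ, nsmul_eq_mul] at h1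
  nlinarith

/-- Efron-Stein for functions on a power of a finite set with bounded differences -/
theorem efron_stein {B : Type} [Fintype B] : ∀ (n : ℕ) (f : (Fin n → B) → ℝ) (c : ℝ),
    0 ≤ c → (∀ (ω : Fin n → B) (i : Fin n) (b : B), |f (Function.update ω i b) - f ω| ≤ c) →
    (Fintype.card (Fin n → B) : ℝ) * ∑ ω, f ω ^ 2 - (∑ ω, f ω) ^ 2 ≤
      n * c ^ 2 * (Fintype.card (Fin n → B) : ℝ) ^ 2 / 2 := by
  intro n
  induction n with
  | zero =>
    intro f c _ _
    simp
  | succ n ih =>
    intro f c hc hf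
    set g : (Fin n → B) → ℝ := fun ω => ∑ b, f (Fin.cons b ω) with hg
    have hsum : ∀ F : (Fin (n + 1) → B) → ℝ, ∑ ω, F ω = ∑ ω : Fin n → B, ∑ b, F (Fin.cons b ω) := by
      intro F
      rw [← (Fin.consEquiv (fun _ : Fin (n + 1) => B)).sum_comp F, Fintype.sum_prod_type,
        Finset.sum_comm]
      rfl
    have hcard : (Fintype.card (Fin (n + 1) → B) : ℝ) =
        (Fintype.card (Fin n → B) : ℝ) * Fintype.card B := by
      simp [pow_succ]
    have hglip : ∀ (ω : Fin n → B) (i : Fin n) (b : B),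
        |g (Function.update ω i b) - g ω| ≤ (Fintype.card B : ℝ) * c := by
      intro ω i b
      rw [hg]
      simp only
      rw [← Finset.sum_sub_distrib]
      refine (Finset.abs_sum_le_sum_abs _ _).trans ?_
      have : ∀ b' ∈ (Finset.univ : Finset B),
          |f (Fin.cons b' (Function.update ω i b)) - f (Fin.cons b' ω)| ≤ c := by
        intro b' _
        rw [Fin.cons_update]
        exact hf _ _ _
      refine (Finset.sum_le_sum this).trans (le_of_eq ?_)
      rw [Finset.sum_const, Finset.card_univ, nsmul_eq_mul]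
    have h1 := ih g ((Fintype.card B : ℝ) * c) (by positivity) hglip
    have h2 : ∀ ω : Fin n → B, (Fintype.card B : ℝ) * ∑ b, f (Fin.cons b ω) ^ 2 - g ω ^ 2 ≤
        c ^ 2 * (Fintype.card B : ℝ) ^ 2 / 2 := by
      intro ω
      refine var_le_of_range (fun b => f (Fin.cons b ω)) c fun b b' => ?_
      have h3 : (Fin.cons b ω : Fin (n + 1) → B) =
          Function.update (Fin.cons b' ω : Fin (n + 1) → B) 0 b := by
        rw [Fin.update_cons_zero]
      rw [h3]
      exact hf _ _ _
    have h3 : (Fintype.card B : ℝ) * ∑ ω : Fin n → B, ∑ b, f (Fin.cons b ω) ^ 2 -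
        ∑ ω : Fin n → B, g ω ^ 2 ≤
        Fintype.card (Fin n → B) * (c ^ 2 * (Fintype.card B : ℝ) ^ 2 / 2) := by
      rw [Finset.mul_sum, ← Finset.sum_sub_distrib]
      refine (Finset.sum_le_sum fun ω _ => h2 ω).trans (le_of_eq ?_)
      rw [Finset.sum_const, Finset.card_univ, nsmul_eq_mul]
    rw [hsum, hsum, hcard]
    have h4 : ∑ ω : Fin n → B, ∑ b, f (Fin.cons b ω) = ∑ ω, g ω := rfl
    rw [h4]
    set a : ℝ := (Fintype.card (Fin n → B) : ℝ) with ha
    have ha0 : 0 ≤ a := Nat.cast_nonneg _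
    have h5 := mul_le_mul_of_nonneg_left h3 ha0
    push_cast
    nlinarith

/-- the graph of an exposure sequence -/
def Gr {n : ℕ} (ω : Fin n → Fin n → Bool) : SimpleGraph (Fin n) where
  Adj u v := u ≠ v ∧ ω (max u v) (min u v) = true
  symm := ⟨fun u v h => ⟨h.1.symm, by rw [max_comm, min_comm]; exact h.2⟩⟩
  loopless := ⟨fun u h => h.1 rfl⟩

open Classical in
theorem fiber_card {n : ℕ} (H H' : SimpleGraph (Fin n)) :
    (Finset.univ.filter (fun ω : Fin n → Fin n → Bool => Gr ω = H)).card =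
      (Finset.univ.filter (fun ω : Fin n → Fin n → Bool => Gr ω = H')).card := by
  have key : ∀ H H' : SimpleGraph (Fin n),
      (Finset.univ.filter (fun ω : Fin n → Fin n → Bool => Gr ω = H)).card ≤
      (Finset.univ.filter (fun ω : Fin n → Fin n → Bool => Gr ω = H')).card := by
    intro H H'
    refine Finset.card_le_card_of_injOn
      (fun ω => fun u v => if v < u then decide (H'.Adj u v) else ω u v) ?_ ?_
    · intro ω hω
      simp only [Finset.coe_filter, Finset.mem_univ, true_and, Set.mem_setOf_eq] at hω ⊢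
      ext u v
      show (u ≠ v ∧ (if min u v < max u v then decide (H'.Adj (max u v) (min u v)) else
        ω (max u v) (min u v)) = true) ↔ H'.Adj u v
      constructor
      · rintro ⟨h1, h2⟩
        rw [if_pos (min_lt_max.mpr h1)] at h2
        have h3 := of_decide_eq_true h2
        rcases le_total u v with h | h
        · rw [max_eq_right h, min_eq_left h] at h3; exact h3.symm
        · rw [max_eq_left h, min_eq_right h] at h3; exact h3
      · intro h
        refine ⟨h.ne, ?_⟩
        rw [if_pos (min_lt_max.mpr h.ne)]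
        rcases le_total u v with h' | h'
        · rw [max_eq_right h', min_eq_left h']; exact decide_eq_true h.symm
        · rw [max_eq_left h', min_eq_right h']; exact decide_eq_true h
    · intro ω hω ω' hω' heq
      simp only [Finset.coe_filter, Finset.mem_univ, true_and, Set.mem_setOf_eq] at hω hω'
      funext u v
      have h1 := congrFun (congrFun heq u) v
      simp only at h1
      by_cases huv : v < u
      · have h2 : (Gr ω).Adj u v ↔ (Gr ω').Adj u v := by rw [hω, hω']
        have h3 : (Gr ω).Adj u v ↔ ω u v = true := by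
          show (u ≠ v ∧ ω (max u v) (min u v) = true) ↔ _
          rw [max_eq_left huv.le, min_eq_right huv.le]
          exact ⟨fun h => h.2, fun h => ⟨huv.ne', h⟩⟩
        have h4 : (Gr ω').Adj u v ↔ ω' u v = true := by
          show (u ≠ v ∧ ω' (max u v) (min u v) = true) ↔ _
          rw [max_eq_left huv.le, min_eq_right huv.le]
          exact ⟨fun h => h.2, fun h => ⟨huv.ne', h⟩⟩
        rw [h3, h4] at h2
        exact Bool.eq_iff_iff.mpr h2
      · rw [if_neg huv, if_neg huv] at h1
        exact h1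
  exact le_antisymm (key H H') (key H' H)

open Classical in
theorem Pr_eq (n : ℕ) (P : SimpleGraph (Fin n) → Prop) :
    Pr n P = ((Finset.univ.filter (fun ω : Fin n → Fin n → Bool => P (Gr ω))).card : ℝ) /
      Fintype.card (Fin n → Fin n → Bool) := by
  set K := (Finset.univ.filter (fun ω : Fin n → Fin n → Bool => Gr ω = ⊥)).card with hK
  have hcnt : ∀ Q : SimpleGraph (Fin n) → Prop,
      (Finset.univ.filter (fun ω : Fin n → Fin n → Bool => Q (Gr ω))).card =
        Nat.card {G : SimpleGraph (Fin n) // Q G} * K := by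
    intro Q
    rw [Finset.card_eq_sum_card_fiberwise (f := fun ω => Gr ω)
      (t := Finset.univ.filter (fun G : SimpleGraph (Fin n) => Q G))
      (by
        intro ω hω
        simp only [Finset.coe_filter, Finset.mem_univ, true_and, Set.mem_setOf_eq] at hω ⊢
        exact hω)]
    have h1 : ∀ G ∈ Finset.univ.filter (fun G : SimpleGraph (Fin n) => Q G),
        ((Finset.univ.filter (fun ω : Fin n → Fin n → Bool => Q (Gr ω))).filter
          (fun ω => Gr ω = G)).card = K := by
      intro G hG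
      rw [hK, ← fiber_card G ⊥, Finset.filter_filter]
      congr 1
      ext ω
      simp only [Finset.mem_filter, Finset.mem_univ, true_and]
      exact ⟨fun h => h.2, fun h => ⟨by rw [h]; exact (Finset.mem_filter.mp hG).2, h⟩⟩
    rw [Finset.sum_congr rfl h1, Finset.sum_const, smul_eq_mul, Nat.card_eq_fintype_card,
      Fintype.card_subtype]
  have hall := hcnt (fun _ => True)
  simp only [Finset.filter_true, Finset.card_univ] at hall
  have htrue : Nat.card {G : SimpleGraph (Fin n) // True} = 2 ^ (n.choose 2) := by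
    rw [← card_graph n]
    exact Nat.card_congr (Equiv.subtypeUnivEquiv fun _ => trivial)
  rw [htrue] at hall
  have hpos : 0 < Fintype.card (Fin n → Fin n → Bool) := Fintype.card_pos
  have hKpos : 0 < K := by
    rcases Nat.eq_zero_or_pos K with h | h
    · rw [h, mul_zero] at hall; omega
    · exact h
  rw [hcnt P, hall, Pr]
  push_cast
  have hK0 : (K : ℝ) ≠ 0 := by exact_mod_cast hKpos.ne'
  rw [mul_div_mul_right _ _ hK0]

/-- the chromatic number as a natural number -/
noncomputable def chr {n : ℕ} (G : SimpleGraph (Fin n)) : ℕ := sInf {k | G.Colorable k}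

theorem chr_col {n : ℕ} (G : SimpleGraph (Fin n)) : G.Colorable (chr G) :=
  Nat.sInf_mem (s := {k | G.Colorable k}) ⟨_, G.colorable_of_fintype⟩

theorem chr_le_iff {n : ℕ} (G : SimpleGraph (Fin n)) (x : ℕ) : chr G ≤ x ↔ G.Colorable x :=
  ⟨fun h => (chr_col G).mono h, fun h => Nat.sInf_le h⟩

theorem chr_near {n : ℕ} (G G' : SimpleGraph (Fin n)) (v : Fin n)
    (h : ∀ u w, u ≠ v → w ≠ v → (G'.Adj u w ↔ G.Adj u w)) : chr G' ≤ chr G + 1 := by
  rw [chr_le_iff]
  obtain ⟨C⟩ := chr_col G
  refine ⟨SimpleGraph.Coloring.mk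
    (fun u => if u = v then Fin.last (chr G) else (C u).castSucc) ?_⟩
  intro u w huw
  by_cases hu : u = v
  · have hw : w ≠ v := fun hw => huw.ne (hu.trans hw.symm)
    rw [if_pos hu, if_neg hw]
    exact (Fin.castSucc_lt_last _).ne'
  · by_cases hw : w = v
    · rw [if_neg hu, if_pos hw]
      exact (Fin.castSucc_lt_last _).ne
    · rw [if_neg hu, if_neg hw]
      intro heq
      exact C.valid ((h u w hu hw).mp huw) (Fin.castSucc_injective _ heq)

theorem Gr_update {n : ℕ} (ω : Fin n → Fin n → Bool) (i : Fin n) (b : Fin n → Bool)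
    (u w : Fin n) (hu : u ≠ i) (hw : w ≠ i) :
    (Gr (Function.update ω i b)).Adj u w ↔ (Gr ω).Adj u w := by
  show (u ≠ w ∧ Function.update ω i b (max u w) (min u w) = true) ↔
    (u ≠ w ∧ ω (max u w) (min u w) = true)
  have : max u w ≠ i := by
    rcases max_choice u w with h | h <;> rw [h] <;> assumption
  rw [Function.update_of_ne this]

open Classical in
theorem spread_le (n x y : ℕ) (hxy : x ≤ y) :
    ((y : ℝ) - x) ^ 2 * (1 - T n x) * T n y ≤ n := by
  set Ω := Fin n → Fin n → Bool with hΩ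
  set f : Ω → ℝ := fun ω => (chr (Gr ω) : ℝ) with hf
  have hlip : ∀ (ω : Ω) (i : Fin n) (b : Fin n → Bool),
      |f (Function.update ω i b) - f ω| ≤ 1 := by
    intro ω i b
    have h1 := chr_near (Gr ω) (Gr (Function.update ω i b)) i (Gr_update ω i b)
    have h2 := chr_near (Gr (Function.update ω i b)) (Gr ω) i
      (fun u w hu hw => (Gr_update ω i b u w hu hw).symm)
    have h1' : (chr (Gr (Function.update ω i b)) : ℝ) ≤ chr (Gr ω) + 1 := by exact_mod_cast h1
    have h2' : (chr (Gr ω) : ℝ) ≤ chr (Gr (Function.update ω i b)) + 1 := by exact_mod_cast h2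
    rw [abs_le]
    constructor
    · show -1 ≤ (chr (Gr (Function.update ω i b)) : ℝ) - chr (Gr ω)
      linarith
    · show (chr (Gr (Function.update ω i b)) : ℝ) - chr (Gr ω) ≤ 1
      linarith
  have hES := efron_stein n f 1 zero_le_one hlip
  set A := Finset.univ.filter (fun ω : Ω => (Gr ω).Colorable x) with hA
  set B := Finset.univ.filter (fun ω : Ω => ¬ (Gr ω).Colorable y) with hB
  have hcardpos : (0 : ℝ) < Fintype.card Ω := by exact_mod_cast Fintype.card_pos
  have hTy : T n y = (B.card : ℝ) / Fintype.card Ω := by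
    rw [T, Pr_eq, hB]
    congr!
  have hTx : 1 - T n x = (A.card : ℝ) / Fintype.card Ω := by
    rw [T, Pr_compl, sub_sub_cancel]
    exact Pr_eq n (fun G => G.Colorable x)
  have hxyr : (x : ℝ) ≤ y := by exact_mod_cast hxy
  have hAB : ∀ ω ∈ A, ∀ ω' ∈ B, ((y : ℝ) - x) ^ 2 ≤ (f ω - f ω') ^ 2 := by
    intro ω hω ω' hω'
    have h1 : chr (Gr ω) ≤ x := (chr_le_iff _ _).mpr (Finset.mem_filter.mp hω).2
    have h2 : y < chr (Gr ω') := by
      by_contra h
      exact (Finset.mem_filter.mp hω').2 ((chr_le_iff _ _).mp (not_lt.mp h))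
    have h1' : f ω ≤ x := Nat.cast_le.mpr h1
    have h2' : (y : ℝ) ≤ f ω' := Nat.cast_le.mpr h2.le
    nlinarith
  have hsumAB : ((y : ℝ) - x) ^ 2 * (A.card * B.card) ≤ ∑ ω, ∑ ω', (f ω - f ω') ^ 2 := by
    have h1 : ∑ ω ∈ A, ∑ ω' ∈ B, ((y : ℝ) - x) ^ 2 ≤ ∑ ω ∈ A, ∑ ω' ∈ B, (f ω - f ω') ^ 2 :=
      Finset.sum_le_sum fun ω hω => Finset.sum_le_sum fun ω' hω' => hAB ω hω ω' hω'
    have h2 : ∑ ω ∈ A, ∑ ω' ∈ B, (f ω - f ω') ^ 2 ≤ ∑ ω, ∑ ω', (f ω - f ω') ^ 2 := by
      refine (Finset.sum_le_sum fun ω _ => Finset.sum_le_sum_of_subset_of_nonneg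
        (Finset.subset_univ B) fun _ _ _ => sq_nonneg _).trans ?_
      exact Finset.sum_le_sum_of_subset_of_nonneg (Finset.subset_univ A)
        fun _ _ _ => Finset.sum_nonneg fun _ _ => sq_nonneg _
    refine le_trans (le_of_eq ?_) (h1.trans h2)
    simp only [Finset.sum_const, nsmul_eq_mul]
    ring
  rw [pair_sum] at hsumAB
  rw [hTx, hTy]
  have h3 : ((y : ℝ) - x) ^ 2 * (A.card / Fintype.card Ω) * (B.card / Fintype.card Ω) =
      ((y : ℝ) - x) ^ 2 * (A.card * B.card) / (Fintype.card Ω : ℝ) ^ 2 := by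
    field_simp
  rw [h3, div_le_iff₀ (by positivity)]
  have h4 : ((n : ℝ) * 1 ^ 2 * (Fintype.card Ω : ℝ) ^ 2) / 2 * 2 =
      (n : ℝ) * (Fintype.card Ω : ℝ) ^ 2 := by ring
  nlinarith

end ZZ51
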