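import Pool.Agent.ZZ51.Defs

/-!
# ZZ51/Alpha: elementary facts on `α₀(n)`

`al0 n = 2 log₂ n - 2 log₂ log₂ n + 2/log 2 - 1` (`2 log₂(e/2) + 1 = 2/log 2 - 1 = 1.885...`).
`al0_diff`: `al0 n - al0 m = 2 log₂(n/m) - 2 log₂(log n/log m)` and
`0 ≤ log₂(log n/log m) ≤ (log n/log m - 1)/log 2 = log₂(n/m)/log m`.
`al0_window`: for `N/(log N)³ ≤ n ≤ N`: `0 ≤ al0 N - al0 n ≤ 2 log₂((log N)³) = 6 log₂ log N`, and
`al0 N ≥ log N`.
-/

set_option autoImplicit false

open Filter Topology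

namespace ZZ51

private lemma log2_lo : (2 / 3 : ℝ) ≤ Real.log 2 := by
  have := Real.log_two_gt_d9
  norm_num at this ⊢
  linarith

private lemma log2_hi : Real.log 2 ≤ (7 / 10 : ℝ) := by
  have := Real.log_two_lt_d9
  norm_num at this ⊢
  linarith

private lemma log2_pos : 0 < Real.log 2 := Real.log_pos (by norm_num)

theorem al0_eq (n : ℕ) :
    al0 n = 2 * Real.logb 2 (n : ℝ) - 2 * Real.logb 2 (Real.logb 2 (n : ℝ))
      + 2 / Real.log 2 - 1 := by
  have h : Real.logb 2 (Real.exp 1 / 2) = 1 / Real.log 2 - 1 := by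
    have h2 := log2_pos
    unfold Real.logb
    rw [Real.log_div (Real.exp_pos 1).ne' two_ne_zero, Real.log_exp, sub_div, div_self h2.ne']
  unfold al0
  rw [h]
  ring

private lemma logb_pos' {m : ℕ} (hm : 2 ≤ m) : 1 ≤ Real.logb 2 (m : ℝ) := by
  have h : Real.logb 2 2 ≤ Real.logb 2 (m : ℝ) :=
    Real.logb_le_logb_of_le (by norm_num) (by norm_num) (by exact_mod_cast hm)
  rwa [Real.logb_self_eq_one (by norm_num)] at h

theorem al0_diff_le (m n : ℕ) (hm : 2 ≤ m) (h : m ≤ n) :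
    al0 n - al0 m ≤ 2 * Real.logb 2 ((n : ℝ) / m) := by
  have hm0 : (0 : ℝ) < m := by exact_mod_cast (by omega : 0 < m)
  have hn0 : (0 : ℝ) < n := by exact_mod_cast (by omega : 0 < n)
  have h1 := logb_pos' hm
  have h2 : Real.logb 2 (m : ℝ) ≤ Real.logb 2 (n : ℝ) :=
    Real.logb_le_logb_of_le (by norm_num) hm0 (by exact_mod_cast h)
  have h3 : Real.logb 2 (Real.logb 2 (m : ℝ)) ≤ Real.logb 2 (Real.logb 2 (n : ℝ)) :=
    Real.logb_le_logb_of_le (by norm_num) (by linarith) h2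
  rw [al0_eq, al0_eq, Real.logb_div hn0.ne' hm0.ne']
  linarith

theorem al0_diff_ge (m n : ℕ) (hm : 2 ≤ m) (h : m ≤ n) :
    (2 - 2 / Real.log m) * Real.logb 2 ((n : ℝ) / m) ≤ al0 n - al0 m := by
  have hm0 : (0 : ℝ) < m := by exact_mod_cast (by omega : 0 < m)
  have hn0 : (0 : ℝ) < n := by exact_mod_cast (by omega : 0 < n)
  have hl2 := log2_pos
  have hlm : 0 < Real.log m := Real.log_pos (by exact_mod_cast (by omega : 1 < m))
  have hln : 0 < Real.log n := Real.log_pos (by exact_mod_cast (by omega : 1 < n))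
  have h1 := logb_pos' hm
  have h1n := logb_pos' (le_trans hm h)
  have key : Real.logb 2 (Real.logb 2 (n : ℝ)) - Real.logb 2 (Real.logb 2 (m : ℝ)) ≤
      Real.logb 2 ((n : ℝ) / m) / Real.log m := by
    rw [← Real.logb_div (by linarith) (by linarith)]
    have h3 : Real.logb 2 (n : ℝ) / Real.logb 2 (m : ℝ) = Real.log n / Real.log m := by
      unfold Real.logb
      field_simp
    rw [h3]
    unfold Real.logb
    rw [Real.log_div hn0.ne' hm0.ne', div_div, div_le_div_iff₀ hl2 (mul_pos hl2 hlm)]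
    have h4 := Real.log_le_sub_one_of_pos (div_pos hln hlm)
    have h5 : Real.log (Real.log n / Real.log m) * Real.log m ≤ Real.log n - Real.log m := by
      have := mul_le_mul_of_nonneg_right h4 hlm.le
      rwa [sub_mul, div_mul_cancel₀ _ hlm.ne', one_mul] at this
    have h6 := mul_le_mul_of_nonneg_left h5 hl2.le
    linarith
  rw [al0_eq, al0_eq, sub_mul, div_mul_eq_mul_div, mul_div_assoc]
  rw [Real.logb_div hn0.ne' hm0.ne'] at key ⊢
  linarith

private lemma one_le_log {m : ℕ} (hm : 3 ≤ m) : 1 ≤ Real.log m := by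
  have h := Real.exp_one_lt_d9
  rw [Real.le_log_iff_exp_le (by exact_mod_cast (by omega : 0 < m))]
  have h3 : (3 : ℝ) ≤ m := by exact_mod_cast hm
  norm_num at h
  linarith

theorem al0_mono (m n : ℕ) (hm : 3 ≤ m) (h : m ≤ n) : al0 m ≤ al0 n := by
  have h1 := al0_diff_ge m n (by omega) h
  have h2 := one_le_log hm
  have hm0 : (0 : ℝ) < m := by exact_mod_cast (by omega : 0 < m)
  have h3 : 0 ≤ Real.logb 2 ((n : ℝ) / m) := by
    apply Real.logb_nonneg (by norm_num)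
    rw [one_le_div hm0]
    exact_mod_cast h
  have h4 : 0 ≤ 2 - 2 / Real.log m := by
    rw [sub_nonneg, div_le_iff₀ (by linarith)]
    linarith
  have := mul_nonneg h4 h3
  linarith

private lemma al0_lin : ∃ C : ℝ, ∀ n : ℕ, 8 ≤ n → Real.log n + (2 / 5) * Real.log n - C ≤ al0 n := by
  refine ⟨(7 / 5) * (3 * Real.log 2) - al0 8, fun n hn => ?_⟩
  have h1 := al0_diff_ge 8 n (by norm_num) hn
  have hn0 : (0 : ℝ) < n := by exact_mod_cast (by omega : 0 < n)
  have hl2 := log2_pos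
  have hlo := log2_lo
  have hhi := log2_hi
  have h8 : Real.log ((8 : ℕ) : ℝ) = 3 * Real.log 2 := by
    have : ((8 : ℕ) : ℝ) = 2 ^ 3 := by norm_num
    rw [this, Real.log_pow]
    norm_num
  have h2 : 1 ≤ 2 - 2 / Real.log ((8 : ℕ) : ℝ) := by
    rw [h8, le_sub_comm, div_le_iff₀ (by linarith)]
    linarith
  have h3 : 0 ≤ Real.log ((n : ℝ) / ((8 : ℕ) : ℝ)) := by
    apply Real.log_nonneg
    rw [one_le_div (by norm_num)]
    exact_mod_cast hn
  have h4 : (7 / 5) * Real.log ((n : ℝ) / ((8 : ℕ) : ℝ)) ≤ Real.logb 2 ((n : ℝ) / ((8 : ℕ) : ℝ)) := by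
    unfold Real.logb
    rw [le_div_iff₀ hl2]
    have := mul_le_mul_of_nonneg_left hhi (mul_nonneg (by norm_num : (0:ℝ) ≤ 7/5) h3)
    linarith
  have h5 : 0 ≤ Real.logb 2 ((n : ℝ) / ((8 : ℕ) : ℝ)) := le_trans (by positivity) h4
  have h6 : Real.logb 2 ((n : ℝ) / ((8 : ℕ) : ℝ)) ≤
      (2 - 2 / Real.log ((8 : ℕ) : ℝ)) * Real.logb 2 ((n : ℝ) / ((8 : ℕ) : ℝ)) := by
    have := mul_le_mul_of_nonneg_right h2 h5
    linarith
  rw [Real.log_div hn0.ne' (by norm_num), h8] at h4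
  linarith

private lemma tlog : Tendsto (fun n : ℕ => Real.log (n : ℝ)) atTop atTop :=
  Real.tendsto_log_atTop.comp tendsto_natCast_atTop_atTop

theorem al0_tendsto : Tendsto al0 atTop atTop := by
  obtain ⟨C, hC⟩ := al0_lin
  have h1 : Tendsto (fun n : ℕ => Real.log (n : ℝ) + (-C)) atTop atTop :=
    tendsto_atTop_add_const_right _ _ tlog
  refine tendsto_atTop_mono' _ ?_ h1
  filter_upwards [eventually_ge_atTop 8] with n hn
  have h2 := hC n hn
  have h3 : 0 ≤ Real.log (n : ℝ) := Real.log_natCast_nonneg n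
  linarith

/-- `log n ≤ α₀(n) ≤ 2 log₂ n ≤ 3 log n` for large `n` -/
theorem al0_bounds : ∀ᶠ n : ℕ in atTop,
    Real.log n ≤ al0 n ∧ al0 n ≤ 2 * Real.logb 2 (n : ℝ) ∧ al0 n ≤ 3 * Real.log n ∧
      2 * Real.logb 2 (n : ℝ) - 2 * Real.logb 2 (Real.logb 2 (n : ℝ)) ≤ al0 n := by
  obtain ⟨C, hC⟩ := al0_lin
  filter_upwards [eventually_ge_atTop 8, tlog.eventually_ge_atTop (5 / 2 * C)] with n hn hl
  have hlo := log2_lo
  have hhi := log2_hi
  have hl2 := log2_pos
  have h1 := hC n hn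
  have hn0 : (0 : ℝ) < n := by exact_mod_cast (by omega : 0 < n)
  have hln : 0 ≤ Real.log (n : ℝ) := Real.log_natCast_nonneg n
  have h2 : 2 / Real.log 2 - 1 ≤ 2 := by
    rw [sub_le_iff_le_add, div_le_iff₀ hl2]
    linarith
  have h3 : 0 ≤ 2 / Real.log 2 - 1 := by
    rw [sub_nonneg, le_div_iff₀ hl2]
    linarith
  have h4 : (2 : ℝ) ≤ Real.logb 2 (n : ℝ) := by
    rw [Real.le_logb_iff_rpow_le (by norm_num) hn0]
    have h5 : (8 : ℝ) ≤ n := by exact_mod_cast hn
    norm_num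
    linarith
  have h5 : (1 : ℝ) ≤ Real.logb 2 (Real.logb 2 (n : ℝ)) := by
    rw [Real.le_logb_iff_rpow_le (by norm_num) (by linarith), Real.rpow_one]
    exact h4
  have h6 : 2 * Real.logb 2 (n : ℝ) ≤ 3 * Real.log n := by
    unfold Real.logb
    rw [mul_div_assoc', div_le_iff₀ hl2]
    have := mul_le_mul_of_nonneg_left hlo (mul_nonneg (by norm_num : (0:ℝ) ≤ 3) hln)
    linarith
  have h7 := al0_eq n
  refine ⟨by linarith, by linarith, by linarith, by linarith⟩

theorem al_eq (n : ℕ) (h : 0 ≤ al0 n) : (al n : ℝ) = al0 n - Int.fract (al0 n) := by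
  unfold al
  rw [Int.self_sub_fract, natCast_floor_eq_intCast_floor h]

private lemma tdiv (k : ℕ) : Tendsto (fun N : ℕ => (N : ℝ) / (Real.log N) ^ k) atTop atTop := by
  have h1 : Tendsto (fun x : ℝ => Real.log x ^ k / x) atTop (𝓝 0) := by
    have := (Real.isLittleO_pow_log_id_atTop (n := k)).tendsto_div_nhds_zero
    exact this
  have h2 : Tendsto (fun x : ℝ => Real.log x ^ k / x) atTop (𝓝[>] 0) := by
    rw [tendsto_nhdsWithin_iff]
    refine ⟨h1, ?_⟩
    filter_upwards [eventually_gt_atTop 1] with x hx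
    exact div_pos (pow_pos (Real.log_pos hx) k) (by linarith)
  have h3 := (tendsto_inv_nhdsGT_zero.comp h2).comp (tendsto_natCast_atTop_atTop (R := ℝ))
  refine h3.congr fun N => ?_
  simp [inv_div]

theorem eventually_window' (X : ℕ → Prop) (h : ∀ᶠ n : ℕ in atTop, X n) :
    ∀ᶠ N : ℕ in atTop, ∀ n : ℕ, (N : ℝ) / (Real.log N) ^ 3 ≤ n → X n := by
  obtain ⟨n₀, hn₀⟩ := eventually_atTop.1 h
  filter_upwards [(tdiv 3).eventually_ge_atTop (n₀ : ℝ)] with N hN n hn
  apply hn₀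
  exact_mod_cast le_trans hN hn

theorem al0_window (κ : ℝ) (hκ : 0 < κ) : ∀ᶠ N : ℕ in atTop, ∀ n : ℕ,
    (N : ℝ) / (Real.log N) ^ 3 ≤ n → n ≤ N →
      0 ≤ al0 N - al0 n ∧ (al0 N - al0 n + 4) ^ 2 ≤ κ * al0 N := by
  -- (6 logb x + 4)^2 ≤ κ x
  have hx : ∀ᶠ x : ℝ in atTop, (6 * Real.logb 2 x + 4) ^ 2 ≤ κ * x := by
    have h1 : ∀ᶠ x : ℝ in atTop, Real.log x ^ 2 ≤ (κ / 400) * x := by
      have := (Real.isLittleO_pow_log_id_atTop (n := 2)).bound (by positivity : 0 < κ / 400)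
      filter_upwards [this, eventually_ge_atTop 1] with x hx h1
      simp only [id, Real.norm_eq_abs] at hx
      rw [abs_of_nonneg (by positivity), abs_of_nonneg (by linarith)] at hx
      exact hx
    filter_upwards [h1, Real.tendsto_log_atTop.eventually_ge_atTop 4, eventually_ge_atTop 1]
      with x hx h4 h1x
    have hl2 := log2_pos
    have hlo := log2_lo
    have h5 : Real.logb 2 x ≤ 3 / 2 * Real.log x := by
      unfold Real.logb
      rw [div_le_iff₀ hl2]
      have := mul_le_mul_of_nonneg_left hlo (by positivity : 0 ≤ 3 / 2 * Real.log x)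
      linarith
    have h6 : 0 ≤ Real.logb 2 x := Real.logb_nonneg (by norm_num) h1x
    have h7 : 6 * Real.logb 2 x + 4 ≤ 10 * Real.log x := by linarith
    have h8 : (6 * Real.logb 2 x + 4) ^ 2 ≤ (10 * Real.log x) ^ 2 :=
      pow_le_pow_left₀ (by linarith) h7 2
    rw [mul_pow] at h8
    have h9 : 0 ≤ κ * x := by positivity
    linarith
  filter_upwards [tlog.eventually hx, al0_bounds, (tdiv 3).eventually_ge_atTop 3,
    tlog.eventually_ge_atTop 1] with N hN hb h3 hl1 n hn hnN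
  have hn3 : 3 ≤ n := by exact_mod_cast le_trans h3 hn
  have hd0 := al0_mono n N hn3 hnN
  have hn0 : (0 : ℝ) < n := by exact_mod_cast (by omega : 0 < n)
  have hN0 : (0 : ℝ) < N := by exact_mod_cast (by omega : 0 < N)
  have hd := al0_diff_le n N (by omega) hnN
  have hlp : 0 < Real.log (N : ℝ) ^ 3 := by positivity
  have h4 : (N : ℝ) / n ≤ Real.log N ^ 3 := by
    rw [div_le_iff₀ hn0]
    rw [div_le_iff₀ hlp] at hn
    linarith
  have h5 : Real.logb 2 ((N : ℝ) / n) ≤ 3 * Real.logb 2 (Real.log N) := by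
    have h6 : Real.logb 2 ((N : ℝ) / n) ≤ Real.logb 2 (Real.log (N : ℝ) ^ 3) :=
      Real.logb_le_logb_of_le (by norm_num) (div_pos hN0 hn0) h4
    rw [Real.logb_pow] at h6
    exact_mod_cast h6
  have h7 : al0 N - al0 n + 4 ≤ 6 * Real.logb 2 (Real.log N) + 4 := by linarith
  refine ⟨by linarith, ?_⟩
  refine le_trans (pow_le_pow_left₀ (by linarith) h7 2) (le_trans hN ?_)
  exact mul_le_mul_of_nonneg_left hb.1 hκ.le

/-- if `X N` holds for all large `N` then it holds for all `n ≥ N/(log N)³`, `N` large -/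
theorem eventually_window (X : ℕ → Prop) (h : ∀ᶠ n : ℕ in atTop, X n) :
    ∀ᶠ N : ℕ in atTop, ∀ n : ℕ, (N : ℝ) / (Real.log N) ^ 3 ≤ n → X n :=
  eventually_window' X h

/-- consecutive values: for `n` in the window and `n ≤ m ≤ n + (log N)^5`, `α₀(m) - α₀(n)` is small -/
theorem al0_step (κ : ℝ) (hκ : 0 < κ) : ∀ᶠ N : ℕ in atTop, ∀ n m : ℕ,
    (N : ℝ) / (Real.log N) ^ 3 ≤ n → n ≤ m → (m : ℝ) ≤ n + (Real.log N) ^ 5 →
      0 ≤ al0 m - al0 n ∧ al0 m - al0 n ≤ κ := by
  filter_upwards [(tdiv 3).eventually_ge_atTop 3, (tdiv 8).eventually_ge_atTop (3 / κ),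
    tlog.eventually_ge_atTop 1] with N h3 h8 hl1 n m hn hnm hm
  have hn3 : 3 ≤ n := by exact_mod_cast le_trans h3 hn
  have hd0 := al0_mono n m hn3 hnm
  have hn0 : (0 : ℝ) < n := by exact_mod_cast (by omega : 0 < n)
  have hm0 : (0 : ℝ) < m := by exact_mod_cast (by omega : 0 < m)
  have hd := al0_diff_le n m (by omega) hnm
  refine ⟨by linarith, le_trans hd ?_⟩
  have hl2 := log2_pos
  have hlo := log2_lo
  have hlp : 0 < Real.log (N : ℝ) := by linarith
  have hN0 : (0 : ℝ) < N := by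
    by_contra hc
    have : (N : ℝ) = 0 := le_antisymm (not_lt.1 hc) (Nat.cast_nonneg N)
    rw [this, Real.log_zero] at hl1
    linarith
  have h4 : Real.log ((m : ℝ) / n) ≤ Real.log N ^ 5 / n := by
    have h5 := Real.log_le_sub_one_of_pos (div_pos hm0 hn0)
    have h6 : (m : ℝ) / n - 1 ≤ Real.log N ^ 5 / n := by
      rw [div_sub_one hn0.ne', div_le_div_iff_of_pos_right hn0]
      linarith
    linarith
  have h7 : Real.log N ^ 5 / n ≤ κ / 3 := by
    rw [div_le_iff₀ hn0]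
    rw [div_le_div_iff₀ hκ (by positivity)] at h8
    have h9 : κ / 3 * (N / Real.log N ^ 3) ≤ κ / 3 * n :=
      mul_le_mul_of_nonneg_left hn (by positivity)
    refine le_trans ?_ h9
    rw [mul_div_assoc', le_div_iff₀ (by positivity), ← pow_add]
    norm_num
    linarith
  have h10 : 2 * Real.logb 2 ((m : ℝ) / n) ≤ 3 * Real.log ((m : ℝ) / n) := by
    have h11 : 0 ≤ Real.log ((m : ℝ) / n) := by
      apply Real.log_nonneg
      rw [one_le_div hn0]
      exact_mod_cast hnm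
    unfold Real.logb
    rw [mul_div_assoc', div_le_iff₀ hl2]
    have := mul_le_mul_of_nonneg_left hlo (mul_nonneg (by norm_num : (0:ℝ) ≤ 3) h11)
    linarith
  linarith

end ZZ51
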