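import Pool.Agent.ZZ51.Plant
import Pool.Agent.ZZ51.VarChi

/-!
# ZZ51/Func: the functional `Psi`

`Psi_step`: `Psi n = φ(T n 0) + ∑_x φ(T n (x+1)) ≤ γ + ∑_x φ(T (n-a) x + E)` and
`φ(t + E) ≤ φ(t) + E · 1[β - E < t < β + γ]` (`φ` is nondecreasing, 1-Lipschitz, constant outside
`[β, β+γ]`).  Terms with `x > n - a`: `T (n-a) x = 0`, `φ(E) = 0` as `E ≤ β`.
`Psi_chain`: with `r = ⌈R/a⌉`: `Psi (s+R) ≤ Psi (s + r a)` (monotone), then `r` steps
`s + (i+1) a → s + i a`, `i < r`; `s + (i+1) a ≤ s + R + a`.  `r ≤ R/a + 1`.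
`Kc_le_sqrt`: the set of counted `x` lies in `[x₀,y₀]` with `T n x₀ < v`, `T n y₀ > u`
(min and max of the set); `spread_le` gives `(y₀-x₀)² (1-v) u ≤ n`.
`persist`: for `m = n`, `T n x ≥ T n₀ x ≥ p` for `x ≤ x₀`; by `plant` `r` times
`T (n₀ + r a) (y₀ + r) ≤ T n₀ y₀ + r E ≤ q + r E` and `T n ≤ T (n₀ + r a)`; so the counted `x` satisfy
`x₀ < x < y₀ + r`.
-/

set_option autoImplicit false

namespace ZZ51

theorem phi_nonneg (β γ t : ℝ) (hγ : 0 ≤ γ) : 0 ≤ phi β γ t :=
  le_min (le_max_right _ _) hγ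

theorem phi_le (β γ t : ℝ) : phi β γ t ≤ γ := min_le_right _ _

theorem phi_mono (β γ : ℝ) : Monotone (phi β γ) := by
  intro s t h
  unfold phi
  exact min_le_min_right _ (max_le_max_right _ (sub_le_sub_right h _))

private lemma phi_zero {β γ t : ℝ} (hγ : 0 ≤ γ) (h : t ≤ β) : phi β γ t = 0 := by
  unfold phi
  rw [max_eq_right (by linarith), min_eq_left hγ]

private lemma phi_top {β γ t : ℝ} (hγ : 0 ≤ γ) (h : β + γ ≤ t) : phi β γ t = γ := by
  unfold phi
  rw [min_eq_right]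
  exact le_trans (by linarith) (le_max_left _ _)

private lemma phi_add_le {β γ t E : ℝ} (hγ : 0 ≤ γ) (hE : 0 ≤ E) :
    phi β γ (t + E) ≤ phi β γ t + E := by
  unfold phi
  rw [← min_add_add_right]
  apply min_le_min
  · rw [← max_add_add_right]
    apply max_le
    · exact le_trans (by linarith) (le_max_left _ _)
    · exact le_trans (by linarith) (le_max_right _ _)
  · linarith

theorem Psi_nonneg (β γ : ℝ) (hγ : 0 ≤ γ) (n : ℕ) : 0 ≤ Psi β γ n :=
  Finset.sum_nonneg fun _ _ => phi_nonneg β γ _ hγ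

theorem Psi_le (β γ : ℝ) (hβ : 0 ≤ β) (hγ : 0 ≤ γ) (n : ℕ) : Psi β γ n ≤ γ * n := by
  unfold Psi
  rw [Finset.sum_range_succ, T_eq_zero n n le_rfl, phi_zero hγ hβ, add_zero]
  refine le_trans (Finset.sum_le_sum fun x _ => phi_le β γ (T n x)) ?_
  rw [Finset.sum_const, Finset.card_range, nsmul_eq_mul, mul_comm]

theorem Psi_mono (β γ : ℝ) (hβ : 0 ≤ β) (hγ : 0 ≤ γ) (m n : ℕ) (h : m ≤ n) :
    Psi β γ m ≤ Psi β γ n := by
  unfold Psi
  refine le_trans (Finset.sum_le_sum fun x _ => phi_mono β γ (T_mono m n x h)) ?_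
  refine Finset.sum_le_sum_of_subset_of_nonneg ?_ fun x _ _ => phi_nonneg β γ _ hγ
  exact Finset.range_subset_range.2 (by omega)

private lemma T_add (n x k : ℕ) : T (n + k) (x + k) ≤ T n x := by
  induction k with
  | zero => exact le_rfl
  | succ k ih => exact le_trans (T_succ (n + k) (x + k)) ih

/-- adding `k` vertices costs at most `γ k` -/
theorem Psi_add_le (β γ : ℝ) (hβ : 0 ≤ β) (hγ : 0 ≤ γ) (n k : ℕ) :
    Psi β γ (n + k) ≤ Psi β γ n + γ * k := by
  unfold Psi
  have h1 : n + k + 1 = k + (n + 1) := by ring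
  rw [h1, Finset.sum_range_add, add_comm]
  apply add_le_add
  · refine Finset.sum_le_sum fun x _ => phi_mono β γ ?_
    rw [add_comm k x]
    exact T_add n x k
  · refine le_trans (Finset.sum_le_sum fun x _ => phi_le β γ _) ?_
    rw [Finset.sum_const, Finset.card_range, nsmul_eq_mul, mul_comm]

theorem Psi_step (β γ E : ℝ) (hγ : 0 ≤ γ) (hE : 0 ≤ E) (hEβ : E ≤ β) (n a : ℕ) (ha : a ≤ n)
    (hW : Real.sqrt (W n a) / 2 ≤ E) :
    Psi β γ n ≤ Psi β γ (n - a) + γ + E * (Kc (n - a) (β - E) (β + γ) : ℝ) := by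
  classical
  have h1 : Psi β γ n ≤ γ + ∑ x ∈ Finset.range n, phi β γ (T (n - a) x + E) := by
    unfold Psi
    rw [Finset.sum_range_succ', add_comm]
    apply add_le_add (phi_le β γ _)
    refine Finset.sum_le_sum fun x _ => phi_mono β γ ?_
    exact le_trans (plant n a x ha) (by linarith)
  have h2 : ∑ x ∈ Finset.range n, phi β γ (T (n - a) x + E) ≤
      ∑ x ∈ Finset.range (n - a + 1), phi β γ (T (n - a) x + E) := by
    have h3 : ∑ x ∈ Finset.range n, phi β γ (T (n - a) x + E) ≤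
        ∑ x ∈ Finset.range (n + 1), phi β γ (T (n - a) x + E) :=
      Finset.sum_le_sum_of_subset_of_nonneg (Finset.range_subset_range.2 (by omega))
        fun x _ _ => phi_nonneg β γ _ hγ
    refine le_trans h3 (le_of_eq ?_)
    symm
    apply Finset.sum_subset (Finset.range_subset_range.2 (by omega))
    intro x _ hx2
    rw [Finset.mem_range, not_lt] at hx2
    rw [T_eq_zero (n - a) x (by omega), zero_add]
    exact phi_zero hγ hEβ
  have h4 : ∑ x ∈ Finset.range (n - a + 1), phi β γ (T (n - a) x + E) ≤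
      Psi β γ (n - a) + E * (Kc (n - a) (β - E) (β + γ) : ℝ) := by
    unfold Psi Kc
    rw [Finset.card_filter, Nat.cast_sum, Finset.mul_sum, ← Finset.sum_add_distrib]
    refine Finset.sum_le_sum fun x _ => ?_
    by_cases hc : β - E < T (n - a) x ∧ T (n - a) x < β + γ
    · rw [if_pos hc, Nat.cast_one, mul_one]
      exact phi_add_le hγ hE
    · rw [if_neg hc, Nat.cast_zero, mul_zero, add_zero]
      rw [not_and_or, not_lt, not_lt] at hc
      rcases hc with hc | hc
      · rw [phi_zero hγ (by linarith : T (n - a) x + E ≤ β)]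
        exact phi_nonneg β γ _ hγ
      · rw [phi_top hγ hc]
        exact phi_le β γ _
  linarith

theorem Psi_chain (β γ E K : ℝ) (hγ : 0 ≤ γ) (hE : 0 ≤ E) (hEβ : E ≤ β) (hK : 0 ≤ K)
    (s R a : ℕ) (ha : 1 ≤ a)
    (hW : ∀ m : ℕ, s ≤ m → m ≤ s + R + a → Real.sqrt (W m a) / 2 ≤ E)
    (hKc : ∀ m : ℕ, s ≤ m → m ≤ s + R + a → (Kc m (β - E) (β + γ) : ℝ) ≤ K) :
    Psi β γ (s + R) ≤ Psi β γ s + ((R : ℝ) / a + 1) * (γ + E * K) := by
  have hβ : 0 ≤ β := le_trans hE hEβ
  set r : ℕ := R / a + 1 with hr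
  have hra : R ≤ r * a := by
    rw [hr]
    have := Nat.div_add_mod R a
    have h2 := Nat.mod_lt R (by omega : a > 0)
    nlinarith
  have hra2 : r * a ≤ R + a := by
    rw [hr, Nat.add_mul, one_mul]
    exact Nat.add_le_add_right (Nat.div_mul_le_self R a) a
  have hrr : (r : ℝ) ≤ (R : ℝ) / a + 1 := by
    rw [hr, Nat.cast_add, Nat.cast_one]
    have := @Nat.cast_div_le ℝ _ _ _ R a
    linarith
  have key : ∀ i : ℕ, i ≤ r → Psi β γ (s + i * a) ≤ Psi β γ s + i * (γ + E * K) := by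
    intro i
    induction i with
    | zero => intro _; simp
    | succ i ih =>
      intro hi
      have ih' := ih (by omega)
      have hle : (i + 1) * a ≤ r * a := Nat.mul_le_mul_right a hi
      have hia : (i + 1) * a = i * a + a := by ring
      have h1 := Psi_step β γ E hγ hE hEβ (s + (i + 1) * a) a (by omega)
        (hW _ (by omega) (by omega))
      have h2 : s + (i + 1) * a - a = s + i * a := by omega
      rw [h2] at h1
      have h3 := hKc (s + i * a) (by omega) (by omega)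
      have h4 := mul_le_mul_of_nonneg_left h3 hE
      push_cast
      linarith
  have h5 := key r le_rfl
  have h6 := Psi_mono β γ hβ hγ (s + R) (s + r * a) (by omega)
  have h7 : (r : ℝ) * (γ + E * K) ≤ ((R : ℝ) / a + 1) * (γ + E * K) :=
    mul_le_mul_of_nonneg_right hrr (add_nonneg hγ (mul_nonneg hE hK))
  linarith

theorem Kc_le_sqrt (n : ℕ) (u v : ℝ) (hu : 0 < u) (hv : v < 1) :
    (Kc n u v : ℝ) ≤ Real.sqrt (n / (u * (1 - v))) + 1 := by
  classical
  unfold Kc
  set S := (Finset.range (n + 1)).filter (fun x => u < T n x ∧ T n x < v) with hS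
  by_cases hne : S.Nonempty
  · have hx0 := S.min'_mem hne
    have hy0 := S.max'_mem hne
    have hxy : S.min' hne ≤ S.max' hne := S.min'_le _ hy0
    set x₀ := S.min' hne with hx0d
    set y₀ := S.max' hne with hy0d
    rw [hS, Finset.mem_filter] at hx0 hy0
    have hsub : S ⊆ Finset.Icc x₀ y₀ := by
      intro z hz
      rw [Finset.mem_Icc]
      exact ⟨S.min'_le z hz, S.le_max' z hz⟩
    have hcard := Finset.card_le_card hsub
    rw [Nat.card_Icc] at hcard
    have hcard' : (S.card : ℝ) ≤ (y₀ : ℝ) - x₀ + 1 := by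
      have h1 : S.card + x₀ ≤ y₀ + 1 := by omega
      have h2 : ((S.card + x₀ : ℕ) : ℝ) ≤ ((y₀ + 1 : ℕ) : ℝ) := by exact_mod_cast h1
      push_cast at h2
      linarith
    have hsp := spread_le n x₀ y₀ hxy
    have h1 : 1 - v ≤ 1 - T n x₀ := by linarith [hx0.2.2]
    have h2 : u ≤ T n y₀ := hy0.2.1.le
    have h3 : ((y₀ : ℝ) - x₀) ^ 2 * (u * (1 - v)) ≤ n := by
      refine le_trans ?_ hsp
      rw [mul_assoc]
      apply mul_le_mul_of_nonneg_left _ (sq_nonneg _)
      rw [mul_comm]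
      exact mul_le_mul h1 h2 hu.le (by linarith)
    have hpos : 0 < u * (1 - v) := mul_pos hu (by linarith)
    have h4 : ((y₀ : ℝ) - x₀) ^ 2 ≤ n / (u * (1 - v)) := by
      rw [le_div_iff₀ hpos]
      exact h3
    have h5 : (y₀ : ℝ) - x₀ ≤ Real.sqrt (n / (u * (1 - v))) := Real.le_sqrt_of_sq_le h4
    linarith
  · rw [Finset.not_nonempty_iff_eq_empty] at hne
    rw [hne, Finset.card_empty, Nat.cast_zero]
    positivity

theorem Kc_mono (n : ℕ) (u v u' v' : ℝ) (hu : u' ≤ u) (hv : v ≤ v') : Kc n u v ≤ Kc n u' v' := by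
  classical
  unfold Kc
  apply Finset.card_le_card
  intro x hx
  rw [Finset.mem_filter] at hx ⊢
  exact ⟨hx.1, lt_of_le_of_lt hu hx.2.1, lt_of_lt_of_le hx.2.2 hv⟩

theorem persist (p q E : ℝ) (hE : 0 ≤ E) (x₀ y₀ n₀ n r a : ℕ)
    (hp : p ≤ T n₀ x₀) (hq : T n₀ y₀ ≤ q)
    (hW : ∀ m : ℕ, n₀ ≤ m → m ≤ n₀ + r * a → Real.sqrt (W m a) / 2 ≤ E)
    (h1 : n₀ ≤ n) (h2 : n ≤ n₀ + r * a) :
    (Kc n (q + r * E) p : ℝ) ≤ (y₀ : ℝ) + r - x₀ ∨ (Kc n (q + r * E) p : ℝ) ≤ 0 := by
  classical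
  have key : ∀ i : ℕ, i ≤ r → T (n₀ + i * a) (y₀ + i) ≤ q + i * E := by
    intro i
    induction i with
    | zero => intro _; simpa using hq
    | succ i ih =>
      intro hi
      have ih' := ih (by omega)
      have hle : (i + 1) * a ≤ r * a := Nat.mul_le_mul_right a hi
      have hia : (i + 1) * a = i * a + a := by ring
      have h3 := plant (n₀ + (i + 1) * a) a (y₀ + i) (by omega)
      have h4 : n₀ + (i + 1) * a - a = n₀ + i * a := by omega
      rw [h4] at h3
      have h5 := hW (n₀ + (i + 1) * a) (by omega) (by omega)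
      have h6 : y₀ + (i + 1) = y₀ + i + 1 := by ring
      rw [h6]
      push_cast
      linarith
  have hr := key r le_rfl
  have hsub : (Finset.range (n + 1)).filter (fun x => q + r * E < T n x ∧ T n x < p) ⊆
      Finset.Ioo x₀ (y₀ + r) := by
    intro x hx
    rw [Finset.mem_filter] at hx
    rw [Finset.mem_Ioo]
    constructor
    · by_contra hc
      rw [not_lt] at hc
      have h3 := T_anti n x x₀ hc
      have h4 := T_mono n₀ n x₀ h1
      linarith [hx.2.2]
    · by_contra hc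
      rw [not_lt] at hc
      have h3 := T_anti n (y₀ + r) x hc
      have h4 := T_mono n (n₀ + r * a) (y₀ + r) h2
      linarith [hx.2.1]
  have hcard := Finset.card_le_card hsub
  rw [Nat.card_Ioo] at hcard
  unfold Kc
  by_cases hc : x₀ ≤ y₀ + r
  · left
    have h3 : ((Finset.range (n + 1)).filter (fun x => q + r * E < T n x ∧ T n x < p)).card + x₀ ≤
        y₀ + r := by omega
    have h4 : ((((Finset.range (n + 1)).filter (fun x => q + r * E < T n x ∧ T n x < p)).card + x₀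
        : ℕ) : ℝ) ≤ ((y₀ + r : ℕ) : ℝ) := by exact_mod_cast h3
    push_cast at h4
    linarith
  · right
    have h3 : ((Finset.range (n + 1)).filter (fun x => q + r * E < T n x ∧ T n x < p)).card = 0 := by
      omega
    rw [h3, Nat.cast_zero]

end ZZ51
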