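import Pool.Agent.ZZ51.Alpha

/-!
# ZZ51/WBound: the second moment excess

PROOF. Let `g l` be the term of `W n a`. (Needs only: `4 ≤ a ≤ 2 log₂ n`, `2 a²/√n ≤ 1/2` and
`a n 2^{-3a/4 + 1/2} ≤ 1/2`, all true for large `n` and `α₀ - 4 ≤ a ≤ α₀` by `al0_bounds`.)
(1) `l ≤ a/2`: `C(n-a,a-l) ≤ C(n-l,a-l)` and `C(n-l,a-l)/C(n,a) = a^{(l)}/n^{(l)} ≤ (a/n)^l`
(descending factorials), `C(a,l) ≤ a^l/l!`.  So `g l ≤ (a⁴/n²) 2^{l-1} ((a²/n) 2^{(l-1)/2})^{l-2}
≤ 2 (a⁴/n²) (2 a² n^{-1/2})^{l-2}` using `2^{(l-1)/2} ≤ 2^{a/4} ≤ n^{1/2}`; sum over `l ≥ 2`: `≤ 4 a⁴/n²`.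
(2) `l = a - j`, `j < a/2`: `C(a-j,2) = C(a,2) - j a + j(j+1)/2`, so
`g l = (1/μ) C(a,j) C(n-a,j) 2^{-ja + j(j+1)/2} ≤ (1/μ) (a n 2^{-a} 2^{(j+1)/2})^j ≤ (1/μ) 2^{-j}`
as `2^{(j+1)/2} ≤ 2^{a/4+1/2}`; sum `≤ 2/μ`.
-/

set_option autoImplicit false

open Filter Topology

namespace ZZ51

private theorem ratio_le (n a l : ℕ) (ha : a ≤ n) :
    a.descFactorial l * n ^ l ≤ n.descFactorial l * a ^ l := by
  induction l with
  | zero => simp
  | succ l ih =>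
    rw [Nat.descFactorial_succ, Nat.descFactorial_succ, pow_succ, pow_succ]
    have h : (a - l) * n ≤ (n - l) * a := by
      rw [Nat.sub_mul, Nat.sub_mul, mul_comm a n]
      exact Nat.sub_le_sub_left (Nat.mul_le_mul_left l ha) _
    calc (a - l) * a.descFactorial l * (n ^ l * n)
        = ((a - l) * n) * (a.descFactorial l * n ^ l) := by ring
      _ ≤ ((n - l) * a) * (n.descFactorial l * a ^ l) := Nat.mul_le_mul h ih
      _ = _ := by ring

private theorem choose_ratio (n a l : ℕ) (ha : a ≤ n) (hl : l ≤ a) (hn : 0 < n) :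
    (a.choose l : ℝ) / (n.choose l : ℝ) ≤ ((a : ℝ) / n) ^ l := by
  have h := ratio_le n a l ha
  rw [Nat.descFactorial_eq_factorial_mul_choose, Nat.descFactorial_eq_factorial_mul_choose] at h
  have h2 : l.factorial * (a.choose l * n ^ l) ≤ l.factorial * (n.choose l * a ^ l) := by
    calc _ = l.factorial * a.choose l * n ^ l := by ring
      _ ≤ _ := h
      _ = _ := by ring
  have h3 : a.choose l * n ^ l ≤ n.choose l * a ^ l :=
    Nat.le_of_mul_le_mul_left h2 (Nat.factorial_pos l)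
  have hc : (0 : ℝ) < n.choose l := by exact_mod_cast Nat.choose_pos (hl.trans ha)
  have hn' : (0 : ℝ) < n := by exact_mod_cast hn
  rw [div_pow, div_le_div_iff₀ hc (by positivity)]
  have h4 : (a.choose l : ℝ) * (n : ℝ) ^ l ≤ (n.choose l : ℝ) * (a : ℝ) ^ l := by exact_mod_cast h3
  linarith

private theorem c2 (m : ℕ) : 2 * m.choose 2 = m * (m - 1) := by
  rw [Nat.choose_two_right]
  exact Nat.mul_div_cancel' (even_iff_two_dvd.1 (Nat.even_mul_pred_self m))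

private theorem c2_add (l j : ℕ) : (l + j).choose 2 = l.choose 2 + j * l + j.choose 2 := by
  induction j with
  | zero => simp
  | succ j ih =>
    rw [← add_assoc, Nat.choose_succ_succ' (l + j) 1, Nat.choose_succ_succ' j 1, ih,
      Nat.choose_one_right, Nat.choose_one_right]
    ring

/-- the first range: `g l ≤ 2 x² (x s^(l+1))^(l-2)`, `x = a²/n`, `s = √2` -/
private theorem term1 (n a m : ℕ) (ha : a ≤ n) (hl : m + 2 ≤ a) (hn : 0 < n)
    (hx : ((a : ℝ) ^ 2 / n) * (√2) ^ (m + 3) ≤ 1 / 2) :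
    (a.choose (m + 2) : ℝ) * ((n - a).choose (a - (m + 2)) : ℝ) / (n.choose a : ℝ) *
      (2 : ℝ) ^ ((m + 2).choose 2) ≤ 2 * ((a : ℝ) ^ 2 / n) ^ 2 * (1 / 2) ^ m := by
  have hn' : (0 : ℝ) < n := by exact_mod_cast hn
  have hna : (0 : ℝ) < n.choose a := by exact_mod_cast Nat.choose_pos ha
  have hnl : (0 : ℝ) < n.choose (m + 2) := by exact_mod_cast Nat.choose_pos (hl.trans ha)
  have h1 : (a.choose (m + 2) : ℝ) ≤ (a : ℝ) ^ (m + 2) := by exact_mod_cast Nat.choose_le_pow a (m + 2)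
  have h2 : ((n - a).choose (a - (m + 2)) : ℝ) / (n.choose a : ℝ) ≤ ((a : ℝ) / n) ^ (m + 2) := by
    have h3 : ((n - a).choose (a - (m + 2)) : ℝ) ≤ ((n - (m + 2)).choose (a - (m + 2)) : ℝ) := by
      exact_mod_cast Nat.choose_le_choose _ (by omega)
    have h4 : (n.choose a : ℝ) * (a.choose (m + 2) : ℝ) =
        (n.choose (m + 2) : ℝ) * ((n - (m + 2)).choose (a - (m + 2)) : ℝ) := by
      exact_mod_cast Nat.choose_mul hl
    calc ((n - a).choose (a - (m + 2)) : ℝ) / (n.choose a : ℝ)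
        ≤ ((n - (m + 2)).choose (a - (m + 2)) : ℝ) / (n.choose a : ℝ) :=
          div_le_div_of_nonneg_right h3 hna.le
      _ = (a.choose (m + 2) : ℝ) / (n.choose (m + 2) : ℝ) := by
          rw [div_eq_div_iff hna.ne' hnl.ne']
          linarith
      _ ≤ _ := choose_ratio n a (m + 2) ha hl hn
  have hs : (√2 : ℝ) ^ 2 = 2 := Real.sq_sqrt (by norm_num)
  have h5 : (2 : ℝ) ^ ((m + 2).choose 2) = 2 * ((√2) ^ (m + 3)) ^ m := by
    have h6 : 2 * (m + 2).choose 2 = 2 + (m + 3) * m := by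
      rw [c2]
      have : m + 2 - 1 = m + 1 := by omega
      rw [this]
      ring
    calc (2 : ℝ) ^ ((m + 2).choose 2) = ((√2) ^ 2) ^ ((m + 2).choose 2) := by rw [hs]
      _ = (√2) ^ (2 * (m + 2).choose 2) := by rw [pow_mul]
      _ = (√2) ^ 2 * ((√2) ^ (m + 3)) ^ m := by rw [h6, pow_add, pow_mul]
      _ = _ := by rw [hs]
  have h7 : (a.choose (m + 2) : ℝ) * ((n - a).choose (a - (m + 2)) : ℝ) / (n.choose a : ℝ) ≤
      ((a : ℝ) ^ 2 / n) ^ (m + 2) := by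
    calc (a.choose (m + 2) : ℝ) * ((n - a).choose (a - (m + 2)) : ℝ) / (n.choose a : ℝ)
        = (a.choose (m + 2) : ℝ) * (((n - a).choose (a - (m + 2)) : ℝ) / (n.choose a : ℝ)) := by
          rw [mul_div_assoc]
      _ ≤ (a : ℝ) ^ (m + 2) * ((a : ℝ) / n) ^ (m + 2) :=
          mul_le_mul h1 h2 (by positivity) (by positivity)
      _ = ((a : ℝ) ^ 2 / n) ^ (m + 2) := by
          rw [← mul_pow]
          congr 1
          ring
  have h8 : (0 : ℝ) ≤ (a : ℝ) ^ 2 / n := by positivity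
  calc (a.choose (m + 2) : ℝ) * ((n - a).choose (a - (m + 2)) : ℝ) / (n.choose a : ℝ) *
      (2 : ℝ) ^ ((m + 2).choose 2)
      ≤ ((a : ℝ) ^ 2 / n) ^ (m + 2) * (2 * ((√2) ^ (m + 3)) ^ m) := by
        rw [h5]
        exact mul_le_mul_of_nonneg_right h7 (by positivity)
    _ = 2 * ((a : ℝ) ^ 2 / n) ^ 2 * (((a : ℝ) ^ 2 / n) * (√2) ^ (m + 3)) ^ m := by
        rw [mul_pow, pow_add]
        ring
    _ ≤ 2 * ((a : ℝ) ^ 2 / n) ^ 2 * (1 / 2) ^ m := by
        apply mul_le_mul_of_nonneg_left _ (by positivity)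
        exact pow_le_pow_left₀ (by positivity) hx m

/-- the second range, `a = l + j` -/
private theorem term2 (n a l j : ℕ) (ha : a ≤ n) (hj : a = l + j)
    (hx : 1 ≤ j → 2 * ((a : ℝ) * n) ≤ 2 ^ l * (√2) ^ (j - 1)) :
    (a.choose l : ℝ) * ((n - a).choose (a - l) : ℝ) / (n.choose a : ℝ) *
      (2 : ℝ) ^ (l.choose 2) ≤ 1 / mu n a * (1 / 2) ^ j := by
  have hna : (0 : ℝ) < n.choose a := by exact_mod_cast Nat.choose_pos ha
  have hs : (√2 : ℝ) ^ 2 = 2 := Real.sq_sqrt (by norm_num)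
  have hs0 : (0 : ℝ) < √2 := by positivity
  have e1 : a.choose l = a.choose j := by
    rw [hj]
    exact Nat.choose_symm_add
  have e2 : a - l = j := by omega
  rw [e1, e2]
  have h1 : (a.choose j : ℝ) ≤ (a : ℝ) ^ j := by exact_mod_cast Nat.choose_le_pow a j
  have h2 : ((n - a).choose j : ℝ) ≤ (n : ℝ) ^ j := by
    have h3 : (n - a).choose j ≤ (n - a) ^ j := Nat.choose_le_pow _ _
    have h4 : (n - a) ^ j ≤ n ^ j := Nat.pow_le_pow_left (Nat.sub_le _ _) _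
    exact_mod_cast h3.trans h4
  have h5 : (2 : ℝ) ^ (a.choose 2) = 2 ^ (l.choose 2) * (2 ^ l * (√2) ^ (j - 1)) ^ j := by
    have h6 : (2 : ℝ) ^ (j.choose 2) = ((√2) ^ (j - 1)) ^ j := by
      calc (2 : ℝ) ^ (j.choose 2) = ((√2) ^ 2) ^ (j.choose 2) := by rw [hs]
        _ = (√2) ^ (2 * j.choose 2) := by rw [pow_mul]
        _ = _ := by rw [c2, mul_comm j, pow_mul]
    rw [hj, c2_add, pow_add, pow_add, h6, mul_pow, mul_comm j l, pow_mul]
    ring
  have h7 : (a : ℝ) ^ j * (n : ℝ) ^ j ≤ (2 ^ l * (√2) ^ (j - 1)) ^ j * (1 / 2) ^ j := by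
    rcases Nat.eq_zero_or_pos j with h | h
    · rw [h]
      simp
    · rw [← mul_pow, ← mul_pow]
      apply pow_le_pow_left₀ (by positivity)
      have := hx h
      linarith
  have hd : (0 : ℝ) < 2 ^ (l.choose 2) := by positivity
  have hD : (0 : ℝ) < (2 ^ l * (√2) ^ (j - 1)) ^ j := by positivity
  unfold mu
  rw [one_div_div, h5]
  have h8 : (a.choose j : ℝ) * ((n - a).choose j : ℝ) ≤
      (2 ^ l * (√2) ^ (j - 1)) ^ j * (1 / 2) ^ j :=
    (mul_le_mul h1 h2 (by positivity) (by positivity)).trans h7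
  rw [div_mul_eq_mul_div, div_mul_eq_mul_div, div_le_div_iff_of_pos_right hna]
  calc (a.choose j : ℝ) * ((n - a).choose j : ℝ) * 2 ^ l.choose 2
      ≤ ((2 ^ l * (√2) ^ (j - 1)) ^ j * (1 / 2) ^ j) * 2 ^ l.choose 2 :=
        mul_le_mul_of_nonneg_right h8 hd.le
    _ = _ := by ring

private theorem sum1 (a : ℕ) : ∑ l ∈ Finset.Icc 2 a, ((1 : ℝ) / 2) ^ (l - 2) ≤ 2 := by
  have h : ∀ m : ℕ, ∑ l ∈ Finset.Icc 2 (m + 1), ((1 : ℝ) / 2) ^ (l - 2) =
      2 - 2 * (1 / 2) ^ m := by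
    intro m
    induction m with
    | zero => simp
    | succ m ih =>
      rw [Finset.sum_Icc_succ_top (by omega), ih]
      have : m + 1 + 1 - 2 = m := by omega
      rw [this, pow_succ]
      ring
  rcases Nat.eq_zero_or_pos a with h0 | h0
  · rw [h0]
    simp
  · obtain ⟨m, rfl⟩ : ∃ m, a = m + 1 := ⟨a - 1, by omega⟩
    rw [h m]
    have : (0 : ℝ) < (1 / 2) ^ m := by positivity
    linarith

private theorem sum2 (a : ℕ) : ∑ l ∈ Finset.Icc 2 a, ((1 : ℝ) / 2) ^ (a - l) ≤ 2 := by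
  induction a with
  | zero => simp
  | succ a ih =>
    by_cases h : 2 ≤ a + 1
    · rw [Finset.sum_Icc_succ_top h]
      have h1 : ∑ l ∈ Finset.Icc 2 a, ((1 : ℝ) / 2) ^ (a + 1 - l) =
          1 / 2 * ∑ l ∈ Finset.Icc 2 a, ((1 : ℝ) / 2) ^ (a - l) := by
        rw [Finset.mul_sum]
        apply Finset.sum_congr rfl
        intro l hl
        have h2 := (Finset.mem_Icc.1 hl).2
        have h3 : a + 1 - l = (a - l) + 1 := by omega
        rw [h3, pow_succ]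
        ring
      rw [h1, Nat.sub_self, pow_zero]
      linarith
    · rw [Finset.Icc_eq_empty (by omega)]
      simp

/-- the deterministic part -/
private theorem W_core (n a : ℕ) (ha : a ≤ n) (hn : 0 < n)
    (h1 : (2 : ℝ) ^ a ≤ (n : ℝ) ^ 2) (h2 : 8 * (a : ℝ) ^ 4 ≤ n)
    (h4 : (8 * (a : ℝ) ^ 2 * (n : ℝ) ^ 2) ^ 2 ≤ ((2 : ℝ) ^ a) ^ 3) :
    W n a ≤ 4 * (a : ℝ) ^ 4 / (n : ℝ) ^ 2 + 2 / mu n a := by
  have hn' : (0 : ℝ) < n := by exact_mod_cast hn
  have hna : (0 : ℝ) < n.choose a := by exact_mod_cast Nat.choose_pos ha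
  have hmu : 0 < mu n a := by
    unfold mu
    positivity
  have hs : (√2 : ℝ) ^ 2 = 2 := Real.sq_sqrt (by norm_num)
  have hterm : ∀ l ∈ Finset.Icc 2 a,
      (a.choose l : ℝ) * ((n - a).choose (a - l) : ℝ) / (n.choose a : ℝ) *
        (2 : ℝ) ^ (l.choose 2) ≤
      2 * ((a : ℝ) ^ 2 / n) ^ 2 * (1 / 2) ^ (l - 2) + 1 / mu n a * (1 / 2) ^ (a - l) := by
    intro l hl
    rw [Finset.mem_Icc] at hl
    have p1 : 0 ≤ 2 * ((a : ℝ) ^ 2 / n) ^ 2 * (1 / 2) ^ (l - 2) := by positivity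
    have p2 : 0 ≤ 1 / mu n a * (1 / 2) ^ (a - l) := by positivity
    by_cases h2l : 2 * l ≤ a
    · obtain ⟨m, rfl⟩ : ∃ m, l = m + 2 := ⟨l - 2, by omega⟩
      have h5 : (2 : ℝ) ^ (m + 2) ≤ n := by
        have h6 : ((2 : ℝ) ^ (m + 2)) ^ 2 ≤ (n : ℝ) ^ 2 := by
          rw [← pow_mul]
          refine le_trans ?_ h1
          exact pow_le_pow_right₀ (by norm_num) (by omega)
        exact (abs_le_of_sq_le_sq' h6 hn'.le).2
      have h7 : ((a : ℝ) ^ 2 / n) * (√2) ^ (m + 3) ≤ 1 / 2 := by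
        have h8 : (((a : ℝ) ^ 2 / n) * (√2) ^ (m + 3)) ^ 2 ≤ (1 / 2) ^ 2 := by
          rw [mul_pow, ← pow_mul, mul_comm (m + 3) 2, pow_mul, hs, div_pow, div_mul_eq_mul_div,
            div_le_iff₀ (by positivity), pow_succ (2 : ℝ) (m + 2)]
          have h9 : ((a : ℝ) ^ 2) ^ 2 * ((2 : ℝ) ^ (m + 2) * 2) ≤ ((a : ℝ) ^ 2) ^ 2 * (n * 2) :=
            mul_le_mul_of_nonneg_left (by linarith) (by positivity)
          have h10 := mul_le_mul_of_nonneg_right h2 hn'.le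
          nlinarith
        exact (abs_le_of_sq_le_sq' h8 (by norm_num)).2
      have h8 := term1 n a m ha hl.2 hn h7
      have h9 : m + 2 - 2 = m := by omega
      rw [h9] at p1 ⊢
      linarith
    · have h5 := term2 n a l (a - l) ha (by omega) (by
        intro hj
        have h6 : (2 * ((a : ℝ) * n)) ^ 2 ≤ (2 ^ l * (√2) ^ (a - l - 1)) ^ 2 := by
          rw [mul_pow (2 ^ l : ℝ), ← pow_mul (√2 : ℝ), mul_comm (a - l - 1) 2, pow_mul (√2 : ℝ), hs,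
            ← pow_mul, ← pow_add]
          -- `8 a² n² ≤ 2^(a + l)`
          have h7 : 8 * (a : ℝ) ^ 2 * (n : ℝ) ^ 2 ≤ (2 : ℝ) ^ (a + l) := by
            have h8 : (8 * (a : ℝ) ^ 2 * (n : ℝ) ^ 2) ^ 2 ≤ ((2 : ℝ) ^ (a + l)) ^ 2 := by
              refine h4.trans ?_
              rw [← pow_mul, ← pow_mul]
              exact pow_le_pow_right₀ (by norm_num) (by omega)
            exact (abs_le_of_sq_le_sq' h8 (by positivity)).2
          have h9 : a + l = (l * 2 + (a - l - 1)) + 1 := by omega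
          rw [h9, pow_succ (2 : ℝ)] at h7
          nlinarith
        exact (abs_le_of_sq_le_sq' h6 (by positivity)).2)
      linarith
  unfold W
  refine (Finset.sum_le_sum hterm).trans ?_
  rw [Finset.sum_add_distrib, ← Finset.mul_sum, ← Finset.mul_sum]
  have q1 := mul_le_mul_of_nonneg_left (sum1 a) (show 0 ≤ 2 * ((a : ℝ) ^ 2 / n) ^ 2 by positivity)
  have q2 := mul_le_mul_of_nonneg_left (sum2 a) (show 0 ≤ 1 / mu n a by positivity)
  have e1 : 2 * ((a : ℝ) ^ 2 / n) ^ 2 * 2 = 4 * (a : ℝ) ^ 4 / (n : ℝ) ^ 2 := by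
    rw [div_pow]
    ring
  have e2 : 1 / mu n a * 2 = 2 / mu n a := by ring
  rw [e1] at q1
  rw [e2] at q2
  linarith

private theorem log_pow_le (C : ℝ) (k : ℕ) : ∀ᶠ n : ℕ in atTop, C * (Real.log n) ^ k ≤ n := by
  have h := (Real.isLittleO_pow_log_id_atTop (n := k)).bound (show (0 : ℝ) < 1 / (|C| + 1) by positivity)
  have h2 := tendsto_natCast_atTop_atTop (R := ℝ) |>.eventually h
  filter_upwards [h2] with n hn
  simp only [id, Real.norm_eq_abs] at hn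
  rw [abs_of_nonneg (show (0 : ℝ) ≤ (n : ℝ) from Nat.cast_nonneg n)] at hn
  have h3 : C * (Real.log n) ^ k ≤ (|C| + 1) * |(Real.log n) ^ k| := by
    have h4 : C * (Real.log n) ^ k ≤ |C| * |(Real.log n) ^ k| := by
      rw [← abs_mul]
      exact le_abs_self _
    have h5 := abs_nonneg ((Real.log n) ^ k)
    linarith
  refine h3.trans ?_
  calc (|C| + 1) * |(Real.log n) ^ k| ≤ (|C| + 1) * (1 / (|C| + 1) * n) :=
        mul_le_mul_of_nonneg_left hn (by positivity)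
    _ = n := by field_simp

theorem W_le : ∀ᶠ n : ℕ in atTop, ∀ a : ℕ,
    al0 n - 4 ≤ a → (a : ℝ) ≤ al0 n → W n a ≤ 4 * (a : ℝ) ^ 4 / (n : ℝ) ^ 2 + 2 / mu n a := by
  filter_upwards [al0_bounds, eventually_ge_atTop 3, log_pow_le 3 1, log_pow_le 648 4,
    log_pow_le (64 * 16 * 4096 * 1024) 10,
    (Real.tendsto_log_atTop.comp tendsto_natCast_atTop_atTop).eventually_ge_atTop 1]
    with n hb hn3 l1 l4 l10 hlog a ha1 ha2
  obtain ⟨_, b2, b3, b4⟩ := hb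
  have hn0 : 0 < n := by omega
  have hn' : (0 : ℝ) < n := by exact_mod_cast hn0
  have hn1 : (1 : ℝ) ≤ n := by exact_mod_cast hn0
  simp only [Function.comp_apply] at hlog
  have hl2 : 0 < Real.log 2 := Real.log_pos (by norm_num)
  have hl2' : 1 / 2 ≤ Real.log 2 := by
    have := Real.log_two_gt_d9
    linarith
  set L := Real.logb 2 (n : ℝ) with hL
  have hL1 : L = Real.log n / Real.log 2 := rfl
  have hL2 : L ≤ 2 * Real.log n := by
    rw [hL1, div_le_iff₀ hl2]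
    nlinarith
  have hL0 : 0 < L := by
    rw [hL1]
    exact div_pos (by linarith) hl2
  have h2L : (2 : ℝ) ^ L = n := Real.rpow_logb (by norm_num) (by norm_num) hn'
  have h2LL : (2 : ℝ) ^ (Real.logb 2 L) = L := Real.rpow_logb (by norm_num) (by norm_num) hL0
  have ha0 : (0 : ℝ) ≤ a := Nat.cast_nonneg a
  have han : a ≤ n := by
    have : (a : ℝ) ≤ n := by
      rw [pow_one] at l1
      linarith
    exact_mod_cast this
  have h1 : (2 : ℝ) ^ a ≤ (n : ℝ) ^ 2 := by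
    rw [← Real.rpow_natCast (2 : ℝ) a]
    calc (2 : ℝ) ^ (a : ℝ) ≤ (2 : ℝ) ^ (L * 2) :=
          Real.rpow_le_rpow_of_exponent_le (by norm_num) (by linarith)
      _ = ((2 : ℝ) ^ L) ^ (2 : ℝ) := Real.rpow_mul (by norm_num) _ _
      _ = (n : ℝ) ^ 2 := by rw [h2L, Real.rpow_two]
  have h1' : (n : ℝ) ^ 2 ≤ (2 : ℝ) ^ a * (16 * L ^ 2) := by
    have h5 : (2 : ℝ) ^ (L * 2) ≤ (2 : ℝ) ^ ((a : ℝ) + (4 + Real.logb 2 L * 2)) :=
      Real.rpow_le_rpow_of_exponent_le (by norm_num) (by linarith)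
    rw [Real.rpow_mul (by norm_num), h2L, Real.rpow_two, Real.rpow_add (by norm_num),
      Real.rpow_add (by norm_num), Real.rpow_mul (by norm_num), h2LL, Real.rpow_two,
      Real.rpow_natCast] at h5
    have h6 : (2 : ℝ) ^ (4 : ℝ) = 16 := by
      rw [show (4 : ℝ) = ((4 : ℕ) : ℝ) by norm_num, Real.rpow_natCast]
      norm_num
    rw [h6] at h5
    exact h5
  have ha3 : (a : ℝ) ≤ 3 * Real.log n := ha2.trans b3
  have ha4 : (a : ℝ) ≤ 2 * L := ha2.trans b2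
  apply W_core n a han hn0 h1
  · calc 8 * (a : ℝ) ^ 4 ≤ 8 * (3 * Real.log n) ^ 4 :=
          mul_le_mul_of_nonneg_left (pow_le_pow_left₀ ha0 ha3 4) (by norm_num)
      _ = 648 * (Real.log n) ^ 4 := by ring
      _ ≤ n := l4
  · -- `64 a⁴ n⁴ ≤ (2^a)³`
    have h7 : ((n : ℝ) ^ 2) ^ 3 ≤ ((2 : ℝ) ^ a * (16 * L ^ 2)) ^ 3 :=
      pow_le_pow_left₀ (by positivity) h1' 3
    have h8 : (64 * 16 * 4096) * L ^ 10 ≤ (n : ℝ) ^ 2 := by
      calc (64 * 16 * 4096) * L ^ 10 ≤ (64 * 16 * 4096) * (2 * Real.log n) ^ 10 :=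
            mul_le_mul_of_nonneg_left (pow_le_pow_left₀ hL0.le hL2 10) (by norm_num)
        _ = (64 * 16 * 4096 * 1024) * (Real.log n) ^ 10 := by ring
        _ ≤ n := l10
        _ ≤ (n : ℝ) ^ 2 := by nlinarith
    have h9 : (a : ℝ) ^ 4 ≤ 16 * L ^ 4 := by
      calc (a : ℝ) ^ 4 ≤ (2 * L) ^ 4 := pow_le_pow_left₀ ha0 ha4 4
        _ = 16 * L ^ 4 := by ring
    have hL6 : (0 : ℝ) < 4096 * L ^ 6 := by positivity
    have h10 : (8 * (a : ℝ) ^ 2 * (n : ℝ) ^ 2) ^ 2 * (4096 * L ^ 6) ≤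
        ((2 : ℝ) ^ a) ^ 3 * (4096 * L ^ 6) := by
      calc (8 * (a : ℝ) ^ 2 * (n : ℝ) ^ 2) ^ 2 * (4096 * L ^ 6)
          = (64 * 4096 * L ^ 6 * (n : ℝ) ^ 4) * (a : ℝ) ^ 4 := by ring
        _ ≤ (64 * 4096 * L ^ 6 * (n : ℝ) ^ 4) * (16 * L ^ 4) :=
            mul_le_mul_of_nonneg_left h9 (by positivity)
        _ = (n : ℝ) ^ 4 * ((64 * 16 * 4096) * L ^ 10) := by ring
        _ ≤ (n : ℝ) ^ 4 * (n : ℝ) ^ 2 := mul_le_mul_of_nonneg_left h8 (by positivity)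
        _ = ((n : ℝ) ^ 2) ^ 3 := by ring
        _ ≤ ((2 : ℝ) ^ a * (16 * L ^ 2)) ^ 3 := h7
        _ = ((2 : ℝ) ^ a) ^ 3 * (4096 * L ^ 6) := by ring
    exact le_of_mul_le_mul_right h10 hL6

end ZZ51
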