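import Pool.Agent.ZZ51.BlockReal
import Pool.Agent.ZZ51.Func
import Pool.Agent.ZZ51.MuLow
import Pool.Agent.ZZ51.WBound

/-!
# ZZ51/BlockB: slope `1/α` on the block after a bad `n₀`

PROOF. `β = q + (p-q)/3`, `γ = (p-q)/3`, `c = γ ε/4` (or smaller). Let `n₀ ∈ (s - R, s]` be bad, with
`x₀, y₀`, `y₀ ≤ x₀ + c √(μ_α(n₀))/log n₀ + 1`.  `a = al s = al n₀` (as `fract (al0 s) ≥ η` and `al0` moves
by less than `η` in the block, `al0_step`).  For `n₀ ≤ m ≤ s + R + a`: `al0 m - 4 ≤ a ≤ al0 m`,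
`μ_a(m) ≥ μ_a(n₀) =: μ ≥ n₀^{η/2}` (`mu_mono`, `mu_lower`, `al0 n₀ - a ≥ η - (small)`), so by `W_le`
`√(W m a)/2 ≤ E := a²/n₀ + (3/4)/√μ`   (`√(4a⁴/m² + 2/μ)/2 ≤ a²/m + √(1/(2μ))`).
`persist` with `r` = least integer with `r a ≥ 2R + a`... (`m - n₀ ≤ 2 R + a`, take `r = 2R + 1`, crude is
fine as `r E → 0`: `R` is a power of `log`, `E ≤ n₀^{-η/5}`): since `q + r E ≤ β - E` and `β + γ ≤ p`,
`Kc m (β-E) (β+γ) ≤ Kc m (q + rE) p ≤ y₀ + r - x₀ ≤ c √μ/log n₀ + r + 1 =: K₁`; also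
`Kc m (β - E) (β+γ) ≤ C √m` (`Kc_le_sqrt`).  Take `K = min` of both, so
`E K ≤ (a²/n₀) C √m + (3/4)/√μ · (c √μ/log n₀ + r + 1) ≤ (3/4) c/log n₀ + (small)`, and
`Λ ≤ 3 log N ≤ (16/5) log n₀`, hence `E K ≤ γ ε/Λ`.  Then `Psi_chain` with `a = al s`.
-/

set_option autoImplicit false

open Filter Topology

namespace ZZ51

private theorem log_large' (C : ℝ) : ∀ᶠ N : ℕ in atTop, C ≤ Real.log N :=
  (Real.tendsto_log_atTop.comp tendsto_natCast_atTop_atTop).eventually_ge_atTop C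

private theorem log_pow_le (D δ : ℝ) (hδ : 0 < δ) (k : ℕ) :
    ∀ᶠ N : ℕ in atTop, D * (Real.log N) ^ k ≤ (N : ℝ) ^ δ := by
  have h1 := (isLittleO_log_rpow_rpow_atTop (k : ℝ) hδ).bound
    (show (0 : ℝ) < 1 / (|D| + 1) by positivity)
  have h2 := tendsto_natCast_atTop_atTop (R := ℝ) |>.eventually h1
  filter_upwards [h2, log_large' 1] with N hN hL
  have hL0 : (0 : ℝ) ≤ Real.log N := by linarith
  rw [Real.rpow_natCast, Real.norm_of_nonneg (pow_nonneg hL0 k),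
    Real.norm_of_nonneg (Real.rpow_nonneg (Nat.cast_nonneg N) δ)] at hN
  have h3 : (|D| + 1) * (Real.log N) ^ k ≤ (N : ℝ) ^ δ := by
    have h4 := mul_le_mul_of_nonneg_left hN (show (0 : ℝ) ≤ |D| + 1 by positivity)
    rwa [← mul_assoc, mul_one_div_cancel (by positivity), one_mul] at h4
  refine le_trans ?_ h3
  exact mul_le_mul_of_nonneg_right (by linarith [le_abs_self D]) (pow_nonneg hL0 k)

/-- the final estimate -/
private theorem core_est {N n₀ L μ a r γ ε c C₂ η K₁ K₂ E : ℝ} (hN : 1 ≤ N) (hL : 1 ≤ L)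
    (hγ : 0 < γ) (hε : 0 < ε) (hC : 0 < C₂) (hη : 0 < η)
    (hn : N / L ^ 3 ≤ n₀) (ha0 : 0 ≤ a) (ha : a ≤ 3 * L) (hr0 : 0 ≤ r)
    (hr : r + 1 ≤ 7 * L ^ 4) (hμ : N ^ (η / 8) ≤ μ) (hc : c = γ * ε / 36)
    (hlog : L / 2 ≤ Real.log n₀) (hμ0 : 0 < μ)
    (hE : E = a ^ 2 / n₀ + 3 / 4 / μ)
    (hK₁ : K₁ = c * μ / Real.log n₀ + 1 + r) (hK₂ : K₂ = C₂ * N ^ (1 / 2 : ℝ))
    (F2 : 72 / (γ * ε) * L ^ 5 ≤ N ^ (η / 8))
    (F3 : 108 * C₂ / (γ * ε) * L ^ 6 ≤ N ^ (1 / 2 : ℝ))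
    (F4 : 126 / γ * L ^ 9 ≤ N ^ (1 / 2 : ℝ)) (F5 : 12 / γ * L ^ 4 ≤ N ^ (η / 8)) :
    E * min K₁ K₂ ≤ γ * ε / (3 * L) ∧ (r + 1) * E ≤ γ ∧ 0 ≤ E ∧ 0 ≤ K₁ ∧ 0 ≤ K₂ := by
  have hL0 : 0 < L := by linarith
  have hN0 : 0 < N := by linarith
  have hn0 : 0 < n₀ := lt_of_lt_of_le (by positivity) hn
  have hc0 : 0 < c := by rw [hc]; positivity
  have hlog0 : 0 < Real.log n₀ := by linarith
  have hK₁0 : 0 ≤ K₁ := by rw [hK₁]; positivity
  have hK₂0 : 0 ≤ K₂ := by rw [hK₂]; positivity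
  have hsq : N ^ (1 / 2 : ℝ) * N ^ (1 / 2 : ℝ) = N := by
    rw [← Real.rpow_add hN0]; norm_num
  have hs0 : 0 < N ^ (1 / 2 : ℝ) := Real.rpow_pos_of_pos hN0 _
  set w := N ^ (1 / 2 : ℝ) with hw
  have hw1 : 1 ≤ w := Real.one_le_rpow hN (by norm_num)
  have hNn : N ≤ n₀ * L ^ 3 := by
    rwa [div_le_iff₀ (by positivity)] at hn
  have ha2 : a ^ 2 ≤ 9 * L ^ 2 := by nlinarith
  -- a^2 / n₀ ≤ 9 L^5 / N
  have hA : a ^ 2 / n₀ ≤ 9 * L ^ 5 / N := by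
    rw [div_le_div_iff₀ hn0 hN0]
    calc a ^ 2 * N ≤ 9 * L ^ 2 * (n₀ * L ^ 3) := by
          apply mul_le_mul ha2 hNn hN0.le (by positivity)
      _ = 9 * L ^ 5 * n₀ := by ring
  have hA0 : 0 ≤ a ^ 2 / n₀ := by positivity
  have hμ' : 0 < N ^ (η / 8) := Real.rpow_pos_of_pos hN0 _
  set v := N ^ (η / 8) with hv
  have hB0 : 0 < 3 / 4 / μ := by positivity
  have hE0 : 0 ≤ E := by rw [hE]; positivity
  have hγε : 0 < γ * ε := by positivity
  refine ⟨?_, ?_, hE0, hK₁0, hK₂0⟩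
  · have h1 : E * min K₁ K₂ ≤ a ^ 2 / n₀ * K₂ + 3 / 4 / μ * K₁ := by
      rw [hE, add_mul]
      exact add_le_add (mul_le_mul_of_nonneg_left (min_le_right _ _) hA0)
        (mul_le_mul_of_nonneg_left (min_le_left _ _) hB0.le)
    have h2 : a ^ 2 / n₀ * K₂ ≤ γ * ε / (12 * L) := by
      have h3 : a ^ 2 / n₀ * K₂ ≤ 9 * L ^ 5 / N * (C₂ * w) := by
        rw [hK₂]
        exact mul_le_mul_of_nonneg_right hA (by positivity)
      refine h3.trans ?_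
      rw [← hsq]
      have h4 : 9 * L ^ 5 / (w * w) * (C₂ * w) = 9 * L ^ 5 * C₂ / w := by
        field_simp
      rw [h4, div_le_div_iff₀ hs0 (by positivity)]
      have h5 : 108 * C₂ * L ^ 6 ≤ w * (γ * ε) := by
        have h6 := mul_le_mul_of_nonneg_right F3 hγε.le
        have h7 : 108 * C₂ / (γ * ε) * L ^ 6 * (γ * ε) = 108 * C₂ * L ^ 6 := by
          field_simp
        rwa [h7] at h6
      nlinarith
    have h3 : 3 / 4 / μ * K₁ ≤ γ * ε / (24 * L) + γ * ε / (12 * L) := by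
      have h4 : 3 / 4 / μ * K₁ = 3 / 4 * c / Real.log n₀ + 3 / 4 * (r + 1) / μ := by
        rw [hK₁]
        field_simp
        ring
      rw [h4]
      have h5 : 3 / 4 * c / Real.log n₀ ≤ γ * ε / (24 * L) := by
        rw [div_le_div_iff₀ hlog0 (by positivity), hc]
        nlinarith
      have h6 : 3 / 4 * (r + 1) / μ ≤ γ * ε / (12 * L) := by
        rw [div_le_div_iff₀ hμ0 (by positivity)]
        have h7 : 72 * L ^ 5 ≤ v * (γ * ε) := by
          have h8 := mul_le_mul_of_nonneg_right F2 hγε.le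
          have h9 : 72 / (γ * ε) * L ^ 5 * (γ * ε) = 72 * L ^ 5 := by
            field_simp
          rwa [h9] at h8
        have h8 : v * (γ * ε) ≤ μ * (γ * ε) := mul_le_mul_of_nonneg_right hμ hγε.le
        have h9 : 3 / 4 * (r + 1) * (12 * L) ≤ 3 / 4 * (7 * L ^ 4) * (12 * L) := by gcongr
        have h10 : 3 / 4 * (7 * L ^ 4) * (12 * L) = 63 * L ^ 5 := by ring
        have h11 : 0 ≤ L ^ 5 := by positivity
        nlinarith
      exact add_le_add h5 h6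
    have h4 : γ * ε / (12 * L) + (γ * ε / (24 * L) + γ * ε / (12 * L)) ≤ γ * ε / (3 * L) := by
      have h5 : γ * ε / (12 * L) = γ * ε / L / 12 := by field_simp
      have h6 : γ * ε / (24 * L) = γ * ε / L / 24 := by field_simp
      have h7 : γ * ε / (3 * L) = γ * ε / L / 3 := by field_simp
      have h8 : 0 ≤ γ * ε / L := by positivity
      rw [h5, h6, h7]
      linarith
    linarith
  · have h1 : (r + 1) * E ≤ 7 * L ^ 4 * (9 * L ^ 5 / N) + 7 * L ^ 4 * (3 / 4 / μ) := by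
      rw [← mul_add, hE]
      exact mul_le_mul hr (add_le_add_left hA _) (by positivity) (by positivity)
    have h2 : 7 * L ^ 4 * (9 * L ^ 5 / N) ≤ γ / 2 := by
      have h3 : 7 * L ^ 4 * (9 * L ^ 5 / N) = 63 * L ^ 9 / N := by ring
      rw [h3, div_le_iff₀ hN0]
      have h4 : 126 * L ^ 9 ≤ w * γ := by
        have h5 := mul_le_mul_of_nonneg_right F4 hγ.le
        have h6 : 126 / γ * L ^ 9 * γ = 126 * L ^ 9 := by field_simp
        rwa [h6] at h5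
      have h5 : w ≤ N := by nlinarith
      nlinarith
    have h3 : 7 * L ^ 4 * (3 / 4 / μ) ≤ γ / 2 := by
      have h4 : 7 * L ^ 4 * (3 / 4 / μ) = 21 / 4 * L ^ 4 / μ := by ring
      rw [h4, div_le_iff₀ hμ0]
      have h5 : 12 * L ^ 4 ≤ v * γ := by
        have h6 := mul_le_mul_of_nonneg_right F5 hγ.le
        have h7 : 12 / γ * L ^ 4 * γ = 12 * L ^ 4 := by field_simp
        rwa [h7] at h6
      have h6 : v * γ ≤ μ * γ := mul_le_mul_of_nonneg_right hμ hγ.le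
      have h7 : 0 ≤ L ^ 4 := by positivity
      nlinarith
    linarith

theorem blockB (p q ε : ℝ) (hq : 0 < q) (hpq : q < p) (hp : p < 1) (hε : 0 < ε) :
    ∃ c : ℝ, 0 < c ∧ ∀ η : ℝ, 0 < η → η < 1 / 2 →
    ∀ᶠ N : ℕ in atTop, ∀ s : ℕ, (N : ℝ) / (Real.log N) ^ 3 + RN N ≤ s → s + RN N ≤ N →
      η ≤ Int.fract (al0 s) →
      (∃ n₀ : ℕ, s < n₀ + RN N ∧ n₀ ≤ s ∧ Bad p q c n₀) →
      Psi (q + (p - q) / 3) ((p - q) / 3) (s + RN N) ≤ Psi (q + (p - q) / 3) ((p - q) / 3) s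
        + ((RN N : ℝ) / (al s : ℝ) + 1) * ((p - q) / 3 * (1 + ε / al0 N)) := by
  obtain ⟨γ, hγ⟩ : ∃ γ, γ = (p - q) / 3 := ⟨_, rfl⟩
  have hγ0 : 0 < γ := by rw [hγ]; linarith
  rw [← hγ]
  obtain ⟨β, hβ⟩ : ∃ β, β = q + γ := ⟨_, rfl⟩
  rw [← hβ]
  have hp3 : p = q + 3 * γ := by rw [hγ]; ring
  refine ⟨γ * ε / 36, by positivity, fun η hη hη2 => ?_⟩
  obtain ⟨C₂, hC₂⟩ : ∃ C, C = Real.sqrt (2 / (q * (1 - p))) + 1 := ⟨_, rfl⟩
  have hC₂0 : 0 < C₂ := by rw [hC₂]; positivity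
  filter_upwards [al0_window 1 one_pos, RN_pos, al0_bounds, log_large' 10,
    al0_step (η / 4) (by positivity), eventually_window _ W_le,
    eventually_window _ (mu_lower (η / 4) (by positivity)),
    eventually_window _ al0_bounds,
    log_pow_le 1 (1 / 2) (by norm_num) 3,
    log_pow_le (72 / (γ * ε)) (η / 8) (by positivity) 5,
    log_pow_le (108 * C₂ / (γ * ε)) (1 / 2) (by norm_num) 6,
    log_pow_le (126 / γ) (1 / 2) (by norm_num) 9,
    log_pow_le (12 / γ) (η / 8) (by positivity) 4,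
    eventually_ge_atTop 1] with N hwin hR hb hL hstep hWle hmul hbw F1 F2 F3 F4 F5 hN1
  rintro s hs1 hs2 hfr ⟨n₀, hn1, hn2, x₀, y₀, hbp, hbq, hxy⟩
  obtain ⟨r1, r2, r3⟩ := hR
  obtain ⟨b1, -, b3, -⟩ := hb
  obtain ⟨L, hLdef⟩ : ∃ L, L = Real.log (N : ℝ) := ⟨_, rfl⟩
  rw [← hLdef] at r2 r3 b1 b3 hL F1 F2 F3 F4 F5 hs1 hwin hstep hWle hmul hbw
  have hL0 : 0 < L := by linarith
  have hL1 : 1 ≤ L := by linarith
  have hN1r : (1 : ℝ) ≤ N := by exact_mod_cast hN1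
  have hN0 : (0 : ℝ) < N := by linarith
  have hRpos : (0 : ℝ) < RN N := by exact_mod_cast r1
  have hn1r : (s : ℝ) < n₀ + RN N := by exact_mod_cast hn1
  have hn2r : (n₀ : ℝ) ≤ s := by exact_mod_cast hn2
  have hs2r : (s : ℝ) + RN N ≤ N := by exact_mod_cast hs2
  have hwn : (N : ℝ) / L ^ 3 ≤ n₀ := by linarith
  have hws : (N : ℝ) / L ^ 3 ≤ s := by linarith
  have hsN : s ≤ N := by omega
  obtain ⟨w1, -⟩ := hwin s hws hsN
  -- size of n₀
  have hL4 : (0 : ℝ) < L ^ 4 := by positivity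
  have hL45 : 10 * L ^ 4 ≤ L ^ 5 := by
    have : L ^ 5 = L * L ^ 4 := by ring
    rw [this]; exact mul_le_mul_of_nonneg_right hL hL4.le
  have hn0half : (N : ℝ) ^ (1 / 2 : ℝ) ≤ n₀ := by
    refine le_trans ?_ hwn
    rw [le_div_iff₀ (by positivity)]
    have h1 : (N : ℝ) ^ (1 / 2 : ℝ) * L ^ 3 ≤ (N : ℝ) ^ (1 / 2 : ℝ) * (N : ℝ) ^ (1 / 2 : ℝ) :=
      mul_le_mul_of_nonneg_left (by linarith) (by positivity)
    refine h1.trans (le_of_eq ?_)
    rw [← Real.rpow_add hN0]; norm_num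
  have hn0pos : (0 : ℝ) < n₀ := lt_of_lt_of_le (Real.rpow_pos_of_pos hN0 _) hn0half
  have hlogn : L / 2 ≤ Real.log n₀ := by
    have h1 := Real.log_le_log (Real.rpow_pos_of_pos hN0 _) hn0half
    rw [Real.log_rpow hN0, ← hLdef] at h1
    linarith
  -- al0 s and a
  obtain ⟨a, ha⟩ : ∃ a, a = al s := ⟨_, rfl⟩
  have hlogs : L / 2 ≤ Real.log s := hlogn.trans (Real.log_le_log hn0pos hn2r)
  have hals : L / 2 ≤ al0 s := hlogs.trans (hbw s hws).1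
  have haeq : (a : ℝ) = al0 s - Int.fract (al0 s) := by
    rw [ha]; exact al_eq s (by linarith)
  have hfr1 := Int.fract_lt_one (al0 s)
  have ha3L : (a : ℝ) ≤ 3 * L := by
    have := Int.fract_nonneg (al0 s)
    linarith
  have ha1 : 1 ≤ a := by
    have h1 : (1 : ℝ) ≤ a := by linarith
    exact_mod_cast h1
  -- steps
  have hsn : 0 ≤ al0 s - al0 n₀ ∧ al0 s - al0 n₀ ≤ η / 4 := by
    refine hstep n₀ s hwn hn2 ?_
    linarith
  have halo : (a : ℝ) + 3 * η / 4 ≤ al0 n₀ := by linarith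
  have hahi : al0 n₀ < a + 1 := by linarith
  have haln : al n₀ = a := by
    rw [al, Nat.floor_eq_iff (by have : (0 : ℝ) ≤ a := Nat.cast_nonneg a
                                 linarith)]
    exact ⟨by linarith, hahi⟩
  obtain ⟨μ, hμ⟩ : ∃ μ, μ = mu n₀ a := ⟨_, rfl⟩
  have hμlow : (N : ℝ) ^ (η / 4) ≤ μ := by
    have h1 := hmul n₀ hwn a (by linarith) (by linarith)
    rw [← hμ] at h1
    refine le_trans ?_ h1
    have hn1' : (1 : ℝ) ≤ n₀ := le_trans (Real.one_le_rpow hN1r (by norm_num)) hn0half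
    have h2 : (n₀ : ℝ) ^ (η / 2) ≤ (n₀ : ℝ) ^ (al0 n₀ - a - η / 4) :=
      Real.rpow_le_rpow_of_exponent_le hn1' (by linarith)
    refine le_trans ?_ h2
    have h3 : ((N : ℝ) ^ (1 / 2 : ℝ)) ^ (η / 2) ≤ (n₀ : ℝ) ^ (η / 2) :=
      Real.rpow_le_rpow (by positivity) hn0half (by positivity)
    refine le_trans (le_of_eq ?_) h3
    rw [← Real.rpow_mul hN0.le]
    congr 1
    ring
  have hμ0 : 0 < μ := lt_of_lt_of_le (Real.rpow_pos_of_pos hN0 _) hμlow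
  have hsμ : (N : ℝ) ^ (η / 8) ≤ Real.sqrt μ := by
    refine Real.le_sqrt_of_sq_le (le_trans (le_of_eq ?_) hμlow)
    rw [← Real.rpow_natCast, ← Real.rpow_mul hN0.le]
    congr 1
    push_cast
    ring
  have hsμ0 : 0 < Real.sqrt μ := Real.sqrt_pos.mpr hμ0
  -- r
  obtain ⟨r, hr⟩ : ∃ r, r = 2 * RN N / a + 2 := ⟨_, rfl⟩
  have hr1 : 2 * RN N + a ≤ r * a := by
    rw [hr]
    have h1 := Nat.div_add_mod (2 * RN N) a
    have h2 := Nat.mod_lt (2 * RN N) (show 0 < a by omega)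
    have h3 : (2 * RN N / a + 2) * a = a * (2 * RN N / a) + 2 * a := by ring
    omega
  have hr2 : r * a ≤ 2 * RN N + 2 * a := by
    rw [hr]
    have h1 := Nat.div_mul_le_self (2 * RN N) a
    have h3 : (2 * RN N / a + 2) * a = 2 * RN N / a * a + 2 * a := by ring
    omega
  have hr3 : r ≤ 2 * RN N + 2 := by
    rw [hr]
    have := Nat.div_le_self (2 * RN N) a
    omega
  have hr3r : (r : ℝ) + 1 ≤ 7 * L ^ 4 := by
    have h1 : (r : ℝ) ≤ 2 * RN N + 2 := by exact_mod_cast hr3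
    have h2 : (1 : ℝ) ≤ L ^ 4 := one_le_pow₀ hL1
    linarith
  have hrar : ((r * a : ℕ) : ℝ) ≤ L ^ 5 := by
    have h1 : ((r * a : ℕ) : ℝ) ≤ 2 * RN N + 2 * a := by exact_mod_cast hr2
    have h2 : L ≤ L ^ 4 := by
      have := pow_le_pow_right₀ hL1 (show 1 ≤ 4 by norm_num)
      rwa [pow_one] at this
    linarith
  -- constants
  obtain ⟨E, hE⟩ : ∃ E, E = (a : ℝ) ^ 2 / n₀ + 3 / 4 / Real.sqrt μ := ⟨_, rfl⟩
  obtain ⟨K₁, hK₁⟩ : ∃ K, K = γ * ε / 36 * Real.sqrt μ / Real.log n₀ + 1 + r := ⟨_, rfl⟩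
  obtain ⟨K₂, hK₂⟩ : ∃ K, K = C₂ * (N : ℝ) ^ (1 / 2 : ℝ) := ⟨_, rfl⟩
  obtain ⟨g1, g2, g3, g4, g5⟩ := core_est (N := (N : ℝ)) (n₀ := (n₀ : ℝ)) (L := L)
    (μ := Real.sqrt μ) (a := (a : ℝ)) (r := (r : ℝ)) (γ := γ) (ε := ε) (c := γ * ε / 36)
    (C₂ := C₂) (η := η) (K₁ := K₁) (K₂ := K₂) (E := E) hN1r hL1 hγ0 hε hC₂0 hη hwn
    (Nat.cast_nonneg a) ha3L (Nat.cast_nonneg r) hr3r hsμ rfl hlogn hsμ0 hE hK₁ hK₂ F2 F3 F4 F5
  -- W
  have hW : ∀ m : ℕ, n₀ ≤ m → m ≤ n₀ + r * a → Real.sqrt (W m a) / 2 ≤ E := by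
    intro m hm1 hm2
    have hm1r : (n₀ : ℝ) ≤ m := by exact_mod_cast hm1
    have hm2r : (m : ℝ) ≤ n₀ + L ^ 5 := by
      have : (m : ℝ) ≤ n₀ + ((r * a : ℕ) : ℝ) := by exact_mod_cast hm2
      linarith
    obtain ⟨st1, st2⟩ := hstep n₀ m hwn hm1 hm2r
    have h1 := hWle m (hwn.trans hm1r) a (by linarith) (by linarith)
    have h2 : mu n₀ a ≤ mu m a := mu_mono n₀ m a hm1
    rw [← hμ] at h2
    have h3 : W m a ≤ (2 * E) ^ 2 := by
      have h4 : 4 * (a : ℝ) ^ 4 / (m : ℝ) ^ 2 ≤ 4 * (a : ℝ) ^ 4 / (n₀ : ℝ) ^ 2 := by gcongr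
      have h5 : 2 / mu m a ≤ 2 / μ := by gcongr
      have h6 : (2 * E) ^ 2 = 4 * (a : ℝ) ^ 4 / (n₀ : ℝ) ^ 2 +
          6 * ((a : ℝ) ^ 2 / n₀ / Real.sqrt μ) + 9 / 4 / (Real.sqrt μ) ^ 2 := by
        rw [hE]; field_simp; ring
      rw [Real.sq_sqrt hμ0.le] at h6
      have h7 : 0 ≤ 6 * ((a : ℝ) ^ 2 / n₀ / Real.sqrt μ) := by positivity
      have h8 : 2 / μ ≤ 9 / 4 / μ := by
        apply div_le_div_of_nonneg_right _ hμ0.le
        norm_num
      linarith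
    have h4 : Real.sqrt (W m a) ≤ 2 * E := Real.sqrt_le_iff.mpr ⟨by linarith, h3⟩
    linarith
  have hEγ : E ≤ γ := by
    have h1 : E ≤ ((r : ℝ) + 1) * E := by
      have : (0 : ℝ) ≤ r := Nat.cast_nonneg r
      nlinarith
    linarith
  have hEβ : E ≤ β := by linarith
  have hK : 0 ≤ min K₁ K₂ := le_min g4 g5
  have hKc : ∀ m : ℕ, s ≤ m → m ≤ s + RN N + a →
      (Kc m (β - E) (β + γ) : ℝ) ≤ min K₁ K₂ := by
    intro m hm1 hm2
    refine le_min ?_ ?_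
    · have h1 := persist p q E g3 x₀ y₀ n₀ m r a hbp hbq hW (by omega) (by omega)
      have h2 : (Kc m (β - E) (β + γ) : ℝ) ≤ Kc m (q + r * E) p := by
        have := Kc_mono m (β - E) (β + γ) (q + r * E) p (by
          have : (r : ℝ) * E + E ≤ γ := by linarith
          rw [hβ]; linarith) (by rw [hβ, hp3]; linarith)
        exact_mod_cast this
      rcases h1 with h1 | h1
      · rw [haln, ← hμ] at hxy
        rw [hK₁]
        linarith
      · exact (h2.trans h1).trans g4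
    · have hmN : (m : ℝ) ≤ 2 * N := by
        have h1 : (m : ℝ) ≤ s + RN N + a := by exact_mod_cast hm2
        have h2 : (a : ℝ) ≤ N := by
          have h3 : L ≤ L ^ 4 := by
            have := pow_le_pow_right₀ hL1 (show 1 ≤ 4 by norm_num)
            rwa [pow_one] at this
          have h4 : (0 : ℝ) ≤ s := Nat.cast_nonneg s
          have h5 : (RN N : ℝ) ≤ N := by linarith
          have h6 : 3 * L ≤ L ^ 4 := by
            have h7 : L ^ 2 ≤ L ^ 4 := pow_le_pow_right₀ hL1 (by norm_num)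
            nlinarith
          linarith
        linarith
      have h1 := Kc_le_sqrt m (β - E) (β + γ) (by rw [hβ]; linarith) (by rw [hβ]; linarith)
      refine h1.trans ?_
      have h2 : (m : ℝ) / ((β - E) * (1 - (β + γ))) ≤ N * (2 / (q * (1 - p))) := by
        have h3 : q * (1 - p) ≤ (β - E) * (1 - (β + γ)) := by
          apply mul_le_mul (by rw [hβ]; linarith) (by rw [hβ]; linarith) (by linarith)
          rw [hβ]; linarith
        have h4 : 0 < q * (1 - p) := mul_pos hq (by linarith)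
        calc (m : ℝ) / ((β - E) * (1 - (β + γ))) ≤ 2 * N / (q * (1 - p)) := by
              gcongr
          _ = N * (2 / (q * (1 - p))) := by ring
      have h3 : Real.sqrt ((m : ℝ) / ((β - E) * (1 - (β + γ)))) ≤
          (N : ℝ) ^ (1 / 2 : ℝ) * Real.sqrt (2 / (q * (1 - p))) := by
        refine (Real.sqrt_le_sqrt h2).trans (le_of_eq ?_)
        rw [Real.sqrt_mul hN0.le, Real.sqrt_eq_rpow (N : ℝ)]
      have h4 : (1 : ℝ) ≤ (N : ℝ) ^ (1 / 2 : ℝ) := Real.one_le_rpow hN1r (by norm_num)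
      rw [hK₂, hC₂]
      nlinarith
  have hWs : ∀ m : ℕ, s ≤ m → m ≤ s + RN N + a → Real.sqrt (W m a) / 2 ≤ E := fun m hm1 hm2 =>
    hW m (by omega) (by omega)
  have hfin := Psi_chain β γ E (min K₁ K₂) hγ0.le g3 hEβ hK s (RN N) a ha1 hWs hKc
  rw [← ha]
  refine hfin.trans ?_
  have hΛ0 : 0 < al0 N := by linarith
  have h1 : γ * ε / (3 * L) ≤ γ * (ε / al0 N) := by
    rw [← mul_div_assoc]
    exact div_le_div_of_nonneg_left (by positivity) hΛ0 b3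
  have h2 : γ + E * min K₁ K₂ ≤ γ * (1 + ε / al0 N) := by
    rw [mul_add, mul_one]; linarith
  have h3 : 0 ≤ (RN N : ℝ) / (a : ℝ) + 1 := by positivity
  have h4 := mul_le_mul_of_nonneg_left h2 h3
  linarith

end ZZ51
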