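import Pool.Agent.ZZ51.BlockSG
import Pool.Agent.ZZ51.BlockB

/-!
# ZZ51/Block: one block, all cases

PROOF. `ε₁` from `real_block ε`, `c` from `blockB p q ε₁`.  Cases: `fract (al0 s) < η`: `blockS` and
`real_block` with `a = al s - 2 = al0 s - fract - 2`; else if the previous block contains a bad `n₀`:
`blockB`, `a = al s`; else `blockG`, `a = al s - 1`.  In each case `Λ - a = Λ - al0 s + fract (al0 s) + j`,
`j = 2, 0, 1`.
-/

set_option autoImplicit false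

open Filter Topology

namespace ZZ51

private theorem block_fin {Ps Ps' γ R Λ a x y E : ℝ} (hγ : 0 < γ) (hR : 0 ≤ R)
    (h1 : Ps' ≤ Ps + (R / a + 1) * (γ * E)) (h2 : (R / a + 1) * E ≤ R / Λ + R / Λ ^ 2 * x)
    (h3 : x ≤ y) : Ps' ≤ Ps + γ * (R / Λ + R / Λ ^ 2 * y) := by
  have h4 : R / Λ ^ 2 * x ≤ R / Λ ^ 2 * y := mul_le_mul_of_nonneg_left h3 (by positivity)
  have h5 := mul_le_mul_of_nonneg_left (h2.trans (add_le_add_right h4 (R / Λ))) hγ.le
  calc Ps' ≤ Ps + (R / a + 1) * (γ * E) := h1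
    _ = Ps + γ * ((R / a + 1) * E) := by ring
    _ ≤ _ := by linarith

open Classical in
theorem block (p q ε : ℝ) (hq : 0 < q) (hpq : q < p) (hp : p < 1) (hε : 0 < ε) :
    ∃ c : ℝ, 0 < c ∧ ∀ η : ℝ, 0 < η → η < 1 / 2 →
    ∀ᶠ N : ℕ in atTop, ∀ s : ℕ, (N : ℝ) / (Real.log N) ^ 3 + RN N ≤ s → s + RN N ≤ N →
      Psi (q + (p - q) / 3) ((p - q) / 3) (s + RN N)
        ≤ Psi (q + (p - q) / 3) ((p - q) / 3) s
          + (p - q) / 3 * ((RN N : ℝ) / al0 N + (RN N : ℝ) / (al0 N) ^ 2 *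
              (al0 N - al0 s + Int.fract (al0 s) + (if Int.fract (al0 s) < η then 2 else 0)
                + (if ∀ n₀ : ℕ, s < n₀ + RN N → n₀ ≤ s → ¬ Bad p q c n₀ then 1 else 0) + ε)) := by
  obtain ⟨ε₁, hε1, hreal⟩ := real_block ε hε
  obtain ⟨c, hc, hB⟩ := blockB p q ε₁ hq hpq hp hε1
  refine ⟨c, hc, fun η hη hη2 => ?_⟩
  have hβ : 0 < q + (p - q) / 3 := by linarith
  have hγ : 0 < (p - q) / 3 := by linarith
  have hβγ : q + (p - q) / 3 + (p - q) / 3 < 1 := by linarith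
  filter_upwards [hreal, hB η hη hη2, blockS _ _ ε₁ hβ hγ hβγ hε1,
    blockG _ _ ε₁ η hβ hγ hβγ hε1 hη hη2,
    eventually_window (fun n => 0 ≤ al0 n) (al0_tendsto.eventually_ge_atTop 0)]
    with N h1 h2 h3 h4 h5
  intro s hs hsN
  have hR0 : (0 : ℝ) ≤ RN N := Nat.cast_nonneg _
  have hs' : (N : ℝ) / (Real.log N) ^ 3 ≤ s := by linarith
  have hsN' : s ≤ N := by omega
  have hal := al_eq s (h5 s hs')
  have hf0 := Int.fract_nonneg (al0 s)
  have hf1 := Int.fract_lt_one (al0 s)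
  have hi1 : (0 : ℝ) ≤ if ∀ n₀ : ℕ, s < n₀ + RN N → n₀ ≤ s → ¬ Bad p q c n₀ then 1 else 0 := by
    split_ifs <;> norm_num
  by_cases hfr : Int.fract (al0 s) < η
  · rw [if_pos hfr]
    exact block_fin hγ hR0 (h3 s hs' hsN)
      (h1 s hs' hsN' ((al s : ℝ) - 2) (by linarith) (by linarith)) (by linarith)
  · rw [if_neg hfr]
    have hfr' : η ≤ Int.fract (al0 s) := not_lt.1 hfr
    by_cases hbad : ∃ n₀ : ℕ, s < n₀ + RN N ∧ n₀ ≤ s ∧ Bad p q c n₀
    · exact block_fin hγ hR0 (h2 s hs hsN hfr' hbad)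
        (h1 s hs' hsN' (al s : ℝ) (by linarith) (by linarith)) (by linarith)
    · have hall : ∀ n₀ : ℕ, s < n₀ + RN N → n₀ ≤ s → ¬ Bad p q c n₀ :=
        fun n₀ ha hb hbd => hbad ⟨n₀, ha, hb, hbd⟩
      rw [if_pos hall]
      exact block_fin hγ hR0 (h4 s hs' hsN hfr')
        (h1 s hs' hsN' ((al s : ℝ) - 1) (by linarith) (by linarith)) (by linarith)

end ZZ51
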