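import Pool.Agent.ZZ51.Alpha

/-!
# ZZ51/BlockReal: block length and the real inequality for one block

`RN N = ⌈(log N)^4⌉`.  PROOF of `real_block` with `ε₁ = ε/4`: put `Λ = al0 N`, `z = Λ - a`. By `al0_window`
`0 ≤ z`, `z² ≤ κ Λ` (`κ` as small as we like, so also `z ≤ Λ/2`), so
`1/a = 1/(Λ - z) ≤ 1/Λ + z/Λ² + 2 z²/Λ³ ≤ 1/Λ + (z + 2κ)/Λ²`; multiply by `1 + ε₁/Λ` and use `z/Λ → 0`;
`(1 + ε₁/Λ) ≤ 2 ≤ (ε/4) RN/Λ²` since `RN ≥ (log N)^4`, `Λ ≤ 3 log N`.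
-/

set_option autoImplicit false

open Filter Topology

namespace ZZ51

/-- block length -/
noncomputable def RN (N : ℕ) : ℕ := ⌈(Real.log N) ^ 4⌉₊

private theorem log_large (C : ℝ) : ∀ᶠ N : ℕ in atTop, C ≤ Real.log N :=
  (Real.tendsto_log_atTop.comp tendsto_natCast_atTop_atTop).eventually_ge_atTop C

theorem RN_pos : ∀ᶠ N : ℕ in atTop, 1 ≤ RN N ∧ (RN N : ℝ) ≤ 2 * (Real.log N) ^ 4 ∧
    (Real.log N) ^ 4 ≤ RN N := by
  filter_upwards [log_large 1] with N hN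
  have h1 : (1 : ℝ) ≤ (Real.log N) ^ 4 := one_le_pow₀ hN
  have h2 : (Real.log N) ^ 4 ≤ RN N := Nat.le_ceil _
  have h3 : (RN N : ℝ) < (Real.log N) ^ 4 + 1 := Nat.ceil_lt_add_one (by linarith)
  refine ⟨?_, by linarith, h2⟩
  have h4 : (1 : ℝ) ≤ (RN N : ℝ) := h1.trans h2
  exact_mod_cast h4

private theorem real_core {Λ z κ ε ε₁ R : ℝ} (hΛ : 0 < Λ) (hz : 0 ≤ z) (hκ : 0 < κ)
    (hε1 : 0 < ε₁) (hR : 0 < R) (hz2 : z ^ 2 ≤ κ * Λ) (h4 : 4 * κ ≤ Λ) (h5 : ε₁ ≤ Λ)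
    (h6 : 2 * κ + ε₁ + ε₁ + 2 * Λ ^ 2 / R ≤ ε) :
    (R / (Λ - z) + 1) * (1 + ε₁ / Λ) ≤ R / Λ + R / Λ ^ 2 * (z + ε) := by
  have hzΛ : z ≤ Λ / 2 := by
    have h1 : z ^ 2 ≤ (Λ / 2) ^ 2 := by nlinarith
    exact (abs_le_of_sq_le_sq' h1 (by linarith)).2
  have ha : 0 < Λ - z := by linarith
  have h7 : 1 / (Λ - z) ≤ 1 / Λ + (z + 2 * κ) / Λ ^ 2 := by
    rw [div_add_div _ _ hΛ.ne' (pow_pos hΛ 2).ne', div_le_div_iff₀ ha (by positivity)]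
    -- `Λ³ ≤ (Λ² + Λ (z + 2κ)) (Λ - z)`
    have h8 : (1 * Λ ^ 2 + Λ * (z + 2 * κ)) * (Λ - z) - 1 * (Λ * Λ ^ 2) =
        Λ * (2 * κ * (Λ - z) - z ^ 2) := by ring
    have h9 : 0 ≤ 2 * κ * (Λ - z) - z ^ 2 := by nlinarith
    have h10 := mul_nonneg hΛ.le h9
    linarith
  have h8 : ε₁ / Λ ≤ 1 := (div_le_one hΛ).2 h5
  have h9 : 0 < ε₁ / Λ := div_pos hε1 hΛ
  have h10 : R / (Λ - z) ≤ R / Λ + R / Λ ^ 2 * (z + 2 * κ) := by
    have := mul_le_mul_of_nonneg_left h7 hR.le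
    calc R / (Λ - z) = R * (1 / (Λ - z)) := by ring
      _ ≤ R * (1 / Λ + (z + 2 * κ) / Λ ^ 2) := this
      _ = _ := by ring
  have h11 : (R / (Λ - z) + 1) * (1 + ε₁ / Λ) ≤
      (R / Λ + R / Λ ^ 2 * (z + 2 * κ)) * (1 + ε₁ / Λ) + 2 := by
    have := mul_le_mul_of_nonneg_right h10 (show 0 ≤ 1 + ε₁ / Λ by linarith)
    linarith
  refine h11.trans ?_
  -- `(z + 2κ) / Λ ≤ 1`
  have h12 : (z + 2 * κ) * (ε₁ / Λ) ≤ ε₁ := by
    rw [mul_div_assoc', div_le_iff₀ hΛ]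
    nlinarith
  have h13 : 0 < R / Λ ^ 2 := by positivity
  have h14 : (R / Λ ^ 2) * (2 * Λ ^ 2 / R) = 2 := by
    field_simp
  have h15 := mul_le_mul_of_nonneg_left h6 h13.le
  have h16 := mul_le_mul_of_nonneg_left h12 h13.le
  have h17 : R / Λ * (ε₁ / Λ) = R / Λ ^ 2 * ε₁ := by
    field_simp
  nlinarith

theorem real_block (ε : ℝ) (hε : 0 < ε) : ∃ ε₁ : ℝ, 0 < ε₁ ∧ ∀ᶠ N : ℕ in atTop, ∀ s : ℕ,
    (N : ℝ) / (Real.log N) ^ 3 ≤ s → s ≤ N → ∀ a : ℝ, al0 s - 3 ≤ a → a ≤ al0 s →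
      ((RN N : ℝ) / a + 1) * (1 + ε₁ / al0 N)
        ≤ (RN N : ℝ) / al0 N + (RN N : ℝ) / (al0 N) ^ 2 * (al0 N - a + ε) := by
  refine ⟨ε / 8, by positivity, ?_⟩
  filter_upwards [al0_window (ε / 8) (by positivity), RN_pos, al0_bounds,
    log_large 1, log_large (ε + 100 / ε)] with N hw hR hb hl1 hl2
  intro s hs hsN a ha1 ha2
  obtain ⟨w1, w2⟩ := hw s hs hsN
  obtain ⟨r1, r2, r3⟩ := hR
  obtain ⟨b1, _, b3, _⟩ := hb
  set Λ := al0 N with hΛ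
  have hL : 0 < Real.log N := by linarith
  have hΛ0 : 0 < Λ := by linarith
  have hRpos : (0 : ℝ) < RN N := by exact_mod_cast r1
  have hε' : 0 < 100 / ε := by positivity
  have hεΛ : ε ≤ Λ := by linarith
  obtain ⟨z, hz⟩ : ∃ z, z = Λ - a := ⟨_, rfl⟩
  have haz : a = Λ - z := by linarith
  have hz0 : 0 ≤ z := by linarith
  have hz1 : z ^ 2 ≤ ε / 8 * Λ := by
    refine le_trans ?_ w2
    apply pow_le_pow_left₀ hz0
    linarith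
  have h6 : 2 * Λ ^ 2 / (RN N : ℝ) ≤ ε / 4 := by
    rw [div_le_iff₀ hRpos]
    have h7 : Λ ^ 2 ≤ (3 * Real.log N) ^ 2 := pow_le_pow_left₀ hΛ0.le b3 2
    have h8 : 72 ≤ ε * (Real.log N) ^ 2 := by
      have h9 : 100 / ε ≤ Real.log N := by linarith
      have h10 : 100 ≤ ε * Real.log N := by
        rw [div_le_iff₀ hε] at h9
        linarith
      nlinarith
    have h9 : ε / 4 * (Real.log N) ^ 4 ≤ ε / 4 * (RN N : ℝ) :=
      mul_le_mul_of_nonneg_left r3 (by positivity)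
    have h10 : 72 * (Real.log N) ^ 2 ≤ ε * (Real.log N) ^ 2 * (Real.log N) ^ 2 :=
      mul_le_mul_of_nonneg_right h8 (by positivity)
    nlinarith
  have := real_core (Λ := Λ) (z := z) (κ := ε / 8) (ε := ε) (ε₁ := ε / 8) (R := (RN N : ℝ))
    hΛ0 hz0 (by positivity) (by positivity) hRpos hz1 (by linarith) (by linarith) (by linarith)
  rw [haz]
  have e : Λ - (Λ - z) + ε = z + ε := by ring
  rw [e]
  exact this

end ZZ51
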