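import Pool.Agent.ZZ51.BlockReal
import Pool.Agent.ZZ51.Func
import Pool.Agent.ZZ51.MuLow
import Pool.Agent.ZZ51.WBound

/-!
# ZZ51/BlockSG: slope `1/(α-2)` on every block, slope `1/(α-1)` if `{α₀} ≥ η`

PROOF of `blockS`. `Psi_chain` with `a = al s - 2` (natural subtraction; `al s ≥ 3`), `R = RN N`,
`E = s^{-9/10}`, `K = C √s`.  For `s ≤ m ≤ s + R + a`: `a ≤ al0 m` and `al0 m - 4 ≤ a` (`al0_step`,
`al_eq`), so by `W_le`, `mu_lower (κ = 1/10)` and `al0 m - a ≥ al0 s - a ≥ 2`: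
`W m a ≤ 4a⁴/m² + 2 m^{-19/10}`, `√W/2 ≤ a²/m + m^{-19/20} ≤ s^{-9/10}`.
`Kc m (β - E) (β + γ) ≤ √(m/((β/2)(1-β-γ))) + 1 ≤ C √s` (`Kc_le_sqrt`, `E ≤ β/2`, `m ≤ 2 s`).
So `E K ≤ C s^{-4/10} ≤ γ ε/Λ` where `Λ ≤ 3 log N ≤ 4 log s`.
`blockG`: the same with `a = al s - 1`, `al0 m - a ≥ 1 + η`, `κ = η/2`: `√W/2 ≤ a²/s + s^{-1/2-η/4} ≤
2 s^{-1/2-η/4}`, `E K ≤ C s^{-η/4}` (`η < 1/2`).
Use `eventually_window` to have all eventual facts at `m ≥ s ≥ N/(log N)³`.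
-/

set_option autoImplicit false

open Filter Topology

namespace ZZ51

private theorem ev_log (C : ℝ) (k : ℕ) (r : ℝ) (hr : 0 < r) :
    ∀ᶠ n : ℕ in atTop, C * (Real.log n) ^ k ≤ (n : ℝ) ^ r := by
  have h := (isLittleO_log_rpow_rpow_atTop (k : ℝ) hr).def (c := 1 / (|C| + 1)) (by positivity)
  have h1 := (tendsto_natCast_atTop_atTop (R := ℝ)).eventually h
  filter_upwards [h1, eventually_ge_atTop 1] with n hn hn1
  have hn1' : (1 : ℝ) ≤ n := by exact_mod_cast hn1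
  have hl : 0 ≤ Real.log n := Real.log_nonneg hn1'
  rw [Real.rpow_natCast, Real.norm_of_nonneg (by positivity),
    Real.norm_of_nonneg (by positivity)] at hn
  have hC : 0 < |C| + 1 := by positivity
  rw [one_div, ← div_eq_inv_mul, le_div_iff₀ hC] at hn
  have h2 := le_abs_self C
  have hl4 : 0 ≤ Real.log n ^ k := by positivity
  nlinarith

private theorem sqrtW_le {x A B Wv a L μ τ : ℝ} (hx : 1 ≤ x) (hτ : 0 < τ)
    (hA : A = x ^ (1 + τ)) (hB : B = x ^ ((1 + τ) / 2)) (ha0 : 0 ≤ a) (ha : a ≤ 3 * L)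
    (hL : 162 * L ^ 4 ≤ x ^ (1 - τ)) (hμ : x ^ (1 + 2 * τ) ≤ μ) {m : ℝ} (hm : x ≤ m)
    (hW : Wv ≤ 4 * a ^ 4 / m ^ 2 + 2 / μ) : Real.sqrt Wv / 2 ≤ 1 / B := by
  have hx0 : 0 < x := by linarith
  have hA0 : 0 < A := by rw [hA]; positivity
  have hB0 : 0 < B := by rw [hB]; positivity
  have hBB : B * B = A := by
    rw [hA, hB, ← Real.rpow_add hx0]
    congr 1
    ring
  have h1 : x ^ (1 - τ) * A = x ^ 2 := by
    rw [hA, ← Real.rpow_add hx0, ← Real.rpow_natCast]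
    congr 1
    push_cast
    ring
  have h2 : 4 * a ^ 4 / m ^ 2 ≤ 2 / A := by
    have e1 : a ^ 4 ≤ (3 * L) ^ 4 := pow_le_pow_left₀ ha0 ha 4
    have e2 : 4 * a ^ 4 / m ^ 2 ≤ 4 * a ^ 4 / x ^ 2 := by
      apply div_le_div_of_nonneg_left (by positivity) (by positivity)
      exact pow_le_pow_left₀ hx0.le hm 2
    refine e2.trans ?_
    rw [div_le_div_iff₀ (by positivity) hA0, ← h1]
    have e3 : 4 * a ^ 4 ≤ 2 * x ^ (1 - τ) := by nlinarith
    nlinarith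
  have h3 : 2 / μ ≤ 2 / A := by
    apply div_le_div_of_nonneg_left (by norm_num) hA0
    refine le_trans ?_ hμ
    rw [hA]
    exact Real.rpow_le_rpow_of_exponent_le hx (by linarith)
  have h4 : Wv ≤ (2 / B) ^ 2 := by
    have e1 : (2 / B) ^ 2 = 4 / A := by
      rw [div_pow, ← hBB]
      ring
    rw [e1]
    have e2 : (4 : ℝ) / A = 2 / A + 2 / A := by ring
    linarith
  have h5 : Real.sqrt Wv ≤ 2 / B := by
    rw [Real.sqrt_le_left (by positivity)]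
    exact h4
  have e3 : 1 / B = 2 / B / 2 := by ring
  rw [e3]
  linarith

private theorem EK_le {x B C b g τ L Λ : ℝ} (hx : 1 ≤ x) (hb : 0 < b) (hg : 0 < g)
    (hB : B = x ^ ((1 + τ) / 2)) (hC : C = Real.sqrt (4 / b) + 1)
    (hL : 6 * C / g * L ≤ x ^ (τ / 2)) (hΛ : Λ ≤ 6 * L) (hΛ0 : 0 < Λ) :
    1 / B * (Real.sqrt (4 * x / b) + 1) ≤ g / Λ := by
  have hx0 : 0 < x := by linarith
  have hC0 : 0 < C := by rw [hC]; positivity
  have hs1 : 1 ≤ Real.sqrt x := Real.one_le_sqrt.2 hx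
  have h1 : Real.sqrt (4 * x / b) = Real.sqrt (4 / b) * Real.sqrt x := by
    rw [← Real.sqrt_mul (by positivity)]
    congr 1
    ring
  have h2 : Real.sqrt (4 * x / b) + 1 ≤ C * Real.sqrt x := by
    rw [h1, hC]
    linarith
  have h3 : B = Real.sqrt x * x ^ (τ / 2) := by
    rw [hB, Real.sqrt_eq_rpow, ← Real.rpow_add hx0]
    congr 1
    ring
  have hB0 : 0 < B := by rw [hB]; positivity
  have hτ0 : 0 < x ^ (τ / 2) := by positivity
  have h4 : 1 / B * (Real.sqrt (4 * x / b) + 1) ≤ C / x ^ (τ / 2) := by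
    rw [one_div, ← div_eq_inv_mul, div_le_div_iff₀ hB0 hτ0, h3]
    have := mul_le_mul_of_nonneg_right h2 hτ0.le
    linarith
  refine h4.trans ?_
  rw [div_le_div_iff₀ hτ0 hΛ0]
  have h5 : 6 * C * L ≤ g * x ^ (τ / 2) := by
    have e : 6 * C / g * L = 6 * C * L / g := by ring
    rw [e, div_le_iff₀ hg] at hL
    linarith
  nlinarith

private theorem block_gen (β γ ε τ : ℝ) (hβ : 0 < β) (hγ : 0 < γ) (hβγ : β + γ < 1)
    (hε : 0 < ε) (hτ : 0 < τ) (hτ1 : τ ≤ 1 / 4) :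
    ∀ᶠ N : ℕ in atTop, ∀ s : ℕ, (N : ℝ) / (Real.log N) ^ 3 ≤ s → s + RN N ≤ N → ∀ a : ℕ,
      1 ≤ a → al0 s - 3 ≤ a → (a : ℝ) + 1 + 4 * τ ≤ al0 s →
      Psi β γ (s + RN N) ≤ Psi β γ s + ((RN N : ℝ) / a + 1) * (γ * (1 + ε / al0 N)) := by
  have hb : 0 < β * (1 - β - γ) := mul_pos hβ (by linarith)
  obtain ⟨C, hC⟩ : ∃ C, C = Real.sqrt (4 / (β * (1 - β - γ))) + 1 := ⟨_, rfl⟩
  have hg : 0 < γ * ε := mul_pos hγ hε
  have hX := eventually_window (fun n : ℕ => (Real.log n ≤ al0 n ∧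
      al0 n ≤ 2 * Real.logb 2 (n : ℝ) ∧ al0 n ≤ 3 * Real.log n ∧
      2 * Real.logb 2 (n : ℝ) - 2 * Real.logb 2 (Real.logb 2 (n : ℝ)) ≤ al0 n) ∧
      (∀ a : ℕ, al0 n - 4 ≤ a → (a : ℝ) ≤ al0 n →
        W n a ≤ 4 * (a : ℝ) ^ 4 / (n : ℝ) ^ 2 + 2 / mu n a) ∧
      (∀ a : ℕ, al0 n - 4 ≤ a → (a : ℝ) ≤ al0 n → (n : ℝ) ^ (al0 n - a - 2 * τ) ≤ mu n a) ∧
      (162 * (Real.log n) ^ 4 ≤ (n : ℝ) ^ (1 - τ)) ∧
      (2 / β * (Real.log n) ^ 0 ≤ (n : ℝ) ^ ((1 + τ) / 2)) ∧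
      (6 * C / (γ * ε) * (Real.log n) ^ 1 ≤ (n : ℝ) ^ (τ / 2)) ∧ 3 ≤ n)
    (al0_bounds.and (W_le.and ((mu_lower (2 * τ) (by positivity)).and
      ((ev_log 162 4 (1 - τ) (by linarith)).and ((ev_log (2 / β) 0 ((1 + τ) / 2)
        (by positivity)).and ((ev_log (6 * C / (γ * ε)) 1 (τ / 2) (by positivity)).and
          (eventually_ge_atTop 3)))))))
  filter_upwards [hX, al0_step (1 / 2) (by norm_num), RN_pos, al0_bounds, ev_log 5 0 1 one_pos,
    ev_log 1 8 1 one_pos, ev_log 1 3 (1 / 2) (by norm_num),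
    (Real.tendsto_log_atTop.comp tendsto_natCast_atTop_atTop).eventually_ge_atTop (5 : ℝ)]
    with N hX hstep hR hbN hN5 hN8 hN3 hL5
  intro s hs hsN a ha1 ha2 ha3
  simp only [Function.comp_apply] at hL5
  obtain ⟨L, hL⟩ : ∃ L, L = Real.log N := ⟨_, rfl⟩
  rw [← hL] at hL5 hN8 hN3 hR hs
  have hL0 : 0 < L := by linarith
  have hN0 : (0 : ℝ) < N := by
    rw [pow_zero, Real.rpow_one] at hN5
    linarith
  obtain ⟨⟨hs1, -, hs3, -⟩, hsW, hsμ, hs162, hsβ, hsC, hs3'⟩ := hX s (by rw [← hL]; exact hs)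
  have hx1 : (1 : ℝ) ≤ s := by
    have : (3 : ℝ) ≤ s := by exact_mod_cast hs3'
    linarith
  have hx0 : (0 : ℝ) < s := by linarith
  have hsN' : (s : ℝ) ≤ N := by
    have : s ≤ N := by omega
    exact_mod_cast this
  have hlogs : Real.log s ≤ L := by
    rw [hL]
    exact Real.log_le_log hx0 hsN'
  have haL : (a : ℝ) ≤ 3 * Real.log s := by linarith
  -- `R + a ≤ L ^ 5`
  have hRa : (RN N : ℝ) + a ≤ L ^ 5 := by
    have h1 : 5 * L ^ 4 ≤ L ^ 5 := by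
      have : L ^ 5 = L * L ^ 4 := by ring
      rw [this]
      exact mul_le_mul_of_nonneg_right hL5 (by positivity)
    have h2 : L ≤ L ^ 4 := by
      have : 1 ≤ L ^ 3 := one_le_pow₀ (by linarith)
      have e : L ^ 4 = L * L ^ 3 := by ring
      rw [e]
      nlinarith
    linarith [hR.2.1]
  -- `L ^ 5 ≤ s`
  have hL5s : L ^ 5 ≤ s := by
    refine le_trans ?_ hs
    rw [le_div_iff₀ (by positivity)]
    rw [Real.rpow_one] at hN8
    calc L ^ 5 * L ^ 3 = 1 * L ^ 8 := by ring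
      _ ≤ (N : ℝ) := hN8
  -- `log N ≤ 2 log s`
  have hlog2 : L ≤ 2 * Real.log s := by
    have h1 : (N : ℝ) ^ ((1 : ℝ) / 2) ≤ s := by
      refine le_trans ?_ hs
      rw [le_div_iff₀ (by positivity)]
      have h2 : (N : ℝ) ^ ((1 : ℝ) / 2) * (N : ℝ) ^ ((1 : ℝ) / 2) = N := by
        rw [← Real.rpow_add hN0]
        norm_num
      calc (N : ℝ) ^ ((1 : ℝ) / 2) * L ^ 3 ≤ (N : ℝ) ^ ((1 : ℝ) / 2) * (N : ℝ) ^ ((1 : ℝ) / 2) :=
            mul_le_mul_of_nonneg_left (by linarith) (by positivity)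
        _ = (N : ℝ) := h2
    have h3 := Real.log_le_log (by positivity) h1
    rw [Real.log_rpow hN0, ← hL] at h3
    linarith
  have hΛ0 : 0 < al0 N := by
    have := hbN.1
    rw [← hL] at this
    linarith
  have hΛ : al0 N ≤ 6 * Real.log s := by
    have := hbN.2.2.1
    rw [← hL] at this
    linarith
  obtain ⟨B, hB⟩ : ∃ B, B = (s : ℝ) ^ ((1 + τ) / 2) := ⟨_, rfl⟩
  have hB0 : 0 < B := by rw [hB]; positivity
  have hE0 : 0 ≤ 1 / B := by positivity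
  have hEβ : 1 / B ≤ β / 2 := by
    rw [pow_zero, mul_one, ← hB, div_le_iff₀ hβ] at hsβ
    rw [div_le_div_iff₀ hB0 two_pos]
    linarith
  have hEK := EK_le (x := s) (B := B) (C := C) (b := β * (1 - β - γ)) (g := γ * ε) (τ := τ)
    (L := Real.log s) (Λ := al0 N) hx1 hb hg hB hC (by rw [pow_one] at hsC; exact hsC)
    hΛ hΛ0
  have hchain := Psi_chain β γ (1 / B) (Real.sqrt (4 * s / (β * (1 - β - γ))) + 1) hγ.le hE0
    (by linarith) (by positivity) s (RN N) a ha1 ?_ ?_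
  · refine hchain.trans ?_
    have h1 : γ + 1 / B * (Real.sqrt (4 * s / (β * (1 - β - γ))) + 1) ≤
        γ * (1 + ε / al0 N) := by
      have e : γ * (1 + ε / al0 N) = γ + γ * ε / al0 N := by ring
      rw [e]
      linarith
    have h2 : 0 ≤ (RN N : ℝ) / a + 1 := by positivity
    have h3 := mul_le_mul_of_nonneg_left h1 h2
    linarith
  · intro m hm1 hm2
    have hmr : (s : ℝ) ≤ m := by exact_mod_cast hm1
    have hmr2 : (m : ℝ) ≤ s + (RN N : ℝ) + a := by exact_mod_cast hm2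
    obtain ⟨-, hmW, hmμ, -⟩ := hX m (by rw [← hL]; exact hs.trans hmr)
    obtain ⟨hd0, hd1⟩ := hstep s m (by rw [← hL]; exact hs) hm1
      (by rw [← hL]; linarith)
    have ham : al0 m - 4 ≤ a := by linarith
    have ham' : (a : ℝ) ≤ al0 m := by linarith
    have hμ : (s : ℝ) ^ (1 + 2 * τ) ≤ mu m a := by
      refine le_trans ?_ (hmμ a ham ham')
      calc (s : ℝ) ^ (1 + 2 * τ) ≤ (m : ℝ) ^ (1 + 2 * τ) :=
            Real.rpow_le_rpow hx0.le hmr (by positivity)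
        _ ≤ (m : ℝ) ^ (al0 m - a - 2 * τ) :=
            Real.rpow_le_rpow_of_exponent_le (hx1.trans hmr) (by linarith)
    exact sqrtW_le (x := s) (τ := τ) hx1 hτ rfl hB (Nat.cast_nonneg a) haL hs162 hμ hmr
      (hmW a ham ham')
  · intro m hm1 hm2
    have hmr : (s : ℝ) ≤ m := by exact_mod_cast hm1
    have hmr2 : (m : ℝ) ≤ s + (RN N : ℝ) + a := by exact_mod_cast hm2
    refine (Kc_le_sqrt m (β - 1 / B) (β + γ) (by linarith) hβγ).trans ?_
    have h1 : (m : ℝ) / ((β - 1 / B) * (1 - (β + γ))) ≤ 4 * s / (β * (1 - β - γ)) := by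
      have h2 : (0 : ℝ) < 1 - β - γ := by linarith
      have h3 : 0 < (β - 1 / B) * (1 - (β + γ)) := mul_pos (by linarith) (by linarith)
      rw [div_le_div_iff₀ h3 hb]
      have h4 : (m : ℝ) ≤ 2 * s := by linarith
      have h5 : β * (1 - β - γ) ≤ 2 * ((β - 1 / B) * (1 - (β + γ))) := by
        have : β ≤ 2 * (β - 1 / B) := by linarith
        have := mul_le_mul_of_nonneg_right this h2.le
        have e : (1 : ℝ) - (β + γ) = 1 - β - γ := by ring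
        rw [e]
        linarith
      calc (m : ℝ) * (β * (1 - β - γ)) ≤ (2 * s) * (2 * ((β - 1 / B) * (1 - (β + γ)))) :=
            mul_le_mul h4 h5 hb.le (by linarith)
        _ = 4 * s * ((β - 1 / B) * (1 - (β + γ))) := by ring
    have := Real.sqrt_le_sqrt h1
    linarith

theorem blockS (β γ ε : ℝ) (hβ : 0 < β) (hγ : 0 < γ) (hβγ : β + γ < 1) (hε : 0 < ε) :
    ∀ᶠ N : ℕ in atTop, ∀ s : ℕ, (N : ℝ) / (Real.log N) ^ 3 ≤ s → s + RN N ≤ N →
      Psi β γ (s + RN N) ≤ Psi β γ s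
        + ((RN N : ℝ) / ((al s : ℝ) - 2) + 1) * (γ * (1 + ε / al0 N)) := by
  have hX := eventually_window (fun n : ℕ => 6 ≤ al0 n)
    (al0_tendsto.eventually_ge_atTop 6)
  filter_upwards [hX, block_gen β γ ε (1 / 4) hβ hγ hβγ hε (by norm_num) le_rfl] with N h1 h2
  intro s hs hsN
  have h6 := h1 s hs
  have hal := al_eq s (by linarith)
  have hf0 := Int.fract_nonneg (al0 s)
  have hf1 := Int.fract_lt_one (al0 s)
  have h3 : 3 ≤ al s := by
    have : (3 : ℝ) ≤ al s := by linarith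
    exact_mod_cast this
  have hcast : ((al s - 2 : ℕ) : ℝ) = (al s : ℝ) - 2 := by
    rw [Nat.cast_sub (by omega)]
    norm_num
  have h4 := h2 s hs hsN (al s - 2) (by omega) (by rw [hcast]; linarith)
    (by rw [hcast]; linarith)
  rw [hcast] at h4
  exact h4

theorem blockG (β γ ε η : ℝ) (hβ : 0 < β) (hγ : 0 < γ) (hβγ : β + γ < 1) (hε : 0 < ε)
    (hη : 0 < η) (hη2 : η < 1 / 2) :
    ∀ᶠ N : ℕ in atTop, ∀ s : ℕ, (N : ℝ) / (Real.log N) ^ 3 ≤ s → s + RN N ≤ N →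
      η ≤ Int.fract (al0 s) →
      Psi β γ (s + RN N) ≤ Psi β γ s
        + ((RN N : ℝ) / ((al s : ℝ) - 1) + 1) * (γ * (1 + ε / al0 N)) := by
  have hX := eventually_window (fun n : ℕ => 6 ≤ al0 n)
    (al0_tendsto.eventually_ge_atTop 6)
  filter_upwards [hX, block_gen β γ ε (η / 4) hβ hγ hβγ hε (by positivity) (by linarith)]
    with N h1 h2
  intro s hs hsN hfη
  have h6 := h1 s hs
  have hal := al_eq s (by linarith)
  have hf1 := Int.fract_lt_one (al0 s)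
  have h3 : 3 ≤ al s := by
    have : (3 : ℝ) ≤ al s := by linarith
    exact_mod_cast this
  have hcast : ((al s - 1 : ℕ) : ℝ) = (al s : ℝ) - 1 := by
    rw [Nat.cast_sub (by omega)]
    norm_num
  have h4 := h2 s hs hsN (al s - 1) (by omega) (by rw [hcast]; linarith)
    (by rw [hcast]; linarith)
  rw [hcast] at h4
  exact h4

end ZZ51
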