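import Pool.Agent.ZZ51.Defs

/-!
# ZZ51/Card: counting graphs, marginals, elementary facts on `T`

`marg`: for `S ⊆ Fin n`, `|S| = a`: graphs `G` with `S` independent and `G - S` not `x`-colourable.
PROOF. `G ↦ (G.induce Sᶜ, (u,v) ∈ S × Sᶜ ↦ G.Adj u v)` is a bijection from
`{G : S independent}` to `SimpleGraph ↥Sᶜ × (S × Sᶜ → Prop)` (a graph is determined by its three
parts; the part inside `S` is empty), colourability of `G.induce Sᶜ` only depends on the first
component and is transported by `Sᶜ ≃ Fin (n - a)` (`SimpleGraph.Iso`, `Colorable` is invariant).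
Counting: `2^{a (n-a)} · #{H on Fin (n-a) : ¬ Colorable x}` and
`C(n,2) = C(a,2) + C(n-a,2) + a (n-a)`.
Same bijection without independence (`margFree`): `G ↦ (G.induce S, G.induce Sᶜ, bipartite part)`.
`card_graph` : via `SimpleGraph V ≃ ({e : Sym2 V // ¬ e.IsDiag} → Prop)` or by induction with `margFree`.
`card_avoid`: graphs avoiding a set `F` of pairs; `G ↔ set of its edges in the complement of F`.
`T_mono`: `margFree` with `S = {v}`, `G.induce Sᶜ` not colourable implies `G` not colourable.
-/

set_option autoImplicit false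

namespace ZZ51


/-! ### general vertex sets -/

/-- a graph that avoids `F` is a set of non-diagonal pairs outside `F` -/
noncomputable def avoidEquiv (V : Type) (F : Set (Sym2 V)) :
    {G : SimpleGraph V // ∀ e ∈ F, e ∉ G.edgeSet} ≃ Set {e : Sym2 V // ¬ e.IsDiag ∧ e ∉ F} where
  toFun G := {e | e.1 ∈ G.1.edgeSet}
  invFun s := ⟨SimpleGraph.fromEdgeSet (Subtype.val '' s), by
    intro e he h
    rw [SimpleGraph.edgeSet_fromEdgeSet] at h
    obtain ⟨⟨e', -, rfl⟩, -⟩ := h
    exact e'.2.2 he⟩
  left_inv G := by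
    apply Subtype.ext
    apply SimpleGraph.edgeSet_injective
    rw [SimpleGraph.edgeSet_fromEdgeSet]
    ext e
    constructor
    · rintro ⟨⟨e', he', rfl⟩, -⟩
      exact he'
    · intro he
      have hd : ¬ e.IsDiag := G.1.not_isDiag_of_mem_edgeSet he
      exact ⟨⟨⟨e, hd, fun h => G.2 e h he⟩, he, rfl⟩, hd⟩
  right_inv s := by
    ext e
    simp only [Set.mem_ofPred_eq, SimpleGraph.edgeSet_fromEdgeSet]
    constructor
    · rintro ⟨⟨e', he', h⟩, -⟩
      have : e' = e := Subtype.ext h
      exact this ▸ he'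
    · intro he
      exact ⟨⟨e, he, rfl⟩, e.2.1⟩

theorem card_avoid_gen (V : Type) [Fintype V] (F : Finset (Sym2 V)) (hF : ∀ e ∈ F, ¬ e.IsDiag) :
    Nat.card {G : SimpleGraph V // ∀ e ∈ F, e ∉ G.edgeSet} * 2 ^ F.card
      = 2 ^ ((Fintype.card V).choose 2) := by
  classical
  have h1 : Nat.card {G : SimpleGraph V // ∀ e ∈ F, e ∉ G.edgeSet}
      = 2 ^ (Fintype.card {e : Sym2 V // ¬ e.IsDiag ∧ e ∉ (F : Set (Sym2 V))}) := by
    have e := Nat.card_congr (avoidEquiv V (F : Set (Sym2 V)))
    simp only [SetLike.mem_coe] at e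
    rw [e, Nat.card_eq_fintype_card, Fintype.card_set]
    simp only [SetLike.mem_coe]
  have h2 : Fintype.card {e : Sym2 V // ¬ e.IsDiag ∧ e ∉ (F : Set (Sym2 V))} + F.card
      = (Fintype.card V).choose 2 := by
    rw [← Sym2.card_subtype_not_diag, Fintype.card_subtype, Fintype.card_subtype]
    have h3 : (Finset.univ.filter (fun e : Sym2 V => ¬ e.IsDiag ∧ e ∉ (F : Set (Sym2 V))))
        = (Finset.univ.filter (fun e : Sym2 V => ¬ e.IsDiag)) \ F := by
      ext e
      simp
    have h4 : F ⊆ Finset.univ.filter (fun e : Sym2 V => ¬ e.IsDiag) := by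
      intro e he
      simp [hF e he]
    rw [h3]
    exact Finset.card_sdiff_add_card_eq_card h4
  rw [h1, ← pow_add, h2]

theorem card_graph_gen (V : Type) [Fintype V] :
    Nat.card (SimpleGraph V) = 2 ^ ((Fintype.card V).choose 2) := by
  have h := card_avoid_gen V ∅ (by simp)
  have e : {G : SimpleGraph V // ∀ e ∈ (∅ : Finset (Sym2 V)), e ∉ G.edgeSet} ≃ SimpleGraph V :=
    Equiv.subtypeUnivEquiv (by simp)
  rw [Nat.card_congr e] at h
  simpa using h

theorem card_graph (n : ℕ) : Nat.card (SimpleGraph (Fin n)) = 2 ^ (n.choose 2) := by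
  simpa using card_graph_gen (Fin n)

/-- graphs which avoid a set `F` of pairs -/
theorem card_avoid (n : ℕ) (F : Finset (Sym2 (Fin n))) (hF : ∀ e ∈ F, ¬ e.IsDiag) :
    Nat.card {G : SimpleGraph (Fin n) // ∀ e ∈ F, e ∉ G.edgeSet} * 2 ^ F.card
      = 2 ^ (n.choose 2) := by
  simpa using card_avoid_gen (Fin n) F hF

/-- a graph on `V` is a graph on `{p}`, a graph on `{¬ p}` and a bipartite part -/
def splitEquiv (V : Type) (p : V → Prop) [DecidablePred p] :
    SimpleGraph V ≃ SimpleGraph {v // p v} × SimpleGraph {v // ¬ p v}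
      × ({v // p v} → {v // ¬ p v} → Prop) where
  toFun G := (G.comap Subtype.val, G.comap Subtype.val, fun u v => G.Adj u.1 v.1)
  invFun H :=
    { Adj := fun u v =>
        if hu : p u then (if hv : p v then H.1.Adj ⟨u, hu⟩ ⟨v, hv⟩ else H.2.2 ⟨u, hu⟩ ⟨v, hv⟩)
        else (if hv : p v then H.2.2 ⟨v, hv⟩ ⟨u, hu⟩ else H.2.1.Adj ⟨u, hu⟩ ⟨v, hv⟩)
      symm := ⟨by
        intro u v h
        by_cases hu : p u <;> by_cases hv : p v <;> simp only [hu, hv, dif_pos, dif_neg,
          not_false_eq_true] at h ⊢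
        · exact h.symm
        · exact h
        · exact h
        · exact h.symm⟩
      loopless := ⟨by
        intro u h
        by_cases hu : p u <;> simp only [hu, dif_pos, dif_neg, not_false_eq_true] at h
        · exact (H.1.irrefl h)
        · exact (H.2.1.irrefl h)⟩ }
  left_inv G := by
    ext u v
    by_cases hu : p u <;> by_cases hv : p v <;> simp [hu, hv, G.adj_comm]
  right_inv H := by
    obtain ⟨H1, H2, C⟩ := H
    refine Prod.ext ?_ (Prod.ext ?_ ?_)
    · ext u v
      simp [u.2, v.2]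
    · ext u v
      simp [u.2, v.2]
    · funext u v
      simp [u.2, v.2]


open Classical in
theorem marg_gen (V : Type) [Fintype V] (p : V → Prop)
    (P1 : SimpleGraph {v // p v} → Prop) (P2 : SimpleGraph {v // ¬ p v} → Prop) :
    Nat.card {G : SimpleGraph V // P1 (G.comap Subtype.val) ∧ P2 (G.comap Subtype.val)}
      = Nat.card {H : SimpleGraph {v // p v} // P1 H} * (Nat.card {H : SimpleGraph {v // ¬ p v} // P2 H}
        * 2 ^ (Nat.card {v // p v} * Nat.card {v // ¬ p v})) := by
  have e : {G : SimpleGraph V // P1 (G.comap Subtype.val) ∧ P2 (G.comap Subtype.val)}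
      ≃ {H : SimpleGraph {v // p v} // P1 H} × ({H : SimpleGraph {v // ¬ p v} // P2 H} ×
        ({v // p v} → {v // ¬ p v} → Prop)) :=
    { toFun := fun G => (⟨(splitEquiv V p G.1).1, G.2.1⟩, ⟨(splitEquiv V p G.1).2.1, G.2.2⟩,
        (splitEquiv V p G.1).2.2)
      invFun := fun H => ⟨(splitEquiv V p).symm (H.1.1, H.2.1.1, H.2.2), by
        have h := (splitEquiv V p).apply_symm_apply (H.1.1, H.2.1.1, H.2.2)
        have h1 := congrArg Prod.fst h
        have h2 := congrArg (fun z => z.2.1) h
        exact ⟨by rw [show SimpleGraph.comap Subtype.val _ = H.1.1 from h1]; exact H.1.2,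
          by rw [show SimpleGraph.comap Subtype.val _ = H.2.1.1 from h2]; exact H.2.1.2⟩⟩
      left_inv := fun G => Subtype.ext ((splitEquiv V p).symm_apply_apply G.1)
      right_inv := fun H => by
        have h := (splitEquiv V p).apply_symm_apply (H.1.1, H.2.1.1, H.2.2)
        refine Prod.ext (Subtype.ext (congrArg Prod.fst h))
          (Prod.ext (Subtype.ext (congrArg (fun z => z.2.1) h)) (congrArg (fun z => z.2.2) h)) }
  rw [Nat.card_congr e, Nat.card_prod, Nat.card_prod]
  congr 2
  rw [Nat.card_eq_fintype_card, Nat.card_eq_fintype_card, Nat.card_eq_fintype_card,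
    Fintype.card_fun, Fintype.card_fun, Fintype.card_prop, ← pow_mul, mul_comm]

/-- the number of non-`x`-colourable graphs only depends on the size of the vertex set -/
theorem card_not_colorable (V : Type) [Fintype V] (m x : ℕ) (h : Fintype.card V = m) :
    (Nat.card {H : SimpleGraph V // ¬ H.Colorable x} : ℝ) = (2 : ℝ) ^ (m.choose 2) * T m x := by
  have e : V ≃ Fin m := Fintype.equivFinOfCardEq h
  have e2 : {H : SimpleGraph V // ¬ H.Colorable x} ≃ {H : SimpleGraph (Fin m) // ¬ H.Colorable x} :=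
    Equiv.subtypeEquiv e.simpleGraph (by
      intro H
      have : H ≃g e.simpleGraph H := (SimpleGraph.Iso.comap e.symm H).symm
      rw [SimpleGraph.colorable_congr this])
  rw [Nat.card_congr e2, T, Pr, mul_div_cancel₀]
  positivity

theorem choose_two_split (n a : ℕ) (h : a ≤ n) :
    n.choose 2 = a.choose 2 + ((n - a).choose 2 + a * (n - a)) := by
  obtain ⟨b, rfl⟩ := Nat.exists_eq_add_of_le h
  have h1 : (a + b).choose 2 = a.choose 2 + b.choose 2 + a * b := by
    induction b with
    | zero => simp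
    | succ b ih =>
      rw [← add_assoc, Nat.choose_succ_succ' (a + b) 1, Nat.choose_succ_succ' b 1]
      have := ih (by omega)
      rw [this]
      simp only [Nat.choose_one_right]
      ring
  rw [h1]
  simp
  ring

/-- graphs with `S` independent and `G - S` not `x`-colourable -/
theorem marg (n a x : ℕ) (S : Finset (Fin n)) (hS : S.card = a) :
    (Nat.card {G : SimpleGraph (Fin n) //
        G.IsIndepSet (S : Set (Fin n)) ∧ ¬ (G.induce ((S : Set (Fin n))ᶜ)).Colorable x} : ℝ)
      = (2 : ℝ) ^ (n.choose 2) / (2 : ℝ) ^ (a.choose 2) * T (n - a) x := by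
  classical
  have ha : a ≤ n := by
    rw [← hS]
    simpa using Finset.card_le_univ S
  have hc1 : Fintype.card {v : Fin n // v ∈ S} = a := by simpa using hS
  have hc2 : Fintype.card {v : Fin n // ¬ v ∈ S} = n - a := by
    rw [Fintype.card_subtype_compl, hc1, Fintype.card_fin]
  have hn1 : Nat.card {v : Fin n // v ∈ S} = a := by rw [Nat.card_eq_fintype_card]; exact hc1
  have hn2 : Nat.card {v : Fin n // ¬ v ∈ S} = n - a := by rw [Nat.card_eq_fintype_card]; exact hc2
  have h := marg_gen (Fin n) (fun v => v ∈ S) (fun H => H = ⊥) (fun H => ¬ H.Colorable x)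
  have e : {G : SimpleGraph (Fin n) //
        G.IsIndepSet (S : Set (Fin n)) ∧ ¬ (G.induce ((S : Set (Fin n))ᶜ)).Colorable x}
      ≃ {G : SimpleGraph (Fin n) // (G.comap (Subtype.val : {v // v ∈ S} → Fin n)) = ⊥ ∧
        ¬ (G.comap (Subtype.val : {v // ¬ v ∈ S} → Fin n)).Colorable x} := by
    refine Equiv.subtypeEquivRight (fun G => and_congr ?_ (Iff.of_eq rfl))
    rw [SimpleGraph.isIndepSet_iff]
    constructor
    · intro h
      ext u v
      simp only [SimpleGraph.comap_adj, SimpleGraph.bot_adj, iff_false]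
      intro huv
      exact h u.2 v.2 huv.ne huv
    · intro h u hu v hv _ huv
      have : (G.comap (Subtype.val : {v // v ∈ S} → Fin n)).Adj ⟨u, hu⟩ ⟨v, hv⟩ := huv
      rw [h] at this
      exact this
  rw [Nat.card_congr e, h]
  push_cast
  rw [card_not_colorable _ (n - a) x hc2, hn1, hn2]
  have h1 : Nat.card {H : SimpleGraph {v : Fin n // v ∈ S} // H = ⊥} = 1 := by simp
  rw [h1, choose_two_split n a ha, pow_add, pow_add]
  field_simp
  push_cast
  ring

/-- graphs with `G - S` not `x`-colourable -/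
theorem margFree (n a x : ℕ) (S : Finset (Fin n)) (hS : S.card = a) :
    (Nat.card {G : SimpleGraph (Fin n) //
        ¬ (G.induce ((S : Set (Fin n))ᶜ)).Colorable x} : ℝ)
      = (2 : ℝ) ^ (n.choose 2) * T (n - a) x := by
  classical
  have ha : a ≤ n := by
    rw [← hS]
    simpa using Finset.card_le_univ S
  have hc1 : Fintype.card {v : Fin n // v ∈ S} = a := by simpa using hS
  have hc2 : Fintype.card {v : Fin n // ¬ v ∈ S} = n - a := by
    rw [Fintype.card_subtype_compl, hc1, Fintype.card_fin]
  have hn1 : Nat.card {v : Fin n // v ∈ S} = a := by rw [Nat.card_eq_fintype_card]; exact hc1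
  have hn2 : Nat.card {v : Fin n // ¬ v ∈ S} = n - a := by rw [Nat.card_eq_fintype_card]; exact hc2
  have h := marg_gen (Fin n) (fun v => v ∈ S) (fun _ => True) (fun H => ¬ H.Colorable x)
  have e : {G : SimpleGraph (Fin n) // ¬ (G.induce ((S : Set (Fin n))ᶜ)).Colorable x}
      ≃ {G : SimpleGraph (Fin n) // True ∧
        ¬ (G.comap (Subtype.val : {v // ¬ v ∈ S} → Fin n)).Colorable x} :=
    Equiv.subtypeEquivRight (fun G => by rw [true_and]; exact Iff.of_eq rfl)
  rw [Nat.card_congr e, h]
  push_cast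
  rw [card_not_colorable _ (n - a) x hc2, hn1, hn2]
  have h1 : Nat.card {H : SimpleGraph {v : Fin n // v ∈ S} // True} = 2 ^ (a.choose 2) := by
    rw [Nat.card_congr (Equiv.subtypeUnivEquiv (fun _ => trivial)), card_graph_gen, hc1]
  rw [h1, choose_two_split n a ha, pow_add, pow_add]
  push_cast
  ring

theorem Pr_nonneg (n : ℕ) (P : SimpleGraph (Fin n) → Prop) : 0 ≤ Pr n P := by
  unfold Pr
  positivity

theorem Pr_mono (n : ℕ) (P Q : SimpleGraph (Fin n) → Prop) (h : ∀ G, P G → Q G) :
    Pr n P ≤ Pr n Q := by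
  classical
  unfold Pr
  gcongr
  rw [Nat.card_eq_fintype_card, Nat.card_eq_fintype_card]
  exact Fintype.card_subtype_mono _ _ h

theorem Pr_compl (n : ℕ) (P : SimpleGraph (Fin n) → Prop) :
    Pr n (fun G => ¬ P G) = 1 - Pr n P := by
  classical
  unfold Pr
  have h : Nat.card {G : SimpleGraph (Fin n) // ¬ P G} + Nat.card {G : SimpleGraph (Fin n) // P G}
      = 2 ^ (n.choose 2) := by
    rw [← card_graph n, Nat.card_eq_fintype_card, Nat.card_eq_fintype_card,
      Nat.card_eq_fintype_card, Fintype.card_subtype_compl]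
    have := Fintype.card_subtype_le P
    omega
  have h2 : (Nat.card {G : SimpleGraph (Fin n) // ¬ P G} : ℝ)
      + Nat.card {G : SimpleGraph (Fin n) // P G} = 2 ^ (n.choose 2) := by exact_mod_cast h
  rw [eq_sub_iff_add_eq, ← add_div, h2, div_self]
  positivity

/-- `P ∨ Q` for disjoint `P`, `Q` -/
theorem Pr_add_le (n : ℕ) (P Q R : SimpleGraph (Fin n) → Prop) (h : ∀ G, P G → Q G → False)
    (hP : ∀ G, P G → R G) (hQ : ∀ G, Q G → R G) : Pr n P + Pr n Q ≤ Pr n R := by
  classical
  unfold Pr
  rw [← add_div]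
  gcongr
  have : Nat.card {G : SimpleGraph (Fin n) // P G} + Nat.card {G : SimpleGraph (Fin n) // Q G}
      ≤ Nat.card {G : SimpleGraph (Fin n) // R G} := by
    rw [Nat.card_eq_fintype_card, Nat.card_eq_fintype_card, Nat.card_eq_fintype_card,
      Fintype.card_subtype, Fintype.card_subtype, Fintype.card_subtype,
      ← Finset.card_union_of_disjoint]
    · apply Finset.card_le_card
      intro G hG
      simp only [Finset.mem_union, Finset.mem_filter, Finset.mem_univ, true_and] at hG ⊢
      exact hG.elim (hP G) (hQ G)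
    · rw [Finset.disjoint_left]
      intro G h1 h2
      simp only [Finset.mem_filter, Finset.mem_univ, true_and] at h1 h2
      exact h G h1 h2
  exact_mod_cast this

theorem T_nonneg (n x : ℕ) : 0 ≤ T n x := Pr_nonneg _ _

theorem T_le_one (n x : ℕ) : T n x ≤ 1 := by
  unfold T
  rw [Pr_compl]
  linarith [Pr_nonneg n (fun G => G.Colorable x)]

theorem T_anti (n x y : ℕ) (h : x ≤ y) : T n y ≤ T n x :=
  Pr_mono n _ _ (fun _ hG hx => hG (hx.mono h))

theorem T_succ_mono (n x : ℕ) : T n x ≤ T (n + 1) x := by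
  have h := margFree (n + 1) 1 x {0} (by simp)
  have h2 : T n x = Pr (n + 1) (fun G =>
      ¬ (G.induce ((({0} : Finset (Fin (n + 1))) : Set (Fin (n + 1)))ᶜ)).Colorable x) := by
    unfold Pr
    rw [h, mul_div_cancel_left₀]
    · simp
    · positivity
  rw [h2]
  refine Pr_mono _ _ _ (fun G hG hx => hG ?_)
  exact hx.of_hom (SimpleGraph.Embedding.induce _).toHom

theorem T_mono (m n x : ℕ) (h : m ≤ n) : T m x ≤ T n x := by
  induction n, h using Nat.le_induction with
  | base => exact le_rfl
  | succ n _ ih => exact ih.trans (T_succ_mono n x)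

theorem T_eq_zero (n x : ℕ) (h : n ≤ x) : T n x = 0 := by
  unfold T Pr
  have : Nat.card {G : SimpleGraph (Fin n) // ¬ G.Colorable x} = 0 := by
    rw [Nat.card_eq_zero]
    left
    refine ⟨fun G => G.2 ?_⟩
    have := G.1.colorable_of_fintype
    rw [Fintype.card_fin] at this
    exact this.mono h
  rw [this]
  simp

theorem T_zero (n : ℕ) (h : 1 ≤ n) : T n 0 = 1 := by
  unfold T
  rw [Pr_compl]
  have : Pr n (fun G => G.Colorable 0) = 0 := by
    unfold Pr
    have h0 : Nat.card {G : SimpleGraph (Fin n) // G.Colorable 0} = 0 := by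
      rw [Nat.card_eq_zero]
      left
      refine ⟨fun G => ?_⟩
      have := G.2
      rw [SimpleGraph.colorable_zero_iff] at this
      exact this.false ⟨0, h⟩
    rw [h0]
    simp
  rw [this]
  simp

end ZZ51
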