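import Mathlib

/-!
# ZZ51: non-concentration of the chromatic number of G(n,1/2) for a positive proportion of n
(MP_c516b4_pr, Zigzag conjecture).  Blueprint: helper51.

`Pr n P` is the probability of `P` in `G(n,1/2)`, `T n x = P(χ > x)`, `mu n a` the expected number
of independent `a`-sets, `W n a` an upper bound for `E X_a² / mu² - 1`, `al0 = α₀(n)`,
`al = ⌊α₀⌋`, `Psi` the truncated functional, `Kc` the number of `x` with `u < T n x < v`.
-/

set_option autoImplicit false

namespace ZZ51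

/-- the probability of `P` in `G(n,1/2)` -/
noncomputable def Pr (n : ℕ) (P : SimpleGraph (Fin n) → Prop) : ℝ :=
  (Nat.card {G : SimpleGraph (Fin n) // P G} : ℝ) / (2 : ℝ) ^ (n.choose 2)

/-- `T n x = P(χ(G(n,1/2)) > x)` -/
noncomputable def T (n x : ℕ) : ℝ := Pr n (fun G => ¬ G.Colorable x)

/-- the expected number of independent sets of size `a` in `G(n,1/2)` -/
noncomputable def mu (n a : ℕ) : ℝ := (n.choose a : ℝ) / (2 : ℝ) ^ (a.choose 2)

/-- upper bound for the second moment excess of the number of independent `a`-sets -/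
noncomputable def W (n a : ℕ) : ℝ :=
  ∑ l ∈ Finset.Icc 2 a,
    (a.choose l : ℝ) * ((n - a).choose (a - l) : ℝ) / (n.choose a : ℝ) * (2 : ℝ) ^ (l.choose 2)

/-- `α₀(n)` -/
noncomputable def al0 (n : ℕ) : ℝ :=
  2 * Real.logb 2 (n : ℝ) - 2 * Real.logb 2 (Real.logb 2 (n : ℝ))
    + 2 * Real.logb 2 (Real.exp 1 / 2) + 1

/-- `α(n) = ⌊α₀(n)⌋` -/
noncomputable def al (n : ℕ) : ℕ := ⌊al0 n⌋₊

/-- truncation to the window `[β, β + γ]` -/
noncomputable def phi (β γ t : ℝ) : ℝ := min (max (t - β) 0) γ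

/-- the functional `Ψ_n = ∑_x φ(T_n(x))` (`T n x = 0` for `x ≥ n`) -/
noncomputable def Psi (β γ : ℝ) (n : ℕ) : ℝ := ∑ x ∈ Finset.range (n + 1), phi β γ (T n x)

open Classical in
/-- number of `x` with `u < T n x < v` -/
noncomputable def Kc (n : ℕ) (u v : ℝ) : ℕ :=
  ((Finset.range (n + 1)).filter (fun x => u < T n x ∧ T n x < v)).card

/-- `n` is bad for heights `q < p` and constant `c`: `T n` falls from `≥ p` to `≤ q` within
`c √μ_α / log n + 1` steps -/
def Bad (p q c : ℝ) (n : ℕ) : Prop :=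
  ∃ x y : ℕ, p ≤ T n x ∧ T n y ≤ q ∧
    (y : ℝ) ≤ x + c * Real.sqrt (mu n (al n)) / Real.log n + 1

end ZZ51
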