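import Pool.Agent.ZZ51.Card

/-!
# ZZ51/FirstMom: first moment of the number of k-colourings, with the factor `1/k!`

PROOF. Count pairs `(G, f)`, `f : Fin N → Fin k` proper for `G`. For fixed `f` with class sizes
`n_i`: `card_avoid` with `F` = all monochromatic pairs, `|F| = ∑_i C(n_i, 2)
= (∑ n_i² - N)/2 ≥ (N²/k - N)/2` (Cauchy-Schwarz), so at most `2^{C(N,2)} 2^{-(N²/k - N)/2}` graphs; sum
over `k^N` functions.  Conversely if `G` is `k`-colourable and `1 ≤ k ≤ N` then `G` has a SURJECTIVE
proper colouring with `Fin k` (take a proper colouring whose image is as large as possible: if a colour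
is unused then, as `N ≥ k`, some colour is used twice and one of its vertices can be recoloured with the
unused colour), and composing it with the `k!` permutations of `Fin k` gives `k!` different proper colourings.
So `#{G : Colorable k} · k! ≤ k^N 2^{C(N,2)} 2^{-(N²/k-N)/2}`.
-/

set_option autoImplicit false

namespace ZZ51

private theorem exists_surj_coloring (N k : ℕ) (hkN : k ≤ N) (G : SimpleGraph (Fin N))
    (hG : G.Colorable k) :
    ∃ f : Fin N → Fin k, (∀ u v, G.Adj u v → f u ≠ f v) ∧ Function.Surjective f := by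
  classical
  obtain ⟨C⟩ := hG
  have hne : (Finset.univ.filter
      (fun f : Fin N → Fin k => ∀ u v, G.Adj u v → f u ≠ f v)).Nonempty := by
    refine ⟨fun v => C v, ?_⟩
    rw [Finset.mem_filter]
    exact ⟨Finset.mem_univ _, fun u v h => C.valid h⟩
  obtain ⟨f, hf, hmax⟩ := Finset.exists_max_image _
    (fun f : Fin N → Fin k => (Finset.univ.image f).card) hne
  rw [Finset.mem_filter] at hf
  refine ⟨f, hf.2, ?_⟩
  by_contra hns
  have hc' : ∃ c, ∀ v, f v ≠ c := by
    by_contra h
    push Not at h
    exact hns h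
  obtain ⟨c, hc⟩ := hc'
  have hni : ¬ Function.Injective f := by
    intro hinj
    have h1 := Fintype.card_le_of_injective f hinj
    rw [Fintype.card_fin, Fintype.card_fin] at h1
    exact hns ((Fintype.bijective_iff_injective_and_card f).2
      ⟨hinj, by rw [Fintype.card_fin, Fintype.card_fin]; omega⟩).surjective
  have h2 : ∃ u v, f u = f v ∧ u ≠ v := by
    by_contra h
    push Not at h
    exact hni (fun u v huv => h u v huv)
  obtain ⟨u, v, huv, hne2⟩ := h2
  have hproper : ∀ x y, G.Adj x y → Function.update f u c x ≠ Function.update f u c y := by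
    intro x y hxy
    by_cases hx : x = u
    · subst hx
      have hyx : y ≠ x := hxy.ne'
      rw [Function.update_self, Function.update_of_ne hyx]
      exact (hc y).symm
    · rw [Function.update_of_ne hx]
      by_cases hy : y = u
      · subst hy
        rw [Function.update_self]
        exact hc x
      · rw [Function.update_of_ne hy]
        exact hf.2 x y hxy
  have h3 := hmax (Function.update f u c)
    (Finset.mem_filter.2 ⟨Finset.mem_univ _, hproper⟩)
  have h4 : insert c (Finset.univ.image f) ⊆ Finset.univ.image (Function.update f u c) := by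
    intro z hz
    rw [Finset.mem_insert] at hz
    rcases hz with rfl | hz
    · exact Finset.mem_image.2 ⟨u, Finset.mem_univ _, by rw [Function.update_self]⟩
    · obtain ⟨x, -, rfl⟩ := Finset.mem_image.1 hz
      by_cases hx : x = u
      · refine Finset.mem_image.2 ⟨v, Finset.mem_univ _, ?_⟩
        rw [Function.update_of_ne hne2.symm, hx, huv]
      · exact Finset.mem_image.2 ⟨x, Finset.mem_univ _, by rw [Function.update_of_ne hx]⟩
  have h5 := Finset.card_le_card h4
  rw [Finset.card_insert_of_notMem] at h5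
  · omega
  · intro h
    obtain ⟨x, -, hx⟩ := Finset.mem_image.1 h
    exact hc x hx

/-- the graph of the monochromatic pairs -/
private def mono {N k : ℕ} (f : Fin N → Fin k) : SimpleGraph (Fin N) where
  Adj u v := u ≠ v ∧ f u = f v
  symm := ⟨fun _ _ h => ⟨h.1.symm, h.2.symm⟩⟩
  loopless := ⟨fun _ h => h.1 rfl⟩

open Classical in
private theorem mono_card {N k : ℕ} (hk : 1 ≤ k) (f : Fin N → Fin k) :
    ((((N : ℝ) ^ 2 / (k : ℝ)) - (N : ℝ)) / 2) ≤ ((mono f).edgeFinset.card : ℝ) := by
  have h1 := SimpleGraph.sum_degrees_eq_twice_card_edges (mono f)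
  have hdeg : ∀ v, (mono f).degree v + 1 = (Finset.univ.filter (fun u => f u = f v)).card := by
    intro v
    have h2 : (mono f).neighborFinset v = (Finset.univ.filter (fun u => f u = f v)).erase v := by
      ext u
      rw [SimpleGraph.mem_neighborFinset, Finset.mem_erase, Finset.mem_filter]
      constructor
      · rintro ⟨a, b⟩
        exact ⟨fun h => a h.symm, Finset.mem_univ _, b.symm⟩
      · rintro ⟨a, -, b⟩
        exact ⟨fun h => a h.symm, b.symm⟩
    rw [← SimpleGraph.card_neighborFinset_eq_degree, h2]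
    apply Finset.card_erase_add_one
    rw [Finset.mem_filter]
    exact ⟨Finset.mem_univ _, rfl⟩
  have hsum : ∑ v : Fin N, ((Finset.univ.filter (fun u => f u = f v)).card : ℝ) =
      ∑ i : Fin k, ((Finset.univ.filter (fun u => f u = i)).card : ℝ) ^ 2 := by
    rw [← Finset.sum_fiberwise Finset.univ f
      (fun v => ((Finset.univ.filter (fun u => f u = f v)).card : ℝ))]
    refine Finset.sum_congr rfl fun i _ => ?_
    rw [Finset.sum_congr rfl (g := fun _ => ((Finset.univ.filter (fun u => f u = i)).card : ℝ))]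
    · rw [Finset.sum_const, nsmul_eq_mul, sq]
    · intro v hv
      rw [Finset.mem_filter] at hv
      rw [hv.2]
  have hN : ∑ i : Fin k, ((Finset.univ.filter (fun u => f u = i)).card : ℝ) = N := by
    have h3 := Finset.card_eq_sum_card_fiberwise (s := (Finset.univ : Finset (Fin N)))
      (t := (Finset.univ : Finset (Fin k))) (f := f) (fun _ _ => Finset.mem_coe.2 (Finset.mem_univ _))
    rw [Finset.card_univ, Fintype.card_fin] at h3
    rw [← Nat.cast_sum, ← h3]
  have hcs := sq_sum_le_card_mul_sum_sq (s := (Finset.univ : Finset (Fin k)))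
    (f := fun i => ((Finset.univ.filter (fun u => f u = i)).card : ℝ))
  rw [hN, Finset.card_univ, Fintype.card_fin, ← hsum] at hcs
  have h4 : ∑ v : Fin N, ((Finset.univ.filter (fun u => f u = f v)).card : ℝ) =
      2 * ((mono f).edgeFinset.card : ℝ) + N := by
    have h5 : ∑ v : Fin N, (Finset.univ.filter (fun u => f u = f v)).card =
        2 * (mono f).edgeFinset.card + N := by
      rw [← h1]
      rw [Finset.sum_congr rfl (fun v _ => (hdeg v).symm), Finset.sum_add_distrib]
      simp
    exact_mod_cast h5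
  rw [h4] at hcs
  have hk0 : (0 : ℝ) < k := by exact_mod_cast hk
  have h6 : (N : ℝ) ^ 2 / k ≤ 2 * ((mono f).edgeFinset.card : ℝ) + N := by
    rw [div_le_iff₀ hk0, mul_comm]
    exact hcs
  linarith

open Classical in
private theorem card_proper {N k : ℕ} (hk : 1 ≤ k) (f : Fin N → Fin k) :
    (Nat.card {G : SimpleGraph (Fin N) // ∀ u v, G.Adj u v → f u ≠ f v} : ℝ) ≤
      (2 : ℝ) ^ (N.choose 2) *
        (2 : ℝ) ^ (-((((N : ℝ) ^ 2 / (k : ℝ)) - (N : ℝ)) / 2)) := by
  have h1 := card_avoid N (mono f).edgeFinset (fun e he => by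
    rw [SimpleGraph.mem_edgeFinset] at he
    exact (mono f).not_isDiag_of_mem_edgeSet he)
  have e : {G : SimpleGraph (Fin N) // ∀ u v, G.Adj u v → f u ≠ f v} ≃
      {G : SimpleGraph (Fin N) // ∀ e ∈ (mono f).edgeFinset, e ∉ G.edgeSet} := by
    refine Equiv.subtypeEquivRight (fun G => ?_)
    constructor
    · intro h e
      induction e using Sym2.ind with
      | _ u v =>
        intro he hG
        rw [SimpleGraph.mem_edgeFinset, SimpleGraph.mem_edgeSet] at he
        rw [SimpleGraph.mem_edgeSet] at hG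
        exact h u v hG he.2
    · intro h u v huv hf
      refine h s(u, v) ?_ ((SimpleGraph.mem_edgeSet _).2 huv)
      rw [SimpleGraph.mem_edgeFinset, SimpleGraph.mem_edgeSet]
      exact ⟨huv.ne, hf⟩
  rw [Nat.card_congr e]
  have h2 : (Nat.card {G : SimpleGraph (Fin N) // ∀ e ∈ (mono f).edgeFinset, e ∉ G.edgeSet} : ℝ) *
      (2 : ℝ) ^ (mono f).edgeFinset.card = (2 : ℝ) ^ (N.choose 2) := by exact_mod_cast h1
  have h3 : (Nat.card {G : SimpleGraph (Fin N) // ∀ e ∈ (mono f).edgeFinset, e ∉ G.edgeSet} : ℝ)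
      = (2 : ℝ) ^ (N.choose 2) * ((2 : ℝ) ^ (mono f).edgeFinset.card)⁻¹ := by
    rw [← h2, mul_assoc, mul_inv_cancel₀ (by positivity), mul_one]
  rw [h3]
  refine mul_le_mul_of_nonneg_left ?_ (by positivity)
  rw [← Real.rpow_natCast, ← Real.rpow_neg (by norm_num)]
  apply Real.rpow_le_rpow_of_exponent_le (by norm_num)
  linarith [mono_card hk f]

theorem colorable_le (N k : ℕ) (hk : 1 ≤ k) (hkN : k ≤ N) :
    Pr N (fun G => G.Colorable k)
      ≤ (k : ℝ) ^ N / (k.factorial : ℝ) * (2 : ℝ) ^ (-((((N : ℝ) ^ 2 / (k : ℝ)) - (N : ℝ)) / 2)) := by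
  classical
  choose g hg using fun G : {G : SimpleGraph (Fin N) // G.Colorable k} =>
    exists_surj_coloring N k hkN G.1 G.2
  have hinj : Function.Injective
      (fun z : {G : SimpleGraph (Fin N) // G.Colorable k} × Equiv.Perm (Fin k) =>
      (⟨fun v => z.2 (g z.1 v), ⟨z.1.1, fun u v huv h =>
        (hg z.1).1 u v huv (z.2.injective h)⟩⟩ :
        (f : Fin N → Fin k) × {G : SimpleGraph (Fin N) // ∀ u v, G.Adj u v → f u ≠ f v})) := by
    rintro ⟨G, σ⟩ ⟨G', τ⟩ h
    have h1 : G.1 = G'.1 := congrArg (fun z : (f : Fin N → Fin k) ×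
      {G : SimpleGraph (Fin N) // ∀ u v, G.Adj u v → f u ≠ f v} => z.2.1) h
    have h2 : (fun v => σ (g G v)) = fun v => τ (g G' v) := congrArg
      (fun z : (f : Fin N → Fin k) ×
        {G : SimpleGraph (Fin N) // ∀ u v, G.Adj u v → f u ≠ f v} => z.1) h
    have h3 : G = G' := Subtype.ext h1
    subst h3
    refine Prod.ext rfl ?_
    ext i
    obtain ⟨v, hv⟩ := (hg G).2 i
    have h4 := congrFun h2 v
    simp only [hv] at h4
    rw [h4]
  have hcard := Nat.card_le_card_of_injective _ hinj
  rw [Nat.card_prod, Nat.card_sigma] at hcard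
  have hperm : Nat.card (Equiv.Perm (Fin k)) = k.factorial := by
    rw [Nat.card_eq_fintype_card, Fintype.card_perm, Fintype.card_fin]
  rw [hperm] at hcard
  have h1 : ((Nat.card {G : SimpleGraph (Fin N) // G.Colorable k} : ℝ)) * (k.factorial : ℝ) ≤
      (k : ℝ) ^ N * ((2 : ℝ) ^ (N.choose 2) *
        (2 : ℝ) ^ (-((((N : ℝ) ^ 2 / (k : ℝ)) - (N : ℝ)) / 2))) := by
    have h2 : ((Nat.card {G : SimpleGraph (Fin N) // G.Colorable k} : ℝ)) * (k.factorial : ℝ) ≤
        ∑ f : Fin N → Fin k,
          (Nat.card {G : SimpleGraph (Fin N) // ∀ u v, G.Adj u v → f u ≠ f v} : ℝ) := by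
      exact_mod_cast hcard
    refine h2.trans ((Finset.sum_le_sum fun f _ => card_proper hk f).trans ?_)
    rw [Finset.sum_const, Finset.card_univ, Fintype.card_fun, Fintype.card_fin, Fintype.card_fin,
      nsmul_eq_mul]
    push_cast
    exact le_rfl
  unfold Pr
  have hf0 : (0 : ℝ) < k.factorial := by exact_mod_cast Nat.factorial_pos k
  have h20 : (0 : ℝ) < (2 : ℝ) ^ (N.choose 2) := by positivity
  rw [div_le_iff₀ h20, div_mul_eq_mul_div, div_mul_eq_mul_div, le_div_iff₀ hf0]
  refine h1.trans (le_of_eq ?_)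
  ring

end ZZ51
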