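import Pool.Agent.ZZ51.Window

/-!
# ZZ51/Local: the local density theorem, given the known sharp upper bound for `χ`

`Sharp`: for every `ε > 0`, whp `χ(G(n,1/2)) ≤ n/(α₀ - 1 - 2/log 2 - ε)` (a known theorem).
PROOF. `M = ⌊(1+κ) N⌋`, `Λ = al0 M`, `B = 1 + 2/log 2`, `β, γ` as before. `Sharp` at `N`:
`T N x ≤ β` for `x ≥ N/(al0 N - B - ε')`, so `phi (T N x) = 0` there and
`Psi N ≤ γ (N/(al0 N - B - ε') + 1)`; with `t = Λ - al0 N ≤ 2 log₂(M/N)` (`al0_diff_le`):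
`N/(Λ - t - B - ε') ≤ N/Λ + N (t + B + 2 ε')/Λ²` for large `N`.  `Psi_lower` at `M`, `window_sum` for
`(N, M]` (`M/(log M)³ ≤ N`):
`M/Λ + M (B - ε')/Λ² ≤ N/Λ + N (t + B + 2ε')/Λ² + 1 + (M-N)/Λ + (1/Λ²)(∑_{(N,M]} (Λ - al0 n + fract) + #good + ε'' M)`,
so `(M - N) B - N t ≤ ∑ (Λ - al0 n) + ∑ fract + #good + (small) M`, and
`∑_{(N,M]} (Λ - al0 n) ≤ (2/log 2) ((M - N) - N log (M/N))` (`al0_diff_le`, `sum_log_le`).
As `N t ≤ (2/log 2) N log (M/N)`: `M - N ≤ ∑ fract + #good + (small) M`.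
-/

set_option autoImplicit false

open Filter Topology

namespace ZZ51

/-- the known sharp upper bound for the chromatic number of `G(n,1/2)` -/
def Sharp : Prop := ∀ ε : ℝ, 0 < ε →
  Tendsto (fun n : ℕ => Pr n (fun G =>
    (G.chromaticNumber.toNat : ℝ) ≤ (n : ℝ) / (al0 n - 1 - 2 / Real.log 2 - ε))) atTop (𝓝 1)

theorem loc_phi_zero {β γ t : ℝ} (hγ : 0 ≤ γ) (h : t ≤ β) : phi β γ t = 0 := by
  unfold phi
  rw [max_eq_right (by linarith), min_eq_left hγ]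

/-- Upper bound of `Psi` when `T N x ≤ β` for all `x ≥ Y`. -/
theorem loc_Psi_le {β γ Y : ℝ} {N : ℕ} (hγ : 0 < γ) (hY : 0 ≤ Y)
    (h : ∀ x : ℕ, Y ≤ x → T N x ≤ β) : Psi β γ N ≤ γ * (Y + 1) := by
  classical
  unfold Psi
  have h1 : ∑ x ∈ Finset.range (N + 1), phi β γ (T N x) ≤
      ∑ x ∈ (Finset.range (N + 1)).filter (fun x : ℕ => (x : ℝ) < Y), γ := by
    rw [Finset.sum_filter]
    refine Finset.sum_le_sum fun x _ => ?_
    split_ifs with hx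
    · exact phi_le' _
    · rw [loc_phi_zero hγ.le (h x (not_lt.1 hx))]
  refine h1.trans ?_
  rw [Finset.sum_const, nsmul_eq_mul, mul_comm]
  refine mul_le_mul_of_nonneg_left ?_ hγ.le
  have h2 : (Finset.range (N + 1)).filter (fun x : ℕ => (x : ℝ) < Y) ⊆ Finset.range ⌈Y⌉₊ := by
    intro x hx
    rw [Finset.mem_filter] at hx
    rw [Finset.mem_range, Nat.lt_ceil]
    exact hx.2
  have h3 := Finset.card_le_card h2
  rw [Finset.card_range] at h3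
  have h4 := Nat.ceil_lt_add_one hY
  have h5 : (((Finset.range (N + 1)).filter (fun x : ℕ => (x : ℝ) < Y)).card : ℝ) ≤ ⌈Y⌉₊ := by
    exact_mod_cast h3
  linarith

/-- From the sharp upper bound of the chromatic number. -/
theorem loc_T_le (hS : Sharp) {ε β : ℝ} (hε : 0 < ε) (hβ : 0 < β) :
    ∀ᶠ N : ℕ in atTop, ∀ x : ℕ, (N : ℝ) / (al0 N - 1 - 2 / Real.log 2 - ε) ≤ x → T N x ≤ β := by
  filter_upwards [(hS ε hε).eventually_const_lt (show 1 - β < 1 by linarith)] with N hN x hx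
  have h1 : Pr N (fun G => (G.chromaticNumber.toNat : ℝ) ≤
      (N : ℝ) / (al0 N - 1 - 2 / Real.log 2 - ε)) ≤ Pr N (fun G => G.Colorable x) := by
    refine Pr_mono N _ _ fun G hG => ?_
    have h2 : G.chromaticNumber.toNat ≤ x := by
      exact_mod_cast hG.trans hx
    exact G.colorable_chromaticNumber_of_fintype.mono h2
  have h2 : T N x = 1 - Pr N (fun G => G.Colorable x) := Pr_compl N _
  rw [h2]
  linarith

theorem loc_inv {Λ y e : ℝ} (hΛ : 0 < Λ) (hy : y < Λ) (h : y ^ 2 ≤ e * (Λ - y)) :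
    1 / (Λ - y) ≤ 1 / Λ + (y + e) / Λ ^ 2 := by
  have h1 : 0 < Λ - y := by linarith
  rw [div_add_div _ _ hΛ.ne' (by positivity), div_le_div_iff₀ h1 (by positivity)]
  nlinarith [mul_le_mul_of_nonneg_left h hΛ.le]

open Classical in
theorem local_window (hS : Sharp) (p q ε κ : ℝ) (hq : 0 < q) (hpq : q < p) (hp : p < 1)
    (hε : 0 < ε) (hκ : 0 < κ) :
    ∃ c : ℝ, 0 < c ∧ ∀ᶠ N : ℕ in atTop,
      ∑ n ∈ Finset.Ioc N ⌊(1 + κ) * (N : ℝ)⌋₊, (1 - Int.fract (al0 n)) - ε * N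
        ≤ (((Finset.Ioc N ⌊(1 + κ) * (N : ℝ)⌋₊).filter (fun n : ℕ => ¬ Bad p q c n)).card : ℝ) := by
  obtain ⟨e, he⟩ : ∃ e, e = ε / (6 + 2 * κ) := ⟨_, rfl⟩
  have he0 : 0 < e := by rw [he]; positivity
  have hee : (6 + 2 * κ) * e = ε := by rw [he]; field_simp
  obtain ⟨c, hc, hws⟩ := window_sum p q e hq hpq hp he0
  refine ⟨c, hc, ?_⟩
  obtain ⟨β, hβ⟩ : ∃ β, β = q + (p - q) / 3 := ⟨_, rfl⟩
  obtain ⟨γ, hγ⟩ : ∃ γ, γ = (p - q) / 3 := ⟨_, rfl⟩
  have hγ0 : 0 < γ := by rw [hγ]; linarith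
  have hβ0 : 0 < β := by rw [hβ]; linarith
  have hβγ : β + γ < 1 := by rw [hβ, hγ]; linarith
  rw [← hβ, ← hγ] at hws
  have hlog : Tendsto (fun N : ℕ => Real.log N) atTop atTop :=
    Real.tendsto_log_atTop.comp tendsto_natCast_atTop_atTop
  have hsq : ∀ᶠ N : ℕ in atTop, 9 * (Real.log N) ^ 2 ≤ e / (1 + κ) * N := by
    have h1 := (Real.isLittleO_pow_log_id_atTop (n := 2)).bound
      (show 0 < e / (1 + κ) / 9 by positivity)
    have h2 := tendsto_natCast_atTop_atTop.eventually h1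
    filter_upwards [h2] with N hN
    rw [Real.norm_eq_abs, abs_of_nonneg (by positivity), id, Real.norm_eq_abs,
      abs_of_nonneg (Nat.cast_nonneg N)] at hN
    linarith
  have hM : Tendsto (fun N : ℕ => ⌊(1 + κ) * (N : ℝ)⌋₊) atTop atTop :=
    tendsto_nat_floor_atTop.comp
      (tendsto_natCast_atTop_atTop.const_mul_atTop (by linarith : (0 : ℝ) < 1 + κ))
  obtain ⟨y₀, hy₀⟩ : ∃ y₀, y₀ = 2 * Real.logb 2 (1 + κ) + (1 + 2 / Real.log 2) + e := ⟨_, rfl⟩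
  have hlog2 : 0 < Real.log 2 := Real.log_pos (by norm_num)
  have h1κ : 0 ≤ Real.logb 2 (1 + κ) := Real.logb_nonneg (by norm_num) (by linarith)
  have h2l : 0 < 2 / Real.log 2 := by positivity
  have hy₀0 : 0 < y₀ := by rw [hy₀]; linarith
  filter_upwards [hM.eventually hws, hM.eventually (Psi_lower β γ e hβ0 hγ0 hβγ he0),
    hM.eventually al0_bounds, hM.eventually (al0_tendsto.eventually_ge_atTop (y₀ + 1 + y₀ ^ 2 / e)),
    hM.eventually (hlog.eventually_ge_atTop (1 + κ)), hM.eventually hsq,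
    loc_T_le hS he0 hβ0, eventually_ge_atTop 3] with N hW hPsi hbd hΛ1 hL hsqM hT hN3
  have hN2 : 2 ≤ N := by omega
  obtain ⟨M, hMdef⟩ : ∃ M : ℕ, M = ⌊(1 + κ) * (N : ℝ)⌋₊ := ⟨_, rfl⟩
  rw [← hMdef] at hW hPsi hbd hΛ1 hL hsqM ⊢
  have hN0 : (0 : ℝ) < N := by exact_mod_cast (by omega : 0 < N)
  have hMle : (M : ℝ) ≤ (1 + κ) * N := by
    rw [hMdef]
    exact Nat.floor_le (by positivity)
  have hNM : N ≤ M := by
    rw [hMdef]
    exact Nat.le_floor (by nlinarith)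
  have hNM' : (N : ℝ) ≤ M := by exact_mod_cast hNM
  have hM0 : (0 : ℝ) < M := by linarith
  have hL3 : (1 + κ) ≤ (Real.log M) ^ 3 := by
    have h1 : 1 ≤ Real.log M := by linarith
    have h2 : Real.log M ≤ (Real.log M) ^ 3 := by
      have : 0 ≤ Real.log M := by linarith
      nlinarith [mul_nonneg this (show 0 ≤ (Real.log M) ^ 2 - 1 by nlinarith)]
    linarith
  have h1 := hW N (by
    rw [div_le_iff₀ (by linarith)]
    calc (M : ℝ) ≤ (1 + κ) * N := hMle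
      _ ≤ N * (Real.log M) ^ 3 := by
        rw [mul_comm]
        exact mul_le_mul_of_nonneg_left hL3 hN0.le) hNM
  obtain ⟨Λ, hΛ⟩ : ∃ Λ, Λ = al0 M := ⟨_, rfl⟩
  obtain ⟨t, ht⟩ : ∃ t, t = Λ - al0 N := ⟨_, rfl⟩
  rw [← hΛ] at h1 hPsi hbd hΛ1
  have hy₀e : 0 ≤ y₀ ^ 2 / e := by positivity
  have hΛ0 : 0 < Λ := by linarith
  -- the bound for `t`
  have ht1 : t ≤ 2 * Real.logb 2 ((M : ℝ) / N) := by
    rw [ht, hΛ]
    exact al0_diff_le N M hN2 hNM
  have ht2 : Real.logb 2 ((M : ℝ) / N) ≤ Real.logb 2 (1 + κ) := by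
    apply Real.logb_le_logb_of_le (by norm_num) (div_pos hM0 hN0)
    rw [div_le_iff₀ hN0]
    exact hMle
  obtain ⟨y, hy⟩ : ∃ y, y = t + (1 + 2 / Real.log 2) + e := ⟨_, rfl⟩
  have hyy : y ≤ y₀ := by rw [hy, hy₀]; linarith
  have ht0 : 0 ≤ t := by
    have := al0_mono N M hN3 hNM
    rw [ht, hΛ]
    linarith
  have hy0 : 0 ≤ y := by rw [hy]; linarith
  have hyL : y < Λ := by linarith
  have hy2 : y ^ 2 ≤ e * (Λ - y) := by
    have h2 : y ^ 2 ≤ y₀ ^ 2 := pow_le_pow_left₀ hy0 hyy 2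
    have h3 : e * (y₀ ^ 2 / e) = y₀ ^ 2 := by field_simp
    have h4 : e * (y₀ ^ 2 / e) ≤ e * (Λ - y) := mul_le_mul_of_nonneg_left (by linarith) he0.le
    linarith
  have hinv := loc_inv hΛ0 hyL hy2
  have hden : al0 N - 1 - 2 / Real.log 2 - e = Λ - y := by rw [hy, ht]; ring
  rw [hden] at hT
  have hPsiN := loc_Psi_le hγ0 (div_nonneg hN0.le (by linarith : 0 ≤ Λ - y)) hT
  have hNy : (N : ℝ) / (Λ - y) ≤ N * (1 / Λ + (y + e) / Λ ^ 2) := by
    rw [div_eq_mul_one_div]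
    exact mul_le_mul_of_nonneg_left hinv hN0.le
  have hΛsq : Λ ^ 2 ≤ e * N := by
    have h2 : Λ ^ 2 ≤ 9 * (Real.log M) ^ 2 := by
      have h3 := hbd.2.2.1
      nlinarith
    have h3 : e / (1 + κ) * M ≤ e * N := by
      rw [div_mul_eq_mul_div, div_le_iff₀ (by linarith)]
      have := mul_le_mul_of_nonneg_left hMle he0.le
      linarith
    linarith
  -- the sum of the differences
  obtain ⟨l, hl⟩ : ∃ l, l = Real.log ((M : ℝ) / N) := ⟨_, rfl⟩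
  have hlb : Real.logb 2 ((M : ℝ) / N) = l / Real.log 2 := by rw [hl]; rfl
  have h4 : ∑ n ∈ Finset.Ioc N M, (Λ - al0 n) ≤ 2 / Real.log 2 * (((M : ℝ) - N) - N * l) := by
    have h5 : ∑ n ∈ Finset.Ioc N M, (Λ - al0 n) ≤
        ∑ n ∈ Finset.Ioc N M, 2 / Real.log 2 * Real.log ((M : ℝ) / n) := by
      refine Finset.sum_le_sum fun n hn => ?_
      rw [Finset.mem_Ioc] at hn
      have h6 := al0_diff_le n M (by omega) hn.2
      rw [← hΛ] at h6
      refine h6.trans (le_of_eq ?_)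
      unfold Real.logb
      ring
    rw [← Finset.mul_sum] at h5
    have h6 := sum_log_le N M (by omega) hNM
    rw [← hl] at h6
    exact h5.trans (mul_le_mul_of_nonneg_left h6 h2l.le)
  rw [Finset.sum_add_distrib] at h1
  obtain ⟨S1, hS1⟩ : ∃ S1, S1 = ∑ n ∈ Finset.Ioc N M, (Λ - al0 n) := ⟨_, rfl⟩
  obtain ⟨S2, hS2⟩ : ∃ S2, S2 = ∑ n ∈ Finset.Ioc N M, Int.fract (al0 n) := ⟨_, rfl⟩
  obtain ⟨C, hC⟩ : ∃ C : ℝ, C = (((Finset.Ioc N M).filter (fun n : ℕ => ¬ Bad p q c n)).card : ℝ) :=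
    ⟨_, rfl⟩
  rw [← hS1, ← hS2, ← hC] at h1
  rw [← hS1] at h4
  rw [← hC]
  -- combine
  have h5 : M * (1 + 2 / Real.log 2 - e) ≤ N * (y + e) + Λ ^ 2 + S1 + S2 + C + e * M := by
    have h6 := hPsi.trans (h1.trans (add_le_add_left (hPsiN.trans
      (mul_le_mul_of_nonneg_left (add_le_add_left hNy 1) hγ0.le)) _))
    have h7 : γ * (N * (1 / Λ + (y + e) / Λ ^ 2) + 1) +
        γ * (((M : ℝ) - N) / Λ + 1 / Λ ^ 2 * (S1 + S2 + C + e * M)) =
        γ * ((N * (1 / Λ + (y + e) / Λ ^ 2) + 1) +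
          (((M : ℝ) - N) / Λ + 1 / Λ ^ 2 * (S1 + S2 + C + e * M))) := by ring
    rw [h7] at h6
    have h8 := le_of_mul_le_mul_left h6 hγ0
    have h9 : ((M : ℝ) - N) / Λ = M / Λ - N / Λ := by ring
    have h10 : (N : ℝ) * (1 / Λ + (y + e) / Λ ^ 2) = N / Λ + N * (y + e) / Λ ^ 2 := by ring
    rw [h9, h10] at h8
    have h11 : M * (1 + 2 / Real.log 2 - e) / Λ ^ 2 ≤
        N * (y + e) / Λ ^ 2 + 1 + 1 / Λ ^ 2 * (S1 + S2 + C + e * M) := by linarith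
    rw [div_le_iff₀ (by positivity)] at h11
    have h12 : (N * (y + e) / Λ ^ 2 + 1 + 1 / Λ ^ 2 * (S1 + S2 + C + e * M)) * Λ ^ 2 =
        N * (y + e) + Λ ^ 2 + (S1 + S2 + C + e * M) := by
      field_simp
    rw [h12] at h11
    linarith
  have h6 : N * t ≤ 2 / Real.log 2 * (N * l) := by
    have h7 : t ≤ 2 * (l / Real.log 2) := by rw [← hlb]; exact ht1
    calc N * t ≤ N * (2 * (l / Real.log 2)) := mul_le_mul_of_nonneg_left h7 hN0.le
      _ = 2 / Real.log 2 * (N * l) := by ring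
  have h7 : (M : ℝ) - N ≤ S2 + C + 3 * e * N + 2 * e * M := by
    rw [hy] at h5
    have e1 : (N : ℝ) * (t + (1 + 2 / Real.log 2) + e + e) =
        N * t + N * (1 + 2 / Real.log 2) + 2 * e * N := by ring
    rw [e1] at h5
    have e2 : 2 / Real.log 2 * (((M : ℝ) - N) - N * l) =
        2 / Real.log 2 * M - 2 / Real.log 2 * N - 2 / Real.log 2 * (N * l) := by ring
    rw [e2] at h4
    have e3 : (M : ℝ) * (1 + 2 / Real.log 2 - e) = M + 2 / Real.log 2 * M - e * M := by ring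
    rw [e3] at h5
    have e4 : (N : ℝ) * (1 + 2 / Real.log 2) = N + 2 / Real.log 2 * N := by ring
    rw [e4] at h5
    linarith
  have h8 : ∑ n ∈ Finset.Ioc N M, (1 - Int.fract (al0 n)) = (M : ℝ) - N - S2 := by
    rw [Finset.sum_sub_distrib, Finset.sum_const, Nat.card_Ioc, nsmul_eq_mul, mul_one,
      Nat.cast_sub hNM, hS2]
  have h9 : 2 * e * M ≤ 2 * e * ((1 + κ) * N) := mul_le_mul_of_nonneg_left hMle (by positivity)
  have h10 : ε * N = 6 * e * N + 2 * κ * e * N := by rw [← hee]; ring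
  have h11 : 0 ≤ e * N := by positivity
  rw [h8, h10]
  linarith

end ZZ51
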