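import Pool.Agent.ZZ51.FirstMom
import Pool.Agent.ZZ51.Alpha

/-!
# ZZ51/LowerChi: `χ(G(N,1/2)) > N/(α₀ - 1 - 2/log 2 + ε)` whp (first moment)

PROOF. By `T_anti` it is enough to treat `k = ⌊N/(A+ε)⌋`, `A = al0 N - 1 - 2/log 2 =
2 log₂ N - 2 log₂ log₂ N - 2`. Then `1 ≤ k ≤ N`, and by `colorable_le` with `a = N/k ≥ A + ε`
(also `a ≤ A + ε + 1` for large `N`) and `log k! ≥ k log k - k`:
`log Pr(Colorable k) ≤ N log k - k log k + k - (N²/k - N)/2 · log 2
 = k (a-1) [ log k + 1/(a-1) - (a/2) log 2 ]`, `log k = log N - log a`.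
`(a/2) log 2 ≥ log N - log log₂ N - log 2 + ε (log 2)/2`, `log a ≥ log 2 + log log₂ N - o(1)`, so
the bracket is `≤ - ε (log 2)/2 + o(1) ≤ -ε/4`, and `k (a-1) → ∞`; so `Pr → 0`, `T N k = 1 - Pr`.
-/

set_option autoImplicit false

open Filter Topology

namespace ZZ51

theorem tendsto_logb2 : Tendsto (fun N : ℕ => Real.logb 2 (N : ℝ)) atTop atTop :=
  (Real.tendsto_logb_atTop (by norm_num)).comp tendsto_natCast_atTop_atTop

theorem logb_small (r : ℝ) (hr : 0 < r) : ∀ᶠ x : ℝ in atTop, 2 * Real.logb 2 x + 2 ≤ r * x := by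
  have h1 := (Real.isLittleO_log_id_atTop).bound (show (0 : ℝ) < r * Real.log 2 / 4 by
    have := Real.log_pos (show (1 : ℝ) < 2 by norm_num)
    positivity)
  filter_upwards [h1, eventually_ge_atTop (4 / r), eventually_ge_atTop (1 : ℝ)] with x hx hx2 hx3
  have hl2 := Real.log_pos (show (1 : ℝ) < 2 by norm_num)
  rw [Real.norm_eq_abs, id, Real.norm_eq_abs, abs_of_nonneg (by linarith : (0 : ℝ) ≤ x)] at hx
  have h3 : Real.log x ≤ r * Real.log 2 / 4 * x := (le_abs_self _).trans hx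
  have h4 : Real.logb 2 x ≤ r / 4 * x := by
    rw [Real.logb, div_le_iff₀ hl2]
    linarith
  have h5 : 4 ≤ r * x := by
    rw [div_le_iff₀ hr] at hx2
    linarith
  linarith

theorem log_factorial_ge (k : ℕ) (hk : 1 ≤ k) :
    (k : ℝ) * Real.log k - k ≤ Real.log (k.factorial : ℝ) := by
  have hk0 : (0 : ℝ) < k := by exact_mod_cast hk
  have h := Real.pow_div_factorial_le_exp (k : ℝ) hk0.le k
  have h2 : Real.log ((k : ℝ) ^ k / (k.factorial : ℝ)) ≤ k := by
    have h1 := Real.log_le_log (div_pos (pow_pos hk0 k) (by positivity)) h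
    rwa [Real.log_exp] at h1
  rw [Real.log_div (pow_pos hk0 _).ne' (by positivity), Real.log_pow] at h2
  linarith

/-- the estimate for one `k` -/
theorem first_bound (N k : ℕ) (hk : 1 ≤ k) (a D : ℝ) (ha : a = (N : ℝ) / k) (ha1 : 1 < a)
    (hD : Real.log N - Real.log a + 1 / (a - 1) - a / 2 * Real.log 2 ≤ -D) :
    (k : ℝ) ^ N / (k.factorial : ℝ) * (2 : ℝ) ^ (-((((N : ℝ) ^ 2 / (k : ℝ)) - (N : ℝ)) / 2))
      ≤ Real.exp (-(D * ((N : ℝ) - k))) := by
  have hk0 : (0 : ℝ) < k := by exact_mod_cast hk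
  have hN : (N : ℝ) = k * a := by rw [ha]; field_simp
  have hN0 : (0 : ℝ) < N := by rw [hN]; positivity
  have hpos : 0 < (k : ℝ) ^ N / (k.factorial : ℝ)
      * (2 : ℝ) ^ (-((((N : ℝ) ^ 2 / (k : ℝ)) - (N : ℝ)) / 2)) := by positivity
  rw [← Real.log_le_iff_le_exp hpos]
  rw [Real.log_mul (by positivity) (by positivity), Real.log_div (by positivity) (by positivity),
    Real.log_pow, Real.log_rpow (by norm_num)]
  have hf := log_factorial_ge k hk
  have hlk : Real.log k = Real.log N - Real.log a := by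
    rw [hN, Real.log_mul hk0.ne' (by positivity)]
    ring
  have h1 : (N : ℝ) ^ 2 / k = k * a ^ 2 := by
    rw [hN]
    field_simp
  rw [h1]
  have ha1' : a - 1 ≠ 0 := by linarith
  have h2 : (N : ℝ) * Real.log k - ((k : ℝ) * Real.log k - k)
      + -((k * a ^ 2 - N) / 2) * Real.log 2
      = k * (a - 1) * (Real.log N - Real.log a + 1 / (a - 1) - a / 2 * Real.log 2) := by
    rw [← hlk]
    have : k * (a - 1) * (Real.log k + 1 / (a - 1) - a / 2 * Real.log 2)
        = k * (a - 1) * Real.log k + k * ((a - 1) * (1 / (a - 1))) - k * (a - 1) * a / 2 * Real.log 2 := by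
      ring
    rw [this, mul_one_div_cancel ha1', hN]
    ring
  have h3 : k * (a - 1) * (Real.log N - Real.log a + 1 / (a - 1) - a / 2 * Real.log 2)
      ≤ k * (a - 1) * (-D) := by
    apply mul_le_mul_of_nonneg_left hD
    have : 0 < a - 1 := by linarith
    positivity
  have h4 : k * (a - 1) * (-D) = -(D * ((N : ℝ) - k)) := by
    rw [hN]
    ring
  linarith

theorem T_lower (ε v : ℝ) (hε : 0 < ε) (hv : v < 1) : ∀ᶠ N : ℕ in atTop, ∀ k : ℕ,
    (k : ℝ) ≤ (N : ℝ) / (al0 N - 1 - 2 / Real.log 2 + ε) → v ≤ T N k := by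
  have hl2 := Real.log_pos (show (1 : ℝ) < 2 by norm_num)
  obtain ⟨d, hd⟩ : ∃ d : ℝ, d = ε * Real.log 2 / 8 := ⟨_, rfl⟩
  have hd0 : 0 < d := by rw [hd]; positivity
  obtain ⟨q, hq⟩ : ∃ q : ℝ, q = Real.exp (-d) := ⟨_, rfl⟩
  have hq1 : q < 1 := by rw [hq, Real.exp_lt_one_iff]; linarith
  have hq0 : 0 < q := hq ▸ Real.exp_pos _
  have e1 : ∀ᶠ N : ℕ in atTop, 2 * Real.logb 2 (Real.logb 2 (N : ℝ)) + 2
      ≤ (2 * (1 - q)) * Real.logb 2 (N : ℝ) :=
    tendsto_logb2.eventually (logb_small (2 * (1 - q)) (by linarith))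
  have e2 : ∀ᶠ N : ℕ in atTop, (2 + 1 / d) / (2 * q) ≤ Real.logb 2 (N : ℝ) :=
    tendsto_logb2.eventually_ge_atTop _
  have e3 : ∀ᶠ N : ℕ in atTop, 1 ≤ Real.logb 2 (N : ℝ) := tendsto_logb2.eventually_ge_atTop _
  have e4 : ∀ᶠ N : ℕ in atTop, Real.exp (-(d * N)) ≤ 1 - v := by
    have h1 : Tendsto (fun N : ℕ => Real.exp (-(d * N))) atTop (𝓝 0) := by
      apply Real.tendsto_exp_neg_atTop_nhds_zero.comp
      exact Tendsto.const_mul_atTop hd0 tendsto_natCast_atTop_atTop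
    exact h1.eventually_le_const (by linarith)
  have e5 : ∀ᶠ N : ℕ in atTop, al0 N - 1 - 2 / Real.log 2 + ε ≤ N := by
    have h1 : Tendsto (fun x : ℝ => Real.log x / x) atTop (𝓝 0) :=
      Real.isLittleO_log_id_atTop.tendsto_div_nhds_zero
    have h2 := (logb_small (1 : ℝ) one_pos)
    have h3 : ∀ᶠ N : ℕ in atTop, 2 * Real.logb 2 (N : ℝ) + 2 ≤ 1 * (N : ℝ) :=
      tendsto_natCast_atTop_atTop.eventually h2
    have h4 : ∀ᶠ N : ℕ in atTop, ε ≤ 2 * Real.logb 2 (Real.logb 2 (N : ℝ)) :=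
      ((Real.tendsto_logb_atTop (by norm_num)).comp tendsto_logb2).const_mul_atTop
        (by norm_num : (0 : ℝ) < 2) |>.eventually_ge_atTop ε
    filter_upwards [h3, h4] with N hN3 hN4
    rw [al0_eq]
    linarith
  filter_upwards [e1, e2, e3, e4, e5, eventually_ge_atTop 1] with N h1 h2 h3 h4 h5 hN1 k hk
  obtain ⟨A, hA⟩ : ∃ A : ℝ, A = al0 N - 1 - 2 / Real.log 2 + ε := ⟨_, rfl⟩
  rw [← hA] at hk h5
  obtain ⟨L, hL⟩ : ∃ L : ℝ, L = Real.logb 2 (N : ℝ) := ⟨_, rfl⟩
  have hA2 : A = 2 * L - 2 * Real.logb 2 L - 2 + ε := by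
    rw [hA, al0_eq, ← hL]
    ring
  rw [← hL] at h1 h2 h3
  have hN0 : (0 : ℝ) < N := by exact_mod_cast hN1
  have hA3 : 2 * L * q ≤ A := by
    rw [hA2]
    linarith
  have hA4 : 2 + 1 / d ≤ A := by
    rw [div_le_iff₀ (by positivity)] at h2
    linarith
  have h1d : 0 < 1 / d := by positivity
  have hApos : 0 < A := by linarith
  -- reduce to `k₀`
  obtain ⟨k₀, hk₀⟩ : ∃ k₀ : ℕ, k₀ = ⌊(N : ℝ) / A⌋₊ := ⟨_, rfl⟩
  have hkk : k ≤ k₀ := by
    rw [hk₀]
    exact Nat.le_floor hk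
  refine le_trans ?_ (T_anti N k k₀ hkk)
  have hk1 : 1 ≤ k₀ := by
    rw [hk₀, Nat.one_le_floor_iff, le_div_iff₀ hApos]
    linarith
  have hk0 : (0 : ℝ) < k₀ := by exact_mod_cast hk1
  have hkA : (k₀ : ℝ) * A ≤ N := by
    have : (k₀ : ℝ) ≤ N / A := by
      rw [hk₀]
      exact Nat.floor_le (by positivity)
    rwa [le_div_iff₀ hApos] at this
  have hkN2 : 2 * (k₀ : ℝ) ≤ N := by nlinarith
  have hkN : k₀ ≤ N := by
    have : (k₀ : ℝ) ≤ N := by linarith
    exact_mod_cast this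
  have hb := colorable_le N k₀ hk1 hkN
  have haA : A ≤ (N : ℝ) / k₀ := by
    rw [le_div_iff₀ hk0]
    linarith
  have hD : Real.log N - Real.log ((N : ℝ) / k₀) + 1 / ((N : ℝ) / k₀ - 1)
      - (N : ℝ) / k₀ / 2 * Real.log 2 ≤ -(2 * d) := by
    obtain ⟨a, ha⟩ : ∃ a : ℝ, a = (N : ℝ) / k₀ := ⟨_, rfl⟩
    rw [← ha] at haA ⊢
    have hlogA : Real.log (2 * L) - d ≤ Real.log a := by
      have h6 : Real.log (2 * L * q) ≤ Real.log a :=
        Real.log_le_log (by positivity) (hA3.trans haA)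
      rw [Real.log_mul (by positivity) (by positivity), hq, Real.log_exp] at h6
      linarith
    have hinv : 1 / (a - 1) ≤ d := by
      rw [div_le_iff₀ (by linarith)]
      have h7 : 1 / d ≤ a - 1 := by linarith
      rw [div_le_iff₀ hd0] at h7
      linarith
    have hahalf : Real.log N - Real.log L - Real.log 2 + 4 * d ≤ a / 2 * Real.log 2 := by
      have h8 : A / 2 * Real.log 2 ≤ a / 2 * Real.log 2 := by gcongr
      have h9 : A / 2 * Real.log 2 = Real.log N - Real.log L - Real.log 2 + 4 * d := by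
        rw [hA2, hd, Real.logb, ]
        have h10 : L * Real.log 2 = Real.log N := by
          rw [hL, Real.logb]
          field_simp
        have h11 : Real.log L / Real.log 2 * Real.log 2 = Real.log L := by field_simp
        linear_combination h10 - h11
      linarith
    have h12 : Real.log (2 * L) = Real.log 2 + Real.log L := by
      rw [Real.log_mul (by norm_num) (by positivity)]
    linarith
  have hfb := first_bound N k₀ hk1 ((N : ℝ) / k₀) (2 * d) rfl (by linarith) hD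
  have hexp : Real.exp (-(2 * d * ((N : ℝ) - k₀))) ≤ Real.exp (-(d * N)) := by
    rw [Real.exp_le_exp]
    nlinarith
  have hT : T N k₀ = 1 - Pr N (fun G => G.Colorable k₀) := Pr_compl N _
  rw [hT]
  linarith

end ZZ51
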