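import Pool.Agent.ZZ51.SecMom

/-!
# ZZ51/Plant: the planting inequality

PROOF. Let `A = {G : ¬ G.Colorable (x+1)}`, `p = T n (x+1)`, `M = 2^{C(n,2)}`, `μ = mu n a > 0`.
If `S` is independent in `G ∈ A` then `G - S` is not `x`-colourable (a colouring of `G - S` with
`x` colours and a new colour on `S` would colour `G` with `x + 1` colours). So (`marg`)
`∑_{G ∈ A} X G = ∑_S #{G ∈ A, S indep} ≤ ∑_{|S| = a} M/2^{C(a,2)} T (n-a) x = M μ T (n-a) x`.
On the other hand `∑_G (1_A - p)(X - μ) = ∑_{A} X - p M μ` and by Cauchy-Schwarz its square is at most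
`(∑ (1_A - p)²)(∑ (X - μ)²) ≤ (M p (1-p)) (M μ² W) ≤ M² μ² W/4`
(`∑ (X-μ)² = ∑ X² - M μ² ≤ M μ² W` by `sum_X_sq`, `sum_X`). Divide by `M μ`.
-/

set_option autoImplicit false

namespace ZZ51

theorem W_nonneg (n a : ℕ) : 0 ≤ W n a := by
  unfold W
  exact Finset.sum_nonneg (fun l _ => by positivity)

theorem mu_pos (n a : ℕ) (ha : a ≤ n) : 0 < mu n a := by
  unfold mu
  have : 0 < n.choose a := Nat.choose_pos ha
  positivity

theorem mu_mono (m n a : ℕ) (h : m ≤ n) : mu m a ≤ mu n a := by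
  unfold mu
  have : m.choose a ≤ n.choose a := Nat.choose_le_choose a h
  gcongr

/-- if `S` is independent and `G` is not `(x+1)`-colourable then `G - S` is not `x`-colourable -/
theorem not_colorable_compl {n x : ℕ} (G : SimpleGraph (Fin n)) (S : Finset (Fin n))
    (hS : G.IsIndepSet (S : Set (Fin n))) (hG : ¬ G.Colorable (x + 1)) :
    ¬ (G.induce ((S : Set (Fin n))ᶜ)).Colorable x := by
  classical
  rintro ⟨C⟩
  apply hG
  refine ⟨SimpleGraph.Coloring.mk
    (fun v => if h : v ∈ ((S : Set (Fin n))ᶜ) then (C ⟨v, h⟩).castSucc else Fin.last x) ?_⟩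
  intro u v huv
  by_cases hu : u ∈ ((S : Set (Fin n))ᶜ) <;> by_cases hv : v ∈ ((S : Set (Fin n))ᶜ)
  · simp only [hu, hv, dif_pos]
    intro h
    have h1 : (G.induce ((S : Set (Fin n))ᶜ)).Adj ⟨u, hu⟩ ⟨v, hv⟩ := huv
    exact C.valid h1 (Fin.castSucc_injective _ h)
  · simp only [hu, hv, dif_pos, dif_neg, not_false_eq_true]
    exact (Fin.castSucc_lt_last _).ne
  · simp only [hu, hv, dif_pos, dif_neg, not_false_eq_true]
    exact (Fin.castSucc_lt_last _).ne'
  · exfalso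
    rw [Set.mem_compl_iff, not_not] at hu hv
    rw [SimpleGraph.isIndepSet_iff] at hS
    exact hS hu hv huv.ne huv

open Classical in
theorem sum_one (n : ℕ) : ∑ _G : SimpleGraph (Fin n), (1 : ℝ) = (2 : ℝ) ^ (n.choose 2) := by
  have h := card_graph n
  rw [Nat.card_eq_fintype_card] at h
  rw [Finset.sum_const, Finset.card_univ, h]
  simp

open Classical in
/-- indicator -/
noncomputable def ind (P : Prop) : ℝ := if P then 1 else 0

theorem ind_pos {P : Prop} (h : P) : ind P = 1 := if_pos h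

theorem ind_neg {P : Prop} (h : ¬ P) : ind P = 0 := if_neg h

open Classical in
theorem sum_ind (n : ℕ) (P : SimpleGraph (Fin n) → Prop) :
    ∑ G : SimpleGraph (Fin n), ind (P G)
      = (Nat.card {G : SimpleGraph (Fin n) // P G} : ℝ) := by
  unfold ind
  rw [Finset.sum_boole, Nat.card_eq_fintype_card, Fintype.card_subtype]

open Classical in
theorem sum_indX_le (n a x : ℕ) :
    ∑ G : SimpleGraph (Fin n), ind (¬ G.Colorable (x + 1)) * (X n a G : ℝ)
      ≤ (2 : ℝ) ^ (n.choose 2) * mu n a * T (n - a) x := by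
  have h1 : ∀ G : SimpleGraph (Fin n), ind (¬ G.Colorable (x + 1)) * (X n a G : ℝ)
      = ∑ S ∈ (Finset.univ : Finset (Fin n)).powersetCard a,
          ind (G.IsIndepSet (S : Set (Fin n)) ∧ ¬ G.Colorable (x + 1)) := by
    intro G
    rw [X_eq, Finset.card_filter]
    push_cast
    rw [Finset.mul_sum]
    refine Finset.sum_congr rfl (fun S _ => ?_)
    unfold ind
    by_cases h : G.Colorable (x + 1) <;> by_cases h' : G.IsIndepSet (S : Set (Fin n)) <;>
      simp [h, h']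
  rw [Finset.sum_congr rfl (fun G _ => h1 G)]
  rw [Finset.sum_comm]
  have h2 : ∀ S ∈ (Finset.univ : Finset (Fin n)).powersetCard a,
      ∑ G : SimpleGraph (Fin n),
          ind (G.IsIndepSet (S : Set (Fin n)) ∧ ¬ G.Colorable (x + 1))
        ≤ (2 : ℝ) ^ (n.choose 2) / (2 : ℝ) ^ (a.choose 2) * T (n - a) x := by
    intro S hS
    rw [← marg n a x S (Finset.mem_powersetCard.mp hS).2]
    rw [← sum_ind n (fun G => G.IsIndepSet (S : Set (Fin n)) ∧
      ¬ (G.induce ((S : Set (Fin n))ᶜ)).Colorable x)]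
    refine Finset.sum_le_sum (fun G _ => ?_)
    by_cases h : G.IsIndepSet (S : Set (Fin n)) ∧ ¬ G.Colorable (x + 1)
    · rw [ind_pos h, ind_pos ⟨h.1, not_colorable_compl G S h.1 h.2⟩]
    · rw [ind_neg h]
      unfold ind
      split_ifs <;> norm_num
  refine (Finset.sum_le_sum (fun S hS => h2 S hS)).trans (le_of_eq ?_)
  rw [Finset.sum_const, Finset.card_powersetCard, Finset.card_univ, Fintype.card_fin, mu,
    nsmul_eq_mul]
  ring

/-- **planting inequality** -/
theorem plant (n a x : ℕ) (ha : a ≤ n) :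
    T n (x + 1) ≤ T (n - a) x + Real.sqrt (W n a) / 2 := by
  classical
  have hMpos : (0 : ℝ) < (2 : ℝ) ^ (n.choose 2) := by positivity
  obtain ⟨M, hM⟩ : ∃ M : ℝ, M = (2 : ℝ) ^ (n.choose 2) := ⟨_, rfl⟩
  obtain ⟨p, hp⟩ : ∃ p : ℝ, p = T n (x + 1) := ⟨_, rfl⟩
  obtain ⟨m, hm⟩ : ∃ m : ℝ, m = mu n a := ⟨_, rfl⟩
  have hm0 : 0 < m := hm ▸ mu_pos n a ha
  have hW := W_nonneg n a
  have s1 := sum_one n
  have s2 : ∑ G : SimpleGraph (Fin n), ind (¬ G.Colorable (x + 1)) = M * p := by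
    rw [sum_ind n (fun G => ¬ G.Colorable (x + 1)), hp, T, Pr, hM, mul_div_cancel₀]
    positivity
  have s3 := sum_indX_le n a x
  have s4 := sum_X n a
  have s5 := sum_X_sq n a ha
  rw [← hM, ← hm] at s3 s4 s5
  rw [← hM] at s1 hMpos
  have hCS := Finset.sum_mul_sq_le_sq_mul_sq (Finset.univ : Finset (SimpleGraph (Fin n)))
    (fun G => ind (¬ G.Colorable (x + 1)) - p) (fun G => (X n a G : ℝ) - m)
  have e1 : ∑ G : SimpleGraph (Fin n), (ind (¬ G.Colorable (x + 1)) - p)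
        * ((X n a G : ℝ) - m)
      = ∑ G : SimpleGraph (Fin n), ind (¬ G.Colorable (x + 1)) * (X n a G : ℝ)
        - M * p * m := by
    have : ∀ G : SimpleGraph (Fin n), (ind (¬ G.Colorable (x + 1)) - p)
        * ((X n a G : ℝ) - m)
        = ind (¬ G.Colorable (x + 1)) * (X n a G : ℝ)
          - m * ind (¬ G.Colorable (x + 1)) - p * (X n a G : ℝ) + p * m * 1 := by
      intro G
      ring
    rw [Finset.sum_congr rfl (fun G _ => this G), Finset.sum_add_distrib, Finset.sum_sub_distrib,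
      Finset.sum_sub_distrib, ← Finset.mul_sum, ← Finset.mul_sum, ← Finset.mul_sum, s1, s2, s4]
    ring
  have e2 : ∑ G : SimpleGraph (Fin n), (ind (¬ G.Colorable (x + 1)) - p) ^ 2
      = M * (p - p ^ 2) := by
    have : ∀ G : SimpleGraph (Fin n), (ind (¬ G.Colorable (x + 1)) - p) ^ 2
        = (1 - 2 * p) * ind (¬ G.Colorable (x + 1)) + p ^ 2 * 1 := by
      intro G
      unfold ind
      split_ifs <;> ring
    rw [Finset.sum_congr rfl (fun G _ => this G), Finset.sum_add_distrib, ← Finset.mul_sum,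
      ← Finset.mul_sum, s1, s2]
    ring
  have e3 : ∑ G : SimpleGraph (Fin n), ((X n a G : ℝ) - m) ^ 2 ≤ M * m ^ 2 * W n a := by
    have : ∀ G : SimpleGraph (Fin n), ((X n a G : ℝ) - m) ^ 2
        = (X n a G : ℝ) ^ 2 - 2 * m * (X n a G : ℝ) + m ^ 2 * 1 := by
      intro G
      ring
    rw [Finset.sum_congr rfl (fun G _ => this G), Finset.sum_add_distrib, Finset.sum_sub_distrib,
      ← Finset.mul_sum, ← Finset.mul_sum, s1, s4]
    nlinarith
  rw [e1, e2] at hCS
  obtain ⟨Q, hQ⟩ : ∃ Q : ℝ, Q = ∑ G : SimpleGraph (Fin n),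
    ind (¬ G.Colorable (x + 1)) * (X n a G : ℝ) := ⟨_, rfl⟩
  rw [← hQ] at hCS s3
  have hb : (Q - M * p * m) ^ 2 ≤ (M * m * (Real.sqrt (W n a) / 2)) ^ 2 := by
    refine hCS.trans ?_
    have h4 : M * (p - p ^ 2) ≤ M / 4 := by nlinarith [sq_nonneg (p - 1 / 2)]
    have h5 : 0 ≤ ∑ G : SimpleGraph (Fin n), ((X n a G : ℝ) - m) ^ 2 :=
      Finset.sum_nonneg (fun _ _ => sq_nonneg _)
    have h6 : (M * m * (Real.sqrt (W n a) / 2)) ^ 2 = M / 4 * (M * m ^ 2 * W n a) := by
      have := Real.sq_sqrt hW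
      calc (M * m * (Real.sqrt (W n a) / 2)) ^ 2
          = M ^ 2 * m ^ 2 * (Real.sqrt (W n a) ^ 2) / 4 := by ring
        _ = M / 4 * (M * m ^ 2 * W n a) := by rw [this]; ring
    rw [h6]
    calc M * (p - p ^ 2) * ∑ G : SimpleGraph (Fin n), ((X n a G : ℝ) - m) ^ 2
        ≤ M / 4 * ∑ G : SimpleGraph (Fin n), ((X n a G : ℝ) - m) ^ 2 := by gcongr
      _ ≤ M / 4 * (M * m ^ 2 * W n a) := by gcongr
  have h7 := abs_le_of_sq_le_sq hb (by positivity)
  have h8 := (abs_le.mp (abs_le_of_sq_le_sq' hb (by positivity) |> fun h => abs_le.mpr h)).1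
  have h9 : M * m * p ≤ M * m * (T (n - a) x + Real.sqrt (W n a) / 2) := by nlinarith
  rw [← hp]
  exact le_of_mul_le_mul_left h9 (by positivity)

/-- `a = 1` has no error (`W n 1 = 0`) -/
theorem T_succ (n x : ℕ) : T (n + 1) (x + 1) ≤ T n x := by
  have h := plant (n + 1) 1 x (by omega)
  have hW : W (n + 1) 1 = 0 := by
    unfold W
    simp
  rw [hW] at h
  simpa using h

end ZZ51
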