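import Pool.Agent.ZZ51.Alpha

/-!
# ZZ51/Rare: few `n ≤ N` have `α₀(n)` just above an integer

PROOF. Let `n₀` be such that for `n₀ ≤ m ≤ n`: `log₂(n/m) ≤ al0 n - al0 m ≤ 2 log₂(n/m)` (`al0_diff_ge`
with `log m ≥ 2`, `al0_diff_le`) and `al0 ≥ 0` there. For an integer `j ≤ ⌊Λ⌋`, `Λ = al0 N`, let `A_j =
{n₀ ≤ n ≤ N : j ≤ al0 n < j + η}` with least element `m_j`; all its elements are `< 2^η m_j`, so
`|A_j| ≤ (2^η - 1) m_j + 1 ≤ η m_j + 1` (`2^η ≤ 1 + η` on `[0,1]`), and `m_j ≤ N` and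
`Λ - j - η ≤ al0 N - al0 m_j ≤ 2 log₂(N/m_j)` gives `m_j ≤ N 2^{-(Λ-j-η)/2}`. Sum over `j = ⌊Λ⌋ - i`:
`∑ m_j ≤ N (1 + ∑_{i≥1} 2^{-(i-η)/2}) ≤ 5 N`; the number of `j` is `≤ Λ + 1` and `Λ + 1 + n₀ ≤ η N` for large `N`.
-/

set_option autoImplicit false

open Filter Topology

namespace ZZ51

/-- one level -/
private lemma level_card (η : ℝ) (hη : 0 < η) (hη2 : η ≤ 1 / 2) {n₀ N i : ℕ} {J : ℝ} (hn0 : 8 ≤ n₀)
    (hJ : J ≤ al0 N) (A : Finset ℕ)
    (hA : ∀ n ∈ A, n₀ ≤ n ∧ n ≤ N ∧ J - i ≤ al0 n ∧ al0 n < J - i + η) :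
    (A.card : ℝ) ≤ η * N * (6 / 5 * (3 / 4) ^ i) + 1 := by
  rcases A.eq_empty_or_nonempty with rfl | hne
  · rw [Finset.card_empty]
    push_cast
    positivity
  set m := A.min' hne with hm
  obtain ⟨hm1, hm2, hm3, hm4⟩ := hA m (A.min'_mem hne)
  have hm8 : 8 ≤ m := hn0.trans hm1
  have hmpos : (0 : ℝ) < m := by
    have : 0 < m := by omega
    exact_mod_cast this
  have hlogm : 2 ≤ Real.log m := by
    have h1 : Real.log (8 : ℝ) ≤ Real.log m := Real.log_le_log (by norm_num) (by exact_mod_cast hm8)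
    have h2 : Real.log (8 : ℝ) = 3 * Real.log 2 := by
      rw [show (8 : ℝ) = 2 ^ (3 : ℕ) by norm_num, Real.log_pow]
      norm_num
    have h3 := Real.log_two_gt_d9
    linarith
  -- all elements are less than `(1 + η) m`
  have hup : ∀ n ∈ A, (n : ℝ) < (1 + η) * m := by
    intro n hn
    obtain ⟨h1, h2, h3, h4⟩ := hA n hn
    have hmn : m ≤ n := A.min'_le n hn
    have hnpos : (0 : ℝ) < n := lt_of_lt_of_le hmpos (by exact_mod_cast hmn)
    have h5 := al0_diff_ge m n (by omega) hmn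
    have h6 : 0 ≤ Real.logb 2 ((n : ℝ) / m) := by
      apply Real.logb_nonneg (by norm_num)
      rw [le_div_iff₀ hmpos, one_mul]
      exact_mod_cast hmn
    have h7 : 1 ≤ 2 - 2 / Real.log m := by
      have : 2 / Real.log m ≤ 1 := by
        rw [div_le_one (by linarith)]
        exact hlogm
      linarith
    have h8 : Real.logb 2 ((n : ℝ) / m) < η := by
      have : Real.logb 2 ((n : ℝ) / m) ≤ (2 - 2 / Real.log m) * Real.logb 2 ((n : ℝ) / m) :=
        le_mul_of_one_le_left h6 h7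
      linarith
    rw [Real.logb_lt_iff_lt_rpow (by norm_num) (by positivity)] at h8
    have h9 : (2 : ℝ) ^ η ≤ 1 + η := by
      have := rpow_one_add_le_one_add_mul_self (s := 1) (by norm_num) hη.le (by linarith)
      rw [mul_one] at this
      rwa [show (1 : ℝ) + 1 = 2 by norm_num] at this
    have h10 : (n : ℝ) / m < 1 + η := lt_of_lt_of_le h8 h9
    rwa [div_lt_iff₀ hmpos] at h10
  have hsub : A ⊆ Finset.Ico m ⌈(1 + η) * (m : ℝ)⌉₊ := by
    intro n hn
    rw [Finset.mem_Ico]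
    exact ⟨A.min'_le n hn, Nat.lt_ceil.2 (hup n hn)⟩
  have hcard : (A.card : ℝ) ≤ η * m + 1 := by
    have h1 := Finset.card_le_card hsub
    rw [Nat.card_Ico] at h1
    have h2 : m ≤ ⌈(1 + η) * (m : ℝ)⌉₊ := by
      have : (m : ℝ) ≤ ⌈(1 + η) * (m : ℝ)⌉₊ := by
        refine le_trans ?_ (Nat.le_ceil _)
        nlinarith
      exact_mod_cast this
    have h3 : (A.card : ℝ) ≤ (⌈(1 + η) * (m : ℝ)⌉₊ : ℝ) - m := by
      rw [← Nat.cast_sub h2]
      exact_mod_cast h1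
    have h4 : (⌈(1 + η) * (m : ℝ)⌉₊ : ℝ) < (1 + η) * m + 1 := Nat.ceil_lt_add_one (by positivity)
    linarith
  -- the bound for `m`
  have hmN : (m : ℝ) ≤ N * (6 / 5 * (3 / 4) ^ i) := by
    have hNpos : (0 : ℝ) < N := lt_of_lt_of_le hmpos (by exact_mod_cast hm2)
    have h5 := al0_diff_le m N (by omega) hm2
    have h6 : ((i : ℝ) - 1 / 2) / 2 < Real.logb 2 ((N : ℝ) / m) := by linarith
    rw [Real.lt_logb_iff_rpow_lt (by norm_num) (by positivity)] at h6
    have h7 : (4 / 3 : ℝ) ^ i * (5 / 6) ≤ (2 : ℝ) ^ (((i : ℝ) - 1 / 2) / 2) := by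
      have e1 : ((i : ℝ) - 1 / 2) / 2 = (1 / 2 : ℝ) * i + (-(1 / 4)) := by ring
      rw [e1, Real.rpow_add (by norm_num), Real.rpow_mul (by norm_num), Real.rpow_natCast]
      apply mul_le_mul
      · apply pow_le_pow_left₀ (by norm_num)
        rw [← Real.sqrt_eq_rpow]
        apply Real.le_sqrt_of_sq_le
        norm_num
      · have h8 : (0 : ℝ) < (2 : ℝ) ^ (-(1 / 4) : ℝ) := by positivity
        have h9 : ((2 : ℝ) ^ (-(1 / 4) : ℝ)) ^ 4 = 1 / 2 := by
          rw [← Real.rpow_natCast, ← Real.rpow_mul (by norm_num)]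
          norm_num
        by_contra hcon
        push Not at hcon
        have h10 : ((2 : ℝ) ^ (-(1 / 4) : ℝ)) ^ 4 < (5 / 6) ^ 4 :=
          pow_lt_pow_left₀ hcon h8.le (by norm_num)
        rw [h9] at h10
        norm_num at h10
      · norm_num
      · positivity
    have h8 : (4 / 3 : ℝ) ^ i * (5 / 6) < (N : ℝ) / m := lt_of_le_of_lt h7 h6
    rw [lt_div_iff₀ hmpos] at h8
    have h9 : (4 / 3 : ℝ) ^ i * (3 / 4) ^ i = 1 := by
      rw [← mul_pow]
      norm_num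
    have h10 : 0 < (3 / 4 : ℝ) ^ i := by positivity
    have h11 : (m : ℝ) = ((4 / 3 : ℝ) ^ i * (5 / 6) * m) * (6 / 5 * (3 / 4) ^ i) := by
      have : ((4 / 3 : ℝ) ^ i * (5 / 6) * m) * (6 / 5 * (3 / 4) ^ i) =
        ((4 / 3 : ℝ) ^ i * (3 / 4) ^ i) * m := by ring
      rw [this, h9, one_mul]
    rw [h11]
    exact mul_le_mul_of_nonneg_right h8.le (by positivity)
  have := mul_le_mul_of_nonneg_left hmN hη.le
  linarith

open Classical in
theorem rare (η : ℝ) (hη : 0 < η) (hη2 : η ≤ 1 / 2) : ∀ᶠ N : ℕ in atTop,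
    (((Finset.Icc 1 N).filter (fun n : ℕ => Int.fract (al0 n) < η)).card : ℝ) ≤ 10 * η * N := by
  obtain ⟨n₁, hn₁⟩ := eventually_atTop.1 (al0_tendsto.eventually_ge_atTop 0)
  set n₀ := max n₁ 8 with hn₀
  have hlog : ∀ᶠ N : ℕ in atTop, Real.log (N : ℝ) ≤ (η / 6) * N := by
    have h1 := Real.isLittleO_log_id_atTop.bound (c := η / 6) (by positivity)
    have h2 := tendsto_natCast_atTop_atTop (R := ℝ) |>.eventually h1
    filter_upwards [h2, eventually_ge_atTop 1] with N h3 h4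
    have h5 : 0 ≤ Real.log (N : ℝ) := Real.log_nonneg (by exact_mod_cast h4)
    simp only [id, Real.norm_eq_abs, abs_of_nonneg h5, Nat.abs_cast] at h3
    exact h3
  have hbig : ∀ᶠ N : ℕ in atTop, (n₀ : ℝ) + 1 ≤ η * N := by
    filter_upwards [eventually_ge_atTop ⌈((n₀ : ℝ) + 1) / η⌉₊] with N hN
    have h1 : ((n₀ : ℝ) + 1) / η ≤ N := (Nat.le_ceil _).trans (by exact_mod_cast hN)
    rw [div_le_iff₀ hη] at h1
    linarith
  filter_upwards [hlog, hbig, al0_bounds, eventually_ge_atTop n₀, eventually_ge_atTop 1] with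
    N h1 h2 h3 h4 h5
  have hΛ0 : 0 ≤ al0 N := hn₁ N (le_trans (le_max_left _ _) h4)
  set J := ⌊al0 N⌋₊ with hJ
  have hJle : (J : ℝ) ≤ al0 N := Nat.floor_le hΛ0
  have hsub : (Finset.Icc 1 N).filter (fun n : ℕ => Int.fract (al0 n) < η) ⊆
      Finset.range n₀ ∪ (Finset.range (J + 1)).biUnion (fun i =>
        (Finset.Icc n₀ N).filter (fun n : ℕ => (J : ℝ) - i ≤ al0 n ∧ al0 n < (J : ℝ) - i + η)) := by
    intro n hn
    rw [Finset.mem_filter, Finset.mem_Icc] at hn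
    obtain ⟨⟨hn1, hnN⟩, hf⟩ := hn
    rw [Finset.mem_union]
    by_cases hlt : n < n₀
    · left
      exact Finset.mem_range.2 hlt
    · right
      push Not at hlt
      have hn0 : 0 ≤ al0 n := hn₁ n (le_trans (le_max_left _ _) hlt)
      have hmono : al0 n ≤ al0 N := al0_mono n N (by
        have : 8 ≤ n := le_trans (le_max_right _ _) hlt
        omega) hnN
      have hfl : ⌊al0 n⌋₊ ≤ J := Nat.floor_le_floor hmono
      rw [Finset.mem_biUnion]
      refine ⟨J - ⌊al0 n⌋₊, Finset.mem_range.2 (by omega), ?_⟩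
      rw [Finset.mem_filter, Finset.mem_Icc]
      have e : (J : ℝ) - ((J - ⌊al0 n⌋₊ : ℕ) : ℝ) = ⌊al0 n⌋₊ := by
        rw [Nat.cast_sub hfl]; ring
      rw [e]
      have e2 : Int.fract (al0 n) = al0 n - (⌊al0 n⌋₊ : ℝ) := by
        unfold Int.fract
        rw [natCast_floor_eq_intCast_floor hn0]
      rw [e2] at hf
      exact ⟨⟨hlt, hnN⟩, Nat.floor_le hn0, by linarith⟩
  have hc1 := Finset.card_le_card hsub
  have hc2 : ((Finset.range n₀ ∪ (Finset.range (J + 1)).biUnion (fun i =>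
        (Finset.Icc n₀ N).filter (fun n : ℕ => (J : ℝ) - i ≤ al0 n ∧
          al0 n < (J : ℝ) - i + η))).card : ℝ) ≤
      n₀ + ∑ i ∈ Finset.range (J + 1), (η * N * (6 / 5 * (3 / 4) ^ i) + 1) := by
    have e1 := Finset.card_union_le (Finset.range n₀) ((Finset.range (J + 1)).biUnion (fun i =>
        (Finset.Icc n₀ N).filter (fun n : ℕ => (J : ℝ) - i ≤ al0 n ∧ al0 n < (J : ℝ) - i + η)))
    rw [Finset.card_range] at e1
    have e2 := Finset.card_biUnion_le (s := Finset.range (J + 1)) (t := fun i : ℕ =>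
        (Finset.Icc n₀ N).filter (fun n : ℕ => (J : ℝ) - i ≤ al0 n ∧ al0 n < (J : ℝ) - i + η))
    have e3 : ((∑ i ∈ Finset.range (J + 1), ((Finset.Icc n₀ N).filter (fun n : ℕ =>
        (J : ℝ) - i ≤ al0 n ∧ al0 n < (J : ℝ) - i + η)).card : ℕ) : ℝ) ≤
        ∑ i ∈ Finset.range (J + 1), (η * N * (6 / 5 * (3 / 4) ^ i) + 1) := by
      rw [Nat.cast_sum]
      refine Finset.sum_le_sum fun i _ => ?_
      refine level_card η hη hη2 (le_max_right _ _ : 8 ≤ n₀) hJle _ ?_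
      intro n hn
      rw [Finset.mem_filter, Finset.mem_Icc] at hn
      exact ⟨hn.1.1, hn.1.2, hn.2.1, hn.2.2⟩
    have e4 : ((Finset.range n₀ ∪ (Finset.range (J + 1)).biUnion (fun i =>
        (Finset.Icc n₀ N).filter (fun n : ℕ => (J : ℝ) - i ≤ al0 n ∧
          al0 n < (J : ℝ) - i + η))).card : ℝ) ≤ ((n₀ + ∑ i ∈ Finset.range (J + 1),
          ((Finset.Icc n₀ N).filter (fun n : ℕ =>
        (J : ℝ) - i ≤ al0 n ∧ al0 n < (J : ℝ) - i + η)).card : ℕ) : ℝ) := by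
      exact_mod_cast e1.trans (Nat.add_le_add_left e2 n₀)
    rw [Nat.cast_add] at e4
    linarith
  have hgeo : ∑ i ∈ Finset.range (J + 1), (η * N * (6 / 5 * (3 / 4) ^ i) + 1) ≤
      η * N * (24 / 5) + (J + 1) := by
    rw [Finset.sum_add_distrib, Finset.sum_const, Finset.card_range, nsmul_eq_mul, mul_one,
      ← Finset.mul_sum, ← Finset.mul_sum]
    have h6 : ∑ i ∈ Finset.range (J + 1), (3 / 4 : ℝ) ^ i ≤ 4 := by
      rw [geom_sum_eq (by norm_num)]
      have : 0 < (3 / 4 : ℝ) ^ (J + 1) := by positivity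
      rw [div_le_iff_of_neg (by norm_num)]
      linarith
    have h7 : 0 ≤ η * (N : ℝ) := by positivity
    have h8 : 6 / 5 * ∑ i ∈ Finset.range (J + 1), (3 / 4 : ℝ) ^ i ≤ 24 / 5 := by linarith
    have := mul_le_mul_of_nonneg_left h8 h7
    push_cast
    linarith
  have hJ3 : (J : ℝ) ≤ 3 * (η / 6 * N) := by linarith [h3.2.2.1]
  have hfin : (((Finset.Icc 1 N).filter (fun n : ℕ => Int.fract (al0 n) < η)).card : ℝ) ≤
      n₀ + (η * N * (24 / 5) + (J + 1)) := by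
    have : (((Finset.Icc 1 N).filter (fun n : ℕ => Int.fract (al0 n) < η)).card : ℝ) ≤
      ((Finset.range n₀ ∪ (Finset.range (J + 1)).biUnion (fun i =>
        (Finset.Icc n₀ N).filter (fun n : ℕ => (J : ℝ) - i ≤ al0 n ∧
          al0 n < (J : ℝ) - i + η))).card : ℝ) := by exact_mod_cast hc1
    linarith
  have h7 : 0 ≤ η * (N : ℝ) := by positivity
  linarith

end ZZ51
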