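import Pool.Agent.ZZ51.Card

/-!
# ZZ51/SecMom: first and second moment of the number of independent `a`-sets

PROOF. First moment: sum over `S ∈ powersetCard a univ`, `card_avoid` with `F` = the
`C(a,2)` pairs inside `S` (`S.offDiag.image Sym2.mk` or `S.sym2.filter (¬ IsDiag)`).
Second moment: `∑_G X² = ∑_{S,S'} #{G : S and S' independent}`, and by `card_avoid` with
`F = F_S ∪ F_{S'}`, `|F| = 2 C(a,2) - C(|S ∩ S'|, 2)` (the pairs in both are the pairs inside
`S ∩ S'`), each term is `2^{C(n,2) - 2 C(a,2) + C(l,2)}`, `l = |S ∩ S'|`.  For fixed `S` the number of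
`S'` with `|S ∩ S'| = l` is `C(a,l) C(n-a,a-l)`.  Hence
`∑_G X² = 2^{C(n,2)} μ² ∑_{l=0}^a C(a,l) C(n-a,a-l)/C(n,a) · 2^{C(l,2)}`
(`μ = C(n,a)/2^{C(a,2)}`), and `∑_l C(a,l) C(n-a,a-l)/C(n,a) = 1` (Vandermonde); the terms `l = 0, 1` have
`2^{C(l,2)} = 1`, so the sum is `≤ 1 + W n a`.
-/

set_option autoImplicit false

namespace ZZ51

open Classical in
/-- number of independent `a`-sets -/
noncomputable def X (n a : ℕ) (G : SimpleGraph (Fin n)) : ℕ :=
  (((Finset.univ : Finset (Fin n)).powersetCard a).filter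
    (fun S => G.IsIndepSet (S : Set (Fin n)))).card

open Classical in
/-- The elaborated definition of `X` counts the coercions to `Set (Fin n)` of the `a`-sets; this is the
number of the independent `a`-sets. -/
theorem X_eq (n a : ℕ) (G : SimpleGraph (Fin n)) :
    X n a G = (((Finset.univ : Finset (Fin n)).powersetCard a).filter
      (fun S : Finset (Fin n) => G.IsIndepSet (S : Set (Fin n)))).card := by
  unfold X
  symm
  refine Finset.card_bij (fun (S : Finset (Fin n)) _ => (S : Set (Fin n))) ?_ ?_ ?_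
  · intro S hS
    rw [Finset.mem_filter] at hS ⊢
    refine ⟨?_, hS.2⟩
    simp only [Finset.bind_def, Finset.mem_sup, Finset.pure_def, Finset.mem_singleton]
    exact ⟨S, hS.1, rfl⟩
  · intro S _ S' _ h
    exact Finset.coe_injective h
  · intro T hT
    rw [Finset.mem_filter] at hT
    obtain ⟨h1, h2⟩ := hT
    simp only [Finset.bind_def, Finset.mem_sup, Finset.pure_def, Finset.mem_singleton] at h1
    obtain ⟨S, hS, rfl⟩ := h1
    exact ⟨S, Finset.mem_filter.2 ⟨hS, h2⟩, rfl⟩

private noncomputable def ind (p : Prop) : ℝ := @ite ℝ p (Classical.propDecidable p) 1 0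

private theorem ind_pos {p : Prop} (h : p) : ind p = 1 := by
  unfold ind
  exact if_pos h

private theorem ind_neg {p : Prop} (h : ¬ p) : ind p = 0 := by
  unfold ind
  exact if_neg h

private theorem ind_and (p q : Prop) : ind p * ind q = ind (p ∧ q) := by
  by_cases hp : p
  · by_cases hq : q
    · rw [ind_pos hp, ind_pos hq, ind_pos ⟨hp, hq⟩, mul_one]
    · rw [ind_neg hq, ind_neg (p := p ∧ q) (fun h => hq h.2), mul_zero]
  · rw [ind_neg hp, ind_neg (p := p ∧ q) (fun h => hp h.1), zero_mul]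

private theorem X_cast (n a : ℕ) (G : SimpleGraph (Fin n)) :
    (X n a G : ℝ) = ∑ S ∈ (Finset.univ : Finset (Fin n)).powersetCard a,
      ind (G.IsIndepSet (S : Set (Fin n))) := by
  rw [X_eq, Finset.card_filter]
  push_cast
  apply Finset.sum_congr rfl
  intro S _
  by_cases h : G.IsIndepSet (S : Set (Fin n))
  · rw [ind_pos h, if_pos h]
  · rw [ind_neg h, if_neg h]

private theorem sum_ind {n : ℕ} [Fintype (SimpleGraph (Fin n))]
    (P : SimpleGraph (Fin n) → Prop) :
    ∑ G : SimpleGraph (Fin n), ind (P G) = (Nat.card {G : SimpleGraph (Fin n) // P G} : ℝ) := by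
  classical
  rw [Nat.card_eq_fintype_card, Fintype.card_subtype, Finset.card_filter]
  push_cast
  apply Finset.sum_congr rfl
  intro G _
  by_cases h : P G
  · rw [ind_pos h, if_pos h]
  · rw [ind_neg h, if_neg h]

/-- the pairs inside `S` -/
private def FS {n : ℕ} (S : Finset (Fin n)) : Finset (Sym2 (Fin n)) :=
  S.offDiag.image Sym2.mk.uncurry

private theorem mem_FS {n : ℕ} {S : Finset (Fin n)} {u v : Fin n} :
    s(u, v) ∈ FS S ↔ (u ∈ S ∧ v ∈ S) ∧ u ≠ v := by
  unfold FS
  rw [Finset.mem_image]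
  constructor
  · rintro ⟨⟨a, b⟩, hab, he⟩
    rw [Finset.mem_offDiag] at hab
    have he' : s(a, b) = s(u, v) := he
    rw [Sym2.eq_iff] at he'
    rcases he' with ⟨rfl, rfl⟩ | ⟨rfl, rfl⟩
    · exact ⟨⟨hab.1, hab.2.1⟩, hab.2.2⟩
    · exact ⟨⟨hab.2.1, hab.1⟩, hab.2.2.symm⟩
  · rintro ⟨⟨hu, hv⟩, hne⟩
    exact ⟨(u, v), Finset.mem_offDiag.2 ⟨hu, hv, hne⟩, rfl⟩

private theorem card_FS {n : ℕ} (S : Finset (Fin n)) : (FS S).card = S.card.choose 2 :=
  Sym2.card_image_offDiag S

private theorem FS_diag {n : ℕ} (S : Finset (Fin n)) : ∀ e ∈ FS S, ¬ e.IsDiag := by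
  intro e he
  induction e with
  | _ u v =>
    rw [Sym2.mk_isDiag_iff]
    exact (mem_FS.1 he).2

private theorem indep_iff {n : ℕ} (S : Finset (Fin n)) (G : SimpleGraph (Fin n)) :
    G.IsIndepSet (S : Set (Fin n)) ↔ ∀ e ∈ FS S, e ∉ G.edgeSet := by
  constructor
  · intro h e he
    induction e with
    | _ u v =>
      obtain ⟨⟨hu, hv⟩, hne⟩ := mem_FS.1 he
      rw [SimpleGraph.mem_edgeSet]
      exact h hu hv hne
  · intro h u hu v hv hne
    have := h s(u, v) (mem_FS.2 ⟨⟨hu, hv⟩, hne⟩)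
    rwa [SimpleGraph.mem_edgeSet] at this

private theorem FS_inter {n : ℕ} (S S' : Finset (Fin n)) : FS S ∩ FS S' = FS (S ∩ S') := by
  ext e
  induction e with
  | _ u v =>
    rw [Finset.mem_inter, mem_FS, mem_FS, mem_FS, Finset.mem_inter, Finset.mem_inter]
    tauto

private theorem card_indep {n : ℕ} (S : Finset (Fin n)) :
    (Nat.card {G : SimpleGraph (Fin n) // G.IsIndepSet (S : Set (Fin n))} : ℝ) =
      (2 : ℝ) ^ (n.choose 2) / (2 : ℝ) ^ (S.card.choose 2) := by
  have h := card_avoid n (FS S) (FS_diag S)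
  rw [card_FS] at h
  have h2 : Nat.card {G : SimpleGraph (Fin n) // G.IsIndepSet (S : Set (Fin n))} =
      Nat.card {G : SimpleGraph (Fin n) // ∀ e ∈ FS S, e ∉ G.edgeSet} :=
    Nat.card_congr (Equiv.subtypeEquivRight (fun G => indep_iff S G))
  rw [h2, eq_div_iff (by positivity)]
  exact_mod_cast h

private theorem card_indep2 {n : ℕ} (S S' : Finset (Fin n)) {a : ℕ} (hS : S.card = a)
    (hS' : S'.card = a) :
    (Nat.card {G : SimpleGraph (Fin n) // G.IsIndepSet (S : Set (Fin n)) ∧
      G.IsIndepSet (S' : Set (Fin n))} : ℝ) =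
      (2 : ℝ) ^ (n.choose 2) / ((2 : ℝ) ^ (a.choose 2)) ^ 2 *
        (2 : ℝ) ^ ((S ∩ S').card.choose 2) := by
  have h := card_avoid n (FS S ∪ FS S') (fun e he => by
    rcases Finset.mem_union.1 he with h | h
    · exact FS_diag S e h
    · exact FS_diag S' e h)
  have h2 : Nat.card {G : SimpleGraph (Fin n) // G.IsIndepSet (S : Set (Fin n)) ∧
      G.IsIndepSet (S' : Set (Fin n))} =
      Nat.card {G : SimpleGraph (Fin n) // ∀ e ∈ FS S ∪ FS S', e ∉ G.edgeSet} := by
    apply Nat.card_congr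
    apply Equiv.subtypeEquivRight
    intro G
    rw [indep_iff, indep_iff]
    constructor
    · rintro ⟨h1, h2⟩ e he
      rcases Finset.mem_union.1 he with h | h
      · exact h1 e h
      · exact h2 e h
    · intro h
      exact ⟨fun e he => h e (Finset.mem_union_left _ he),
        fun e he => h e (Finset.mem_union_right _ he)⟩
  have h3 : (FS S ∪ FS S').card + (S ∩ S').card.choose 2 = a.choose 2 + a.choose 2 := by
    have := Finset.card_union_add_card_inter (FS S) (FS S')
    rw [FS_inter, card_FS, card_FS, card_FS, hS, hS'] at this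
    exact this
  rw [h2]
  have h4 : (Nat.card {G : SimpleGraph (Fin n) // ∀ e ∈ FS S ∪ FS S', e ∉ G.edgeSet} : ℝ) *
      (2 : ℝ) ^ (FS S ∪ FS S').card = (2 : ℝ) ^ (n.choose 2) := by exact_mod_cast h
  rw [← h4, ← pow_mul, mul_comm (a.choose 2) 2, two_mul, ← h3, pow_add, div_mul_eq_mul_div,
    eq_div_iff (by positivity)]
  ring

open Classical in
theorem sum_X (n a : ℕ) :
    ∑ G : SimpleGraph (Fin n), (X n a G : ℝ) = (2 : ℝ) ^ (n.choose 2) * mu n a := by
  have h1 : ∀ G : SimpleGraph (Fin n), (X n a G : ℝ) =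
    ∑ S ∈ (Finset.univ : Finset (Fin n)).powersetCard a,
      ind (G.IsIndepSet (S : Set (Fin n))) := X_cast n a
  rw [Finset.sum_congr rfl (fun G _ => h1 G), Finset.sum_comm]
  have h2 : ∀ S ∈ (Finset.univ : Finset (Fin n)).powersetCard a,
      ∑ G : SimpleGraph (Fin n), ind (G.IsIndepSet (S : Set (Fin n))) =
        (2 : ℝ) ^ (n.choose 2) / (2 : ℝ) ^ (a.choose 2) := by
    intro S hS
    rw [sum_ind, card_indep, (Finset.mem_powersetCard.1 hS).2]
  rw [Finset.sum_congr rfl h2, Finset.sum_const, Finset.card_powersetCard, Finset.card_univ,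
    Fintype.card_fin, nsmul_eq_mul]
  unfold mu
  ring

/-- the number of `a`-sets which meet a given `a`-set in `l` points -/
private theorem card_meet {n a l : ℕ} (S : Finset (Fin n)) (hS : S.card = a) (hl : l ≤ a) :
    (((Finset.univ : Finset (Fin n)).powersetCard a).filter
      (fun S' => (S ∩ S').card = l)).card = a.choose l * (n - a).choose (a - l) := by
  classical
  have h1 : (S.powersetCard l ×ˢ Sᶜ.powersetCard (a - l)).card =
      a.choose l * (n - a).choose (a - l) := by
    rw [Finset.card_product, Finset.card_powersetCard, Finset.card_powersetCard,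
      Finset.card_compl, Fintype.card_fin, hS]
  rw [← h1]
  refine Finset.card_nbij' (fun S' => (S ∩ S', S' \ S)) (fun p => p.1 ∪ p.2) ?_ ?_ ?_ ?_
  · intro S' hS'
    rw [Finset.mem_coe, Finset.mem_filter, Finset.mem_powersetCard] at hS'
    rw [Finset.mem_coe, Finset.mem_product, Finset.mem_powersetCard, Finset.mem_powersetCard]
    refine ⟨⟨Finset.inter_subset_left, hS'.2⟩, ?_, ?_⟩
    · intro x hx
      rw [Finset.mem_compl]
      exact (Finset.mem_sdiff.1 hx).2
    · have h2 := Finset.card_sdiff_add_card_inter S' S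
      rw [Finset.inter_comm S' S, hS'.2, hS'.1.2] at h2
      show (S' \ S).card = a - l
      omega
  · rintro ⟨A, B⟩ hAB
    rw [Finset.mem_coe, Finset.mem_product, Finset.mem_powersetCard,
      Finset.mem_powersetCard] at hAB
    obtain ⟨⟨hA, hAc⟩, hB, hBc⟩ := hAB
    simp only at hA hAc hB hBc
    have hdis : Disjoint A B := by
      rw [Finset.disjoint_left]
      intro x hx hx'
      exact (Finset.mem_compl.1 (hB hx')) (hA hx)
    rw [Finset.mem_coe, Finset.mem_filter, Finset.mem_powersetCard]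
    refine ⟨⟨Finset.subset_univ _, ?_⟩, ?_⟩
    · show (A ∪ B).card = a
      rw [Finset.card_union_of_disjoint hdis, hAc, hBc]
      omega
    · show (S ∩ (A ∪ B)).card = l
      have : S ∩ (A ∪ B) = A := by
        ext x
        rw [Finset.mem_inter, Finset.mem_union]
        constructor
        · rintro ⟨h1, h2 | h2⟩
          · exact h2
          · exact absurd h1 (Finset.mem_compl.1 (hB h2))
        · intro h
          exact ⟨hA h, Or.inl h⟩
      rw [this, hAc]
  · intro S' _
    ext x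
    simp only [Finset.mem_union, Finset.mem_inter, Finset.mem_sdiff]
    tauto
  · rintro ⟨A, B⟩ hAB
    rw [Finset.mem_coe, Finset.mem_product, Finset.mem_powersetCard,
      Finset.mem_powersetCard] at hAB
    obtain ⟨⟨hA, _⟩, hB, _⟩ := hAB
    simp only at hA hB
    have hB' : ∀ x ∈ B, x ∉ S := fun x hx => Finset.mem_compl.1 (hB hx)
    have hA' : ∀ x ∈ A, x ∈ S := fun x hx => hA hx
    rw [Prod.mk.injEq]
    constructor
    · ext x
      simp only [Finset.mem_union, Finset.mem_inter]
      have h1 := hB' x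
      have h2 := hA' x
      tauto
    · ext x
      simp only [Finset.mem_union, Finset.mem_sdiff]
      have h1 := hB' x
      have h2 := hA' x
      tauto

private theorem sum_meet {n a : ℕ} (ha : a ≤ n) (S : Finset (Fin n)) (hS : S.card = a) :
    ∑ S' ∈ (Finset.univ : Finset (Fin n)).powersetCard a,
      (2 : ℝ) ^ ((S ∩ S').card.choose 2) ≤ (n.choose a : ℝ) * (1 + W n a) := by
  have hc : (0 : ℝ) < (n.choose a : ℝ) := by exact_mod_cast Nat.choose_pos ha
  have h1 : ∀ S' ∈ (Finset.univ : Finset (Fin n)).powersetCard a,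
      (2 : ℝ) ^ ((S ∩ S').card.choose 2) ≤
        1 + ∑ l ∈ Finset.Icc 2 a, if (S ∩ S').card = l then (2 : ℝ) ^ (l.choose 2) else 0 := by
    intro S' _
    have hnn : ∀ l ∈ Finset.Icc 2 a,
        0 ≤ (if (S ∩ S').card = l then (2 : ℝ) ^ (l.choose 2) else 0) := by
      intro l _
      split_ifs <;> positivity
    by_cases h2 : 2 ≤ (S ∩ S').card
    · have h3 : (S ∩ S').card ∈ Finset.Icc 2 a := by
        rw [Finset.mem_Icc]
        exact ⟨h2, hS ▸ Finset.card_le_card Finset.inter_subset_left⟩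
      have h4 := Finset.single_le_sum hnn h3
      rw [if_pos rfl] at h4
      linarith
    · have h3 : (S ∩ S').card.choose 2 = 0 := Nat.choose_eq_zero_of_lt (by omega)
      rw [h3, pow_zero]
      have := Finset.sum_nonneg hnn
      linarith
  refine (Finset.sum_le_sum h1).trans ?_
  rw [Finset.sum_add_distrib, Finset.sum_const, Finset.card_powersetCard, Finset.card_univ,
    Fintype.card_fin, nsmul_eq_mul, mul_one, Finset.sum_comm]
  have h2 : ∀ l ∈ Finset.Icc 2 a, ∑ S' ∈ (Finset.univ : Finset (Fin n)).powersetCard a,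
      (if (S ∩ S').card = l then (2 : ℝ) ^ (l.choose 2) else 0) =
        (a.choose l : ℝ) * ((n - a).choose (a - l) : ℝ) * (2 : ℝ) ^ (l.choose 2) := by
    intro l hl
    rw [← Finset.sum_filter, Finset.sum_const, card_meet S hS (Finset.mem_Icc.1 hl).2,
      nsmul_eq_mul, Nat.cast_mul]
  rw [Finset.sum_congr rfl h2]
  unfold W
  rw [mul_add, mul_one, Finset.mul_sum]
  apply le_of_eq
  congr 1
  apply Finset.sum_congr rfl
  intro l _
  field_simp

open Classical in
theorem sum_X_sq (n a : ℕ) (ha : a ≤ n) :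
    ∑ G : SimpleGraph (Fin n), (X n a G : ℝ) ^ 2
      ≤ (2 : ℝ) ^ (n.choose 2) * mu n a ^ 2 * (1 + W n a) := by
  have h1 : ∀ G : SimpleGraph (Fin n), (X n a G : ℝ) ^ 2 =
    ∑ S ∈ (Finset.univ : Finset (Fin n)).powersetCard a,
      ∑ S' ∈ (Finset.univ : Finset (Fin n)).powersetCard a,
      ind (G.IsIndepSet (S : Set (Fin n)) ∧ G.IsIndepSet (S' : Set (Fin n))) := by
    intro G
    rw [X_cast, sq, Finset.sum_mul_sum]
    apply Finset.sum_congr rfl
    intro S _
    apply Finset.sum_congr rfl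
    intro S' _
    exact ind_and _ _
  rw [Finset.sum_congr rfl (fun G _ => h1 G), Finset.sum_comm]
  have h2 : ∀ S ∈ (Finset.univ : Finset (Fin n)).powersetCard a,
      ∑ G : SimpleGraph (Fin n), ∑ S' ∈ (Finset.univ : Finset (Fin n)).powersetCard a,
        ind (G.IsIndepSet (S : Set (Fin n)) ∧ G.IsIndepSet (S' : Set (Fin n))) ≤
        (2 : ℝ) ^ (n.choose 2) / ((2 : ℝ) ^ (a.choose 2)) ^ 2 *
          ((n.choose a : ℝ) * (1 + W n a)) := by
    intro S hS
    have hSc := (Finset.mem_powersetCard.1 hS).2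
    rw [Finset.sum_comm]
    have h3 : ∀ S' ∈ (Finset.univ : Finset (Fin n)).powersetCard a,
        ∑ G : SimpleGraph (Fin n),
          ind (G.IsIndepSet (S : Set (Fin n)) ∧ G.IsIndepSet (S' : Set (Fin n))) =
        (2 : ℝ) ^ (n.choose 2) / ((2 : ℝ) ^ (a.choose 2)) ^ 2 *
          (2 : ℝ) ^ ((S ∩ S').card.choose 2) := by
      intro S' hS'
      rw [sum_ind (fun G => G.IsIndepSet (S : Set (Fin n)) ∧ G.IsIndepSet (S' : Set (Fin n))),
        card_indep2 S S' hSc (Finset.mem_powersetCard.1 hS').2]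
    rw [Finset.sum_congr rfl h3, ← Finset.mul_sum]
    exact mul_le_mul_of_nonneg_left (sum_meet ha S hSc) (by positivity)
  refine (Finset.sum_le_sum h2).trans ?_
  rw [Finset.sum_const, Finset.card_powersetCard, Finset.card_univ, Fintype.card_fin,
    nsmul_eq_mul]
  unfold mu
  apply le_of_eq
  field_simp

end ZZ51
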