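import Pool.Agent.ZZ51.Block
import Pool.Agent.ZZ51.Rare

/-!
# ZZ51/Sum: summing the blocks over a window `(N', N]`

PROOF. `R = RN N`, `η = ε/200` (at most 1/4), `c` from `block (ε/8)`. Let `s_k = N' + (k+1) R`, `k = 0..M`, `M` maximal with
`s_M ≤ N`.  `Psi N ≤ Psi s_M + γ R`, `Psi s_0 ≤ Psi N' + γ R` (`Psi_add_le`), `block` for each `s_k`, `k < M`.
For `n ∈ (s_k, s_{k+1}]`, by `al0_step` (κ = min η (ε/8)): `Λ - al0 s_k ≤ Λ - al0 n + κ`;
`fract (al0 s_k) ≤ fract (al0 n) + 1[fract (al0 n) < η]` (if `⌊al0 n⌋ = ⌊al0 s_k⌋` clear, else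
`fract (al0 n) < κ ≤ η`); `1[fract (al0 s_k) < η] ≤ 1[fract (al0 n) < 2η]`.  So
`R (Λ - al0 s_k + fract (al0 s_k) + 2·1[..]) ≤ ∑_{n ∈ (s_k, s_{k+1}]} (Λ - al0 n + fract (al0 n) + κ + 3·1[fract (al0 n) < 2η])`,
and `R · 1[(s_k - R, s_k] all good] ≤ #good in (s_k - R, s_k]`; these are disjoint blocks in `(N', N]`.
`∑_{n ≤ N} 3·1[fract < 2η] ≤ 60 η N` (`rare (2η)`), `R/Λ` terms: `∑_k R/Λ ≤ (N - N')/Λ`; the two trivial
blocks cost `2 γ R ≤ γ (ε/8) N/Λ²`.  All summands `Λ - al0 n + fract ≥ 0` (n ≤ N, `al0_mono`), so the sum over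
the blocks is at most the sum over `(N', N]`.  If `N - N' < 2R` everything is trivial (`Psi_add_le`).
-/

set_option autoImplicit false

open Filter Topology

namespace ZZ51

/-- the pointwise comparison of consecutive values -/
private theorem sum_pt (x y η : ℝ) (hη4 : η ≤ 1 / 4) (h0 : 0 ≤ y - x) (h1 : y - x ≤ η) :
    -x + Int.fract x + (if Int.fract x < η then 2 else 0)
      ≤ -y + Int.fract y + (if Int.fract y < 2 * η then (2 : ℝ) else 0) := by
  have hx := Int.floor_add_fract x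
  have hy := Int.floor_add_fract y
  have hx0 := Int.fract_nonneg x
  have hx1 := Int.fract_lt_one x
  have hy0 := Int.fract_nonneg y
  have hy1 := Int.fract_lt_one y
  have hle : ⌊x⌋ ≤ ⌊y⌋ := Int.floor_le_floor (by linarith)
  rcases hle.eq_or_lt with h | h
  · rw [← h] at hy
    split_ifs with h2 h3 h3
    · linarith
    · exfalso; apply h3; linarith
    · linarith
    · linarith
  · have h3 : (⌊x⌋ : ℝ) + 1 ≤ ⌊y⌋ := by exact_mod_cast h
    have h4 : Int.fract y < 2 * η := by linarith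
    have h5 : ⌊y⌋ < ⌊x⌋ + 2 := by
      have : (⌊y⌋ : ℝ) < ⌊x⌋ + 2 := by linarith
      exact_mod_cast this
    have h6 : (⌊y⌋ : ℝ) = ⌊x⌋ + 1 := by
      have : ⌊y⌋ = ⌊x⌋ + 1 := by omega
      rw [this]; push_cast; ring
    rw [if_pos h4]
    have h7 : ¬ Int.fract x < η := by
      intro h8
      linarith
    rw [if_neg h7]
    linarith

/-- `1[all of the block (s-R, s] good] · R ≤ #good` -/
private theorem sum_good (P : ℕ → Prop) [DecidablePred P] (s R : ℕ) (hR : R ≤ s)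
    [Decidable (∀ n₀ : ℕ, s < n₀ + R → n₀ ≤ s → P n₀)] :
    (R : ℝ) * (if ∀ n₀ : ℕ, s < n₀ + R → n₀ ≤ s → P n₀ then 1 else 0)
      ≤ ∑ n ∈ Finset.Ioc (s - R) s, (if P n then (1 : ℝ) else 0) := by
  split_ifs with h
  · rw [Finset.sum_congr rfl (g := fun _ => (1 : ℝ))]
    · rw [Finset.sum_const, Nat.card_Ioc, nsmul_eq_mul]
      have : s - (s - R) = R := by omega
      rw [this]
    · intro n hn
      rw [Finset.mem_Ioc] at hn
      rw [if_pos (h n (by omega) hn.2)]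
  · rw [mul_zero]
    exact Finset.sum_nonneg (fun n _ => by split_ifs <;> norm_num)

private theorem sum_log_large (C : ℝ) : ∀ᶠ N : ℕ in atTop, C ≤ Real.log N :=
  (Real.tendsto_log_atTop.comp tendsto_natCast_atTop_atTop).eventually_ge_atTop C

private theorem sum_pow_log (κ : ℝ) (hκ : 0 < κ) : ∀ᶠ N : ℕ in atTop,
    (Real.log N) ^ 6 ≤ κ * N := by
  have h1 := (Real.isLittleO_pow_log_id_atTop (n := 6)).def hκ
  have h2 := tendsto_natCast_atTop_atTop (R := ℝ) |>.eventually h1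
  filter_upwards [h2, sum_log_large 0] with N hN h0
  simp only [id, Real.norm_eq_abs] at hN
  rw [abs_of_nonneg (pow_nonneg h0 6), abs_of_nonneg (Nat.cast_nonneg N)] at hN
  exact hN

open Classical in
theorem window_sum (p q ε : ℝ) (hq : 0 < q) (hpq : q < p) (hp : p < 1) (hε : 0 < ε) :
    ∃ c : ℝ, 0 < c ∧ ∀ᶠ N : ℕ in atTop, ∀ N' : ℕ, (N : ℝ) / (Real.log N) ^ 3 ≤ N' → N' ≤ N →
      Psi (q + (p - q) / 3) ((p - q) / 3) N
        ≤ Psi (q + (p - q) / 3) ((p - q) / 3) N'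
          + (p - q) / 3 * (((N : ℝ) - N') / al0 N + 1 / (al0 N) ^ 2 *
              (∑ n ∈ Finset.Ioc N' N, (al0 N - al0 n + Int.fract (al0 n))
                + (((Finset.Ioc N' N).filter (fun n : ℕ => ¬ Bad p q c n)).card : ℝ)
                + ε * N)) := by
  obtain ⟨c, hc, hblock⟩ := block p q (ε / 8) hq hpq hp (by linarith)
  refine ⟨c, hc, ?_⟩
  obtain ⟨η, hη, hη4, hηε⟩ : ∃ η : ℝ, 0 < η ∧ η ≤ 1 / 4 ∧ η ≤ ε / 200 :=
    ⟨min (1 / 4) (ε / 200), lt_min (by norm_num) (by linarith), min_le_left _ _, min_le_right _ _⟩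
  obtain ⟨β, hβ⟩ : ∃ β, β = q + (p - q) / 3 := ⟨_, rfl⟩
  obtain ⟨γ, hγ⟩ : ∃ γ, γ = (p - q) / 3 := ⟨_, rfl⟩
  have hγ0 : 0 < γ := by rw [hγ]; linarith
  have hβ0 : 0 < β := by rw [hβ]; linarith
  filter_upwards [hblock η hη (by linarith), al0_step η hη, rare (2 * η) (by linarith) (by linarith),
    RN_pos, sum_log_large 2, al0_bounds, sum_pow_log (ε / 8 / 36) (by positivity),
    eventually_window (fun n => 3 ≤ n) (eventually_ge_atTop 3)]
    with N hb hstep hrare hR hlog hbd hpow h3 N' hN' hN'N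
  rw [← hγ] at hβ hb ⊢
  rw [← hβ] at hb ⊢
  obtain ⟨hR1, hR2, hR3⟩ := hR
  obtain ⟨hb1, hb2, hb3, hb4⟩ := hbd
  have hΛ : 0 < al0 N := by linarith
  obtain ⟨R, hRdef⟩ : ∃ R, R = RN N := ⟨_, rfl⟩
  obtain ⟨Λ, hΛdef⟩ : ∃ Λ, Λ = al0 N := ⟨_, rfl⟩
  rw [← hRdef] at hb hR1 hR2 hR3
  rw [← hΛdef] at hb hb1 hb2 hb3 hb4 hΛ ⊢
  have hNpos : (0 : ℝ) < N := by
    have : (0 : ℝ) < (Real.log N) ^ 6 := by positivity
    by_contra h
    have h' : (N : ℝ) ≤ 0 := not_lt.1 h
    have : ε / 8 / 36 * (N : ℝ) ≤ 0 := mul_nonpos_of_nonneg_of_nonpos (by positivity) h'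
    linarith
  have hR0 : (0 : ℝ) < R := by exact_mod_cast hR1
  have hR5 : (R : ℝ) ≤ (Real.log N) ^ 5 := by
    have : (Real.log N) ^ 5 = (Real.log N) ^ 4 * Real.log N := by ring
    rw [this]
    have h4 : 0 ≤ (Real.log N) ^ 4 := by positivity
    nlinarith
  -- the trivial blocks
  have htriv : 2 * (R : ℝ) ≤ 1 / Λ ^ 2 * (ε / 8 * N) := by
    have h1 : Λ ^ 2 * (2 * R) ≤ ε / 8 * N := by
      have h2 : Λ ^ 2 ≤ 9 * (Real.log N) ^ 2 := by nlinarith
      calc Λ ^ 2 * (2 * R) ≤ (9 * (Real.log N) ^ 2) * (2 * (2 * (Real.log N) ^ 4)) := by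
            apply mul_le_mul h2 (by linarith) (by positivity) (by positivity)
        _ = 36 * (Real.log N) ^ 6 := by ring
        _ ≤ 36 * (ε / 8 / 36 * N) := by linarith
        _ = _ := by ring
    rw [div_mul_eq_mul_div, one_mul, le_div_iff₀ (by positivity)]
    linarith
  have h3N' : 3 ≤ N' := h3 N' hN'
  have ha0 : ∀ n : ℕ, n ∈ Finset.Ioc N' N → 0 ≤ Λ - al0 n + Int.fract (al0 n) := by
    intro n hn
    rw [Finset.mem_Ioc] at hn
    have := al0_mono n N (by omega) hn.2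
    rw [← hΛdef] at this
    have := Int.fract_nonneg (al0 n)
    linarith
  obtain ⟨a, hadef⟩ : ∃ a : ℕ → ℝ, a = fun n => Λ - al0 n + Int.fract (al0 n) := ⟨_, rfl⟩
  obtain ⟨t, htdef⟩ : ∃ t : ℕ → ℝ, t = fun n => if Int.fract (al0 n) < 2 * η then 2 else 0 :=
    ⟨_, rfl⟩
  obtain ⟨g, hgdef⟩ : ∃ g : ℕ → ℝ, g = fun n => if ¬ Bad p q c n then 1 else 0 := ⟨_, rfl⟩
  have ht0 : ∀ n, 0 ≤ t n := by intro n; rw [htdef]; dsimp only; split_ifs <;> norm_num
  have hg0 : ∀ n, 0 ≤ g n := by intro n; rw [hgdef]; dsimp only; split_ifs <;> norm_num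
  have hcard : (((Finset.Ioc N' N).filter (fun n : ℕ => ¬ Bad p q c n)).card : ℝ)
      = ∑ n ∈ Finset.Ioc N' N, g n := by
    rw [hgdef, Finset.sum_boole]
  have hasum : ∑ n ∈ Finset.Ioc N' N, (Λ - al0 n + Int.fract (al0 n))
      = ∑ n ∈ Finset.Ioc N' N, a n := by rw [hadef]
  have ha0' : ∀ n ∈ Finset.Ioc N' N, 0 ≤ a n := by rw [hadef]; exact ha0
  rw [hcard, hasum]
  -- one block
  have hone : ∀ s : ℕ, N' + R ≤ s → s + R ≤ N →
      Psi β γ (s + R) ≤ Psi β γ s + γ * ((R : ℝ) / Λ + 1 / Λ ^ 2 *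
        (∑ n ∈ Finset.Ioc s (s + R), (a n + t n) + ∑ n ∈ Finset.Ioc (s - R) s, g n
          + R * (ε / 8))) := by
    intro s hs hsN
    have hs' : (N' : ℝ) + R ≤ s := by exact_mod_cast hs
    have h1 := hb s (by linarith) hsN
    refine h1.trans ?_
    have h2 : (R : ℝ) * (if ∀ n₀ : ℕ, s < n₀ + R → n₀ ≤ s → ¬ Bad p q c n₀ then 1 else 0)
        ≤ ∑ n ∈ Finset.Ioc (s - R) s, g n := by
      rw [hgdef]
      exact sum_good (fun n => ¬ Bad p q c n) s R (by omega)
    have h3 : (R : ℝ) * (Λ - al0 s + Int.fract (al0 s)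
        + (if Int.fract (al0 s) < η then 2 else 0))
        ≤ ∑ n ∈ Finset.Ioc s (s + R), (a n + t n) := by
      have h4 : (R : ℝ) * (Λ - al0 s + Int.fract (al0 s)
        + (if Int.fract (al0 s) < η then 2 else 0)) =
        ∑ _n ∈ Finset.Ioc s (s + R), (Λ - al0 s + Int.fract (al0 s)
        + (if Int.fract (al0 s) < η then 2 else 0)) := by
        rw [Finset.sum_const, Nat.card_Ioc, nsmul_eq_mul]
        congr 2
        omega
      rw [h4]
      apply Finset.sum_le_sum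
      intro n hn
      rw [Finset.mem_Ioc] at hn
      have hnR : (n : ℝ) ≤ s + R := by exact_mod_cast hn.2
      obtain ⟨h5, h6⟩ := hstep s n (by linarith) hn.1.le (by linarith)
      have h7 := sum_pt (al0 s) (al0 n) η hη4 h5 h6
      rw [hadef, htdef]
      dsimp only
      linarith
    have h5 : (R : ℝ) / Λ ^ 2 * (Λ - al0 s + Int.fract (al0 s)
        + (if Int.fract (al0 s) < η then 2 else 0)
        + (if ∀ n₀ : ℕ, s < n₀ + R → n₀ ≤ s → ¬ Bad p q c n₀ then 1 else 0) + ε / 8)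
        = 1 / Λ ^ 2 * ((R : ℝ) * (Λ - al0 s + Int.fract (al0 s)
        + (if Int.fract (al0 s) < η then 2 else 0))
        + (R : ℝ) * (if ∀ n₀ : ℕ, s < n₀ + R → n₀ ≤ s → ¬ Bad p q c n₀ then 1 else 0)
        + R * (ε / 8)) := by ring
    rw [h5]
    have h6 : (0 : ℝ) ≤ 1 / Λ ^ 2 := by positivity
    have h7 := mul_le_mul_of_nonneg_left (add_le_add_left (add_le_add h3 h2) ((R : ℝ) * (ε / 8))) h6
    have h8 := mul_le_mul_of_nonneg_left h7 hγ0.le
    linarith [h8]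
  -- all blocks
  have hall : ∀ k : ℕ, N' + R + k * R ≤ N →
      Psi β γ (N' + R + k * R) ≤ Psi β γ (N' + R) + γ * ((k * R : ℝ) / Λ + 1 / Λ ^ 2 *
        (∑ n ∈ Finset.Ioc (N' + R) (N' + R + k * R), (a n + t n)
          + ∑ n ∈ Finset.Ioc N' (N' + k * R), g n + k * R * (ε / 8))) := by
    intro k
    induction k with
    | zero => intro _; simp
    | succ k ih =>
      intro hk
      have hk' : N' + R + (k + 1) * R = (N' + R + k * R) + R := by ring
      have h1 := ih (by rw [hk'] at hk; omega)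
      have h2 := hone (N' + R + k * R) (by omega) (by rw [← hk']; exact hk)
      have h3 : N' + R + k * R - R = N' + k * R := by omega
      rw [h3] at h2
      have h4 : ∑ n ∈ Finset.Ioc (N' + R) (N' + R + k * R + R), (a n + t n)
          = ∑ n ∈ Finset.Ioc (N' + R) (N' + R + k * R), (a n + t n)
            + ∑ n ∈ Finset.Ioc (N' + R + k * R) (N' + R + k * R + R), (a n + t n) :=
        (Finset.sum_Ioc_consecutive _ (by omega) (by omega)).symm
      have h5 : N' + (k + 1) * R = N' + R + k * R := by ring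
      have h6 : ∑ n ∈ Finset.Ioc N' (N' + R + k * R), g n
          = ∑ n ∈ Finset.Ioc N' (N' + k * R), g n
            + ∑ n ∈ Finset.Ioc (N' + k * R) (N' + R + k * R), g n :=
        (Finset.sum_Ioc_consecutive _ (by omega) (by omega)).symm
      rw [hk', h4, h5, h6]
      refine h2.trans ?_
      refine (add_le_add_left h1 _).trans (le_of_eq ?_)
      push_cast
      ring
  have hPa := Psi_add_le β γ hβ0.le hγ0.le
  by_cases hcase : N' + R ≤ N
  · obtain ⟨M, hM⟩ : ∃ M, M = (N - (N' + R)) / R := ⟨_, rfl⟩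
    have hM1 : M * R ≤ N - (N' + R) := by rw [hM]; exact Nat.div_mul_le_self _ _
    have hM2 : N - (N' + R) < M * R + R := by
      have := Nat.lt_div_mul_add (a := N - (N' + R)) (b := R) hR1
      rw [← hM] at this
      exact this
    have hMN : N' + R + M * R ≤ N := by omega
    have h1 := hall M hMN
    have h2 := hPa (N' + R + M * R) (N - (N' + R + M * R))
    have h2' : N' + R + M * R + (N - (N' + R + M * R)) = N := by omega
    rw [h2'] at h2
    have h3 := hPa N' R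
    have h4 : ((N - (N' + R + M * R) : ℕ) : ℝ) ≤ R := by
      have : N - (N' + R + M * R) ≤ R := by omega
      exact_mod_cast this
    have h5 : (M * R : ℝ) ≤ N - N' := by
      have : N' + M * R ≤ N := by omega
      have h : (N' : ℝ) + M * R ≤ N := by exact_mod_cast this
      linarith
    have hsub : Finset.Ioc (N' + R) (N' + R + M * R) ⊆ Finset.Ioc N' N := by
      intro n hn
      rw [Finset.mem_Ioc] at *
      omega
    have h6 : ∑ n ∈ Finset.Ioc (N' + R) (N' + R + M * R), a n ≤ ∑ n ∈ Finset.Ioc N' N, a n :=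
      Finset.sum_le_sum_of_subset_of_nonneg hsub (fun n hn _ => ha0' n hn)
    have h7 : ∑ n ∈ Finset.Ioc N' (N' + M * R), g n ≤ ∑ n ∈ Finset.Ioc N' N, g n :=
      Finset.sum_le_sum_of_subset_of_nonneg (by
        intro n hn
        rw [Finset.mem_Ioc] at *
        omega) (fun n _ _ => hg0 n)
    have h8 : ∑ n ∈ Finset.Ioc (N' + R) (N' + R + M * R), t n ≤ 2 * (10 * (2 * η) * N) := by
      have h9 : ∑ n ∈ Finset.Ioc (N' + R) (N' + R + M * R), t n ≤ ∑ n ∈ Finset.Icc 1 N, t n :=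
        Finset.sum_le_sum_of_subset_of_nonneg (by
          intro n hn
          rw [Finset.mem_Ioc] at hn
          rw [Finset.mem_Icc]
          omega) (fun n _ _ => ht0 n)
      refine h9.trans ?_
      have h10 : ∑ n ∈ Finset.Icc 1 N, t n
          = 2 * (((Finset.Icc 1 N).filter (fun n : ℕ => Int.fract (al0 n) < 2 * η)).card : ℝ) := by
        rw [htdef, Finset.card_filter]
        push_cast
        rw [Finset.mul_sum]
        apply Finset.sum_congr rfl
        intro n _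
        split_ifs <;> norm_num
      rw [h10]
      linarith
    have h11 : 2 * (10 * (2 * η) * N) ≤ ε / 5 * N := by nlinarith
    have h12 : (M * R : ℝ) * (ε / 8) ≤ N * (ε / 8) := by
      apply mul_le_mul_of_nonneg_right _ (by positivity)
      have : (0 : ℝ) ≤ N' := Nat.cast_nonneg _
      linarith
    have hΛ2 : (0 : ℝ) ≤ 1 / Λ ^ 2 := by positivity
    have h13 : (M * R : ℝ) / Λ ≤ (N - N') / Λ := div_le_div_of_nonneg_right h5 hΛ.le
    rw [Finset.sum_add_distrib] at h1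
    have h14 : 1 / Λ ^ 2 * (∑ n ∈ Finset.Ioc (N' + R) (N' + R + M * R), a n
          + ∑ n ∈ Finset.Ioc (N' + R) (N' + R + M * R), t n
          + ∑ n ∈ Finset.Ioc N' (N' + M * R), g n + M * R * (ε / 8)) ≤
          1 / Λ ^ 2 * (∑ n ∈ Finset.Ioc N' N, a n + ∑ n ∈ Finset.Ioc N' N, g n
            + ε / 5 * N + ε / 8 * N) :=
      mul_le_mul_of_nonneg_left (by linarith) hΛ2
    have h15 : 1 / Λ ^ 2 * (∑ n ∈ Finset.Ioc N' N, a n + ∑ n ∈ Finset.Ioc N' N, g n
            + ε / 5 * N + ε / 8 * N) + 2 * R ≤ 1 / Λ ^ 2 * (∑ n ∈ Finset.Ioc N' N, a n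
              + ∑ n ∈ Finset.Ioc N' N, g n + ε * N) := by
      have h16 : 1 / Λ ^ 2 * (∑ n ∈ Finset.Ioc N' N, a n + ∑ n ∈ Finset.Ioc N' N, g n
            + ε / 5 * N + ε / 8 * N) + 1 / Λ ^ 2 * (ε / 8 * N)
            ≤ 1 / Λ ^ 2 * (∑ n ∈ Finset.Ioc N' N, a n
              + ∑ n ∈ Finset.Ioc N' N, g n + ε * N) := by
        rw [← mul_add]
        apply mul_le_mul_of_nonneg_left _ hΛ2
        nlinarith
      linarith
    have h17 : γ * ((N - (N' + R + M * R) : ℕ) : ℝ) ≤ γ * R := mul_le_mul_of_nonneg_left h4 hγ0.le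
    have h18 := mul_le_mul_of_nonneg_left (add_le_add h13 (add_le_add_left h14 (2 * (R : ℝ)))) hγ0.le
    have h19 := mul_le_mul_of_nonneg_left h15 hγ0.le
    linarith
  · have h1 := hPa N' (N - N')
    have h2 : N' + (N - N') = N := by omega
    rw [h2] at h1
    have h3 : ((N - N' : ℕ) : ℝ) ≤ R := by
      have : N - N' ≤ R := by omega
      exact_mod_cast this
    have h4 : γ * ((N - N' : ℕ) : ℝ) ≤ γ * (1 / Λ ^ 2 * (ε / 8 * N)) :=
      mul_le_mul_of_nonneg_left (by linarith) hγ0.le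
    have h5 : (0 : ℝ) ≤ ((N : ℝ) - N') / Λ := by
      have : (N' : ℝ) ≤ N := by exact_mod_cast hN'N
      exact div_nonneg (by linarith) hΛ.le
    have h6 : 0 ≤ ∑ n ∈ Finset.Ioc N' N, a n := Finset.sum_nonneg ha0'
    have h7 : 0 ≤ ∑ n ∈ Finset.Ioc N' N, g n := Finset.sum_nonneg (fun n _ => hg0 n)
    have h8 : 1 / Λ ^ 2 * (ε / 8 * N) ≤ ((N : ℝ) - N') / Λ + 1 / Λ ^ 2 *
        (∑ n ∈ Finset.Ioc N' N, a n + ∑ n ∈ Finset.Ioc N' N, g n + ε * N) := by
      have h9 : 1 / Λ ^ 2 * (ε / 8 * N) ≤ 1 / Λ ^ 2 *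
        (∑ n ∈ Finset.Ioc N' N, a n + ∑ n ∈ Finset.Ioc N' N, g n + ε * N) := by
        apply mul_le_mul_of_nonneg_left _ (by positivity)
        nlinarith
      linarith
    have h9 := mul_le_mul_of_nonneg_left h8 hγ0.le
    linarith

end ZZ51
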