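import Pool.Agent.ZZ51.Sum
import Pool.Agent.ZZ51.LowerChi

/-!
# ZZ51/Window: the density theorem for one pair of heights

PROOF of `window`. `B = 1 + 2/log 2`, `ε' = ε/8`, `N' = ⌈N/(log N)³⌉`, `c` from `window_sum (ε/8)`,
`β = q + (p-q)/3`, `γ = (p-q)/3`.  `T_lower ε' (β+γ)`: `T N k ≥ β + γ` so `phi = γ` for all naturals
`k ≤ N/(Λ - B + ε')`, hence `Psi N ≥ γ N/(Λ - B + ε') ≥ γ (N/Λ + N (B-ε')/Λ²)` (`1/(Λ-y) ≥ 1/Λ + y/Λ²`).
`Psi N' ≤ γ N'`.  `window_sum`, multiply by `Λ²/γ`: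
`N (B - ε') ≤ Λ² N' + ∑_{n ∈ (N',N]} (Λ - al0 n) + ∑ fract + #good + (ε/8) N`.
`Λ - al0 n ≤ 2 log₂(N/n)` (`al0_diff_le`) and `∑_{n=1}^N log (N/n) = N log N - log N! ≤ N`; `Λ² N' ≤ (ε/8) N`.
-/

set_option autoImplicit false

open Filter Topology

namespace ZZ51

/-- `∑_{M < n ≤ N} log (N/n) ≤ (N - M) - M log (N/M)`, for `1 ≤ M ≤ N` (compare with the integral) -/
theorem sum_log_le (M N : ℕ) (hM : 1 ≤ M) (h : M ≤ N) :
    ∑ n ∈ Finset.Ioc M N, Real.log ((N : ℝ) / n) ≤ ((N : ℝ) - M) - M * Real.log ((N : ℝ) / M) := by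
  induction N, h using Nat.le_induction with
  | base =>
    have hM0 : (M : ℝ) ≠ 0 := by positivity
    simp [hM0]
  | succ N hN ih =>
    have hM0 : (0 : ℝ) < M := by exact_mod_cast hM
    have hN0 : (0 : ℝ) < N := by exact_mod_cast (hM.trans hN)
    have hN1 : (0 : ℝ) < ((N + 1 : ℕ) : ℝ) := by exact_mod_cast Nat.succ_pos N
    have hlog : Real.log (((N + 1 : ℕ) : ℝ) / N) ≤ 1 / N := by
      have h1 := Real.log_le_sub_one_of_pos (div_pos hN1 hN0)
      refine h1.trans (le_of_eq ?_)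
      push_cast
      field_simp
      ring
    have hsplit : ∀ n : ℕ, 0 < n → Real.log (((N + 1 : ℕ) : ℝ) / n) =
        Real.log ((N : ℝ) / n) + Real.log (((N + 1 : ℕ) : ℝ) / N) := by
      intro n hn
      have hn0 : (0 : ℝ) < n := by exact_mod_cast hn
      rw [← Real.log_mul (div_pos hN0 hn0).ne' (div_pos hN1 hN0).ne']
      congr 1
      field_simp
    have hsum : ∑ n ∈ Finset.Ioc M (N + 1), Real.log (((N + 1 : ℕ) : ℝ) / n) =
        ∑ n ∈ Finset.Ioc M N, Real.log ((N : ℝ) / n) +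
          ((N : ℝ) - M) * Real.log (((N + 1 : ℕ) : ℝ) / N) := by
      rw [← Finset.insert_Ioc_right_eq_Ioc_add_one hN, Finset.sum_insert (by simp)]
      rw [div_self hN1.ne', Real.log_one, zero_add]
      rw [Finset.sum_congr rfl (g := fun n : ℕ => Real.log ((N : ℝ) / n) +
        Real.log (((N + 1 : ℕ) : ℝ) / N)) (fun n hn => hsplit n (by
          rw [Finset.mem_Ioc] at hn; omega))]
      rw [Finset.sum_add_distrib, Finset.sum_const, Nat.card_Ioc, nsmul_eq_mul,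
        Nat.cast_sub hN]
    rw [hsum, hsplit M (by omega)]
    have h2 : (N : ℝ) * Real.log (((N + 1 : ℕ) : ℝ) / N) ≤ 1 := by
      calc (N : ℝ) * Real.log (((N + 1 : ℕ) : ℝ) / N) ≤ N * (1 / N) :=
            mul_le_mul_of_nonneg_left hlog hN0.le
        _ = 1 := by field_simp
    push_cast at ih h2 ⊢
    nlinarith [ih, h2]

theorem phi_nonneg' {β γ : ℝ} (hγ : 0 < γ) (t : ℝ) : 0 ≤ phi β γ t := by
  unfold phi
  exact le_min (le_max_right _ _) hγ.le

theorem phi_le' {β γ : ℝ} (t : ℝ) : phi β γ t ≤ γ := min_le_right _ _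

/-- lower bound of `Psi` from the first moment -/
theorem Psi_lower (β γ ε : ℝ) (hβ : 0 < β) (hγ : 0 < γ) (hβγ : β + γ < 1) (hε : 0 < ε) :
    ∀ᶠ N : ℕ in atTop,
      γ * ((N : ℝ) / al0 N + N * (1 + 2 / Real.log 2 - ε) / (al0 N) ^ 2) ≤ Psi β γ N := by
  filter_upwards [T_lower ε (β + γ) hε hβγ, al0_tendsto.eventually_ge_atTop
    (1 + (1 + 2 / Real.log 2)), al0_tendsto.eventually_gt_atTop 0] with N hT hΛ1 hΛ0
  obtain ⟨y, hy⟩ : ∃ y, y = 1 + 2 / Real.log 2 - ε := ⟨_, rfl⟩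
  have hden : al0 N - 1 - 2 / Real.log 2 + ε = al0 N - y := by rw [hy]; ring
  have hd1 : 1 ≤ al0 N - y := by rw [hy]; linarith
  have hd0 : 0 < al0 N - y := by linarith
  rw [← hy]
  rw [hden] at hT
  obtain ⟨Y, hY⟩ : ∃ Y, Y = (N : ℝ) / (al0 N - y) := ⟨_, rfl⟩
  have hN0 : (0 : ℝ) ≤ N := Nat.cast_nonneg N
  have hY0 : 0 ≤ Y := by rw [hY]; positivity
  have hYN : Y ≤ N := by
    rw [hY]
    exact div_le_self hN0 hd1
  -- the number of the `x` with `T N x ≥ β + γ`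
  have h1 : γ * Y ≤ Psi β γ N := by
    have hsub : Finset.range (⌊Y⌋₊ + 1) ⊆ Finset.range (N + 1) := by
      apply Finset.range_subset_range.2
      have : ⌊Y⌋₊ ≤ N := by
        have h2 := Nat.floor_le_floor hYN
        rwa [Nat.floor_natCast] at h2
      omega
    have h2 : ∑ x ∈ Finset.range (⌊Y⌋₊ + 1), γ ≤ Psi β γ N := by
      unfold Psi
      refine le_trans ?_ (Finset.sum_le_sum_of_subset_of_nonneg hsub
        (fun x _ _ => phi_nonneg' hγ _))
      refine Finset.sum_le_sum fun x hx => ?_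
      have hxY : (x : ℝ) ≤ Y := by
        have h3 : x ≤ ⌊Y⌋₊ := by
          rw [Finset.mem_range] at hx
          omega
        exact (Nat.le_floor_iff hY0).1 h3
      have h4 := hT x (by rw [← hY]; exact hxY)
      unfold phi
      exact le_min (le_max_of_le_left (by linarith)) le_rfl
    refine le_trans ?_ h2
    rw [Finset.sum_const, Finset.card_range, nsmul_eq_mul, mul_comm]
    have h5 := Nat.lt_floor_add_one Y
    push_cast
    nlinarith
  refine le_trans ?_ h1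
  refine mul_le_mul_of_nonneg_left ?_ hγ.le
  rw [hY, div_add_div _ _ hΛ0.ne' (by positivity), div_le_div_iff₀ (by positivity) hd0]
  have h6 : (↑N * al0 N ^ 2 + al0 N * (↑N * y)) * (al0 N - y) =
      N * (al0 N * al0 N ^ 2) - N * al0 N * y ^ 2 := by ring
  rw [h6]
  have h7 : 0 ≤ N * al0 N * y ^ 2 := by positivity
  linarith

open Classical in
theorem window (p q ε : ℝ) (hq : 0 < q) (hpq : q < p) (hp : p < 1) (hε : 0 < ε) :
    ∃ c : ℝ, 0 < c ∧ ∀ᶠ N : ℕ in atTop,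
      ∑ n ∈ Finset.Icc 1 N, (1 - Int.fract (al0 n)) - ε * N
        ≤ (((Finset.Icc 1 N).filter (fun n : ℕ => ¬ Bad p q c n)).card : ℝ) := by
  obtain ⟨e, he⟩ : ∃ e, e = ε / 8 := ⟨_, rfl⟩
  have he0 : 0 < e := by rw [he]; positivity
  obtain ⟨c, hc, hws⟩ := window_sum p q e hq hpq hp he0
  refine ⟨c, hc, ?_⟩
  obtain ⟨β, hβ⟩ : ∃ β, β = q + (p - q) / 3 := ⟨_, rfl⟩
  obtain ⟨γ, hγ⟩ : ∃ γ, γ = (p - q) / 3 := ⟨_, rfl⟩
  have hγ0 : 0 < γ := by rw [hγ]; linarith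
  have hβ0 : 0 < β := by rw [hβ]; linarith
  have hβγ : β + γ < 1 := by rw [hβ, hγ]; linarith
  rw [← hβ, ← hγ] at hws
  have hlog : Tendsto (fun N : ℕ => Real.log N) atTop atTop :=
    Real.tendsto_log_atTop.comp tendsto_natCast_atTop_atTop
  have hsq : ∀ᶠ N : ℕ in atTop, 18 * (Real.log N) ^ 2 ≤ e / 2 * N := by
    have h1 := (Real.isLittleO_pow_log_id_atTop (n := 2)).bound (show 0 < e / 36 by positivity)
    have h2 := tendsto_natCast_atTop_atTop.eventually h1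
    filter_upwards [h2] with N hN
    rw [Real.norm_eq_abs, abs_of_nonneg (by positivity), id, Real.norm_eq_abs,
      abs_of_nonneg (Nat.cast_nonneg N)] at hN
    linarith
  filter_upwards [hws, Psi_lower β γ e hβ0 hγ0 hβγ he0, al0_bounds,
    al0_tendsto.eventually_gt_atTop 0, hlog.eventually_ge_atTop (18 / e),
    hlog.eventually_ge_atTop 1, hsq, eventually_ge_atTop 1] with
    N hN hPsi hbd hΛ0 hL1 hL2 hsqN hN1
  have hN0 : (0 : ℝ) < N := by exact_mod_cast hN1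
  have hL0 : 0 < Real.log N := by linarith
  obtain ⟨N', hN'⟩ : ∃ N' : ℕ, N' = ⌈(N : ℝ) / (Real.log N) ^ 3⌉₊ := ⟨_, rfl⟩
  have hN'1 : (N : ℝ) / (Real.log N) ^ 3 ≤ N' := by rw [hN']; exact Nat.le_ceil _
  have hN'2 : (N' : ℝ) < (N : ℝ) / (Real.log N) ^ 3 + 1 := by
    rw [hN']; exact Nat.ceil_lt_add_one (by positivity)
  have hN'N : N' ≤ N := by
    rw [hN', Nat.ceil_le]
    exact div_le_self hN0.le (one_le_pow₀ hL2)
  have hN'0 : 1 ≤ N' := by
    rw [hN']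
    exact Nat.one_le_iff_ne_zero.2 (Nat.ceil_pos.2 (by positivity)).ne'
  have h1 := hN N' hN'1 hN'N
  obtain ⟨Λ, hΛ⟩ : ∃ Λ, Λ = al0 N := ⟨_, rfl⟩
  rw [← hΛ] at h1 hPsi hbd hΛ0
  -- the trivial part
  have h2 : Psi β γ N' ≤ γ * ((N' : ℝ) + 1) := by
    unfold Psi
    refine (Finset.sum_le_card_nsmul _ _ γ fun x _ => phi_le' _).trans (le_of_eq ?_)
    rw [Finset.card_range, nsmul_eq_mul]
    push_cast
    ring
  have h3 : Λ ^ 2 * ((N' : ℝ) + 1) ≤ e * N := by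
    have h4 : Λ ^ 2 ≤ 9 * (Real.log N) ^ 2 := by
      have h5 := hbd.2.2.1
      nlinarith
    have h5 : (N' : ℝ) + 1 ≤ (N : ℝ) / (Real.log N) ^ 3 + 2 := by linarith
    have h6 : 9 * (Real.log N) ^ 2 * ((N : ℝ) / (Real.log N) ^ 3 + 2) =
        9 * N / Real.log N + 18 * (Real.log N) ^ 2 := by
      field_simp
      ring
    have h7 : 9 * N / Real.log N ≤ e / 2 * N := by
      rw [div_le_iff₀ hL0]
      have h8 : 18 ≤ Real.log N * e := by
        rwa [div_le_iff₀ he0] at hL1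
      nlinarith
    calc Λ ^ 2 * ((N' : ℝ) + 1) ≤ 9 * (Real.log N) ^ 2 * ((N : ℝ) / (Real.log N) ^ 3 + 2) :=
          mul_le_mul h4 h5 (by positivity) (by positivity)
      _ = 9 * N / Real.log N + 18 * (Real.log N) ^ 2 := h6
      _ ≤ e * N := by linarith
  -- the sum of the differences
  have h4 : ∑ n ∈ Finset.Ioc N' N, (Λ - al0 n) ≤ 2 / Real.log 2 * N := by
    have h5 : ∑ n ∈ Finset.Ioc N' N, (Λ - al0 n) ≤
        ∑ n ∈ Finset.Ioc N' N, 2 / Real.log 2 * Real.log ((N : ℝ) / n) := by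
      refine Finset.sum_le_sum fun n hn => ?_
      rw [Finset.mem_Ioc] at hn
      have h6 := al0_diff_le n N (by omega) hn.2
      rw [← hΛ] at h6
      refine h6.trans (le_of_eq ?_)
      unfold Real.logb
      ring
    rw [← Finset.mul_sum] at h5
    have h6 := sum_log_le N' N hN'0 hN'N
    have h7 : 0 ≤ Real.log ((N : ℝ) / N') := by
      apply Real.log_nonneg
      rw [one_le_div (by exact_mod_cast hN'0)]
      exact_mod_cast hN'N
    have h8 : (0 : ℝ) ≤ N' := Nat.cast_nonneg _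
    have h9 : ∑ n ∈ Finset.Ioc N' N, Real.log ((N : ℝ) / n) ≤ N := by
      have h10 : 0 ≤ (N' : ℝ) * Real.log ((N : ℝ) / N') := mul_nonneg h8 h7
      linarith
    have h10 : 0 ≤ 2 / Real.log 2 := by
      have := Real.log_pos (show (1 : ℝ) < 2 by norm_num)
      positivity
    exact h5.trans (mul_le_mul_of_nonneg_left h9 h10)
  rw [Finset.sum_add_distrib] at h1
  obtain ⟨S1, hS1⟩ : ∃ S1, S1 = ∑ n ∈ Finset.Ioc N' N, (Λ - al0 n) := ⟨_, rfl⟩
  obtain ⟨S2, hS2⟩ : ∃ S2, S2 = ∑ n ∈ Finset.Ioc N' N, Int.fract (al0 n) := ⟨_, rfl⟩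
  obtain ⟨C, hC⟩ : ∃ C : ℝ, C = (((Finset.Ioc N' N).filter (fun n : ℕ => ¬ Bad p q c n)).card : ℝ) :=
    ⟨_, rfl⟩
  rw [← hS1, ← hS2, ← hC] at h1
  rw [← hS1] at h4
  -- combine
  have h5 : N * (1 + 2 / Real.log 2 - e) ≤ Λ ^ 2 * ((N' : ℝ) + 1) + S1 + S2 + C + e * N := by
    have h6 := hPsi.trans (h1.trans (add_le_add_left h2 _))
    have h7 : γ * ((N' : ℝ) + 1) + γ * (((N : ℝ) - N') / Λ + 1 / Λ ^ 2 * (S1 + S2 + C + e * N)) =
        γ * (((N' : ℝ) + 1) + (((N : ℝ) - N') / Λ + 1 / Λ ^ 2 * (S1 + S2 + C + e * N))) := by ring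
    rw [h7] at h6
    have h8 := le_of_mul_le_mul_left h6 hγ0
    have h9 : ((N : ℝ) - N') / Λ ≤ N / Λ := by
      apply div_le_div_of_nonneg_right _ hΛ0.le
      have : (0 : ℝ) ≤ N' := Nat.cast_nonneg _
      linarith
    have h10 : N * (1 + 2 / Real.log 2 - e) / Λ ^ 2 ≤
        ((N' : ℝ) + 1) + 1 / Λ ^ 2 * (S1 + S2 + C + e * N) := by linarith
    rw [div_le_iff₀ (by positivity)] at h10
    have h11 : (((N' : ℝ) + 1) + 1 / Λ ^ 2 * (S1 + S2 + C + e * N)) * Λ ^ 2 =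
        Λ ^ 2 * ((N' : ℝ) + 1) + (S1 + S2 + C + e * N) := by
      field_simp
    rw [h11] at h10
    linarith
  have h6 : (N : ℝ) - 3 * e * N ≤ S2 + C := by
    have h7 : (N : ℝ) * (1 + 2 / Real.log 2 - e) = N + 2 / Real.log 2 * N - e * N := by ring
    rw [h7] at h5
    linarith
  have h7 : ∑ n ∈ Finset.Icc 1 N, (1 - Int.fract (al0 n)) ≤ N - S2 := by
    rw [Finset.sum_sub_distrib, Finset.sum_const, Nat.card_Icc, nsmul_eq_mul, mul_one]
    have h8 : S2 ≤ ∑ n ∈ Finset.Icc 1 N, Int.fract (al0 n) := by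
      rw [hS2]
      apply Finset.sum_le_sum_of_subset_of_nonneg
      · intro n hn
        rw [Finset.mem_Ioc] at hn
        rw [Finset.mem_Icc]
        omega
      · intro n _ _
        exact Int.fract_nonneg _
    have h9 : ((N + 1 - 1 : ℕ) : ℝ) = N := by norm_num
    rw [h9]
    linarith
  have h8 : C ≤ (((Finset.Icc 1 N).filter (fun n : ℕ => ¬ Bad p q c n)).card : ℝ) := by
    rw [hC]
    have : (Finset.Ioc N' N).filter (fun n : ℕ => ¬ Bad p q c n) ⊆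
        (Finset.Icc 1 N).filter (fun n : ℕ => ¬ Bad p q c n) := by
      apply Finset.filter_subset_filter
      intro n hn
      rw [Finset.mem_Ioc] at hn
      rw [Finset.mem_Icc]
      omega
    exact_mod_cast Finset.card_le_card this
  have h9 : 3 * e * N ≤ ε * N := by
    have : 3 * e ≤ ε := by rw [he]; linarith
    exact mul_le_mul_of_nonneg_right this hN0.le
  linarith

end ZZ51
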